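import Pool.Agent.W_MP_3283e1_h19.EulF
import Pool.Agent.W_MP_3283e1_nt.CntAll

set_option autoImplicit false

namespace W3283f

open Complex W3283e1

/-- Twisting by `k`. -/
theorem cntf_scale (c : ℤ) (k p : ℕ) [Fact p.Prime] (hp2 : p ≠ 2) (hpk : ¬ p ∣ k) :
    (npts (c * k ^ 2) 0 p : ℤ) =
      p + 1 + quadraticChar (ZMod p) (k : ZMod p) * ((npts c 0 p : ℤ) - p - 1) := by
  rw [npts_eq (c * k ^ 2) 0 p hp2, npts_eq c 0 p hp2]
  have hk : (k : ZMod p) ≠ 0 := by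
    rw [Ne, ZMod.natCast_eq_zero_iff]
    exact hpk
  have h1 := sum_scale p (c : ZMod p) (k : ZMod p) hk
  have e1 : ∀ x : ZMod p, x ^ 3 + ((c * k ^ 2 : ℤ) : ZMod p) * x + ((0 : ℤ) : ZMod p) =
      x ^ 3 + (c : ZMod p) * (k : ZMod p) ^ 2 * x := by
    intro x
    push_cast
    ring
  have e2 : ∀ x : ZMod p, x ^ 3 + (c : ZMod p) * x + ((0 : ℤ) : ZMod p) =
      x ^ 3 + (c : ZMod p) * x := by
    intro x
    push_cast
    ring
  simp only [e1, e2]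
  rw [h1]
  ring

theorem cntf_chi_two (p : ℕ) [Fact p.Prime] (hp2 : p ≠ 2) :
    (quadraticChar (ZMod p) 2 : ℤ) = ZMod.χ₈ (p : ZMod 8) := by
  have h2 : ringChar (ZMod p) ≠ 2 := by
    rw [ZMod.ringChar_zmod_n]
    exact hp2
  rw [quadraticChar_two h2, ZMod.card]

theorem cntf_chi_odd (n p : ℕ) [Fact p.Prime] (hn : Odd n) (h1 : p % 4 = 1) :
    (quadraticChar (ZMod p) (n : ZMod p) : ℤ) = jacobiSym p n := by
  rw [jacobiSym.quadratic_reciprocity_one_mod_four h1 hn, ← jacobiSym.legendreSym.to_jacobiSym]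
  unfold legendreSym
  push_cast
  rfl

theorem cntf_alpha_one (p : ℕ) (h1 : p % 4 = 1) :
    (alpha 1 p).re = ((ZMod.χ₈ (p : ZMod 8) : ℤ) : ℝ) * (alpha 0 p).re := by
  unfold alpha cz chi8
  rw [if_pos h1, if_pos h1]
  simp

theorem cntf_chi_sq (p : ℕ) [Fact p.Prime] (hp2 : p ≠ 2) :
    ((ZMod.χ₈ (p : ZMod 8) : ℤ) : ℝ) * ((ZMod.χ₈ (p : ZMod 8) : ℤ) : ℝ) = 1 := by
  have h : (quadraticChar (ZMod p) 2 : ℤ) ^ 2 = 1 := quadraticChar_sq_one (cnt_two_ne p hp2)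
  rw [cntf_chi_two p hp2] at h
  have h2 : (((ZMod.χ₈ (p : ZMod 8) : ℤ) ^ 2 : ℤ) : ℝ) = ((1 : ℤ) : ℝ) := by rw [h]
  push_cast at h2
  linarith

/-- The point counts of `y² = x³ + c k² x`, `c = ±1`, `k = n f²` or `k = 2 n f²` with `n` odd and
squarefree, for primes `p` not dividing `2k`.  `j = 0` for `c = -1` and `k = n f²`, and for `c = 1` and
`k = 2 n f²`; `j = 1` in the two other cases.  For `p ≡ 3 mod 4` both sides are `p + 1`
(`npts_p3`, `alpha j p = i√p`).  For `p ≡ 1 mod 4`: `npts_eq` and `sum_scale` (with `u = k`) give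
`npts (c k²) 0 p = p + 1 + χ(k) (npts c 0 p - p - 1)`, `χ(k) = χ(n) χ(2)^i`; `npts_alpha` for
`c = ±1`; `χ(2) = χ₈ p` (`quadraticChar_two`), `alpha 1 p = χ₈(p) alpha 0 p`; and
`χ(n) = jacobiSym n p = jacobiSym p n` (`jacobiSym.quadratic_reciprocity_one_mod_four`). -/
theorem npts_fam (n f i k : ℕ) (c : ℤ) (j : ℕ) (hn : Odd n) (hk : k = 2 ^ i * n * f ^ 2)
    (hk0 : 0 < k) (hc : (c = -1 ∧ i = 0 ∧ j = 0) ∨ (c = -1 ∧ i = 1 ∧ j = 1) ∨
      (c = 1 ∧ i = 0 ∧ j = 1) ∨ (c = 1 ∧ i = 1 ∧ j = 0))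
    (p : ℕ) (hp : p.Prime) (h2 : p ≠ 2) (hpk : ¬ p ∣ k) :
    (npts (c * k ^ 2) 0 p : ℝ) = p + 1 - 2 * (alF n j p).re := by
  have : Fact p.Prime := ⟨hp⟩
  have hodd : p % 4 = 1 ∨ p % 4 = 3 := by
    have h1 := hp.eq_two_or_odd
    omega
  rcases hodd with h1 | h3
  · have hpn : ¬ p ∣ n := fun h => hpk (by
      rw [hk]
      exact Dvd.dvd.mul_right (Dvd.dvd.mul_left h _) _)
    have hpf : ¬ p ∣ f := fun h => hpk (by
      rw [hk]
      exact Dvd.dvd.mul_left (dvd_pow h two_ne_zero) _)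
    have hf0 : (f : ZMod p) ≠ 0 := by
      rw [Ne, ZMod.natCast_eq_zero_iff]
      exact hpf
    have halF : (alF n j p).re = ((jacobiSym p n : ℤ) : ℝ) * (alpha j p).re := by
      unfold alF
      rw [if_neg (by
        rintro (h | h)
        · exact hpn h
        · exact h h1)]
      have h4 : (((jacobiSym p n : ℤ) : ℂ)) = ((((jacobiSym p n : ℤ) : ℝ)) : ℂ) := by
        push_cast
        rfl
      rw [h4, Complex.re_ofReal_mul]
    have hchik : (quadraticChar (ZMod p) (k : ZMod p) : ℤ) =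
        (ZMod.χ₈ (p : ZMod 8)) ^ i * jacobiSym p n := by
      have h5 : (k : ZMod p) = 2 ^ i * (n : ZMod p) * (f : ZMod p) ^ 2 := by
        rw [hk]
        push_cast
        ring
      rw [h5, map_mul, map_mul, map_pow, cntf_chi_two p h2, cntf_chi_odd n p hn h1,
        quadraticChar_sq_one' hf0, mul_one]
    have h6 := cntf_scale c k p h2 hpk
    rw [hchik] at h6
    have h7 : (npts (c * k ^ 2) 0 p : ℝ) =
        (p : ℝ) + 1 + ((ZMod.χ₈ (p : ZMod 8) : ℤ) : ℝ) ^ i * ((jacobiSym p n : ℤ) : ℝ) *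
          ((npts c 0 p : ℝ) - p - 1) := by
      exact_mod_cast h6
    obtain ⟨a1, -, -, a4⟩ := npts_alpha p hp h2
    have h8 := cntf_alpha_one p h1
    have h9 := cntf_chi_sq p h2
    rw [h7, halF]
    rcases hc with ⟨rfl, rfl, rfl⟩ | ⟨rfl, rfl, rfl⟩ | ⟨rfl, rfl, rfl⟩ | ⟨rfl, rfl, rfl⟩
    · rw [a1]
      ring
    · rw [a1, h8]
      ring
    · rw [a4]
      ring
    · rw [a4, h8]
      linear_combination (-2 * ((jacobiSym p n : ℤ) : ℝ) * (alpha 0 p).re) * h9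
  · have h1 : ¬ p % 4 = 1 := by omega
    have h4 : (alF n j p).re = 0 := by
      unfold alF alpha
      rw [if_pos (Or.inr h1), if_neg h1]
      simp
    rw [npts_p3 _ p hp h3, h4]
    push_cast
    ring

/-- Every positive integer is `2^i n f²` with `n` odd squarefree and `i ∈ {0,1}`
(`Nat.sq_mul_squarefree`). -/
theorem k_form (k : ℕ) (hk : 0 < k) : ∃ n f i : ℕ, Odd n ∧ Squarefree n ∧ (i = 0 ∨ i = 1) ∧
    k = 2 ^ i * n * f ^ 2 := by
  obtain ⟨a, b, h1, h2⟩ := Nat.sq_mul_squarefree k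
  rcases Nat.even_or_odd a with h3 | h3
  · obtain ⟨n, hn⟩ := h3
    have hn2 : a = 2 * n := by omega
    refine ⟨n, b, 1, ?_, ?_, Or.inr rfl, ?_⟩
    · rw [← Nat.not_even_iff_odd]
      rintro ⟨m, hm⟩
      have h4 : 2 * 2 ∣ a := ⟨m, by omega⟩
      have h5 := h2 2 h4
      rw [Nat.isUnit_iff] at h5
      omega
    · exact h2.squarefree_of_dvd ⟨2, by omega⟩
    · rw [← h1, hn2]
      ring
  · exact ⟨a, b, 0, h3, h2, Or.inl rfl, by rw [← h1]; ring⟩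

end W3283f
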