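import Pool.Agent.W_MP_3283e1_h19.DatF
import Pool.Agent.W_MP_3283e1_h19.CntF
import Pool.Agent.W_MP_3283e1_nt.Fin

set_option autoImplicit false

namespace W3283f

open Complex W3283e1

/-- The primes not dividing `16 (4 (c k²)³)` are those not dividing `2k`. -/
theorem FinG_cond (k : ℕ) (c : ℤ) (hc : c = 1 ∨ c = -1) (p : ℕ) (hp : p.Prime) :
    (p : ℤ) ∣ 16 * (4 * (c * k ^ 2) ^ 3 + 27 * (0 : ℤ) ^ 2) ↔ p = 2 ∨ p ∣ k := by
  have hd : (p : ℤ) ∣ 16 * (4 * (c * k ^ 2) ^ 3 + 27 * (0 : ℤ) ^ 2) ↔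
      (p : ℤ) ∣ ((2 ^ 6 * k ^ 6 : ℕ) : ℤ) := by
    rcases hc with rfl | rfl
    · rw [show (16 * (4 * (1 * (k : ℤ) ^ 2) ^ 3 + 27 * (0 : ℤ) ^ 2)) =
        ((2 ^ 6 * k ^ 6 : ℕ) : ℤ) by push_cast; ring]
    · rw [show (16 * (4 * (-1 * (k : ℤ) ^ 2) ^ 3 + 27 * (0 : ℤ) ^ 2)) =
        -((2 ^ 6 * k ^ 6 : ℕ) : ℤ) by push_cast; ring, dvd_neg]
  rw [hd, Int.natCast_dvd_natCast, hp.dvd_mul]
  constructor
  · rintro (h | h)
    · exact Or.inl ((Nat.prime_dvd_prime_iff_eq hp Nat.prime_two).1 (hp.dvd_of_dvd_pow h))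
    · exact Or.inr (hp.dvd_of_dvd_pow h)
  · rintro (h | h)
    · subst h
      exact Or.inl (dvd_pow_self _ (by norm_num))
    · exact Or.inr (h.trans (dvd_pow_self _ (by norm_num)))

/-- The product over the primes not dividing `16·4 c k⁶` (that is not dividing `2k`) and the sum
`AA` over all odd primes differ by a constant for `x ≥ k`: the finitely many odd primes dividing
`k` (each factor is positive, `ratio_pos`). -/
theorem prod_const (n j k : ℕ) (c : ℤ) (hk0 : 0 < k) (hc : c = 1 ∨ c = -1)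
    (hcount : ∀ p : ℕ, p.Prime → p ≠ 2 → ¬ p ∣ k →
      (npts (c * k ^ 2) 0 p : ℝ) = p + 1 - 2 * (alF n j p).re) :
    ∃ c0 : ℝ, ∀ x : ℝ, (k : ℝ) ≤ x →
      bsdProd (c * k ^ 2) 0 x = Real.exp (AA (alF n j) x - c0) := by
  classical
  have hpos : ∀ p : ℕ, p.Prime → p ≠ 2 → 0 < ((p : ℝ) + 1 - 2 * (alF n j p).re) / p :=
    fun p hp h2 => ratio_pos _ p hp (norm_alF n j p hp h2)
  set D : Finset ℕ := k.primeFactors.filter (fun p => p ≠ 2) with hD
  refine ⟨∑ p ∈ D, ell (alF n j p) p, ?_⟩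
  intro x hx
  set S : Finset ℕ := (Finset.range (⌊x⌋₊ + 1)).filter
      (fun p : ℕ => Nat.Prime p ∧ ¬ ((p : ℤ) ∣ 16 * (4 * (c * k ^ 2) ^ 3 + 27 * (0 : ℤ) ^ 2))) with hS
  have hmemS : ∀ p, p ∈ S ↔ p ≤ ⌊x⌋₊ ∧ p.Prime ∧ p ≠ 2 ∧ ¬ p ∣ k := by
    intro p
    rw [hS, Finset.mem_filter, Finset.mem_range, Nat.lt_succ_iff]
    constructor
    · rintro ⟨h1, h2, h3⟩
      rw [FinG_cond k c hc p h2, not_or] at h3
      exact ⟨h1, h2, h3.1, h3.2⟩
    · rintro ⟨h1, h2, h3, h4⟩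
      refine ⟨h1, h2, ?_⟩
      rw [FinG_cond k c hc p h2, not_or]
      exact ⟨h3, h4⟩
  have hkx : k ≤ ⌊x⌋₊ := Nat.le_floor hx
  have hmemD : ∀ p, p ∈ D ↔ p.Prime ∧ p ≠ 2 ∧ p ∣ k := by
    intro p
    rw [hD, Finset.mem_filter, Nat.mem_primeFactors]
    constructor
    · rintro ⟨⟨h1, h2, -⟩, h3⟩
      exact ⟨h1, h3, h2⟩
    · rintro ⟨h1, h2, h3⟩
      exact ⟨⟨h1, h3, hk0.ne'⟩, h2⟩
  have hdisj : Disjoint S D := by
    rw [Finset.disjoint_left]
    intro p hp hp'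
    exact ((hmemS p).1 hp).2.2.2 ((hmemD p).1 hp').2.2
  have hAA : AA (alF n j) x = ∑ p ∈ S, ell (alF n j p) p + ∑ p ∈ D, ell (alF n j p) p := by
    rw [← Finset.sum_union hdisj]
    unfold AA el
    rw [← Finset.sum_filter]
    refine Finset.sum_congr ?_ fun _ _ => rfl
    ext p
    rw [Finset.mem_filter, Finset.mem_Icc, Finset.mem_union, hmemS, hmemD]
    constructor
    · rintro ⟨⟨h1, h2⟩, h3, h4⟩
      by_cases h5 : p ∣ k
      · exact Or.inr ⟨h3, h4, h5⟩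
      · exact Or.inl ⟨h2, h3, h4, h5⟩
    · rintro (⟨h1, h2, h3, -⟩ | ⟨h1, h2, h3⟩)
      · exact ⟨⟨h2.one_lt.le, h1⟩, h2, h3⟩
      · exact ⟨⟨h1.one_lt.le, (Nat.le_of_dvd hk0 h3).trans hkx⟩, h1, h2⟩
  rw [hAA, add_sub_cancel_right, Real.exp_sum]
  unfold bsdProd
  rw [← hS]
  refine Finset.prod_congr rfl ?_
  intro p hp
  obtain ⟨h1, h2, h3, h4⟩ := (hmemS p).1 hp
  rw [hcount p h2 h3 h4, ell, Real.exp_log (hpos p h2 h3)]

/-- The final theorem for the family: no convergence with rate `O(1/log x)`.  Suppose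
`|P/(A (log x)^ρ) - 1| < K/log x` for all `x ≥ X` (then `K > 0`); for large `x` the right side is
at most `1/2` and `|log(1+δ)| ≤ 2|δ|`, so `|log P - log A - ρ log log x| ≤ 2K/log x`, that is
`|AA - c0 - log A - ρ log log x| ≤ 2K/log x`, contradicting `fam_AA` (with `2K`, and `X` replaced by a large
number). -/
theorem main_fam (k : ℕ) (hk : 0 < k) (c : ℤ) (hc : c = 1 ∨ c = -1) (A ρ : ℝ) (hA : 0 < A)
    (K X : ℝ) :
    ∃ x : ℝ, X ≤ x ∧
      K / Real.log x ≤ |bsdProd (c * k ^ 2) 0 x / (A * (Real.log x) ^ ρ) - 1| := by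
  obtain ⟨n, f, i, hn, hs, hi, hkf⟩ := k_form k hk
  obtain ⟨j, hj, hj'⟩ : ∃ j : ℕ, ((c = -1 ∧ i = 0 ∧ j = 0) ∨ (c = -1 ∧ i = 1 ∧ j = 1) ∨
      (c = 1 ∧ i = 0 ∧ j = 1) ∨ (c = 1 ∧ i = 1 ∧ j = 0)) ∧ (j = 0 ∨ j = 1) := by
    rcases hc with rfl | rfl <;> rcases hi with rfl | rfl
    · exact ⟨1, by omega, by omega⟩
    · exact ⟨0, by omega, by omega⟩
    · exact ⟨0, by omega, by omega⟩
    · exact ⟨1, by omega, by omega⟩
  obtain ⟨c0, hc0⟩ := prod_const n j k c hk hc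
    (fun p hp h2 hpk => npts_fam n f i k c j hn hkf hk hj p hp h2 hpk)
  by_contra hcon
  push Not at hcon
  -- a large threshold
  set X1 : ℝ := max (max X k) (Real.exp (max 1 (2 * K))) with hX1
  have hX1X : X ≤ X1 := (le_max_left _ _).trans (le_max_left _ _)
  have hX1k : (k : ℝ) ≤ X1 := (le_max_right _ _).trans (le_max_left _ _)
  have hX1e : Real.exp (max 1 (2 * K)) ≤ X1 := le_max_right _ _
  obtain ⟨x, hx, hxx⟩ := fam_AA n j hj' hn hs (c0 + Real.log A) ρ (2 * K) X1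
  have hx0 : 0 < x := (Real.exp_pos _).trans_le (hX1e.trans hx)
  have hlog : max 1 (2 * K) ≤ Real.log x := by
    rw [Real.le_log_iff_exp_le hx0]
    exact hX1e.trans hx
  have hlog1 : 1 ≤ Real.log x := (le_max_left _ _).trans hlog
  have hlogK : 2 * K ≤ Real.log x := (le_max_right _ _).trans hlog
  have hl0 : 0 < Real.log x := by linarith
  have h1 := hcon x (hX1X.trans hx)
  rw [hc0 x (hX1k.trans hx)] at h1
  set u : ℝ := AA (alF n j) x - (c0 + Real.log A) - ρ * Real.log (Real.log x) with hu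
  have h2 : Real.exp (AA (alF n j) x - c0) / (A * Real.log x ^ ρ) = Real.exp u := by
    rw [Real.rpow_def_of_pos hl0]
    nth_rewrite 1 [← Real.exp_log hA]
    rw [← Real.exp_add, ← Real.exp_sub, hu]
    congr 1
    ring
  rw [h2] at h1
  have h3 : K / Real.log x ≤ 1 / 2 := by
    rw [div_le_iff₀ hl0]
    linarith
  have h4 : |u| ≤ 2 * |Real.exp u - 1| := by
    have h5 : |Real.exp u - 1| ≤ 1 / 2 := h1.le.trans h3
    rcases le_total 0 u with h6 | h6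
    · have h7 := Real.add_one_le_exp u
      rw [abs_of_nonneg h6, abs_of_nonneg (by linarith)]
      linarith
    · have h7 := Real.add_one_le_exp (-u)
      have h8 : Real.exp u ≤ 1 := Real.exp_le_one_iff.2 h6
      have h9 : Real.exp u * Real.exp (-u) = 1 := by rw [← Real.exp_add]; simp
      rw [abs_of_nonpos h6, abs_of_nonpos (by linarith)]
      have h10 : 1 / 2 ≤ Real.exp u := by
        have := (abs_le.1 h5).1
        linarith
      have h11 : Real.exp (-u) ≤ 2 := by nlinarith [Real.exp_pos (-u)]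
      nlinarith [mul_nonneg (sub_nonneg.2 h11) (sub_nonneg.2 h8)]
  have h5 : |u| < 2 * K / Real.log x := by
    calc |u| ≤ 2 * |Real.exp u - 1| := h4
      _ < 2 * (K / Real.log x) := by linarith
      _ = 2 * K / Real.log x := by ring
  linarith

end W3283f
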