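import Pool.Agent.W_MP_3283e1_h19.DatR
import Pool.Agent.W_MP_3283e1_h19.FinG

set_option autoImplicit false

namespace W3283f

open Complex W3283e1 Filter Topology

/-- The Euler factor in terms of the number of points. -/
theorem finH_factor (a : ℂ) (p : ℕ) (hp : p.Prime) (ha : ‖a‖ ^ 2 = p) (N : ℕ)
    (hN : (N : ℝ) = p + 1 - 2 * a.re) (s : ℂ) :
    fL a p s =
      1 - ((p : ℂ) + 1 - (N : ℂ)) * (p : ℂ) ^ (-s) + (p : ℂ) ^ (1 - 2 * s) := by
  have hnC : (N : ℂ) = (p : ℂ) + 1 - 2 * (a.re : ℂ) := by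
    have : ((N : ℝ) : ℂ) = ((p + 1 - 2 * a.re : ℝ) : ℂ) := by rw [hN]
    push_cast at this
    exact this
  have hp0 : (p : ℂ) ≠ 0 := by exact_mod_cast hp.ne_zero
  have hpow : (p : ℂ) ^ (1 - 2 * s) = (p : ℂ) * ((p : ℂ) ^ (-s)) ^ 2 := by
    rw [show (1 - 2 * s : ℂ) = 1 + (-s + -s) by ring, Complex.cpow_add _ _ hp0,
      Complex.cpow_add _ _ hp0, Complex.cpow_one]
    ring
  have hsum : a + (starRingEnd ℂ) a = 2 * (a.re : ℂ) := by
    rw [Complex.add_conj]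
    push_cast
    ring
  have hmul : a * (starRingEnd ℂ) a = (p : ℂ) := by
    rw [Complex.mul_conj, Complex.normSq_eq_norm_sq, ha]
    push_cast
    rfl
  unfold fL
  rw [hpow, hnC]
  have e1 : (1 - a * (p : ℂ) ^ (-s)) * (1 - (starRingEnd ℂ) a * (p : ℂ) ^ (-s))
      = 1 - (a + (starRingEnd ℂ) a) * (p : ℂ) ^ (-s) +
        (a * (starRingEnd ℂ) a) * ((p : ℂ) ^ (-s)) ^ 2 := by ring
  rw [e1, hsum, hmul]
  ring

/-- The Euler factor at a real point is a square of an absolute value. -/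
theorem finH_real (a : ℂ) (p : ℕ) (σ : ℝ) :
    fL a p σ = ((‖1 - a * (p : ℂ) ^ (-(σ : ℂ))‖ ^ 2 : ℝ) : ℂ) := by
  have h1 : (p : ℂ) ^ (-(σ : ℂ)) = (((p : ℝ) ^ (-σ) : ℝ) : ℂ) := by
    rw [Complex.ofReal_cpow (Nat.cast_nonneg p)]
    push_cast
    rfl
  have h2 : (starRingEnd ℂ) (1 - a * (p : ℂ) ^ (-(σ : ℂ))) =
      1 - (starRingEnd ℂ) a * (p : ℂ) ^ (-(σ : ℂ)) := by
    rw [map_sub, map_one, map_mul, h1, Complex.conj_ofReal]
  unfold fL
  rw [← h2, Complex.mul_conj, Complex.normSq_eq_norm_sq]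

/-- The value at `1` is the quotient. -/
theorem finH_one (a : ℂ) (p : ℕ) (hp : p.Prime) (ha : ‖a‖ ^ 2 = p) :
    fL a p 1 = ((((p : ℝ) + 1 - 2 * a.re) / p : ℝ) : ℂ) := by
  have h := finH_real a p 1
  rw [Complex.ofReal_one] at h
  rw [h, ratio_eq a p hp ha]
  have h3 : a * (p : ℂ) ^ (-(1 : ℂ)) = a / p := by
    rw [Complex.cpow_neg_one]
    rfl
  rw [h3]

theorem finH_uF_one (j : ℕ) (s : ℂ) : uF 1 j s = 1 := by
  unfold uF
  rw [Nat.primeFactors_one, Finset.prod_empty]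

/-- The L-function of `y² = x³ + c k² x` with the Euler factors at the primes dividing `2k`
removed: for `k = 2^i n f²` it is `LG (aFam n j) (kF n j)` times the finite product of
`fL (alF n j p) p s` over the odd primes dividing `k` but not `n`.  Entire; the Euler product
over the primes not dividing `2k` (`euler_fam`; `fL (alF n j p) p s` equals
`1 - (p + 1 - npts) p^{-s} + p^{1-2s}`, see `W3283e1.euler_factor`, by `npts_fam`). -/
theorem Lk_exists (k : ℕ) (hk : 0 < k) (c : ℤ) (hc : c = 1 ∨ c = -1) :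
    ∃ (n j : ℕ) (L v : ℂ → ℂ), Odd n ∧ Squarefree n ∧ (j = 0 ∨ j = 1) ∧ n ≤ k ∧
      (k ≤ 2 → n = 1) ∧
      (∀ p : ℕ, p.Prime → p ≠ 2 → ¬ p ∣ k →
        (npts (c * k ^ 2) 0 p : ℝ) = p + 1 - 2 * (alF n j p).re) ∧
      Differentiable ℂ L ∧
      (∀ s : ℂ, 3 / 2 < s.re → HasProd (fun p : {p : ℕ // p.Prime ∧ ¬ p ∣ 2 * k} =>
        (1 - ((p : ℂ) + 1 - (npts (c * k ^ 2) 0 p : ℂ)) * (p : ℂ) ^ (-s)
          + (p : ℂ) ^ (1 - 2 * s))⁻¹) (L s)) ∧
      (∀ s : ℂ, 3 / 4 < s.re → L s = LLF n j s * v s ∧ AnalyticAt ℂ v s ∧ v s ≠ 0) ∧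
      (∀ σ : ℝ, 3 / 4 < σ → 0 < (v σ).re ∧ (v σ).im = 0) ∧
      (v 1).re = ∏ p ∈ k.primeFactors.erase 2, (((p : ℝ) + 1 - 2 * (alF n j p).re) / p) := by
  classical
  obtain ⟨n, f, i, hn, hs, hi, hkf⟩ := k_form k hk
  obtain ⟨j, hj, hj'⟩ : ∃ j : ℕ, ((c = -1 ∧ i = 0 ∧ j = 0) ∨ (c = -1 ∧ i = 1 ∧ j = 1) ∨
      (c = 1 ∧ i = 0 ∧ j = 1) ∨ (c = 1 ∧ i = 1 ∧ j = 0)) ∧ (j = 0 ∨ j = 1) := by
    rcases hc with rfl | rfl <;> rcases hi with rfl | rfl
    · exact ⟨1, by omega, by omega⟩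
    · exact ⟨0, by omega, by omega⟩
    · exact ⟨0, by omega, by omega⟩
    · exact ⟨1, by omega, by omega⟩
  have hcount : ∀ p : ℕ, p.Prime → p ≠ 2 → ¬ p ∣ k →
      (npts (c * k ^ 2) 0 p : ℝ) = p + 1 - 2 * (alF n j p).re :=
    fun p hp h2 hpk => npts_fam n f i k c j hn hkf hk hj p hp h2 hpk
  have hnk : n ∣ k := by
    rw [hkf]
    exact Dvd.dvd.mul_right (Dvd.intro_left _ rfl) _
  have hnle : n ≤ k := Nat.le_of_dvd hk hnk
  have hn0 : n ≠ 0 := by
    rintro rfl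
    exact absurd hn (by decide)
  have hT := thData_fam n j hj' hn hs
  set D : Finset ℕ := k.primeFactors.erase 2 with hD
  have hmemD : ∀ p, p ∈ D ↔ p.Prime ∧ p ≠ 2 ∧ p ∣ k := by
    intro p
    rw [hD, Finset.mem_erase, Nat.mem_primeFactors]
    constructor
    · rintro ⟨h1, h2, h3, -⟩
      exact ⟨h2, h1, h3⟩
    · rintro ⟨h1, h2, h3⟩
      exact ⟨h2, h1, h3, hk.ne'⟩
  have hnD : n.primeFactors ⊆ D := by
    intro p hp
    have hpp := Nat.prime_of_mem_primeFactors hp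
    have hdvd := Nat.dvd_of_mem_primeFactors hp
    rw [hmemD]
    refine ⟨hpp, ?_, hdvd.trans hnk⟩
    rintro rfl
    exact (Nat.not_even_iff_odd.2 hn) (even_iff_two_dvd.2 hdvd)
  have hfne : ∀ p ∈ D, ∀ s : ℂ, 3 / 4 < s.re → fL (alF n j p) p s ≠ 0 := by
    intro p hp s h3
    obtain ⟨h1, h2, -⟩ := (hmemD p).1 hp
    exact fL_ne _ p h1 (norm_alF n j p h1 h2) s h3
  set v : ℂ → ℂ := fun s => ∏ p ∈ D, fL (alF n j p) p s with hv
  set w : ℂ → ℂ := fun s => ∏ p ∈ D \ n.primeFactors, fL (alF n j p) p s with hw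
  have hfan : ∀ p ∈ D, ∀ s : ℂ, AnalyticAt ℂ (fL (alF n j p) p) s :=
    fun p hp s => fL_an _ p ((hmemD p).1 hp).1 s
  have hvan : ∀ s : ℂ, AnalyticAt ℂ v s := by
    intro s
    exact Finset.analyticAt_fun_prod _ fun p hp => hfan p hp s
  have hwan : ∀ s : ℂ, AnalyticAt ℂ w s := by
    intro s
    exact Finset.analyticAt_fun_prod _ fun p hp => hfan p (Finset.sdiff_subset hp) s
  have huv : ∀ s : ℂ, 3 / 4 < s.re → uF n j s * v s = w s := by
    intro s h3
    have h1 : w s * ∏ p ∈ n.primeFactors, fL (alF n j p) p s = v s :=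
      Finset.prod_sdiff hnD
    rw [← h1]
    unfold uF
    rw [Finset.prod_inv_distrib]
    have h2 : ∏ p ∈ n.primeFactors, fL (alF n j p) p s ≠ 0 := by
      rw [Finset.prod_ne_zero_iff]
      intro p hp
      exact hfne p (hnD hp) s h3
    field_simp
  have hLv : ∀ s : ℂ, 3 / 4 < s.re →
      LG (aFam n j) (kF n j) s * w s = LLF n j s * v s := by
    intro s h3
    unfold LLF
    rw [mul_assoc, huv s h3]
  refine ⟨n, j, fun s => LG (aFam n j) (kF n j) s * w s, v, hn, hs, hj', hnle, ?_, hcount,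
    ?_, ?_, ?_, ?_, ?_⟩
  · intro h2
    obtain ⟨m, hm⟩ := hn
    omega
  · intro s
    exact (LG_diff _ _ _ hT s).mul (hwan s).differentiableAt
  · intro s h3
    have h34 : 3 / 4 < s.re := by linarith
    show HasProd _ (LG (aFam n j) (kF n j) s * w s)
    rw [hLv s h34]
    have h5 : HasProd (fun p : OP => (fL (alF n j p) p s)⁻¹) (LLF n j s) := by
      have h4 := euler_full n j hn s h3
      rw [← (LG_eq _ _ _ hT s h3).2] at h4
      exact h4
    -- the finite correction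
    let T : Finset OP := D.attach.image (fun p => ⟨p.1, ((hmemD p.1).1 p.2).1,
      ((hmemD p.1).1 p.2).2.1⟩)
    have hT' : ∀ p : OP, p ∈ T ↔ (p : ℕ) ∣ k := by
      intro p
      constructor
      · intro h
        obtain ⟨q, _, hq⟩ := Finset.mem_image.1 h
        rw [← hq]
        exact ((hmemD q.1).1 q.2).2.2
      · intro h
        exact Finset.mem_image.2 ⟨⟨p.1, (hmemD p.1).2 ⟨p.2.1, p.2.2, h⟩⟩,
          Finset.mem_attach _ _, rfl⟩
    have h6 : HasProd (fun p : OP => (if (p : ℕ) ∣ k then fL (alF n j p) p s else 1)) (v s) := by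
      have h7 : HasProd (fun p : OP => (if (p : ℕ) ∣ k then fL (alF n j p) p s else 1))
          (∏ p ∈ T, (if (p : ℕ) ∣ k then fL (alF n j p) p s else 1)) := by
        refine hasProd_prod_of_ne_finset_one ?_
        intro p hp
        rw [if_neg]
        intro h
        exact hp ((hT' p).2 h)
      have h8 : (∏ p ∈ T, (if (p : ℕ) ∣ k then fL (alF n j p) p s else 1)) = v s := by
        rw [hv]
        show _ = ∏ p ∈ D, fL (alF n j p) p s
        rw [← Finset.prod_attach D]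
        rw [Finset.prod_image]
        · refine Finset.prod_congr rfl ?_
          intro q _
          rw [if_pos]
          exact ((hmemD q.1).1 q.2).2.2
        · intro a _ b _ hab
          apply Subtype.ext
          exact congrArg (fun q : OP => (q : ℕ)) hab
      rw [← h8]
      exact h7
    have h9 := h5.mul h6
    let g : {p : ℕ // p.Prime ∧ ¬ p ∣ 2 * k} → OP := fun p =>
      ⟨p.1, p.2.1, fun h => p.2.2 (by rw [h]; exact Dvd.intro _ rfl)⟩
    have hg : Function.Injective g := by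
      intro a b hab
      apply Subtype.ext
      exact congrArg (fun q : OP => (q : ℕ)) hab
    rw [← hg.hasProd_iff] at h9
    · refine h9.congr_fun ?_
      intro p
      have hp2 : (p : ℕ) ≠ 2 := fun h => p.2.2 (by rw [h]; exact Dvd.intro _ rfl)
      have hpk : ¬ (p : ℕ) ∣ k := fun h => p.2.2 (Dvd.dvd.mul_left h 2)
      show _ = (fL (alF n j (p : ℕ)) (p : ℕ) s)⁻¹ * (if (p : ℕ) ∣ k then _ else 1)
      rw [if_neg hpk, mul_one,
        finH_factor (alF n j (p : ℕ)) (p : ℕ) p.2.1 (norm_alF n j _ p.2.1 hp2) _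
          (hcount p p.2.1 hp2 hpk) s]
    · intro p hp
      have hpk : (p : ℕ) ∣ k := by
        by_contra h
        apply hp
        refine ⟨⟨p.1, p.2.1, ?_⟩, rfl⟩
        rw [p.2.1.dvd_mul]
        rintro (h' | h')
        · exact p.2.2 ((Nat.prime_dvd_prime_iff_eq p.2.1 Nat.prime_two).1 h')
        · exact h h'
      have hf := hfne p ((hmemD _).2 ⟨p.2.1, p.2.2, hpk⟩) s h34
      rw [if_pos hpk]
      exact inv_mul_cancel₀ hf
  · intro s h3
    refine ⟨hLv s h3, hvan s, ?_⟩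
    rw [hv]
    show ∏ p ∈ D, fL (alF n j p) p s ≠ 0
    rw [Finset.prod_ne_zero_iff]
    exact fun p hp => hfne p hp s h3
  · intro σ h3
    have h4 : v σ = ((∏ p ∈ D, ‖1 - alF n j p * (p : ℂ) ^ (-(σ : ℂ))‖ ^ 2 : ℝ) : ℂ) := by
      rw [hv]
      show ∏ p ∈ D, fL (alF n j p) p σ = _
      rw [Complex.ofReal_prod]
      exact Finset.prod_congr rfl fun p _ => finH_real _ p σ
    rw [h4, Complex.ofReal_re, Complex.ofReal_im]
    refine ⟨Finset.prod_pos ?_, rfl⟩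
    intro p hp
    obtain ⟨h1, h2, -⟩ := (hmemD p).1 hp
    have h5 := fac_ne (alF n j p) p h1 (norm_alF n j p h1 h2) σ (by simpa using h3)
    positivity
  · have h4 : v 1 = ((∏ p ∈ D, (((p : ℝ) + 1 - 2 * (alF n j p).re) / p) : ℝ) : ℂ) := by
      rw [hv]
      show ∏ p ∈ D, fL (alF n j p) p 1 = _
      rw [Complex.ofReal_prod]
      refine Finset.prod_congr rfl fun p hp => ?_
      obtain ⟨h1, h2, -⟩ := (hmemD p).1 hp
      exact finH_one _ p h1 (norm_alF n j p h1 h2)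
    rw [h4, Complex.ofReal_re]

/-- Sharper form of `prod_const`: the constant is the logarithm of the product over the odd primes
dividing `k`. -/
theorem prod_const' (n j k : ℕ) (c : ℤ) (hk0 : 0 < k) (hc : c = 1 ∨ c = -1)
    (hcount : ∀ p : ℕ, p.Prime → p ≠ 2 → ¬ p ∣ k →
      (npts (c * k ^ 2) 0 p : ℝ) = p + 1 - 2 * (alF n j p).re) (x : ℝ) (hx : (k : ℝ) ≤ x) :
    bsdProd (c * k ^ 2) 0 x *
      ∏ p ∈ k.primeFactors.erase 2, (((p : ℝ) + 1 - 2 * (alF n j p).re) / p) =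
        Real.exp (AA (alF n j) x) := by
  classical
  have hpos : ∀ p : ℕ, p.Prime → p ≠ 2 → 0 < ((p : ℝ) + 1 - 2 * (alF n j p).re) / p :=
    fun p hp h2 => ratio_pos _ p hp (norm_alF n j p hp h2)
  set D : Finset ℕ := k.primeFactors.erase 2 with hD
  set S : Finset ℕ := (Finset.range (⌊x⌋₊ + 1)).filter
      (fun p : ℕ => Nat.Prime p ∧ ¬ ((p : ℤ) ∣ 16 * (4 * (c * k ^ 2) ^ 3 + 27 * (0 : ℤ) ^ 2))) with hS
  have hmemS : ∀ p, p ∈ S ↔ p ≤ ⌊x⌋₊ ∧ p.Prime ∧ p ≠ 2 ∧ ¬ p ∣ k := by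
    intro p
    rw [hS, Finset.mem_filter, Finset.mem_range, Nat.lt_succ_iff]
    constructor
    · rintro ⟨h1, h2, h3⟩
      rw [FinG_cond k c hc p h2, not_or] at h3
      exact ⟨h1, h2, h3.1, h3.2⟩
    · rintro ⟨h1, h2, h3, h4⟩
      refine ⟨h1, h2, ?_⟩
      rw [FinG_cond k c hc p h2, not_or]
      exact ⟨h3, h4⟩
  have hkx : k ≤ ⌊x⌋₊ := Nat.le_floor hx
  have hmemD : ∀ p, p ∈ D ↔ p.Prime ∧ p ≠ 2 ∧ p ∣ k := by
    intro p
    rw [hD, Finset.mem_erase, Nat.mem_primeFactors]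
    constructor
    · rintro ⟨h1, h2, h3, -⟩
      exact ⟨h2, h1, h3⟩
    · rintro ⟨h1, h2, h3⟩
      exact ⟨h2, h1, h3, hk0.ne'⟩
  have hdisj : Disjoint S D := by
    rw [Finset.disjoint_left]
    intro p hp hp'
    exact ((hmemS p).1 hp).2.2.2 ((hmemD p).1 hp').2.2
  have hAA : AA (alF n j) x = ∑ p ∈ S, ell (alF n j p) p + ∑ p ∈ D, ell (alF n j p) p := by
    rw [← Finset.sum_union hdisj]
    unfold AA el
    rw [← Finset.sum_filter]
    refine Finset.sum_congr ?_ fun _ _ => rfl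
    ext p
    rw [Finset.mem_filter, Finset.mem_Icc, Finset.mem_union, hmemS, hmemD]
    constructor
    · rintro ⟨⟨h1, h2⟩, h3, h4⟩
      by_cases h5 : p ∣ k
      · exact Or.inr ⟨h3, h4, h5⟩
      · exact Or.inl ⟨h2, h3, h4, h5⟩
    · rintro (⟨h1, h2, h3, -⟩ | ⟨h1, h2, h3⟩)
      · exact ⟨⟨h2.one_lt.le, h1⟩, h2, h3⟩
      · exact ⟨⟨h1.one_lt.le, (Nat.le_of_dvd hk0 h3).trans hkx⟩, h1, h2⟩
  rw [hAA, Real.exp_add, Real.exp_sum, Real.exp_sum]
  unfold bsdProd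
  rw [← hS]
  congr 1
  · refine Finset.prod_congr rfl ?_
    intro p hp
    obtain ⟨h1, h2, h3, h4⟩ := (hmemS p).1 hp
    rw [hcount p h2 h3 h4, ell, Real.exp_log (hpos p h2 h3)]
  · refine Finset.prod_congr rfl ?_
    intro p hp
    obtain ⟨h1, h2, -⟩ := (hmemD p).1 hp
    rw [ell, Real.exp_log (hpos p h1 h2)]

/-- The condition on real zeros, in terms of `LR`. -/
theorem finH_noreal (n j k : ℕ) (hn : Odd n) (hs : Squarefree n) (hj : j = 0 ∨ j = 1)
    (hn1 : k ≤ 2 → n = 1) (L v : ℂ → ℂ)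
    (hLv : ∀ s : ℂ, 3 / 4 < s.re → L s = LLF n j s * v s ∧ AnalyticAt ℂ v s ∧ v s ≠ 0)
    (h : k ≤ 2 ∨ ∀ σ : ℝ, 1 < σ → L σ ≠ 0) (σ : ℝ) (hσ : 0 < σ) :
    LR (LLF n j) σ ≠ 0 := by
  have hR := dataR_fam n j hj hn hs
  intro h0
  have h1 : LLF n j (1 + σ) = 0 := by
    rw [LR_eq _ _ _ hR σ hσ.le, h0, Complex.ofReal_zero]
  rcases h with h | h
  · have h2 := hn1 h
    subst h2
    have h3 := LG_one_pos j hj (1 + σ) (by linarith)
    unfold LLF at h1
    rw [finH_uF_one, mul_one] at h1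
    rw [Complex.ofReal_add, Complex.ofReal_one, h1, Complex.zero_re] at h3
    exact lt_irrefl _ h3
  · have h2 := h (1 + σ) (by linarith)
    rw [Complex.ofReal_add, Complex.ofReal_one] at h2
    apply h2
    rw [(hLv (1 + σ) (by
      rw [Complex.add_re, Complex.one_re, Complex.ofReal_re]
      linarith)).1, h1, zero_mul]

/-- The real point `1 + σ` tends to `1`. -/
theorem finH_tends : Tendsto (fun σ : ℝ => (1 : ℂ) + (σ : ℂ)) (𝓝[>] 0) (𝓝[≠] 1) := by
  rw [tendsto_nhdsWithin_iff]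
  constructor
  · have h1 : Continuous (fun σ : ℝ => (1 : ℂ) + (σ : ℂ)) := by fun_prop
    have h2 := h1.tendsto 0
    rw [Complex.ofReal_zero, add_zero] at h2
    exact h2.mono_left nhdsWithin_le_nhds
  · filter_upwards [self_mem_nhdsWithin] with σ hσ
    have h3 : (0 : ℝ) < σ := hσ
    intro h
    have h4 : (σ : ℂ) = 0 := by
      have h5 : (1 : ℂ) + (σ : ℂ) = 1 := h
      simpa using h5
    exact h3.ne' (by exact_mod_cast h4)

/-- Order and leading coefficient at `1`. -/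
theorem finH_lead (n j : ℕ) (hn : Odd n) (hs : Squarefree n) (hj : j = 0 ∨ j = 1)
    (L v : ℂ → ℂ) (hL : Differentiable ℂ L)
    (hLv : ∀ s : ℂ, 3 / 4 < s.re → L s = LLF n j s * v s ∧ AnalyticAt ℂ v s ∧ v s ≠ 0)
    (hv : ∀ σ : ℝ, 3 / 4 < σ → 0 < (v σ).re ∧ (v σ).im = 0) :
    ∃ (r : ℕ) (l : ℝ), l ≠ 0 ∧
      Tendsto (fun s : ℂ => L s / (s - 1) ^ r) (𝓝[≠] 1) (𝓝 (l : ℂ)) ∧
      Tendsto (fun σ : ℝ => LR (LLF n j) σ / σ ^ r) (𝓝[>] 0) (𝓝 (l / (v 1).re)) := by
  have hR := dataR_fam n j hj hn hs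
  -- `L` is not locally zero at `1`
  have hnz : ¬ ∀ᶠ z in 𝓝 (1 : ℂ), L z = 0 := by
    intro h0
    have h1 : L = 0 := by
      have h2 : AnalyticOnNhd ℂ L Set.univ := fun z _ => hL.analyticAt z
      have h3 : AnalyticOnNhd ℂ (0 : ℂ → ℂ) Set.univ := fun z _ => analyticAt_const
      exact h2.eq_of_eventuallyEq h3 h0
    obtain ⟨q, -, -, hq⟩ := qR_exists _ _ _ hR
    have h4 := (hq 1 (by norm_num)).1
    apply h4
    have h5 := hLv 2 (by norm_num)
    have h6 : LLF n j 2 = 0 := by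
      have h7 : LLF n j 2 * v 2 = 0 := by rw [← h5.1, h1]; rfl
      exact (mul_eq_zero.1 h7).resolve_right h5.2.2
    unfold LR
    rw [Complex.ofReal_one, show (1 : ℂ) + 1 = 2 by norm_num, h6, Complex.zero_re]
  obtain ⟨r, g, hg, hg1, hgL⟩ :=
    (hL.analyticAt 1).exists_eventuallyEq_pow_smul_nonzero_iff.2 hnz
  have hlim : Tendsto (fun s : ℂ => L s / (s - 1) ^ r) (𝓝[≠] 1) (𝓝 (g 1)) := by
    have h1 : Tendsto g (𝓝[≠] 1) (𝓝 (g 1)) := hg.continuousAt.tendsto.mono_left nhdsWithin_le_nhds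
    refine h1.congr' ?_
    filter_upwards [hgL.filter_mono nhdsWithin_le_nhds, self_mem_nhdsWithin] with s h2 h3
    have h4 : s - 1 ≠ 0 := sub_ne_zero.2 h3
    rw [h2, smul_eq_mul]
    field_simp
  -- real values
  have hLLre : ∀ σ : ℝ, 0 ≤ σ → LLF n j (1 + σ) = (LR (LLF n j) σ : ℂ) :=
    fun σ h => LR_eq _ _ _ hR σ h
  have hvre : ∀ σ : ℝ, 0 ≤ σ → v (1 + σ) = (((v (1 + σ)).re : ℝ) : ℂ) := by
    intro σ h
    have h1 := (hv (1 + σ) (by linarith)).2
    rw [Complex.ofReal_add, Complex.ofReal_one] at h1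
    apply Complex.ext
    · rw [Complex.ofReal_re]
    · rw [Complex.ofReal_im, h1]
  have hlim2 := hlim.comp finH_tends
  have hg1im : (g 1).im = 0 := by
    have h1 : Tendsto (fun σ : ℝ => (L (1 + σ) / (1 + σ - 1) ^ r).im) (𝓝[>] 0) (𝓝 (g 1).im) :=
      (Complex.continuous_im.tendsto _).comp hlim2
    have h2 : Tendsto (fun σ : ℝ => (L (1 + σ) / ((1 : ℂ) + σ - 1) ^ r).im) (𝓝[>] 0) (𝓝 0) := by
      refine tendsto_const_nhds.congr' ?_
      filter_upwards [self_mem_nhdsWithin] with σ hσ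
      have h3 : (0 : ℝ) < σ := hσ
      rw [(hLv (1 + σ) (by
        rw [Complex.add_re, Complex.one_re, Complex.ofReal_re]
        linarith)).1, hLLre σ h3.le, hvre σ h3.le, add_sub_cancel_left, ← Complex.ofReal_mul,
        ← Complex.ofReal_pow, ← Complex.ofReal_div, Complex.ofReal_im]
    exact tendsto_nhds_unique h1 h2
  have hg1re : g 1 = (((g 1).re : ℝ) : ℂ) := by
    apply Complex.ext
    · rw [Complex.ofReal_re]
    · rw [Complex.ofReal_im, hg1im]
  have hv1 : v 1 ≠ 0 := (hLv 1 (by norm_num)).2.2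
  have hv1re : v 1 = (((v 1).re : ℝ) : ℂ) := by
    have h1 := hvre 0 le_rfl
    rw [Complex.ofReal_zero, add_zero] at h1
    exact h1
  refine ⟨r, (g 1).re, ?_, ?_, ?_⟩
  · intro h
    apply hg1
    rw [hg1re, h, Complex.ofReal_zero]
  · rw [← hg1re]
    exact hlim
  · have h1 : Tendsto (fun s : ℂ => v s) (𝓝[≠] 1) (𝓝 (v 1)) :=
      (hLv 1 (by norm_num)).2.1.continuousAt.tendsto.mono_left nhdsWithin_le_nhds
    have h2 := ((hlim.div h1 hv1).comp finH_tends)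
    have h3 : Tendsto (fun σ : ℝ => (L (1 + σ) / ((1 : ℂ) + σ - 1) ^ r / v (1 + σ)).re) (𝓝[>] 0)
        (𝓝 (g 1 / v 1).re) := (Complex.continuous_re.tendsto _).comp h2
    have h4 : (g 1 / v 1).re = (g 1).re / (v 1).re := by
      rw [hv1re, hg1re, ← Complex.ofReal_div, Complex.ofReal_re, Complex.ofReal_re,
        Complex.ofReal_re]
    rw [h4] at h3
    refine h3.congr' ?_
    filter_upwards [self_mem_nhdsWithin] with σ hσ
    have h5 : (0 : ℝ) < σ := hσ
    have h6 : 3 / 4 < ((1 : ℂ) + σ).re := by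
      rw [Complex.add_re, Complex.one_re, Complex.ofReal_re]
      linarith
    have h7 := (hLv (1 + σ) h6).2.2
    rw [(hLv (1 + σ) h6).1, add_sub_cancel_left]
    have h8 : LLF n j (1 + σ) * v (1 + σ) / (σ : ℂ) ^ r / v (1 + σ) =
        ((LR (LLF n j) σ / σ ^ r : ℝ) : ℂ) := by
      rw [Complex.ofReal_div, Complex.ofReal_pow, ← hLLre σ h5.le]
      field_simp
    rw [h8, Complex.ofReal_re]

/-- Unbounded oscillation for the family, with the constant of Goldfeld.  `r` is the order of `L` at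
`1` (finite: `L` is not identically zero) and `l` the leading coefficient, real
since `L` is real on the real axis.  `LLF = L/v`, so `LR (LLF)/σ^r → l/v(1)`; `fam_one` for
`η = 1`, and for `η = -1` if `L ≠ 0` on the real half line (for `k ≤ 2` by `LG_one_pos`, `uF_pos`);
`prod_const'` turns `AA` into the product: the factor `v(1)` cancels.  Exponentiate as in
`omega_PP` / `unb_PP`: `exp y ≥ 1 + y`, and `exp(-2y) ≤ 1 - y` for `0 ≤ y ≤ 1/2`. -/
theorem main_up (k : ℕ) (hk : 0 < k) (c : ℤ) (hc : c = 1 ∨ c = -1) :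
    ∃ L : ℂ → ℂ, Differentiable ℂ L ∧
      (∀ s : ℂ, 3 / 2 < s.re → HasProd (fun p : {p : ℕ // p.Prime ∧ ¬ p ∣ 2 * k} =>
        (1 - ((p : ℂ) + 1 - (npts (c * k ^ 2) 0 p : ℂ)) * (p : ℂ) ^ (-s)
          + (p : ℂ) ^ (1 - 2 * s))⁻¹) (L s)) ∧
      ∃ (r : ℕ) (l : ℝ), l ≠ 0 ∧ Tendsto (fun s : ℂ => L s / (s - 1) ^ r) (𝓝[≠] 1) (𝓝 (l : ℂ)) ∧
        ∀ K : ℝ,
          (∀ X : ℝ, ∃ x : ℝ, X ≤ x ∧
            Real.sqrt 2 * Real.exp (r * Real.eulerMascheroniConstant) / |l| *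
              (Real.log x) ^ r * (1 + K / Real.log x) ≤ bsdProd (c * k ^ 2) 0 x) ∧
          ((k ≤ 2 ∨ ∀ σ : ℝ, 1 < σ → L σ ≠ 0) → ∀ X : ℝ, ∃ x : ℝ, X ≤ x ∧
            bsdProd (c * k ^ 2) 0 x ≤
              Real.sqrt 2 * Real.exp (r * Real.eulerMascheroniConstant) / |l| *
                (Real.log x) ^ r * (1 - K / Real.log x)) := by
  obtain ⟨n, j, L, v, hn, hs, hj, hnk, hn1, hcount, hLd, hLp, hLv, hv, hv1⟩ := Lk_exists k hk c hc
  have hR := dataR_fam n j hj hn hs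
  have hT := thData_fam n j hj hn hs
  obtain ⟨r, l, hl, hlim1, hlim2⟩ := finH_lead n j hn hs hj L v hLd hLv hv
  refine ⟨L, hLd, hLp, r, l, hl, hlim1, ?_⟩
  set V : ℝ := (v 1).re with hV
  have hVpos : 0 < V := by
    have := (hv 1 (by norm_num)).1
    rwa [Complex.ofReal_one] at this
  have hl' : l / V ≠ 0 := div_ne_zero hl hVpos.ne'
  have habs : 0 < |l| := abs_pos.2 hl
  have hfam : ∀ η K X : ℝ, (η = 1 ∨ (η = -1 ∧ ∀ σ : ℝ, 0 < σ → LR (LLF n j) σ ≠ 0)) →
      ∃ x : ℝ, X ≤ x ∧ K / Real.log x <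
        η * (AA (alF n j) x - lGold (l / V) r - r * Real.log (Real.log x)) :=
    fun η K X hη => fam_one (aFam n j) (kF n j) (eF n j) hT (alF n j) (LLF n j) WW (uF n j) hR
      (fun s h => uF_good n j hn s h) (fun s _ => rfl) r (l / V) hl' hlim2 η K X hη
  set C0 : ℝ := Real.sqrt 2 * Real.exp (r * Real.eulerMascheroniConstant) / |l| with hC0
  have hC0pos : 0 < C0 := by positivity
  have hexp : Real.exp (lGold (l / V) r) = C0 * V := by
    unfold lGold
    rw [Real.exp_add, Real.exp_log (by positivity), abs_div, abs_of_pos hVpos, hC0]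
    field_simp
  have hprod : ∀ x : ℝ, (k : ℝ) ≤ x → 1 < Real.log x →
      bsdProd (c * k ^ 2) 0 x = C0 * (Real.log x) ^ r *
        Real.exp (AA (alF n j) x - lGold (l / V) r - r * Real.log (Real.log x)) := by
    intro x hx hlog
    have h1 := prod_const' n j k c hk hc hcount x hx
    rw [← hv1] at h1
    have h2 : Real.exp (r * Real.log (Real.log x)) = (Real.log x) ^ r := by
      rw [Real.exp_nat_mul, Real.exp_log (by linarith)]
    have h3 : 0 < (Real.log x) ^ r := by positivity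
    rw [Real.exp_sub, Real.exp_sub, h2, hexp, ← h1]
    field_simp
  intro K
  constructor
  · intro X
    obtain ⟨x, hx, hxx⟩ := hfam 1 K (max X (max k (Real.exp 2))) (Or.inl rfl)
    have hxX : X ≤ x := (le_max_left _ _).trans hx
    have hxk : (k : ℝ) ≤ x := (le_max_left _ _).trans ((le_max_right _ _).trans hx)
    have hxe : Real.exp 2 ≤ x := (le_max_right _ _).trans ((le_max_right _ _).trans hx)
    have hx0 : 0 < x := (Real.exp_pos _).trans_le hxe
    have hlog : 2 ≤ Real.log x := by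
      rw [Real.le_log_iff_exp_le hx0]
      exact hxe
    refine ⟨x, hxX, ?_⟩
    rw [hprod x hxk (by linarith)]
    have h1 : 0 < C0 * (Real.log x) ^ r := by positivity
    refine mul_le_mul_of_nonneg_left ?_ h1.le
    have h2 := Real.add_one_le_exp (K / Real.log x)
    rw [one_mul] at hxx
    have h3 := Real.exp_le_exp.2 hxx.le
    linarith
  · intro hcond X
    have hη : ∀ σ : ℝ, 0 < σ → LR (LLF n j) σ ≠ 0 :=
      fun σ hσ => finH_noreal n j k hn hs hj hn1 L v hLv hcond σ hσ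
    obtain ⟨x, hx, hxx⟩ := hfam (-1) (2 * (|K| + 1))
      (max X (max k (Real.exp (2 * (|K| + 1))))) (Or.inr ⟨rfl, hη⟩)
    have hxX : X ≤ x := (le_max_left _ _).trans hx
    have hxk : (k : ℝ) ≤ x := (le_max_left _ _).trans ((le_max_right _ _).trans hx)
    have hxe : Real.exp (2 * (|K| + 1)) ≤ x := (le_max_right _ _).trans ((le_max_right _ _).trans hx)
    have hx0 : 0 < x := (Real.exp_pos _).trans_le hxe
    have hlogK : 2 * (|K| + 1) ≤ Real.log x := by
      rw [Real.le_log_iff_exp_le hx0]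
      exact hxe
    have hK0 := abs_nonneg K
    have hlog : 2 ≤ Real.log x := by linarith
    have hlog0 : 0 < Real.log x := by linarith
    refine ⟨x, hxX, ?_⟩
    rw [hprod x hxk (by linarith)]
    have h1 : 0 < C0 * (Real.log x) ^ r := by positivity
    refine mul_le_mul_of_nonneg_left ?_ h1.le
    have hy0 : 0 ≤ 2 * (|K| + 1) / Real.log x := by positivity
    have hy1 : 2 * (|K| + 1) / Real.log x ≤ 1 := by
      rw [div_le_one hlog0]
      exact hlogK
    have h3 := omega_exp_neg hy0 hy1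
    have h4 : 2 * (|K| + 1) / Real.log x / 2 = (|K| + 1) / Real.log x := by ring
    have h5 : K / Real.log x ≤ (|K| + 1) / Real.log x :=
      div_le_div_of_nonneg_right (by linarith [le_abs_self K]) hlog0.le
    have h6 : AA (alF n j) x - lGold (l / V) r - r * Real.log (Real.log x) ≤
        -(2 * (|K| + 1) / Real.log x) := by linarith
    have h7 := Real.exp_le_exp.2 h6
    rw [h4] at h3
    linarith

/-- A constant is absorbed by a larger exponent. -/
theorem finH_absorb (δ δ' C : ℝ) (hδ : 0 < δ) (h : δ < δ') :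
    ∃ X : ℝ, ∀ x : ℝ, X ≤ x → x ^ δ + C ≤ x ^ δ' := by
  have h1 : ∀ᶠ x : ℝ in atTop, |C| ≤ x ^ δ := (tendsto_rpow_atTop hδ).eventually_ge_atTop _
  have h2 : ∀ᶠ x : ℝ in atTop, 2 ≤ x ^ (δ' - δ) :=
    (tendsto_rpow_atTop (by linarith : 0 < δ' - δ)).eventually_ge_atTop _
  have h3 : ∀ᶠ x : ℝ in atTop, x ^ δ + C ≤ x ^ δ' := by
    filter_upwards [h1, h2, eventually_gt_atTop 0] with x ha hb h0
    have h4 : x ^ δ' = x ^ δ * x ^ (δ' - δ) := by
      rw [← Real.rpow_add h0]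
      congr 1
      ring
    have h5 : 0 < x ^ δ := Real.rpow_pos_of_pos h0 _
    rw [h4]
    nlinarith [le_abs_self C]
  exact eventually_atTop.1 h3

/-- The one sided criterion for the family: `rh_gen`, `prod_const'` (a constant factor is absorbed
by a slightly larger exponent `δ' > δ`: for each `s` with `Re s > 1 + δ` take
`δ < δ' < Re s - 1`). -/
theorem main_rh (k : ℕ) (hk : 0 < k) (c : ℤ) (hc : c = 1 ∨ c = -1) :
    ∃ L : ℂ → ℂ, Differentiable ℂ L ∧
      (∀ s : ℂ, 3 / 2 < s.re → HasProd (fun p : {p : ℕ // p.Prime ∧ ¬ p ∣ 2 * k} =>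
        (1 - ((p : ℂ) + 1 - (npts (c * k ^ 2) 0 p : ℂ)) * (p : ℂ) ^ (-s)
          + (p : ℂ) ^ (1 - 2 * s))⁻¹) (L s)) ∧
      ∀ δ : ℝ, 0 < δ →
        ((∃ X : ℝ, ∀ x : ℝ, X ≤ x → bsdProd (c * k ^ 2) 0 x ≤ Real.exp (x ^ δ)) ∨
          ((k ≤ 2 ∨ ∀ σ : ℝ, 1 < σ → L σ ≠ 0) ∧
            ∃ X : ℝ, ∀ x : ℝ, X ≤ x → Real.exp (-(x ^ δ)) ≤ bsdProd (c * k ^ 2) 0 x)) →
        ∀ s : ℂ, 1 + δ < s.re → L s ≠ 0 := by
  obtain ⟨n, j, L, v, hn, hs, hj, hnk, hn1, hcount, hLd, hLp, hLv, hv, hv1⟩ := Lk_exists k hk c hc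
  have hR := dataR_fam n j hj hn hs
  refine ⟨L, hLd, hLp, ?_⟩
  intro δ hδ hyp s hsre
  set V : ℝ := (v 1).re with hV
  have hVpos : 0 < V := by
    have := (hv 1 (by norm_num)).1
    rwa [Complex.ofReal_one] at this
  have hAA : ∀ x : ℝ, (k : ℝ) ≤ x →
      bsdProd (c * k ^ 2) 0 x = Real.exp (AA (alF n j) x - Real.log V) := by
    intro x hx
    have h1 := prod_const' n j k c hk hc hcount x hx
    rw [← hv1] at h1
    rw [Real.exp_sub, Real.exp_log hVpos, ← h1]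
    field_simp
  obtain ⟨δ', h1, h2⟩ : ∃ δ' : ℝ, δ < δ' ∧ 1 + δ' < s.re :=
    ⟨(δ + (s.re - 1)) / 2, by linarith, by linarith⟩
  have hs34 : 3 / 4 < s.re := by linarith
  have hmain : ∃ (η X : ℝ), 1 ≤ X ∧ (η = 1 ∨ (η = -1 ∧ ∀ σ : ℝ, δ' < σ → LR (LLF n j) σ ≠ 0)) ∧
      ∀ x : ℝ, X ≤ x → η * AA (alF n j) x ≤ x ^ δ' := by
    rcases hyp with ⟨X, hX⟩ | ⟨hcond, X, hX⟩
    · obtain ⟨Y, hY⟩ := finH_absorb δ δ' (Real.log V) hδ h1
      refine ⟨1, max 1 (max X (max k Y)), le_max_left _ _, Or.inl rfl, ?_⟩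
      intro x hx
      have hx' := (le_max_right _ _).trans hx
      have hxX : X ≤ x := (le_max_left _ _).trans hx'
      have hx'' := (le_max_right _ _).trans hx'
      have hxk : (k : ℝ) ≤ x := (le_max_left _ _).trans hx''
      have hxY : Y ≤ x := (le_max_right _ _).trans hx''
      have h3 := hX x hxX
      rw [hAA x hxk, Real.exp_le_exp] at h3
      have h4 := hY x hxY
      linarith
    · obtain ⟨Y, hY⟩ := finH_absorb δ δ' (-Real.log V) hδ h1
      refine ⟨-1, max 1 (max X (max k Y)), le_max_left _ _, Or.inr ⟨rfl, ?_⟩, ?_⟩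
      · intro σ hσ
        exact finH_noreal n j k hn hs hj hn1 L v hLv hcond σ (by linarith)
      · intro x hx
        have hx' := (le_max_right _ _).trans hx
        have hxX : X ≤ x := (le_max_left _ _).trans hx'
        have hx'' := (le_max_right _ _).trans hx'
        have hxk : (k : ℝ) ≤ x := (le_max_left _ _).trans hx''
        have hxY : Y ≤ x := (le_max_right _ _).trans hx''
        have h3 := hX x hxX
        rw [hAA x hxk, Real.exp_le_exp] at h3
        have h4 := hY x hxY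
        linarith
  obtain ⟨η, X, hX, hη, hb⟩ := hmain
  have h3 := rh_gen (alF n j) (LLF n j) WW hR η δ' X (by linarith) hη hX hb s h2
  rw [(hLv s hs34).1]
  exact mul_ne_zero h3 (hLv s hs34).2.2

end W3283f
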