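import Pool.Agent.W_MP_3283e1_nt.H0

set_option autoImplicit false

namespace W3283f

open Complex W3283e1 MeasureTheory Filter Topology

theorem gamF_mellin : MellinConvergent (fun t : ℝ => Real.log t • ((Real.exp (-t) : ℝ) : ℂ)) 1 ∧
    HasDerivAt (mellin fun t : ℝ => ((Real.exp (-t) : ℝ) : ℂ))
      (mellin (fun t : ℝ => Real.log t • ((Real.exp (-t) : ℝ) : ℂ)) 1) 1 := by
  have hs : (0 : ℝ) < (1 : ℂ).re := by simp
  refine mellin_hasDerivAt_of_isBigO_rpow (E := ℂ) (a := (1 : ℂ).re + 1) (b := 0) ?_ ?_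
    (lt_add_one _) ?_ hs
  · refine (Continuous.continuousOn ?_).locallyIntegrableOn measurableSet_Ioi
    exact continuous_ofReal.comp (Real.continuous_exp.comp continuous_neg)
  · rw [← Asymptotics.isBigO_norm_left]
    simp_rw [norm_real, Asymptotics.isBigO_norm_left]
    simpa only [neg_one_mul] using (isLittleO_exp_neg_mul_rpow_atTop zero_lt_one _).isBigO
  · simp_rw [neg_zero, Real.rpow_zero]
    refine Asymptotics.isBigO_const_of_tendsto (?_ : Tendsto _ _ (𝓝 (1 : ℂ))) one_ne_zero
    rw [(by simp : (1 : ℂ) = Real.exp (-0))]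
    exact (continuous_ofReal.comp (Real.continuous_exp.comp continuous_neg)).continuousWithinAt

theorem gamF_fun (t : ℝ) : (t : ℂ) ^ ((1 : ℂ) - 1) • Real.log t • ((Real.exp (-t) : ℝ) : ℂ) =
    ((Real.exp (-t) * Real.log t : ℝ) : ℂ) := by
  rw [sub_self, cpow_zero, one_smul, Complex.real_smul]
  push_cast
  ring

theorem gamF_int : IntegrableOn (fun t : ℝ => Real.exp (-t) * Real.log t) (Set.Ioi 0) := by
  have h := gamF_mellin.1
  unfold MellinConvergent at h
  have h2 : IntegrableOn (fun t : ℝ => ((Real.exp (-t) * Real.log t : ℝ) : ℂ)) (Set.Ioi 0) :=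
    h.congr_fun (fun t _ => gamF_fun t) measurableSet_Ioi
  have h3 := Integrable.re h2
  exact h3.congr (Eventually.of_forall fun t => Complex.ofReal_re _)

theorem gamF_val : ∫ t in Set.Ioi (0 : ℝ), Real.exp (-t) * Real.log t =
    -Real.eulerMascheroniConstant := by
  have h := gamF_mellin.2
  have hG : HasDerivAt Complex.Gamma
      (mellin (fun t : ℝ => Real.log t • ((Real.exp (-t) : ℝ) : ℂ)) 1) 1 := by
    refine h.congr_of_eventuallyEq ?_
    have h0 : {s : ℂ | 0 < s.re} ∈ 𝓝 (1 : ℂ) :=
      (isOpen_lt continuous_const Complex.continuous_re).mem_nhds (by simp)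
    filter_upwards [h0] with s hs
    rw [Complex.Gamma_eq_integral hs, Complex.GammaIntegral_eq_mellin]
  have h2 := hG.unique Complex.hasDerivAt_Gamma_one
  unfold mellin at h2
  rw [setIntegral_congr_fun measurableSet_Ioi (fun t _ => gamF_fun t)] at h2
  have h3 : ∫ t in Set.Ioi (0 : ℝ), ((Real.exp (-t) * Real.log t : ℝ) : ℂ) =
      ((∫ t in Set.Ioi (0 : ℝ), Real.exp (-t) * Real.log t : ℝ) : ℂ) := integral_ofReal
  rw [h3] at h2
  exact_mod_cast h2

theorem gamF_int2 (y : ℝ) (hy : 0 < y) :
    IntegrableOn (fun v : ℝ => Real.exp (-v) / v) (Set.Ioi y) := by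
  have h1 : IntegrableOn (fun v : ℝ => Real.exp (-v) * y⁻¹) (Set.Ioi y) := by
    have := (integrableOn_exp_neg_Ioi y).mul_const y⁻¹
    exact this
  refine Integrable.mono' h1 ?_ ?_
  · exact ((Real.measurable_exp.comp measurable_neg).div measurable_id).aestronglyMeasurable
  · refine (ae_restrict_iff' measurableSet_Ioi).2 (Eventually.of_forall fun t ht => ?_)
    have ht' : y < t := ht
    have ht0 : 0 < t := hy.trans ht'
    rw [div_eq_mul_inv, norm_mul, Real.norm_of_nonneg (Real.exp_pos _).le,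
      Real.norm_of_nonneg (inv_pos.2 ht0).le]
    exact mul_le_mul_of_nonneg_left (inv_anti₀ hy ht'.le) (Real.exp_pos _).le

theorem gamF_parts (y : ℝ) (hy : 0 < y) : ∫ v in Set.Ioi y, Real.exp (-v) / v =
    -(Real.exp (-y) * Real.log y) + ∫ v in Set.Ioi y, Real.exp (-v) * Real.log v := by
  have hu : ∀ x ∈ Set.Ioi y, HasDerivAt (fun v : ℝ => Real.exp (-v)) (-Real.exp (-x)) x := by
    intro x _
    have := (hasDerivAt_neg x).exp
    simpa using this
  have hv : ∀ x ∈ Set.Ioi y, HasDerivAt Real.log x⁻¹ x := by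
    intro x hx
    have hx' : y < x := hx
    exact Real.hasDerivAt_log (by linarith)
  have i1 : IntegrableOn ((fun v : ℝ => Real.exp (-v)) * fun v => v⁻¹) (Set.Ioi y) := by
    refine (gamF_int2 y hy).congr_fun (fun t _ => ?_) measurableSet_Ioi
    exact div_eq_mul_inv _ _
  have i2 : IntegrableOn ((fun v : ℝ => -Real.exp (-v)) * Real.log) (Set.Ioi y) := by
    have h := (gamF_int.mono_set (Set.Ioi_subset_Ioi hy.le)).neg
    refine h.congr_fun (fun t _ => ?_) measurableSet_Ioi
    rw [Pi.mul_apply, Pi.neg_apply]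
    ring
  have t1 : Tendsto ((fun v : ℝ => Real.exp (-v)) * Real.log) (𝓝[>] y)
      (𝓝 (Real.exp (-y) * Real.log y)) := by
    have h : ContinuousAt ((fun v : ℝ => Real.exp (-v)) * Real.log) y :=
      (Real.continuous_exp.comp continuous_neg).continuousAt.mul
        (Real.continuousAt_log hy.ne')
    exact h.tendsto.mono_left nhdsWithin_le_nhds
  have t2 : Tendsto ((fun v : ℝ => Real.exp (-v)) * Real.log) atTop (𝓝 0) := by
    have h1 : Tendsto (fun v : ℝ => v ^ 1 * Real.exp (-v)) atTop (𝓝 0) :=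
      Real.tendsto_pow_mul_exp_neg_atTop_nhds_zero 1
    refine squeeze_zero' ?_ ?_ h1
    · filter_upwards [eventually_ge_atTop (1 : ℝ)] with t ht
      rw [Pi.mul_apply]
      exact mul_nonneg (Real.exp_pos _).le (Real.log_nonneg ht)
    · filter_upwards [eventually_ge_atTop (1 : ℝ)] with t ht
      rw [Pi.mul_apply, pow_one, mul_comm]
      have h2 : Real.log t ≤ t := (Real.log_le_sub_one_of_pos (by linarith)).trans (by linarith)
      exact mul_le_mul_of_nonneg_right h2 (Real.exp_pos _).le
  have key := integral_Ioi_mul_deriv_eq_deriv_mul hu hv i1 i2 t1 t2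
  have e1 : ∫ v in Set.Ioi y, Real.exp (-v) / v = ∫ v in Set.Ioi y, Real.exp (-v) * v⁻¹ :=
    setIntegral_congr_fun measurableSet_Ioi (fun t _ => div_eq_mul_inv _ _)
  have e2 : ∫ v in Set.Ioi y, -Real.exp (-v) * Real.log v =
      -∫ v in Set.Ioi y, Real.exp (-v) * Real.log v := by
    rw [← integral_neg]
    exact setIntegral_congr_fun measurableSet_Ioi (fun t _ => neg_mul _ _)
  rw [e1, key, e2]
  ring

/-- The exponential integral near `0`: `∫_y^∞ e^{-v}/v dv + log y → -γ` as `y → 0+`.  Integrate by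
parts: it is `e^{-y} (-log y) + ∫_y^∞ e^{-v} log v dv + log y`, `(1 - e^{-y}) log y → 0`, and
`∫_0^∞ e^{-v} log v dv = Γ'(1) = -γ` (`Real.hasDerivAt_Gamma_one` or `Real.deriv_Gamma_nat`,
`Complex.hasDerivAt_GammaIntegral`). -/
theorem E1_lim : Tendsto (fun y : ℝ => (∫ v in Set.Ioi y, Real.exp (-v) / v) + Real.log y)
    (𝓝[>] 0) (𝓝 (-Real.eulerMascheroniConstant)) := by
  have h1 : Tendsto (fun y : ℝ => (1 - Real.exp (-y)) * Real.log y) (𝓝[>] 0) (𝓝 0) := by
    have h2 : Tendsto (fun y : ℝ => |Real.log y * y ^ (1 : ℝ)|) (𝓝[>] 0) (𝓝 |0|) :=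
      (tendsto_log_mul_rpow_nhdsGT_zero zero_lt_one).abs
    rw [abs_zero] at h2
    rw [tendsto_zero_iff_abs_tendsto_zero]
    refine squeeze_zero' (Eventually.of_forall fun y => abs_nonneg _) ?_ h2
    filter_upwards [self_mem_nhdsWithin] with y hy
    have hy' : 0 < y := hy
    change |(1 - Real.exp (-y)) * Real.log y| ≤ _
    rw [abs_mul, abs_mul, Real.rpow_one, mul_comm]
    refine mul_le_mul_of_nonneg_left ?_ (abs_nonneg _)
    have h3 := Real.add_one_le_exp (-y)
    have h4 : Real.exp (-y) ≤ 1 := Real.exp_le_one_iff.2 (by linarith)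
    rw [abs_of_nonneg (by linarith), abs_of_pos hy']
    linarith
  have h2 : Tendsto (fun y : ℝ => ∫ v in Set.Ioi y, Real.exp (-v) * Real.log v) (𝓝[>] 0)
      (𝓝 (-Real.eulerMascheroniConstant)) := by
    rw [← gamF_val]
    have h3 : Tendsto (fun y : ℝ => ∫ v in Set.Ioi (0 : ℝ),
        (Set.Ioi y).indicator (fun v => Real.exp (-v) * Real.log v) v) (𝓝[>] 0)
        (𝓝 (∫ v in Set.Ioi (0 : ℝ), Real.exp (-v) * Real.log v)) := by
      refine tendsto_integral_filter_of_dominated_convergence
        (fun v => ‖Real.exp (-v) * Real.log v‖) ?_ ?_ gamF_int.norm ?_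
      · refine Eventually.of_forall fun y => ?_
        exact gamF_int.aestronglyMeasurable.indicator measurableSet_Ioi
      · refine Eventually.of_forall fun y => Eventually.of_forall fun v => ?_
        exact norm_indicator_le_norm_self _ _
      · refine (ae_restrict_iff' measurableSet_Ioi).2 (Eventually.of_forall fun v hv => ?_)
        have hv' : (0 : ℝ) < v := hv
        refine tendsto_const_nhds.congr' ?_
        have h4 : Set.Iio v ∈ 𝓝[>] (0 : ℝ) := mem_nhdsWithin_of_mem_nhds (Iio_mem_nhds hv')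
        filter_upwards [h4] with y hy
        rw [Set.indicator_of_mem]
        exact hy
    refine h3.congr' ?_
    filter_upwards [self_mem_nhdsWithin] with y hy
    have hy' : 0 < y := hy
    rw [setIntegral_indicator measurableSet_Ioi]
    have : Set.Ioi (0 : ℝ) ∩ Set.Ioi y = Set.Ioi y := by
      rw [Set.Ioi_inter_Ioi]
      congr 1
      exact max_eq_right hy'.le
    rw [this]
  have h3 := h1.add h2
  rw [zero_add] at h3
  refine h3.congr' ?_
  filter_upwards [self_mem_nhdsWithin] with y hy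
  have hy' : 0 < y := hy
  rw [gamF_parts y hy']
  ring

theorem gamF_subst (X : ℝ) (hX : 3 ≤ X) (σ : ℝ) (hσ : 0 < σ) :
    (H0 X σ).re = ∫ v in Set.Ioi (σ * Real.log X), Real.exp (-v) / v := by
  rw [(H0_real X hX σ).2]
  have hlX := H0_one_le_log hX
  have hpos : 0 < σ * Real.log X := by positivity
  have hmono : ∀ t : ℝ, X ≤ t → σ * Real.log X ≤ σ * Real.log t := by
    intro t ht
    exact mul_le_mul_of_nonneg_left (Real.log_le_log (by linarith) ht) hσ.le
  have himg : (fun t : ℝ => σ * Real.log t) '' Set.Ici X ⊆ Set.Ici (σ * Real.log X) := by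
    rintro _ ⟨t, ht, rfl⟩
    exact hmono t ht
  have hgint : IntegrableOn (fun v : ℝ => Real.exp (-v) / v) (Set.Ici (σ * Real.log X)) := by
    rw [integrableOn_Ici_iff_integrableOn_Ioi]
    exact gamF_int2 _ hpos
  have hcomp : ∀ t : ℝ, X ≤ t → ((fun v : ℝ => Real.exp (-v) / v) ∘ fun t => σ * Real.log t) t *
      (σ * t⁻¹) = (1 / Real.log t) * t ^ (-(σ + 1)) := by
    intro t ht
    have ht0 : 0 < t := by linarith
    have hl := H0_one_le_log (t := t) (by linarith)
    have h1 : Real.exp (-(σ * Real.log t)) = t ^ (-σ) := by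
      rw [Real.rpow_def_of_pos ht0]
      congr 1
      ring
    have h2 : t ^ (-(σ + 1)) = t ^ (-σ) * t⁻¹ := by
      rw [show -(σ + 1) = -σ + -1 by ring, Real.rpow_add ht0, Real.rpow_neg_one]
    rw [Function.comp_apply, h1, h2]
    field_simp
  have key := integral_comp_mul_deriv_Ioi (a := X) (f := fun t => σ * Real.log t)
    (f' := fun t => σ * t⁻¹) (g := fun v => Real.exp (-v) / v)
    (by
      intro t ht
      have ht' : X ≤ t := ht
      exact (continuousAt_const.mul (Real.continuousAt_log (by linarith))).continuousWithinAt)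
    (Real.tendsto_log_atTop.const_mul_atTop hσ)
    (by
      intro t ht
      have ht' : X < t := ht
      exact ((Real.hasDerivAt_log (by linarith)).const_mul σ).hasDerivWithinAt)
    (by
      intro v hv
      obtain ⟨t, ht, rfl⟩ := hv
      have ht' : X < t := ht
      have h0 : σ * Real.log t ≠ 0 := by
        have := hmono t ht'.le
        linarith
      refine ContinuousAt.continuousWithinAt ?_
      exact (Real.continuous_exp.comp continuous_neg).continuousAt.div continuousAt_id h0)
    (hgint.mono_set himg)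
    (by
      rw [integrableOn_Ici_iff_integrableOn_Ioi]
      refine (H0_integrable X hX σ hσ).congr_fun (fun t ht => ?_) measurableSet_Ioi
      exact (hcomp t (le_of_lt ht)).symm)
  rw [← key]
  exact setIntegral_congr_fun measurableSet_Ioi (fun t ht => (hcomp t (le_of_lt ht)).symm)

/-- Substitute `t = e^{v/σ}`: `H0 X σ = ∫_X^∞ t^{-σ-1}/log t dt = ∫_{σ log X}^∞ e^{-v}/v dv`; so
`H0 X σ + log σ → -γ - log log X`. -/
theorem H0_lim (X : ℝ) (hX : 3 ≤ X) : Tendsto (fun σ : ℝ => (H0 X σ).re + Real.log σ) (𝓝[>] 0)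
    (𝓝 (-Real.eulerMascheroniConstant - Real.log (Real.log X))) := by
  have hlX := H0_one_le_log hX
  have h1 : Tendsto (fun σ : ℝ => σ * Real.log X) (𝓝[>] 0) (𝓝[>] 0) := by
    refine tendsto_nhdsWithin_of_tendsto_nhds_of_eventually_within _ ?_ ?_
    · have : Tendsto (fun σ : ℝ => σ * Real.log X) (𝓝 0) (𝓝 (0 * Real.log X)) :=
        (continuous_id.mul continuous_const).tendsto 0
      rw [zero_mul] at this
      exact this.mono_left nhdsWithin_le_nhds
    · filter_upwards [self_mem_nhdsWithin] with σ hσ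
      have hσ' : 0 < σ := hσ
      have : 0 < σ * Real.log X := by positivity
      exact this
  have h2 := (E1_lim.comp h1).sub_const (Real.log (Real.log X))
  refine h2.congr' ?_
  filter_upwards [self_mem_nhdsWithin] with σ hσ
  have hσ' : 0 < σ := hσ
  rw [Function.comp_apply, gamF_subst X hX σ hσ', Real.log_mul hσ'.ne' (by linarith)]
  ring

end W3283f
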