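import Pool.Agent.W_MP_3283e1_h19.DF

set_option autoImplicit false

namespace W3283f

open Complex W3283e1

/-- `Q s = 2 W(2s) ZZ(s) t2(s) exp(R s) / (W(s) ZZ(2s) t2(2s))` with `R` from `identF`.  On
`0 ≤ Re s` all of `W s`, `W (2s)`, `ZZ`, `t2` are nonzero (`W_ne`, `ZZ_ne`, `t2_ne`) and all the
functions are analytic (`W_diff`, `ZZ_diff`, `t2_diff`, `R` holomorphic on the open set
`Re s > -1/10`). -/
theorem QF_exists (α : ℕ → ℂ) (L W : ℂ → ℂ) (hD : DataF α L W) :
    ∃ Q : ℂ → ℂ, (∀ s : ℂ, 0 ≤ s.re → AnalyticAt ℂ Q s ∧ Q s ≠ 0) ∧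
      ∀ s : ℂ, 1 / 2 < s.re → (L (1 + s)) ^ 2 * Complex.exp (2 * GG α s) = Q s := by
  obtain ⟨R, hR, _, _, hid⟩ := identF α L W hD
  have h2 : Differentiable ℂ (fun s : ℂ => 2 * s) := (differentiable_const _).mul differentiable_id
  have hre : ∀ s : ℂ, (2 * s).re = 2 * s.re := by
    intro s
    simp
  have hden : ∀ s : ℂ, 0 ≤ s.re → W s * ZZ (2 * s) * t2 (2 * s) ≠ 0 := by
    intro s hs
    refine mul_ne_zero (mul_ne_zero (hD.W_ne s hs) (ZZ_ne _ ?_)) (t2_ne _ ?_)
    · rw [hre]; linarith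
    · rw [hre]; linarith
  have hnum : ∀ s : ℂ, 0 ≤ s.re → 2 * W (2 * s) * ZZ s * t2 s * Complex.exp (R s) ≠ 0 := by
    intro s hs
    refine mul_ne_zero (mul_ne_zero (mul_ne_zero (mul_ne_zero two_ne_zero (hD.W_ne _ ?_))
      (ZZ_ne _ hs)) (t2_ne _ ?_)) (Complex.exp_ne_zero _)
    · rw [hre]; linarith
    · linarith
  have hopen : IsOpen {s : ℂ | -(1 / 10) < s.re} := isOpen_lt continuous_const Complex.continuous_re
  refine ⟨fun s => (2 * W (2 * s) * ZZ s * t2 s * Complex.exp (R s)) /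
    (W s * ZZ (2 * s) * t2 (2 * s)), fun s hs => ⟨?_, div_ne_zero (hnum s hs) (hden s hs)⟩, ?_⟩
  · have a1 : AnalyticAt ℂ (fun s => W (2 * s)) s := (hD.W_diff.comp h2).analyticAt s
    have a2 : AnalyticAt ℂ ZZ s := ZZ_diff.analyticAt s
    have a3 : AnalyticAt ℂ t2 s := t2_diff.analyticAt s
    have a4 : AnalyticAt ℂ R s := by
      apply hR.analyticAt
      apply hopen.mem_nhds
      change -(1 / 10) < s.re
      linarith
    have a5 : AnalyticAt ℂ W s := hD.W_diff.analyticAt s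
    have a6 : AnalyticAt ℂ (fun s => ZZ (2 * s)) s := (ZZ_diff.comp h2).analyticAt s
    have a7 : AnalyticAt ℂ (fun s => t2 (2 * s)) s := (t2_diff.comp h2).analyticAt s
    exact ((((analyticAt_const.mul a1).mul a2).mul a3).mul a4.cexp).div ((a5.mul a6).mul a7)
      (hden s hs)
  · intro s hs
    rw [eq_div_iff (hden s (by linarith))]
    rw [← hid s hs]
    ring

/-- If `GG` has a holomorphic continuation `Gt` to `Re s > 0`, the identity extends to `Re s > 0`
by the identity theorem (the half plane is convex, hence preconnected;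
`AnalyticOnNhd.eqOn_of_preconnected_of_eventuallyEq` at the point `1`). -/
theorem extF (α : ℕ → ℂ) (L W : ℂ → ℂ) (hD : DataF α L W) (Gt : ℂ → ℂ)
    (hG : DifferentiableOn ℂ Gt {s : ℂ | 0 < s.re})
    (hGG : ∀ s : ℂ, 1 / 2 < s.re → Gt s = GG α s) :
    ∃ Q : ℂ → ℂ, (∀ s : ℂ, 0 ≤ s.re → AnalyticAt ℂ Q s ∧ Q s ≠ 0) ∧
      ∀ s : ℂ, 0 < s.re → (L (1 + s)) ^ 2 * Complex.exp (2 * Gt s) = Q s := by
  obtain ⟨Q, hQ, hid⟩ := QF_exists α L W hD
  refine ⟨Q, hQ, ?_⟩
  have ho : IsOpen {s : ℂ | 0 < s.re} := isOpen_lt continuous_const Complex.continuous_re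
  have ho2 : IsOpen {s : ℂ | 1 / 2 < s.re} := isOpen_lt continuous_const Complex.continuous_re
  have ho3 : IsOpen {s : ℂ | 3 / 4 < s.re} := isOpen_lt continuous_const Complex.continuous_re
  have hf : AnalyticOnNhd ℂ (fun s => (L (1 + s)) ^ 2 * Complex.exp (2 * Gt s))
      {s : ℂ | 0 < s.re} := by
    intro s hs
    have hs' : 0 < s.re := hs
    have a1 : AnalyticAt ℂ L (1 + s) := by
      apply hD.L_diff.analyticAt
      apply ho3.mem_nhds
      change 3 / 4 < (1 + s).re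
      rw [Complex.add_re, Complex.one_re]
      linarith
    have a2 : AnalyticAt ℂ (fun s : ℂ => 1 + s) s := analyticAt_const.add analyticAt_id
    have a3 : AnalyticAt ℂ (fun s : ℂ => L (1 + s)) s := a1.fun_comp a2
    have a4 : AnalyticAt ℂ Gt s := hG.analyticAt (ho.mem_nhds hs)
    exact (a3.pow 2).mul (analyticAt_const.mul a4).cexp
  have hg : AnalyticOnNhd ℂ Q {s : ℂ | 0 < s.re} := by
    intro s hs
    have hs' : 0 < s.re := hs
    exact (hQ s hs'.le).1
  have hc : IsPreconnected {s : ℂ | 0 < s.re} := (convex_halfSpace_re_gt 0).isPreconnected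
  have h1 : (1 : ℂ) ∈ {s : ℂ | 0 < s.re} := by
    change 0 < (1 : ℂ).re
    rw [Complex.one_re]
    norm_num
  have he : (fun s => (L (1 + s)) ^ 2 * Complex.exp (2 * Gt s)) =ᶠ[nhds 1] Q := by
    have h2 : (1 : ℂ) ∈ {s : ℂ | 1 / 2 < s.re} := by
      change 1 / 2 < (1 : ℂ).re
      rw [Complex.one_re]
      norm_num
    filter_upwards [ho2.mem_nhds h2] with s hs
    have hs' : 1 / 2 < s.re := hs
    rw [hGG s hs', hid s hs']
  exact fun s hs => hf.eqOn_of_preconnected_of_eventuallyEq hg hc h1 he hs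

/-- Consequences: `L(1+s) ≠ 0` for `Re s > 0`, and taking logarithmic derivatives of the identity of
`extF`: `2 L'(1+s)/L(1+s) + 2 Gt'(s) = Q'(s)/Q(s)`; `q = (1/2) Q'/Q` (`deriv Q / Q` is analytic
where `Q` is analytic and nonzero). -/
theorem logderF (α : ℕ → ℂ) (L W : ℂ → ℂ) (hD : DataF α L W) (Gt : ℂ → ℂ)
    (hG : DifferentiableOn ℂ Gt {s : ℂ | 0 < s.re})
    (hGG : ∀ s : ℂ, 1 / 2 < s.re → Gt s = GG α s) :
    ∃ q : ℂ → ℂ, (∀ s : ℂ, 0 ≤ s.re → AnalyticAt ℂ q s) ∧
      ∀ s : ℂ, 0 < s.re → L (1 + s) ≠ 0 ∧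
        deriv Gt s = q s - deriv L (1 + s) / L (1 + s) := by
  obtain ⟨Q, hQ, hid⟩ := extF α L W hD Gt hG hGG
  have ho : IsOpen {s : ℂ | 0 < s.re} := isOpen_lt continuous_const Complex.continuous_re
  have ho3 : IsOpen {s : ℂ | 3 / 4 < s.re} := isOpen_lt continuous_const Complex.continuous_re
  refine ⟨fun s => (1 / 2) * (deriv Q s / Q s), fun s hs => ?_, fun s hs => ?_⟩
  · exact analyticAt_const.mul ((hQ s hs).1.deriv.div (hQ s hs).1 (hQ s hs).2)
  · have hL0 : L (1 + s) ≠ 0 := by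
      intro h
      apply (hQ s hs.le).2
      rw [← hid s hs, h]
      ring
    refine ⟨hL0, ?_⟩
    have d1 : HasDerivAt (fun t => L (1 + t)) (deriv L (1 + s)) s := by
      apply HasDerivAt.comp_const_add
      apply DifferentiableAt.hasDerivAt
      apply hD.L_diff.differentiableAt
      apply ho3.mem_nhds
      change 3 / 4 < (1 + s).re
      rw [Complex.add_re, Complex.one_re]
      linarith
    have d2 : HasDerivAt Gt (deriv Gt s) s := (hG.differentiableAt (ho.mem_nhds hs)).hasDerivAt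
    have d3 : HasDerivAt (fun t => Complex.exp (2 * Gt t))
        (Complex.exp (2 * Gt s) * (2 * deriv Gt s)) s := (d2.const_mul 2).cexp
    have d4 := (d1.mul d1).mul d3
    have d5 : HasDerivAt Q (deriv Q s) s := (hQ s hs.le).1.differentiableAt.hasDerivAt
    have he : Q =ᶠ[nhds s] (((fun t => L (1 + t)) * (fun t => L (1 + t))) *
        (fun t => Complex.exp (2 * Gt t))) := by
      filter_upwards [ho.mem_nhds hs] with t ht
      have ht' : 0 < t.re := ht
      rw [← hid t ht', Pi.mul_apply, Pi.mul_apply]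
      ring
    have d6 := (d4.congr_of_eventuallyEq he).unique d5
    have hE : Complex.exp (2 * Gt s) ≠ 0 := Complex.exp_ne_zero _
    have hQs : Q s = L (1 + s) ^ 2 * Complex.exp (2 * Gt s) := (hid s hs).symm
    simp only [Pi.mul_apply] at d6
    change deriv Gt s = (1 / 2) * (deriv Q s / Q s) - deriv L (1 + s) / L (1 + s)
    rw [← d6, hQs]
    field_simp
    ring

end W3283f
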