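import Pool.Agent.W_MP_3283e1_h19.BgF
import Pool.Agent.W_MP_3283e1_h19.ExtF

set_option autoImplicit false

namespace W3283f

open Complex W3283e1 MeasureTheory

/-- `N(s) = G(s) - a X^{-s} - ρ (log log X X^{-s} + H0(s))`, expressed by the transform. -/
noncomputable def Nf (α : ℕ → ℂ) (a ρ η K X : ℝ) (s : ℂ) : ℂ :=
  η * ((14 * Real.sqrt X : ℝ) * (1 - (X : ℂ) ^ (-s)) + K * s * H0 X s
    - s * TT (Bg α a ρ η K X) s)

/-- The continuation of `GG` to `Re s > 0`. -/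
noncomputable def Gf (α : ℕ → ℂ) (a ρ η K X : ℝ) (s : ℂ) : ℂ :=
  Nf α a ρ η K X s + (a : ℂ) * (X : ℂ) ^ (-s)
    + ρ * ((Real.log (Real.log X) : ℂ) * (X : ℂ) ^ (-s) + H0 X s)

/-- The hypotheses on the nonnegative function: a one sided bound for `AA` beyond `X` and
convergence of the transform for all positive real `σ`. -/
structure OneSided (α : ℕ → ℂ) (a ρ η K X : ℝ) : Prop where
  hη : η = 1 ∨ η = -1
  hK : 0 < K
  hX : 3 ≤ X
  bd : ∀ x : ℝ, X ≤ x → η * (AA α x - a - ρ * Real.log (Real.log x)) ≤ K / Real.log x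
  conv : ∀ σ : ℝ, 0 < σ →
    IntegrableOn (fun t : ℝ => Bg α a ρ η K X t * t ^ (-(σ + 1))) (Set.Ioi 1)
  zero : Filter.Tendsto (fun σ : ℝ => (σ : ℂ) * TT (Bg α a ρ η K X) σ)
    (nhdsWithin 0 (Set.Ioi 0)) (nhds 0)

theorem NF_isOpen : IsOpen {s : ℂ | 0 < s.re} := isOpen_lt continuous_const Complex.continuous_re

theorem NF_cpow (X : ℝ) (hX : 3 ≤ X) (s : ℂ) :
    HasDerivAt (fun z : ℂ => (X : ℂ) ^ (-z)) (-((Real.log X : ℂ) * (X : ℂ) ^ (-s))) s := by
  have hX0 : (X : ℂ) ≠ 0 := by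
    rw [Ne, Complex.ofReal_eq_zero]; intro h; linarith
  have h := (hasDerivAt_neg s).const_cpow (c := (X : ℂ)) (Or.inl hX0)
  convert h using 1
  rw [Complex.ofReal_log (by linarith)]
  ring

theorem NF_TT (α : ℕ → ℂ) (hα : ∀ p : ℕ, p.Prime → p ≠ 2 → ‖α p‖ ^ 2 = p) (a ρ η K X : ℝ)
    (h : OneSided α a ρ η K X) :
    DifferentiableOn ℂ (TT (Bg α a ρ η K X)) {s : ℂ | 0 < s.re} :=
  TT_diff _ (Bg_meas α a ρ η K X) (fun t ht => Bg_nonneg α hα a ρ η K X h.hη h.bd t ht) h.conv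

theorem NF_eta {α : ℕ → ℂ} {a ρ η K X : ℝ} (h : OneSided α a ρ η K X) : (η : ℂ) * η = 1 := by
  rcases h.hη with h1 | h1 <;> rw [h1] <;> push_cast <;> ring

/-- `TT_diff`, `H0_diff`. -/
theorem Nf_diff (α : ℕ → ℂ) (hα : ∀ p : ℕ, p.Prime → p ≠ 2 → ‖α p‖ ^ 2 = p) (a ρ η K X : ℝ)
    (h : OneSided α a ρ η K X) :
    DifferentiableOn ℂ (Nf α a ρ η K X) {s : ℂ | 0 < s.re} := by
  intro s hs
  have hs' : 0 < s.re := hs
  have h1 : DifferentiableAt ℂ (TT (Bg α a ρ η K X)) s :=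
    (NF_TT α hα a ρ η K X h).differentiableAt (NF_isOpen.mem_nhds hs)
  have h2 : DifferentiableAt ℂ (H0 X) s := (H0_hasDeriv X h.hX s hs').differentiableAt
  have h3 : DifferentiableAt ℂ (fun z : ℂ => (X : ℂ) ^ (-z)) s :=
    (NF_cpow X h.hX s).differentiableAt
  apply DifferentiableAt.differentiableWithinAt
  unfold Nf
  have h4 : DifferentiableAt ℂ (fun z : ℂ => z) s := differentiableAt_id
  exact (((h3.const_sub 1).const_mul _).add ((h4.const_mul (K : ℂ)).mul h2) |>.sub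
    (h4.mul h1)).const_mul _

theorem Gf_diff (α : ℕ → ℂ) (hα : ∀ p : ℕ, p.Prime → p ≠ 2 → ‖α p‖ ^ 2 = p) (a ρ η K X : ℝ)
    (h : OneSided α a ρ η K X) :
    DifferentiableOn ℂ (Gf α a ρ η K X) {s : ℂ | 0 < s.re} := by
  intro s hs
  have hs' : 0 < s.re := hs
  have h1 : DifferentiableAt ℂ (Nf α a ρ η K X) s :=
    (Nf_diff α hα a ρ η K X h).differentiableAt (NF_isOpen.mem_nhds hs)
  have h2 : DifferentiableAt ℂ (H0 X) s := (H0_hasDeriv X h.hX s hs').differentiableAt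
  have h3 : DifferentiableAt ℂ (fun z : ℂ => (X : ℂ) ^ (-z)) s :=
    (NF_cpow X h.hX s).differentiableAt
  apply DifferentiableAt.differentiableWithinAt
  unfold Gf
  exact (h1.add (h3.const_mul _)).add (((h3.const_mul _).add h2).const_mul _)

/-- `Bg_transform` and `η² = 1`. -/
theorem Gf_eq (α : ℕ → ℂ) (hα : ∀ p : ℕ, p.Prime → p ≠ 2 → ‖α p‖ ^ 2 = p) (a ρ η K X : ℝ)
    (h : OneSided α a ρ η K X) (s : ℂ) (hs : 1 / 2 < s.re) : Gf α a ρ η K X s = GG α s := by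
  have h1 := (Bg_transform α hα a ρ η K X h.hX s hs).2
  have he := NF_eta h
  unfold Gf Nf
  rw [h1]
  linear_combination (GG α s - (a : ℂ) * (X : ℂ) ^ (-s)
    - ρ * ((Real.log (Real.log X) : ℂ) * (X : ℂ) ^ (-s) + H0 X s)) * he

/-- `N(σ) → 0` as `σ → 0+`: `zero`, `H0_mul_tendsto` and `X^{-σ} → 1`. -/
theorem Nf_zero (α : ℕ → ℂ) (a ρ η K X : ℝ) (h : OneSided α a ρ η K X) :
    Filter.Tendsto (fun σ : ℝ => Nf α a ρ η K X (σ : ℂ)) (nhdsWithin 0 (Set.Ioi 0)) (nhds 0) := by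
  have h1 := h.zero
  have h2 := H0_mul_tendsto X h.hX
  have h3 : Filter.Tendsto (fun σ : ℝ => (1 : ℂ) - (X : ℂ) ^ (-(σ : ℂ)))
      (nhdsWithin 0 (Set.Ioi 0)) (nhds 0) := by
    have hc : ContinuousAt (fun σ : ℝ => (1 : ℂ) - (X : ℂ) ^ (-(σ : ℂ))) 0 := by
      have h4 : ContinuousAt (fun z : ℂ => (X : ℂ) ^ (-z)) ((0 : ℝ) : ℂ) :=
        (NF_cpow X h.hX _).continuousAt
      exact continuousAt_const.sub
        (ContinuousAt.comp (g := fun z : ℂ => (X : ℂ) ^ (-z)) (f := fun σ : ℝ => (σ : ℂ)) h4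
          Complex.continuous_ofReal.continuousAt)
    have h5 := hc.tendsto
    simp only [Complex.ofReal_zero, neg_zero, Complex.cpow_zero, sub_self] at h5
    exact h5.mono_left nhdsWithin_le_nhds
  have h6 := (((h3.const_mul ((14 * Real.sqrt X : ℝ) : ℂ)).add (h2.const_mul (K : ℂ))).sub
    h1).const_mul (η : ℂ)
  simp only [mul_zero, add_zero, sub_zero] at h6
  refine h6.congr (fun σ => ?_)
  unfold Nf
  ring

/-- The derivative of `N` on `Re s > 0`: `N' = Gf' + (a + ρ log log X) log X X^{-s} + ρ X^{-s}/s`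
(`H0_hasDeriv`), and `Gf' = q - L'/L(1+s)` by `logderF`; `q2` collects the analytic terms, with
`ρ X^{-s}/s = ρ/s + ρ (X^{-s} - 1)/s`. -/
theorem Nf_deriv (α : ℕ → ℂ) (L W : ℂ → ℂ) (hD : DataF α L W) (a ρ η K X : ℝ)
    (h : OneSided α a ρ η K X) :
    ∃ q : ℂ → ℂ, (∀ s : ℂ, 0 ≤ s.re → AnalyticAt ℂ q s) ∧
      ∀ s : ℂ, 0 < s.re → L (1 + s) ≠ 0 ∧
        deriv (Nf α a ρ η K X) s = q s + ρ / s - deriv L (1 + s) / L (1 + s) := by
  obtain ⟨q0, hq0, hq1⟩ := logderF α L W hD (Gf α a ρ η K X)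
    (Gf_diff α hD.norm_α a ρ η K X h) (fun s hs => Gf_eq α hD.norm_α a ρ η K X h s hs)
  have hent : Differentiable ℂ (fun z : ℂ => (X : ℂ) ^ (-z)) :=
    fun z => (NF_cpow X h.hX z).differentiableAt
  have hds : Differentiable ℂ (dslope (fun z : ℂ => (X : ℂ) ^ (-z)) 0) := by
    rw [← differentiableOn_univ]
    exact (Complex.differentiableOn_dslope Filter.univ_mem).mpr hent.differentiableOn
  refine ⟨fun s => q0 s + ((a : ℂ) + ρ * (Real.log (Real.log X) : ℂ)) * (Real.log X : ℂ)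
    * (X : ℂ) ^ (-s) + ρ * dslope (fun z : ℂ => (X : ℂ) ^ (-z)) 0 s, ?_, ?_⟩
  · intro s hs
    exact ((hq0 s hs).add (analyticAt_const.mul (hent.analyticAt s))).add
      (analyticAt_const.mul (hds.analyticAt s))
  · intro s hs
    obtain ⟨hL, hG⟩ := hq1 s hs
    refine ⟨hL, ?_⟩
    have hs0 : s ≠ 0 := by
      intro h0; rw [h0] at hs; simp at hs
    have hN : DifferentiableAt ℂ (Nf α a ρ η K X) s :=
      (Nf_diff α hD.norm_α a ρ η K X h).differentiableAt (NF_isOpen.mem_nhds hs)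
    have h1 := hN.hasDerivAt
    have h2 := NF_cpow X h.hX s
    have h3 := H0_hasDeriv X h.hX s hs
    have h4 : HasDerivAt (Gf α a ρ η K X) _ s :=
      (h1.add (h2.const_mul (a : ℂ))).add
        (((h2.const_mul (Real.log (Real.log X) : ℂ)).add h3).const_mul (ρ : ℂ))
    have h5 := h4.deriv
    rw [hG] at h5
    have h6 : dslope (fun z : ℂ => (X : ℂ) ^ (-z)) 0 s = ((X : ℂ) ^ (-s) - 1) / s := by
      rw [dslope_of_ne _ hs0, slope_def_field]
      simp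
    beta_reduce
    rw [h6]
    have h7 : (X : ℂ) ^ (-s) / s = 1 / s + ((X : ℂ) ^ (-s) - 1) / s := by
      field_simp
      ring
    rw [h7] at h5
    linear_combination -h5

/-- On `Re s > 0`: `TT = (14 √X (1 - X^{-s}) + K s H0 - η N)/s` (definition of `Nf`, `η² = 1`), so by
`TT_deriv` and `H0_hasDeriv` this formula for the transform of `Bg log t`. -/
theorem TT_log_formula (α : ℕ → ℂ) (hα : ∀ p : ℕ, p.Prime → p ≠ 2 → ‖α p‖ ^ 2 = p)
    (a ρ η K X : ℝ) (h : OneSided α a ρ η K X) (s : ℂ) (hs : 0 < s.re) :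
    TT (fun t => Bg α a ρ η K X t * Real.log t) s
      = -((14 * Real.sqrt X : ℝ) * deriv (fun z : ℂ => (1 - (X : ℂ) ^ (-z)) / z) s)
        + K * (X : ℂ) ^ (-s) / s
        + η * (deriv (Nf α a ρ η K X) s / s - Nf α a ρ η K X s / s ^ 2) := by
  have he := NF_eta h
  have hs0 : s ≠ 0 := by
    intro h0; rw [h0] at hs; simp at hs
  have hT := TT_deriv _ (Bg_meas α a ρ η K X)
    (fun t ht => Bg_nonneg α hα a ρ η K X h.hη h.bd t ht) h.conv s hs
  have hN : DifferentiableAt ℂ (Nf α a ρ η K X) s :=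
    (Nf_diff α hα a ρ η K X h).differentiableAt (NF_isOpen.mem_nhds hs)
  have h1 := hN.hasDerivAt
  have h2 := NF_cpow X h.hX s
  have h3 := H0_hasDeriv X h.hX s hs
  have h4 : DifferentiableAt ℂ (fun z : ℂ => (1 - (X : ℂ) ^ (-z)) / z) s :=
    ((h2.differentiableAt).const_sub 1).div differentiableAt_id hs0
  have h5 : HasDerivAt (fun z : ℂ => ((14 * Real.sqrt X : ℝ) : ℂ) * ((1 - (X : ℂ) ^ (-z)) / z)
      + (K : ℂ) * H0 X z - (η : ℂ) * (Nf α a ρ η K X z / z)) _ s :=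
    ((h4.hasDerivAt.const_mul _).add (h3.const_mul _)).sub
      ((h1.div (hasDerivAt_id s) hs0).const_mul _)
  have hev : (fun z : ℂ => ((14 * Real.sqrt X : ℝ) : ℂ) * ((1 - (X : ℂ) ^ (-z)) / z)
      + (K : ℂ) * H0 X z - (η : ℂ) * (Nf α a ρ η K X z / z)) =ᶠ[nhds s]
      TT (Bg α a ρ η K X) := by
    filter_upwards [NF_isOpen.mem_nhds hs] with z hz
    have hz0 : z ≠ 0 := by
      intro h0
      rw [h0] at hz
      have : (0 : ℝ) < (0 : ℂ).re := hz
      simp at this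
    unfold Nf
    field_simp
    linear_combination (-(((14 * Real.sqrt X : ℝ) : ℂ) * (1 - (X : ℂ) ^ (-z)) + K * z * H0 X z
    - z * TT (Bg α a ρ η K X) z)) * he
  have h6 := (h5.congr_of_eventuallyEq hev.symm).unique hT
  simp only [id_eq] at h6
  have h7 : -TT (fun t => Bg α a ρ η K X t * Real.log t) s =
      ((14 * Real.sqrt X : ℝ) : ℂ) * deriv (fun z : ℂ => (1 - (X : ℂ) ^ (-z)) / z) s
      + K * (-((X : ℂ) ^ (-s) / s))
      - η * (deriv (Nf α a ρ η K X) s / s - Nf α a ρ η K X s / s ^ 2) := by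
    rw [← h6]
    field_simp
  linear_combination -h7

end W3283f
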