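import Pool.Agent.W_MP_3283e1_h19.UpGen
import Pool.Agent.W_MP_3283e1_h19.GamF
import Pool.Agent.W_MP_3283e1_h19.NF
import Pool.Agent.W_MP_3283e1_nt.Step

set_option autoImplicit false

namespace W3283f

open Complex W3283e1 MeasureTheory Filter Topology

/-- The logarithm of the constant of Goldfeld for leading coefficient `l` and order `r`. -/
noncomputable def lGold (l : ℝ) (r : ℕ) : ℝ :=
  Real.log (Real.sqrt 2 / |l|) + r * Real.eulerMascheroniConstant

/-- The elementary part of the transform. -/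
noncomputable def upE (a η K X : ℝ) (r : ℕ) (σ : ℝ) : ℝ :=
  14 * Real.sqrt X * (1 - X ^ (-σ)) + K * σ * (H0 X σ).re + η * a * X ^ (-σ)
    + η * r * (Real.log (Real.log X) * X ^ (-σ) + (H0 X σ).re)

theorem upE_an (a η K X : ℝ) (hX : 3 ≤ X) (r : ℕ) (σ : ℝ) (hσ : 0 < σ) :
    AnalyticAt ℝ (upE a η K X r) σ := by
  have hp := step_rpow_analytic X hX σ
  have hH := step_H0_analytic X hX σ hσ
  have hid : AnalyticAt ℝ (fun τ : ℝ => τ) σ := analyticAt_id
  unfold upE
  refine AnalyticAt.add (AnalyticAt.add (AnalyticAt.add ?_ ?_) ?_) ?_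
  · exact analyticAt_const.mul (analyticAt_const.sub hp)
  · exact (analyticAt_const.mul hid).mul hH
  · exact analyticAt_const.mul hp
  · exact analyticAt_const.mul ((analyticAt_const.mul hp).add hH)

theorem up_rpow_lim (X : ℝ) (hX : 3 ≤ X) :
    Tendsto (fun σ : ℝ => X ^ (-σ)) (𝓝[>] 0) (𝓝 1) := by
  have h := (step_rpow_analytic X hX 0).continuousAt.tendsto
  simp only [neg_zero, Real.rpow_zero] at h
  exact h.mono_left nhdsWithin_le_nhds

theorem up_H0_lim (X : ℝ) (hX : 3 ≤ X) :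
    Tendsto (fun σ : ℝ => σ * (H0 X σ).re) (𝓝[>] 0) (𝓝 0) := by
  have h := (Complex.continuous_re.tendsto (0 : ℂ)).comp (H0_mul_tendsto X hX)
  rw [Complex.zero_re] at h
  refine h.congr fun σ => ?_
  simp

/-- The limit at the centre. -/
theorem up_lim (L : ℂ → ℂ) (q : ℝ → ℝ) (hqc : ContinuousAt q 0) (hq0 : q 0 = 2)
    (r : ℕ) (l : ℝ) (hl : l ≠ 0)
    (hlim : Tendsto (fun σ : ℝ => LR L σ / σ ^ r) (𝓝[>] 0) (𝓝 l)) (η K X : ℝ) (hX : 3 ≤ X)
    (hne : ∀ σ : ℝ, 0 < σ → LR L σ ≠ 0) :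
    Tendsto (fun σ : ℝ => upE (lGold l r) η K X r σ - η * gR L q σ) (𝓝[>] 0) (𝓝 0) := by
  have h1 := up_rpow_lim X hX
  have h2 := up_H0_lim X hX
  have h3 := H0_lim X hX
  have h4 : Tendsto (fun σ : ℝ => Real.log |LR L σ / σ ^ r|) (𝓝[>] 0) (𝓝 (Real.log |l|)) :=
    (Real.continuousAt_log (abs_ne_zero.2 hl)).tendsto.comp hlim.abs
  have h5 : Tendsto (fun σ : ℝ => Real.log (q σ)) (𝓝[>] 0) (𝓝 (Real.log 2)) := by
    have h6 : Tendsto q (𝓝[>] 0) (𝓝 2) := by
      have := hqc.tendsto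
      rw [hq0] at this
      exact this.mono_left nhdsWithin_le_nhds
    exact (Real.continuousAt_log (by norm_num)).tendsto.comp h6
  have hsum : Tendsto (fun σ : ℝ => 14 * Real.sqrt X * (1 - X ^ (-σ)) + K * (σ * (H0 X σ).re)
      + η * (lGold l r * X ^ (-σ) + r * (Real.log (Real.log X) * X ^ (-σ)
        + ((H0 X σ).re + Real.log σ)) - (1 / 2) * Real.log (q σ)
        + Real.log |LR L σ / σ ^ r|)) (𝓝[>] 0)
      (𝓝 (14 * Real.sqrt X * (1 - 1) + K * 0
      + η * (lGold l r * 1 + r * (Real.log (Real.log X) * 1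
        + (-Real.eulerMascheroniConstant - Real.log (Real.log X))) - (1 / 2) * Real.log 2
        + Real.log |l|))) := by
    refine (((tendsto_const_nhds.sub h1).const_mul _).add (h2.const_mul _)).add
      (Tendsto.const_mul _ ?_)
    exact (((h1.const_mul _).add (((h1.const_mul _).add h3).const_mul _)).sub
      (h5.const_mul _)).add h4
  have hval : 14 * Real.sqrt X * (1 - 1) + K * 0
      + η * (lGold l r * 1 + r * (Real.log (Real.log X) * 1
        + (-Real.eulerMascheroniConstant - Real.log (Real.log X))) - (1 / 2) * Real.log 2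
        + Real.log |l|) = 0 := by
    unfold lGold
    rw [Real.log_div (by positivity) (abs_ne_zero.2 hl), Real.log_sqrt (by norm_num)]
    ring
  rw [hval] at hsum
  refine hsum.congr' ?_
  filter_upwards [self_mem_nhdsWithin] with σ hσ
  have hσ0 : 0 < σ := hσ
  have hL := hne σ hσ0
  have e1 : Real.log |LR L σ / σ ^ r| = Real.log |LR L σ| - r * Real.log σ := by
    rw [abs_div, abs_pow, abs_of_pos hσ0, Real.log_div (abs_ne_zero.2 hL) (by positivity),
      Real.log_pow]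
  have e2 : Real.log ((LR L σ) ^ 2) = 2 * Real.log |LR L σ| := by
    rw [← sq_abs, Real.log_pow]
    norm_num
  unfold gR upE
  rw [e1, e2]
  ring

/-- One sided bounds with the constant of Goldfeld, in the general case of order `r` at the centre:
`LR(σ)/σ^r → l ≠ 0`.  Suppose `η = 1`, or `L(1+σ) ≠ 0` for all real `σ > 0`.  With
`E σ = 14 √X (1 - X^{-σ}) + K σ H0 + η a X^{-σ} + η r (log log X X^{-σ} + H0)`, `a = lGold l r`, the real
form of `Bg_transform` (see `step` in `W3283e1`, `H0_real`, `step_H0_analytic`,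
`step_rpow_analytic`) gives `htr` of `land_real` with `δ = 0`, `σ1 = 1/2`;
`up_no_zero` if `η = 1`; so `conv`.  For `zero`: `σ TT(σ) = E σ - η gR σ`, and
`gR σ = (1/2) log q(σ) - log |LR σ| = log(√2/|l|) - r log σ + o(1)` while by `H0_lim`
`E σ = η (a + r log log X) + η r (-log σ - γ - log log X) + o(1)` (`H0_mul_tendsto`), so the difference
tends to `η (a - r γ - log(√2/|l|)) = 0`. -/
theorem oneSided_gen (α : ℕ → ℂ) (L W : ℂ → ℂ) (hD : DataR α L W) (r : ℕ) (l : ℝ) (hl : l ≠ 0)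
    (hlim : Tendsto (fun σ : ℝ => LR L σ / σ ^ r) (𝓝[>] 0) (𝓝 l)) (η K X : ℝ)
    (hη : η = 1 ∨ (η = -1 ∧ ∀ σ : ℝ, 0 < σ → LR L σ ≠ 0)) (hK : 0 < K) (hX : 3 ≤ X)
    (h : ∀ x : ℝ, X ≤ x →
      η * (AA α x - lGold l r - r * Real.log (Real.log x)) ≤ K / Real.log x) :
    OneSided α (lGold l r) r η K X := by
  have hX0 : 0 < X := by linarith
  obtain ⟨q, hq, hq0, hq2⟩ := qR_exists α L W hD
  have hα := hD.norm_α
  have hη' : η = 1 ∨ η = -1 := by
    rcases hη with h1 | ⟨h1, -⟩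
    · exact Or.inl h1
    · exact Or.inr h1
  have hBm := Bg_meas α (lGold l r) r η K X
  have hB0 : ∀ t, 1 < t → 0 ≤ Bg α (lGold l r) r η K X t := fun t ht =>
    Bg_nonneg α hα (lGold l r) r η K X hη' h t ht
  have hint : ∀ σ : ℝ, 1 / 2 < σ →
      IntegrableOn (fun t : ℝ => Bg α (lGold l r) r η K X t * t ^ (-(σ + 1))) (Set.Ioi 1) := by
    intro σ hσ
    have := (Bg_transform α hα (lGold l r) r η K X hX (σ : ℂ) (by simpa using hσ)).1
    simpa using this
  have htr : ∀ σ : ℝ, 1 / 2 < σ →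
      σ * ∫ t in Set.Ioi (1 : ℝ), Bg α (lGold l r) r η K X t * t ^ (-(σ + 1)) =
        upE (lGold l r) η K X r σ - η * (GG α σ).re := by
    intro σ hσ
    have hT := (Bg_transform α hα (lGold l r) r η K X hX (σ : ℂ) (by simpa using hσ)).2
    have hHr := H0_real X hX σ
    have hH : H0 X σ = (((H0 X σ).re : ℝ) : ℂ) := by
      apply Complex.ext
      · simp
      · simpa using hHr.1
    have hG : GG α σ = (((GG α σ).re : ℝ) : ℂ) := by
      apply Complex.ext
      · simp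
      · simpa using (hq2 σ hσ).2.1
    have hXp : (X : ℂ) ^ (-(σ : ℂ)) = ((X ^ (-σ) : ℝ) : ℂ) := by
      rw [Complex.ofReal_cpow hX0.le]
      push_cast
      rfl
    unfold TT at hT
    rw [step_ofReal_int, hG, hH, hXp] at hT
    unfold upE
    exact_mod_cast hT
  have hne : ∀ σ : ℝ, 0 < σ → LR L σ ≠ 0 := by
    rcases hη with h1 | ⟨-, h1⟩
    · refine up_no_zero α L W hD q hq hq2 _ hBm hB0 0 (1 / 2) le_rfl
        (upE (lGold l r) η K X r) (fun σ hσ => upE_an _ _ _ _ hX _ σ hσ) le_rfl hint ?_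
      intro σ hσ
      rw [htr σ hσ, h1, one_mul]
    · exact h1
  have hland := land_real α L W hD q hq hq2 _ hBm hB0 η 0 (1 / 2) le_rfl
    (upE (lGold l r) η K X r) (fun σ hσ => upE_an _ _ _ _ hX _ σ hσ) le_rfl hint htr 0 le_rfl hne
  refine ⟨hη', hK, hX, h, fun σ hσ => (hland σ hσ).1, ?_⟩
  have hlim2 := up_lim L q (hq 0 le_rfl).1.continuousAt hq0 r l hl hlim
    η K X hX hne
  have hlim3 := (Complex.continuous_ofReal.tendsto (0 : ℝ)).comp hlim2
  rw [Complex.ofReal_zero] at hlim3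
  refine hlim3.congr' ?_
  filter_upwards [self_mem_nhdsWithin] with σ hσ
  have hσ0 : 0 < σ := hσ
  have h2 := (hland σ hσ0).2
  show ((upE (lGold l r) η K X r σ - η * gR L q σ : ℝ) : ℂ) = _
  unfold TT
  rw [← h2, step_ofReal_int]
  push_cast
  rfl

end W3283f
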