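import Pool.Agent.W_MP_3283e1_h19.FamAbs
import Pool.Agent.W_MP_3283e1_h19.UpOne

set_option autoImplicit false

namespace W3283f

open Complex W3283e1 Filter Topology

/-- The common core: no one sided bound `OneSided` for `AA α` can hold.  `coreF` (the multiplicities
are symmetric by `mL_fam`, `order_symm`) bounds the number of zeros on the line by `2 K T` and
excludes zeros with `Re > 1`; by the functional equation all zeros of `LamG` are on the imaginary
axis; `exp_type` contradicts `LamG_not_exp`. -/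
theorem fam_one_core (a : ℕ → ℝ) (κ ε : ℝ) (h : ThData a κ ε) (α : ℕ → ℂ) (LL W u : ℂ → ℂ)
    (hD : DataF α LL W)
    (hu : ∀ s : ℂ, 3 / 4 < s.re → AnalyticAt ℂ u s ∧ u s ≠ 0)
    (hLL : ∀ s : ℂ, 3 / 4 < s.re → LL s = LG a κ s * u s) (A ρ η K X : ℝ)
    (hO : OneSided α A ρ η K X) : False := by
  obtain ⟨hd, hsym, C, hgr⟩ := LamG_basic a κ ε h
  have hε : (ε : ℂ) = 1 ∨ (ε : ℂ) = -1 := by
    rcases h.eps with h1 | h1
    · left
      rw [h1, Complex.ofReal_one]
    · right
      rw [h1, Complex.ofReal_neg, Complex.ofReal_one]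
  have hms : ∀ γ : ℝ, mL LL (-γ) = mL LL γ := by
    intro γ
    rw [mL_fam a κ ε h LL u hu hLL, mL_fam a κ ε h LL u hu hLL]
    have h1 := order_symm (LamG a κ) hd (ε : ℂ) hε hsym (γ * I)
    rw [← h1]
    congr 1
    push_cast
    ring
  obtain ⟨hz, hcount⟩ := coreF α LL W hD A ρ η K X hO hms
  have hpos : ∀ s : ℂ, LamG a κ s = 0 → ¬ 0 < s.re := by
    intro s hs hre
    have hre1 : (1 + s).re = 1 + s.re := by rw [Complex.add_re, Complex.one_re]
    refine hz (1 + s) (by rw [hre1]; linarith) ?_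
    rw [hLL (1 + s) (by rw [hre1]; linarith), LamG_zero a κ ε h s (by linarith) hs, zero_mul]
  have hne : ∃ z, LamG a κ z ≠ 0 := ⟨1, fun h0 => hpos 1 h0 (by simp)⟩
  have hK := hO.hK
  refine LamG_not_exp a κ ε h (exp_type (LamG a κ) hd hne (ε : ℂ) hε hsym C hgr ?_ (2 * K)
    (by positivity) ?_)
  · intro s hs
    rcases lt_trichotomy s.re 0 with h1 | h1 | h1
    · exfalso
      have h2 : LamG a κ (-s) = 0 := by rw [hsym, hs, mul_zero]
      exact hpos (-s) h2 (by rw [Complex.neg_re]; linarith)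
    · exact h1
    · exact absurd h1 (hpos s hs)
  · intro T hT Γ hΓ
    have h1 := hcount T hT Γ hΓ
    refine le_trans (le_of_eq ?_) h1
    refine Finset.sum_congr rfl fun γ _ => ?_
    rw [mL_fam a κ ε h LL u hu hLL]

/-- As `fam_abs`, with `oneSided_gen` instead of `oneSided_of_two`. -/
theorem fam_one (a : ℕ → ℝ) (κ ε : ℝ) (h : ThData a κ ε) (α : ℕ → ℂ) (LL W u : ℂ → ℂ)
    (hD : DataR α LL W)
    (hu : ∀ s : ℂ, 3 / 4 < s.re → AnalyticAt ℂ u s ∧ u s ≠ 0)
    (hLL : ∀ s : ℂ, 3 / 4 < s.re → LL s = LG a κ s * u s) (r : ℕ) (l : ℝ) (hl : l ≠ 0)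
    (hlim : Tendsto (fun σ : ℝ => LR LL σ / σ ^ r) (𝓝[>] 0) (𝓝 l)) (η K X : ℝ)
    (hη : η = 1 ∨ (η = -1 ∧ ∀ σ : ℝ, 0 < σ → LR LL σ ≠ 0)) :
    ∃ x : ℝ, X ≤ x ∧
      K / Real.log x < η * (AA α x - lGold l r - r * Real.log (Real.log x)) := by
  by_contra hcon
  push Not at hcon
  have hK' : 0 < |K| + 1 := by positivity
  have hKK : K ≤ |K| + 1 := by linarith [le_abs_self K]
  have hO := oneSided_gen α LL W hD r l hl hlim η (|K| + 1) (max X 3) hη hK'
    (le_max_right _ _) (fun x hx => by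
      have hx3 : 3 ≤ x := (le_max_right _ _).trans hx
      have hlog : 0 < Real.log x := Real.log_pos (by linarith)
      exact (hcon x ((le_max_left _ _).trans hx)).trans
        (div_le_div_of_nonneg_right hKK hlog.le))
  exact fam_one_core a κ ε h α LL W u hD.toDataF hu hLL (lGold l r) r η (|K| + 1) (max X 3) hO

end W3283f
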