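import Pool.Agent.W_MP_3283e1_nt.Step
import Pool.Agent.W_MP_3283e1_nt.Lower
import Pool.Agent.W_MP_3283e1_nt.Fin

set_option autoImplicit false

namespace W3283f

open Complex W3283e1 MeasureTheory Filter Topology

/-- The nonnegative function of the criterion. -/
noncomputable def Bh (α : ℕ → ℂ) (η δ X : ℝ) (t : ℝ) : ℝ :=
  if t ≤ X then 14 * Real.sqrt X - η * AA α t else t ^ δ - η * AA α t

/-- Measurability and nonnegativity, as `Bf_meas`, `Bf_nonneg`. -/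
theorem Bh_meas (α : ℕ → ℂ) (η δ X : ℝ) : Measurable (Bh α η δ X) := by
  unfold Bh
  refine Measurable.ite measurableSet_Iic ?_ ?_
  · exact measurable_const.sub (measurable_const.mul (AA_meas α))
  · exact (measurable_id.pow_const δ).sub (measurable_const.mul (AA_meas α))

theorem Bh_nonneg (α : ℕ → ℂ) (hα : ∀ p : ℕ, p.Prime → p ≠ 2 → ‖α p‖ ^ 2 = p)
    (η δ X : ℝ) (hη : η = 1 ∨ η = -1) (h : ∀ x : ℝ, X ≤ x → η * AA α x ≤ x ^ δ)
    (t : ℝ) (ht : 1 < t) : 0 ≤ Bh α η δ X t := by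
  unfold Bh
  split_ifs with htX
  · have h1 := abs_AA_le α hα t (by linarith)
    have h2 : Real.sqrt t ≤ Real.sqrt X := Real.sqrt_le_sqrt htX
    obtain ⟨h3, h4⟩ := abs_le.1 h1
    rcases hη with rfl | rfl <;> linarith
  · have := h t (le_of_lt (not_le.1 htX))
    linarith

/-- The transform for `Re s > max(1/2, δ)`, as `Bf_transform`:
`∫_X^∞ t^{δ-s-1} dt = X^{δ-s}/(s-δ)`. -/
theorem Bh_transform (α : ℕ → ℂ) (hα : ∀ p : ℕ, p.Prime → p ≠ 2 → ‖α p‖ ^ 2 = p)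
    (η δ X : ℝ) (hδ : 0 < δ) (hX : 1 ≤ X) (s : ℂ) (hs : 1 / 2 < s.re) (hs' : δ < s.re) :
    IntegrableOn (fun t : ℝ => Bh α η δ X t * t ^ (-(s.re + 1))) (Set.Ioi 1) ∧
    s * ∫ t in Set.Ioi (1 : ℝ), (Bh α η δ X t : ℂ) * (t : ℂ) ^ (-(s + 1))
      = (14 * Real.sqrt X : ℝ) * (1 - (X : ℂ) ^ (-s)) + s * ((X : ℂ) ^ ((δ : ℂ) - s) / (s - δ))
        - η * GG α s := by
  have hσ : 0 < s.re := by linarith
  have hX1 : (1 : ℝ) ≤ X := hX
  have hX0 : (0 : ℝ) < X := by linarith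
  have hs0 : s ≠ 0 := by
    rintro rfl
    simp at hσ
  have hunion : Set.Ioc (1 : ℝ) X ∪ Set.Ioi X = Set.Ioi 1 := Set.Ioc_union_Ioi_eq_Ioi hX1
  have hdisj : Disjoint (Set.Ioc (1 : ℝ) X) (Set.Ioi X) := Set.Ioc_disjoint_Ioi le_rfl
  have hsubX : Set.Ioi X ⊆ Set.Ioi (1 : ℝ) := Set.Ioi_subset_Ioi hX1
  have hsubc : Set.Ioc (1 : ℝ) X ⊆ Set.Ioi 1 := Set.Ioc_subset_Ioi_self
  -- real integrability
  have hAA := AA_integrable α hα s.re hs
  have hH : IntegrableOn (fun t : ℝ => t ^ (δ - s.re - 1)) (Set.Ioi X) :=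
    integrableOn_Ioi_rpow_of_lt (by linarith) hX0
  have hK : IntegrableOn (fun t : ℝ => t ^ (-(s.re + 1))) (Set.Ioi 1) :=
    integrableOn_Ioi_rpow_of_lt (by linarith) one_pos
  have hint : IntegrableOn (fun t : ℝ => Bh α η δ X t * t ^ (-(s.re + 1))) (Set.Ioi 1) := by
    rw [← hunion]
    refine IntegrableOn.union ?_ ?_
    · have h1 : IntegrableOn (fun t : ℝ => 14 * Real.sqrt X * t ^ (-(s.re + 1)) -
          η * (AA α t * t ^ (-(s.re + 1)))) (Set.Ioc 1 X) :=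
        ((hK.mono_set hsubc).const_mul _).sub ((hAA.mono_set hsubc).const_mul _)
      refine h1.congr_fun ?_ measurableSet_Ioc
      intro t ht
      have htX : t ≤ X := ht.2
      simp only [Bh, if_pos htX]
      ring
    · have h1 : IntegrableOn (fun t : ℝ => t ^ (δ - s.re - 1) -
          η * (AA α t * t ^ (-(s.re + 1)))) (Set.Ioi X) :=
        hH.sub ((hAA.mono_set hsubX).const_mul _)
      refine h1.congr_fun ?_ measurableSet_Ioi
      intro t ht
      have htX : ¬ t ≤ X := not_le.2 ht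
      have ht0 : 0 < t := lt_trans hX0 ht
      have he : t ^ (δ - s.re - 1) = t ^ δ * t ^ (-(s.re + 1)) := by
        rw [← Real.rpow_add ht0]
        congr 1
        ring
      simp only [Bh, if_neg htX]
      rw [he]
      ring
  refine ⟨hint, ?_⟩
  -- complex integrability
  have cB := sb_conv _ (Bh_meas α η δ X) 1 zero_le_one s hint
  have cA := sb_conv _ (AA_meas α) 1 zero_le_one s hAA
  have cH : IntegrableOn (fun t : ℝ => (t : ℂ) ^ ((δ : ℂ) - s - 1)) (Set.Ioi X) :=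
    integrableOn_Ioi_cpow_of_lt (by simp; linarith) hX0
  have cK : IntegrableOn (fun t : ℝ => (t : ℂ) ^ (-(s + 1))) (Set.Ioi 1) :=
    integrableOn_Ioi_cpow_of_lt (by simp; linarith) one_pos
  have e1 : ∫ t in Set.Ioi (1 : ℝ), (Bh α η δ X t : ℂ) * (t : ℂ) ^ (-(s + 1)) =
      (∫ t in Set.Ioc 1 X, (Bh α η δ X t : ℂ) * (t : ℂ) ^ (-(s + 1))) +
        ∫ t in Set.Ioi X, (Bh α η δ X t : ℂ) * (t : ℂ) ^ (-(s + 1)) := by
    rw [← hunion]
    exact setIntegral_union hdisj measurableSet_Ioi (cB.mono_set hsubc) (cB.mono_set hsubX)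
  have e2 : ∫ t in Set.Ioc 1 X, (Bh α η δ X t : ℂ) * (t : ℂ) ^ (-(s + 1)) =
      ((14 * Real.sqrt X : ℝ) : ℂ) * (∫ t in Set.Ioc 1 X, (t : ℂ) ^ (-(s + 1))) -
        (η : ℂ) * ∫ t in Set.Ioc 1 X, (AA α t : ℂ) * (t : ℂ) ^ (-(s + 1)) := by
    rw [← integral_const_mul, ← integral_const_mul, ← integral_sub
      ((cK.mono_set hsubc).const_mul _) ((cA.mono_set hsubc).const_mul _)]
    refine setIntegral_congr_fun measurableSet_Ioc ?_
    intro t ht
    have htX : t ≤ X := ht.2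
    simp only [Bh, if_pos htX]
    push_cast
    ring
  have e3 : ∫ t in Set.Ioi X, (Bh α η δ X t : ℂ) * (t : ℂ) ^ (-(s + 1)) =
      (∫ t in Set.Ioi X, (t : ℂ) ^ ((δ : ℂ) - s - 1)) -
        (η : ℂ) * (∫ t in Set.Ioi X, (AA α t : ℂ) * (t : ℂ) ^ (-(s + 1))) := by
    have i2 : IntegrableOn (fun t : ℝ => (η : ℂ) * ((AA α t : ℂ) * (t : ℂ) ^ (-(s + 1))))
      (Set.Ioi X) := (cA.mono_set hsubX).const_mul _
    rw [← integral_const_mul, ← integral_sub cH i2]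
    refine setIntegral_congr_fun measurableSet_Ioi ?_
    intro t ht
    have htX : ¬ t ≤ X := not_le.2 ht
    have ht0 : 0 < t := lt_trans hX0 ht
    have htc : (t : ℂ) ≠ 0 := by exact_mod_cast ht0.ne'
    have he : (t : ℂ) ^ ((δ : ℂ) - s - 1) = (t : ℂ) ^ (δ : ℂ) * (t : ℂ) ^ (-(s + 1)) := by
      rw [← Complex.cpow_add _ _ htc]
      congr 1
      ring
    simp only [Bh, if_neg htX]
    rw [he, Complex.ofReal_sub, Complex.ofReal_cpow ht0.le]
    push_cast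
    ring
  have e4 : ∫ t in Set.Ioi (1 : ℝ), (AA α t : ℂ) * (t : ℂ) ^ (-(s + 1)) =
      (∫ t in Set.Ioc 1 X, (AA α t : ℂ) * (t : ℂ) ^ (-(s + 1))) +
        ∫ t in Set.Ioi X, (AA α t : ℂ) * (t : ℂ) ^ (-(s + 1)) := by
    rw [← hunion]
    exact setIntegral_union hdisj measurableSet_Ioi (cA.mono_set hsubc) (cA.mono_set hsubX)
  have e5 : ∫ t in Set.Ioi (1 : ℝ), (t : ℂ) ^ (-(s + 1)) =
      (∫ t in Set.Ioc 1 X, (t : ℂ) ^ (-(s + 1))) + ∫ t in Set.Ioi X, (t : ℂ) ^ (-(s + 1)) := by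
    rw [← hunion]
    exact setIntegral_union hdisj measurableSet_Ioi (cK.mono_set hsubc) (cK.mono_set hsubX)
  have hval : ∀ c : ℝ, 0 < c → s * ∫ t in Set.Ioi c, (t : ℂ) ^ (-(s + 1)) = (c : ℂ) ^ (-s) := by
    intro c hc
    rw [integral_Ioi_cpow_of_lt (by simp; linarith) hc]
    have h1 : -(s + 1) + 1 = -s := by ring
    rw [h1]
    field_simp
  have hvalδ : ∫ t in Set.Ioi X, (t : ℂ) ^ ((δ : ℂ) - s - 1) = (X : ℂ) ^ ((δ : ℂ) - s) / (s - δ) := by
    rw [integral_Ioi_cpow_of_lt (by simp; linarith) hX0]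
    have h1 : (δ : ℂ) - s - 1 + 1 = (δ : ℂ) - s := by ring
    have h2 : (δ : ℂ) - s = -(s - δ) := by ring
    rw [h1]
    conv_lhs => rw [show -(X : ℂ) ^ ((δ : ℂ) - s) / ((δ : ℂ) - s) =
      -(X : ℂ) ^ ((δ : ℂ) - s) / (-(s - δ)) by rw [← h2]]
    rw [neg_div_neg_eq]
  have v1 := hval 1 one_pos
  have vX := hval X hX0
  rw [e5] at v1
  simp only [ofReal_one, one_cpow] at v1
  have hG := GG_int α hα s hs
  rw [e4] at hG
  rw [e1, e2, e3, hG, hvalδ]
  linear_combination ((14 * Real.sqrt X : ℝ) : ℂ) * v1 - ((14 * Real.sqrt X : ℝ) : ℂ) * vX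

/-- The real power `X ^ (-τ)` is real analytic in `τ`. -/
theorem rh_rpow_analytic (X : ℝ) (hX0 : 0 < X) (c σ : ℝ) :
    AnalyticAt ℝ (fun τ : ℝ => X ^ (c - τ)) σ := by
  have h1 : (fun τ : ℝ => X ^ (c - τ)) = fun τ : ℝ => Real.exp (Real.log X * (c - τ)) := by
    funext τ
    rw [Real.rpow_def_of_pos hX0]
  rw [h1]
  have h2 : AnalyticAt ℝ (fun τ : ℝ => Real.log X * (c - τ)) σ :=
    analyticAt_const.mul (analyticAt_const.sub analyticAt_id)
  exact h2.rexp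

/-- The identity of `ident` on a half plane. -/
theorem rh_ident (α : ℕ → ℂ) (L W : ℂ → ℂ) (hD : Data α L W) (δ : ℝ) (hδ : 0 < δ)
    (Gt : ℂ → ℂ) (hGt : DifferentiableOn ℂ Gt {s : ℂ | δ < s.re})
    (heq : ∀ s : ℂ, max (1 / 2) δ < s.re → Gt s = GG α s)
    (R : ℂ → ℂ) (hR : DifferentiableOn ℂ R {s : ℂ | -(1 / 10) < s.re})
    (hid : ∀ s : ℂ, 1 / 2 < s.re →
        (L (1 + s)) ^ 2 * Complex.exp (2 * GG α s) * W s * ZZ (2 * s) * t2 (2 * s)
          = 2 * W (2 * s) * ZZ s * t2 s * Complex.exp (R s))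
    (s : ℂ) (hs : δ < s.re) :
    (L (1 + s)) ^ 2 * Complex.exp (2 * Gt s) * W s * ZZ (2 * s) * t2 (2 * s)
          = 2 * W (2 * s) * ZZ s * t2 s * Complex.exp (R s) := by
  have hopen : IsOpen {s : ℂ | δ < s.re} := isOpen_lt continuous_const Complex.continuous_re
  have hconv : Convex ℝ {s : ℂ | δ < s.re} := convex_halfSpace_re_gt δ
  have hsub : {s : ℂ | δ < s.re} ⊆ {s : ℂ | -(1 / 10) < s.re} := by
    intro z hz
    have : δ < z.re := hz
    show -(1 / 10) < z.re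
    linarith
  have hL1 : Differentiable ℂ (fun s : ℂ => L (1 + s)) :=
    hD.L_diff.comp ((differentiable_const 1).add differentiable_id)
  have h2 : Differentiable ℂ (fun s : ℂ => 2 * s) := (differentiable_const 2).mul differentiable_id
  have hW2 : Differentiable ℂ (fun s : ℂ => W (2 * s)) := hD.W_diff.comp h2
  have hZ2 : Differentiable ℂ (fun s : ℂ => ZZ (2 * s)) := ZZ_diff.comp h2
  have ht2 : Differentiable ℂ (fun s : ℂ => t2 (2 * s)) := t2_diff.comp h2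
  have hl : DifferentiableOn ℂ (fun s : ℂ =>
      (L (1 + s)) ^ 2 * Complex.exp (2 * Gt s) * W s * ZZ (2 * s) * t2 (2 * s))
      {s : ℂ | δ < s.re} := by
    refine ((((hL1.pow 2).differentiableOn.mul ?_).mul hD.W_diff.differentiableOn).mul
      hZ2.differentiableOn).mul ht2.differentiableOn
    exact (hGt.const_mul 2).cexp
  have hr : DifferentiableOn ℂ (fun s : ℂ =>
      2 * W (2 * s) * ZZ s * t2 s * Complex.exp (R s)) {s : ℂ | δ < s.re} := by
    refine ((((hW2.const_mul 2).mul ZZ_diff).mul t2_diff).differentiableOn.mul ?_)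
    exact (hR.mono hsub).cexp
  have hmre : (((max (1 / 2) δ + 1 : ℝ)) : ℂ).re = max (1 / 2) δ + 1 := Complex.ofReal_re _
  have hev : (fun s : ℂ =>
      (L (1 + s)) ^ 2 * Complex.exp (2 * Gt s) * W s * ZZ (2 * s) * t2 (2 * s))
      =ᶠ[nhds ((max (1 / 2) δ + 1 : ℝ) : ℂ)] (fun s : ℂ =>
      2 * W (2 * s) * ZZ s * t2 s * Complex.exp (R s)) := by
    have hop : IsOpen {s : ℂ | max (1 / 2) δ < s.re} :=
      isOpen_lt continuous_const Complex.continuous_re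
    have h1 : ((max (1 / 2) δ + 1 : ℝ) : ℂ) ∈ {s : ℂ | max (1 / 2) δ < s.re} := by
      show max (1 / 2) δ < ((max (1 / 2) δ + 1 : ℝ) : ℂ).re
      rw [hmre]; linarith
    filter_upwards [hop.mem_nhds h1] with z hz
    rw [heq z hz]
    exact hid z (lt_of_le_of_lt (le_max_left _ _) hz)
  have h1 : ((max (1 / 2) δ + 1 : ℝ) : ℂ) ∈ {s : ℂ | δ < s.re} := by
    show δ < ((max (1 / 2) δ + 1 : ℝ) : ℂ).re
    rw [hmre]
    have := le_max_right (1 / 2) δ
    linarith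
  exact (hl.analyticOnNhd hopen).eqOn_of_preconnected_of_eventuallyEq
    (hr.analyticOnNhd hopen) hconv.isPreconnected h1 hev hs

/-- A one sided bound `η log P(x) ≤ x^δ` implies that `L` has no zero with `Re s > 1 + δ`.
With `g` from `greal`: `F(σ) = (14 √X (1 - X^{-σ}) - η g σ)/σ + X^{δ-σ}/(σ-δ)` is real analytic on
`(δ,∞)` and equals the transform of `Bh` for `σ > max(1/2, δ)`; `landau` with `σ0 = δ`; so the transform
converges for `Re s > δ`, is holomorphic there (`param`), and `GG` has a holomorphic continuation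
`Gt` to `Re s > δ`.  By the identity theorem the basic identity (`ident`) holds with `Gt` on
`Re s > δ`; its right side does not vanish there (`W_ne`, `ZZ_ne`, `t2_ne`), so `L(1+s) ≠ 0`. -/
theorem rh_crit (α : ℕ → ℂ) (L W : ℂ → ℂ) (hD : Data α L W) (η δ X : ℝ)
    (hη : η = 1 ∨ η = -1) (hδ : 0 < δ) (hX : 1 ≤ X) (h : ∀ x : ℝ, X ≤ x → η * AA α x ≤ x ^ δ) :
    ∀ s : ℂ, 1 + δ < s.re → L s ≠ 0 := by
  have hX0 : 0 < X := by linarith
  have hηη : η * η = 1 := by rcases hη with rfl | rfl <;> norm_num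
  obtain ⟨g, hg, hg0, hgG⟩ := greal α L W hD
  have hα := hD.norm_α
  set B : ℝ → ℝ := Bh α η δ X with hBdef
  have hBm : Measurable B := Bh_meas α η δ X
  have hB0 : ∀ t, 1 < t → 0 ≤ B t := fun t ht => Bh_nonneg α hα η δ X hη h t ht
  set T : ℂ → ℂ := fun s => ∫ t in Set.Ioi (1 : ℝ), (B t : ℂ) * (t : ℂ) ^ (-(s + 1)) with hT
  set F : ℝ → ℝ := fun σ => (14 * Real.sqrt X * (1 - X ^ (0 - σ)) - η * g σ) / σ
      + X ^ (δ - σ) / (σ - δ) with hF
  have hFan : ∀ σ : ℝ, δ < σ → AnalyticAt ℝ F σ := by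
    intro σ hσ
    have hσ0 : 0 < σ := hδ.trans hσ
    have hp := rh_rpow_analytic X hX0 0 σ
    have hpδ := rh_rpow_analytic X hX0 δ σ
    have hgs := hg σ hσ0.le
    have hid : AnalyticAt ℝ (fun τ : ℝ => τ) σ := analyticAt_id
    have hnum : AnalyticAt ℝ (fun τ : ℝ => 14 * Real.sqrt X * (1 - X ^ (0 - τ)) - η * g τ) σ := by
      refine AnalyticAt.sub ?_ ?_
      · exact analyticAt_const.mul (analyticAt_const.sub hp)
      · exact analyticAt_const.mul hgs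
    have hden : AnalyticAt ℝ (fun τ : ℝ => τ - δ) σ := hid.sub analyticAt_const
    exact (hnum.div hid hσ0.ne').add (hpδ.div hden (sub_pos.2 hσ).ne')
  have hint1 : ∀ σ : ℝ, max (1 / 2) δ < σ →
      IntegrableOn (fun t : ℝ => B t * t ^ (-(σ + 1))) (Set.Ioi 1) := by
    intro σ hσ
    have h1 : 1 / 2 < σ := lt_of_le_of_lt (le_max_left _ _) hσ
    have h2 : δ < σ := lt_of_le_of_lt (le_max_right _ _) hσ
    have := (Bh_transform α hα η δ X hδ hX (σ : ℂ) (by simpa using h1) (by simpa using h2)).1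
    simpa using this
  have heq1 : ∀ σ : ℝ, max (1 / 2) δ < σ →
      F σ = ∫ t in Set.Ioi (1 : ℝ), B t * t ^ (-(σ + 1)) := by
    intro σ hσ
    have h1 : 1 / 2 < σ := lt_of_le_of_lt (le_max_left _ _) hσ
    have h2 : δ < σ := lt_of_le_of_lt (le_max_right _ _) hσ
    have hσ0 : 0 < σ := by linarith
    have hσδ : 0 < σ - δ := by linarith
    have htr := (Bh_transform α hα η δ X hδ hX (σ : ℂ) (by simpa using h1) (by simpa using h2)).2
    have hXp : (X : ℂ) ^ (-(σ : ℂ)) = ((X ^ (0 - σ) : ℝ) : ℂ) := by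
      rw [Complex.ofReal_cpow hX0.le]
      push_cast
      rw [zero_sub]
    have hXd : (X : ℂ) ^ ((δ : ℂ) - (σ : ℂ)) = ((X ^ (δ - σ) : ℝ) : ℂ) := by
      rw [Complex.ofReal_cpow hX0.le]
      push_cast
      rfl
    rw [step_ofReal_int B σ, hgG σ h1, hXp, hXd] at htr
    have htr' : σ * (∫ t in Set.Ioi (1 : ℝ), B t * t ^ (-(σ + 1)))
        = (14 * Real.sqrt X) * (1 - X ^ (0 - σ)) + σ * (X ^ (δ - σ) / (σ - δ)) - η * g σ := by
      exact_mod_cast htr
    have h3 : (∫ t in Set.Ioi (1 : ℝ), B t * t ^ (-(σ + 1)))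
        = ((14 * Real.sqrt X) * (1 - X ^ (0 - σ)) + σ * (X ^ (δ - σ) / (σ - δ)) - η * g σ) / σ := by
      rw [← htr', mul_div_cancel_left₀ _ hσ0.ne']
    rw [h3, hF]
    simp only
    field_simp
    ring
  have hland := landau B hBm hB0 F δ (max (1 / 2) δ) hFan hint1 heq1
  have hTdiff : DifferentiableOn ℂ T {s : ℂ | δ < s.re} :=
    param B hBm hB0 δ (fun σ hσ => (hland σ hσ).1)
  have hXne : (X : ℂ) ≠ 0 := by exact_mod_cast hX0.ne'
  set Gt : ℂ → ℂ := fun s => η * (-(s * T s) + ((14 * Real.sqrt X : ℝ) : ℂ) * (1 - (X : ℂ) ^ (-s))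
      + s * ((X : ℂ) ^ ((δ : ℂ) - s) / (s - δ))) with hGt
  have hGtd : DifferentiableOn ℂ Gt {s : ℂ | δ < s.re} := by
    have hid : DifferentiableOn ℂ (fun s : ℂ => s) {s : ℂ | δ < s.re} := differentiableOn_id
    have hpow : DifferentiableOn ℂ (fun s : ℂ => (X : ℂ) ^ (-s)) {s : ℂ | δ < s.re} :=
      (hid.neg).const_cpow (Or.inl hXne)
    have hpow2 : DifferentiableOn ℂ (fun s : ℂ => (X : ℂ) ^ ((δ : ℂ) - s)) {s : ℂ | δ < s.re} :=
      (hid.const_sub _).const_cpow (Or.inl hXne)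
    have hden : DifferentiableOn ℂ (fun s : ℂ => s - (δ : ℂ)) {s : ℂ | δ < s.re} :=
      hid.sub_const _
    refine DifferentiableOn.const_mul ?_ _
    refine DifferentiableOn.add (DifferentiableOn.add ?_ ?_) ?_
    · exact (hid.mul hTdiff).neg
    · exact (hpow.const_sub 1).const_mul _
    · refine hid.mul (hpow2.div hden ?_)
      intro s hs hz
      have hs' : δ < s.re := hs
      have := congrArg Complex.re hz
      simp at this
      linarith
  have hGte : ∀ s : ℂ, max (1 / 2) δ < s.re → Gt s = GG α s := by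
    intro s hs
    have h1 : 1 / 2 < s.re := lt_of_le_of_lt (le_max_left _ _) hs
    have h2 : δ < s.re := lt_of_le_of_lt (le_max_right _ _) hs
    have htr := (Bh_transform α hα η δ X hδ hX s h1 h2).2
    have hηηC : (η : ℂ) * η = 1 := by exact_mod_cast hηη
    rw [hGt]
    simp only
    rw [hT]
    simp only
    rw [htr]
    linear_combination (GG α s) * hηηC
  obtain ⟨R, hR, -, -, hid⟩ := ident α L W hD
  intro z hz hLz
  have hs : δ < (z - 1).re := by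
    rw [Complex.sub_re, Complex.one_re]
    linarith
  have hident := rh_ident α L W hD δ hδ Gt hGtd hGte R hR hid (z - 1) hs
  have hspos : 0 < (z - 1).re := hδ.trans hs
  have h2s : 0 < (2 * (z - 1)).re := by
    have : (2 * (z - 1)).re = 2 * (z - 1).re := by simp
    rw [this]
    linarith
  have hrhs : 2 * W (2 * (z - 1)) * ZZ (z - 1) * t2 (z - 1) * Complex.exp (R (z - 1)) ≠ 0 :=
    mul_ne_zero (mul_ne_zero (mul_ne_zero (mul_ne_zero two_ne_zero (hD.W_ne _ h2s))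
      (ZZ_ne _ hspos.le)) (t2_ne _ (by linarith))) (Complex.exp_ne_zero _)
  apply hrhs
  rw [← hident, add_sub_cancel, hLz]
  simp

/-- The criterion for the four curves. -/
theorem rh4 (a : ℤ) (h : a = -1 ∨ a = 4 ∨ a = 1 ∨ a = -4) :
    ∃ L : ℂ → ℂ, Differentiable ℂ L ∧
      (∀ s : ℂ, 3 / 2 < s.re → HasProd (fun p : {p : ℕ // p.Prime ∧ p ≠ 2} =>
        (1 - ((p : ℂ) + 1 - (npts a 0 p : ℂ)) * (p : ℂ) ^ (-s) + (p : ℂ) ^ (1 - 2 * s))⁻¹)
        (L s)) ∧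
      ∀ δ : ℝ, 0 < δ →
        ((∃ X : ℝ, ∀ x : ℝ, X ≤ x → bsdProd a 0 x ≤ Real.exp (x ^ δ)) ∨
          (∃ X : ℝ, ∀ x : ℝ, X ≤ x → Real.exp (-(x ^ δ)) ≤ bsdProd a 0 x)) →
        ∀ s : ℂ, 1 + δ < s.re → L s ≠ 0 := by
  obtain ⟨j, hj, hj'⟩ : ∃ j : ℕ, (((a = -1 ∨ a = 4) ∧ j = 0) ∨ ((a = 1 ∨ a = -4) ∧ j = 1)) ∧
      (j = 0 ∨ j = 1) := by
    rcases h with h | h | h | h
    · exact ⟨0, Or.inl ⟨Or.inl h, rfl⟩, Or.inl rfl⟩
    · exact ⟨0, Or.inl ⟨Or.inr h, rfl⟩, Or.inl rfl⟩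
    · exact ⟨1, Or.inr ⟨Or.inl h, rfl⟩, Or.inr rfl⟩
    · exact ⟨1, Or.inr ⟨Or.inr h, rfl⟩, Or.inr rfl⟩
  have hD := data_inst j hj'
  have hα := hD.norm_α
  refine ⟨LE j, hD.L_diff, ?_, ?_⟩
  · intro s hs
    have := hD.L_prod s hs
    refine this.congr_fun ?_
    intro p
    rw [euler_factor a j hj p p.2.1 p.2.2 s]
  · intro δ hδ hor
    have hbe : ∀ x : ℝ, bsdProd a 0 x = Real.exp (AA (alpha j) x) := fun x => by
      rw [bsdProd_eq a j hj x, PP_eq (alpha j) hα x]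
    rcases hor with ⟨X, hX⟩ | ⟨X, hX⟩
    · refine rh_crit (alpha j) (LE j) WW hD 1 δ (max X 1) (Or.inl rfl) hδ (le_max_right _ _) ?_
      intro x hx
      have h1 := hX x (le_trans (le_max_left _ _) hx)
      rw [hbe, Real.exp_le_exp] at h1
      rw [one_mul]
      exact h1
    · refine rh_crit (alpha j) (LE j) WW hD (-1) δ (max X 1) (Or.inr rfl) hδ (le_max_right _ _) ?_
      intro x hx
      have h1 := hX x (le_trans (le_max_left _ _) hx)
      rw [hbe, Real.exp_le_exp] at h1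
      linarith

end W3283f
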