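import Pool.Agent.W_MP_3283e1_h19.UpGen
import Pool.Agent.W_MP_3283e1_h19.RHc
import Pool.Agent.W_MP_3283e1_nt.Param

set_option autoImplicit false

namespace W3283f

open Complex W3283e1 MeasureTheory Filter Topology

/-- The identity of `QF_exists` on a half plane. -/
theorem rhf_ident (L Gt Gg Q : ℂ → ℂ) (hL : DifferentiableOn ℂ L {s : ℂ | 3 / 4 < s.re})
    (δ : ℝ) (hδ : 0 < δ) (hGt : DifferentiableOn ℂ Gt {s : ℂ | δ < s.re})
    (heq : ∀ s : ℂ, max (1 / 2) δ < s.re → Gt s = Gg s)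
    (hQ : ∀ s : ℂ, 0 ≤ s.re → AnalyticAt ℂ Q s)
    (hid : ∀ s : ℂ, 1 / 2 < s.re → (L (1 + s)) ^ 2 * Complex.exp (2 * Gg s) = Q s)
    (s : ℂ) (hs : δ < s.re) :
    (L (1 + s)) ^ 2 * Complex.exp (2 * Gt s) = Q s := by
  have hopen : IsOpen {s : ℂ | δ < s.re} := isOpen_lt continuous_const Complex.continuous_re
  have hconv : Convex ℝ {s : ℂ | δ < s.re} := convex_halfSpace_re_gt δ
  have hL1 : DifferentiableOn ℂ (fun s : ℂ => L (1 + s)) {s : ℂ | δ < s.re} := by
    refine hL.comp ((differentiableOn_const 1).add differentiableOn_id) ?_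
    intro z hz
    have hz' : δ < z.re := hz
    show 3 / 4 < (1 + z).re
    rw [Complex.add_re, Complex.one_re]
    linarith
  have hl : DifferentiableOn ℂ (fun s : ℂ =>
      (L (1 + s)) ^ 2 * Complex.exp (2 * Gt s)) {s : ℂ | δ < s.re} :=
    (hL1.pow 2).mul (hGt.const_mul 2).cexp
  have hr : AnalyticOnNhd ℂ Q {s : ℂ | δ < s.re} := fun z hz => hQ z (hδ.trans hz).le
  have hmre : (((max (1 / 2) δ + 1 : ℝ)) : ℂ).re = max (1 / 2) δ + 1 := Complex.ofReal_re _
  have hev : (fun s : ℂ => (L (1 + s)) ^ 2 * Complex.exp (2 * Gt s))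
      =ᶠ[nhds ((max (1 / 2) δ + 1 : ℝ) : ℂ)] Q := by
    have hop : IsOpen {s : ℂ | max (1 / 2) δ < s.re} :=
      isOpen_lt continuous_const Complex.continuous_re
    have h1 : ((max (1 / 2) δ + 1 : ℝ) : ℂ) ∈ {s : ℂ | max (1 / 2) δ < s.re} := by
      show max (1 / 2) δ < ((max (1 / 2) δ + 1 : ℝ) : ℂ).re
      rw [hmre]; linarith
    filter_upwards [hop.mem_nhds h1] with z hz
    rw [heq z hz]
    exact hid z (lt_of_le_of_lt (le_max_left _ _) hz)
  have h1 : ((max (1 / 2) δ + 1 : ℝ) : ℂ) ∈ {s : ℂ | δ < s.re} := by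
    show δ < ((max (1 / 2) δ + 1 : ℝ) : ℂ).re
    rw [hmre]
    have := le_max_right (1 / 2) δ
    linarith
  exact (hl.analyticOnNhd hopen).eqOn_of_preconnected_of_eventuallyEq
    hr hconv.isPreconnected h1 hev hs

/-- The one sided criterion in the general case (real zeros are excluded by `up_no_zero` if
`η = 1`).  `Bh_transform` in real form gives `htr` of `land_real` with
`E σ = 14 √X (1 - X^{-σ}) + σ X^{δ-σ}/(σ-δ)`, `σ1 = max (1/2) δ`; so the transform converges for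
`Re s > δ`, is holomorphic there (`W3283e1.param`), `GG` has a holomorphic continuation to
`Re s > δ`, and the identity `QF_exists` extends to `Re s > δ` by the identity theorem (`Q` is
analytic there); `Q ≠ 0` gives `L(1+s) ≠ 0`. -/
theorem rh_gen (α : ℕ → ℂ) (L W : ℂ → ℂ) (hD : DataR α L W) (η δ X : ℝ) (hδ : 0 < δ)
    (hη : η = 1 ∨ (η = -1 ∧ ∀ σ : ℝ, δ < σ → LR L σ ≠ 0)) (hX : 1 ≤ X)
    (h : ∀ x : ℝ, X ≤ x → η * AA α x ≤ x ^ δ) :
    ∀ s : ℂ, 1 + δ < s.re → L s ≠ 0 := by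
  have hX0 : 0 < X := by linarith
  have hη' : η = 1 ∨ η = -1 := hη.imp id And.left
  have hηη : η * η = 1 := by rcases hη' with rfl | rfl <;> norm_num
  have hα := hD.norm_α
  obtain ⟨q, hq, -, hq2⟩ := qR_exists α L W hD
  obtain ⟨Q, hQ, hQid⟩ := QF_exists α L W hD.toDataF
  set B : ℝ → ℝ := Bh α η δ X with hBdef
  have hBm : Measurable B := Bh_meas α η δ X
  have hB0 : ∀ t, 1 < t → 0 ≤ B t := fun t ht => Bh_nonneg α hα η δ X hη' h t ht
  set T : ℂ → ℂ := fun s => ∫ t in Set.Ioi (1 : ℝ), (B t : ℂ) * (t : ℂ) ^ (-(s + 1)) with hT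
  set E : ℝ → ℝ := fun σ => 14 * Real.sqrt X * (1 - X ^ (0 - σ))
      + σ * (X ^ (δ - σ) / (σ - δ)) with hE
  have hEan : ∀ σ : ℝ, δ < σ → AnalyticAt ℝ E σ := by
    intro σ hσ
    have hp := rh_rpow_analytic X hX0 0 σ
    have hpδ := rh_rpow_analytic X hX0 δ σ
    have hid : AnalyticAt ℝ (fun τ : ℝ => τ) σ := analyticAt_id
    have hden : AnalyticAt ℝ (fun τ : ℝ => τ - δ) σ := hid.sub analyticAt_const
    exact (analyticAt_const.mul (analyticAt_const.sub hp)).add
      (hid.mul (hpδ.div hden (sub_pos.2 hσ).ne'))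
  have hint1 : ∀ σ : ℝ, max (1 / 2) δ < σ →
      IntegrableOn (fun t : ℝ => B t * t ^ (-(σ + 1))) (Set.Ioi 1) := by
    intro σ hσ
    have h1 : 1 / 2 < σ := lt_of_le_of_lt (le_max_left _ _) hσ
    have h2 : δ < σ := lt_of_le_of_lt (le_max_right _ _) hσ
    have := (Bh_transform α hα η δ X hδ hX (σ : ℂ) (by simpa using h1) (by simpa using h2)).1
    simpa using this
  have htr1 : ∀ σ : ℝ, max (1 / 2) δ < σ →
      σ * ∫ t in Set.Ioi (1 : ℝ), B t * t ^ (-(σ + 1)) = E σ - η * (GG α σ).re := by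
    intro σ hσ
    have h1 : 1 / 2 < σ := lt_of_le_of_lt (le_max_left _ _) hσ
    have h2 : δ < σ := lt_of_le_of_lt (le_max_right _ _) hσ
    have htr := (Bh_transform α hα η δ X hδ hX (σ : ℂ) (by simpa using h1) (by simpa using h2)).2
    have hXp : (X : ℂ) ^ (-(σ : ℂ)) = ((X ^ (0 - σ) : ℝ) : ℂ) := by
      rw [Complex.ofReal_cpow hX0.le]
      push_cast
      rw [zero_sub]
    have hXd : (X : ℂ) ^ ((δ : ℂ) - (σ : ℂ)) = ((X ^ (δ - σ) : ℝ) : ℂ) := by
      rw [Complex.ofReal_cpow hX0.le]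
      push_cast
      rfl
    have hGr : GG α (σ : ℂ) = (((GG α (σ : ℂ)).re : ℝ) : ℂ) := by
      apply Complex.ext
      · rw [Complex.ofReal_re]
      · rw [Complex.ofReal_im]
        exact (hq2 σ h1).2.1
    rw [step_ofReal_int B σ, hGr, hXp, hXd] at htr
    exact_mod_cast htr
  have hne : ∀ σ : ℝ, δ < σ → LR L σ ≠ 0 := by
    rcases hη with h1 | ⟨_, h1⟩
    · refine up_no_zero α L W hD q hq hq2 B hBm hB0 δ (max (1 / 2) δ) hδ.le E hEan
        (le_max_left _ _) hint1 ?_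
      intro σ hσ
      have := htr1 σ hσ
      rwa [h1, one_mul] at this
    · exact h1
  have hland := land_real α L W hD q hq hq2 B hBm hB0 η δ (max (1 / 2) δ) hδ.le E hEan
    (le_max_left _ _) hint1 htr1 δ le_rfl hne
  have hTdiff : DifferentiableOn ℂ T {s : ℂ | δ < s.re} :=
    param B hBm hB0 δ (fun σ hσ => (hland σ hσ).1)
  have hXne : (X : ℂ) ≠ 0 := by exact_mod_cast hX0.ne'
  set Gt : ℂ → ℂ := fun s => η * (-(s * T s) + ((14 * Real.sqrt X : ℝ) : ℂ) * (1 - (X : ℂ) ^ (-s))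
      + s * ((X : ℂ) ^ ((δ : ℂ) - s) / (s - δ))) with hGt
  have hGtd : DifferentiableOn ℂ Gt {s : ℂ | δ < s.re} := by
    have hid : DifferentiableOn ℂ (fun s : ℂ => s) {s : ℂ | δ < s.re} := differentiableOn_id
    have hpow : DifferentiableOn ℂ (fun s : ℂ => (X : ℂ) ^ (-s)) {s : ℂ | δ < s.re} :=
      (hid.neg).const_cpow (Or.inl hXne)
    have hpow2 : DifferentiableOn ℂ (fun s : ℂ => (X : ℂ) ^ ((δ : ℂ) - s)) {s : ℂ | δ < s.re} :=
      (hid.const_sub _).const_cpow (Or.inl hXne)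
    have hden : DifferentiableOn ℂ (fun s : ℂ => s - (δ : ℂ)) {s : ℂ | δ < s.re} :=
      hid.sub_const _
    refine DifferentiableOn.const_mul ?_ _
    refine DifferentiableOn.add (DifferentiableOn.add ?_ ?_) ?_
    · exact (hid.mul hTdiff).neg
    · exact (hpow.const_sub 1).const_mul _
    · refine hid.mul (hpow2.div hden ?_)
      intro s hs hz
      have hs' : δ < s.re := hs
      have := congrArg Complex.re hz
      simp at this
      linarith
  have hGte : ∀ s : ℂ, max (1 / 2) δ < s.re → Gt s = GG α s := by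
    intro s hs
    have h1 : 1 / 2 < s.re := lt_of_le_of_lt (le_max_left _ _) hs
    have h2 : δ < s.re := lt_of_le_of_lt (le_max_right _ _) hs
    have htr := (Bh_transform α hα η δ X hδ hX s h1 h2).2
    have hηηC : (η : ℂ) * η = 1 := by exact_mod_cast hηη
    rw [hGt]
    simp only
    rw [hT]
    simp only
    rw [htr]
    linear_combination (GG α s) * hηηC
  intro z hz hLz
  have hs : δ < (z - 1).re := by
    rw [Complex.sub_re, Complex.one_re]
    linarith
  have hident := rhf_ident L Gt (GG α) Q hD.L_diff δ hδ hGtd hGte (fun s hs => (hQ s hs).1) hQid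
    (z - 1) hs
  apply (hQ (z - 1) (hδ.trans hs).le).2
  rw [← hident, add_sub_cancel, hLz]
  simp

end W3283f
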