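import Pool.Agent.W_MP_3283e1_h19.DatF
import Pool.Agent.W_MP_3283e1_h19.FamOne
import Pool.Agent.W_MP_3283e1_h19.RHf

set_option autoImplicit false

namespace W3283f

open Complex W3283e1 Filter Topology

/-- `LG` is real on the positive real axis: `Th` is real, so the Mellin transform is a real
integral (`W3283e1.melA_real`), `Γ(σ)` and `(πκ)^σ` are real. -/
theorem LG_real (a : ℕ → ℝ) (κ ε : ℝ) (h : ThData a κ ε) (σ : ℝ) (hσ : 0 < σ) :
    (LG a κ σ).im = 0 := by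
  have hk : 0 ≤ Real.pi * κ := (LG_pk_pos κ h.κpos).le
  unfold LG
  rw [melA_real, ← Complex.ofReal_cpow hk, Complex.Gamma_ofReal, ← Complex.ofReal_inv,
    ← Complex.ofReal_mul, ← Complex.ofReal_mul, Complex.ofReal_im]

/-- A single factor. -/
theorem DatR_fac (a : ℂ) (p : ℕ) (hp : p.Prime) (ha : ‖a‖ ^ 2 = p) (σ : ℝ) (hσ : 1 / 2 < σ) :
    ∃ r : ℝ, 0 < r ∧ (fL a p σ)⁻¹ = (r : ℂ) := by
  have hp1 : (1 : ℝ) < p := by exact_mod_cast hp.one_lt
  have hp0 : (0 : ℝ) < p := by linarith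
  have hx : (p : ℂ) ^ (-(σ : ℂ)) = (((p : ℝ) ^ (-σ) : ℝ) : ℂ) := by
    rw [Complex.ofReal_cpow hp0.le]
    push_cast
    rfl
  obtain ⟨z, hz⟩ : ∃ z : ℂ, z = 1 - a * (p : ℂ) ^ (-(σ : ℂ)) := ⟨_, rfl⟩
  have hz0 : z ≠ 0 := by
    intro h0
    have h1 : a * (p : ℂ) ^ (-(σ : ℂ)) = 1 := by
      rw [h0] at hz
      exact (sub_eq_zero.1 hz.symm).symm
    have h2 : ‖a‖ * (p : ℝ) ^ (-σ) = 1 := by
      have h3 := congrArg norm h1
      rw [norm_mul, hx, Complex.norm_real, norm_one, Real.norm_of_nonneg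
        (Real.rpow_nonneg hp0.le _)] at h3
      exact h3
    have h4 : (p : ℝ) * (p : ℝ) ^ (-(2 * σ)) = 1 := by
      have h5 : (‖a‖ * (p : ℝ) ^ (-σ)) ^ 2 = 1 := by rw [h2]; norm_num
      rw [mul_pow, ha, ← Real.rpow_natCast, ← Real.rpow_mul hp0.le] at h5
      rw [← h5]
      congr 2
      push_cast
      ring
    have h6 : (p : ℝ) ^ (1 - 2 * σ) = 1 := by
      rw [sub_eq_add_neg, Real.rpow_add hp0, Real.rpow_one]
      exact h4
    have h7 : (p : ℝ) ^ (1 - 2 * σ) < 1 := Real.rpow_lt_one_of_one_lt_of_neg hp1 (by linarith)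
    linarith
  refine ⟨(Complex.normSq z)⁻¹, inv_pos.mpr (Complex.normSq_pos.mpr hz0), ?_⟩
  rw [Complex.ofReal_inv, Complex.normSq_eq_conj_mul_self, mul_comm]
  congr 1
  unfold fL
  rw [hz, map_sub, map_one, map_mul, hx, Complex.conj_ofReal]

/-- `fL a p σ = |1 - a p^{-σ}|²` is real and positive for real `σ > 1/2`. -/
theorem uF_pos (n j : ℕ) (hn : Odd n) (σ : ℝ) (hσ : 1 / 2 < σ) :
    0 < (uF n j σ).re ∧ (uF n j σ).im = 0 := by
  have h1 : ∀ p : ℕ, ∃ r : ℝ, p ∈ n.primeFactors → 0 < r ∧ (fL (alF n j p) p σ)⁻¹ = (r : ℂ) := by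
    intro p
    by_cases hp : p ∈ n.primeFactors
    · have hpp := Nat.prime_of_mem_primeFactors hp
      have hdvd := Nat.dvd_of_mem_primeFactors hp
      have h2 : p ≠ 2 := by
        rintro rfl
        exact (Nat.not_even_iff_odd.2 hn) (even_iff_two_dvd.2 hdvd)
      obtain ⟨r, hr⟩ := DatR_fac (alF n j p) p hpp (norm_alF n j p hpp h2) σ hσ
      exact ⟨r, fun _ => hr⟩
    · exact ⟨0, fun h => absurd h hp⟩
  choose r hr using h1
  have h2 : uF n j σ = ((∏ p ∈ n.primeFactors, r p : ℝ) : ℂ) := by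
    unfold uF
    rw [Complex.ofReal_prod]
    exact Finset.prod_congr rfl fun p hp => (hr p hp).2
  rw [h2, Complex.ofReal_re, Complex.ofReal_im]
  exact ⟨Finset.prod_pos fun p hp => (hr p hp).1, rfl⟩

/-- `dataF_fam`, `LG_real`, `uF_pos`, `WW_pos`. -/
theorem dataR_fam (n j : ℕ) (hj : j = 0 ∨ j = 1) (hn : Odd n) (hs : Squarefree n) :
    DataR (alF n j) (LLF n j) WW := by
  have hT := thData_fam n j hj hn hs
  refine { dataF_fam n j hj hn hs with
    L_real := fun σ h3 => ?_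
    W_pos := WW_pos }
  have h1 := LG_real _ _ _ hT σ (by linarith)
  have h2 := (uF_pos n j hn σ (by linarith)).2
  unfold LLF
  rw [Complex.mul_im, h1, h2]
  ring

/-- For `n = 1` the function `LG (aFam 1 j) (kF 1 j)` agrees with `LE j` for `Re s > 3/2`
(`LG_eq`, `LE_eq01`; the coefficients agree: `aFam 1 j m = cE j m`, `cc_real`), hence everywhere by
the identity theorem; so it is positive on the positive real axis (`LE_pos`). -/
theorem LG_one_pos (j : ℕ) (hj : j = 0 ∨ j = 1) (σ : ℝ) (hσ : 0 < σ) :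
    0 < (LG (aFam 1 j) (kF 1 j) σ).re := by
  have hT := thData_fam 1 j hj odd_one squarefree_one
  have hc : (fun m : ℕ => ((aFam 1 j m : ℝ) : ℂ)) = cE j := by
    funext m
    rw [aFam_cast, jacobiSym.one_right]
    unfold cE
    push_cast
    ring
  have hj' : j = 0 ∨ j = 1 ∨ j = 2 := by
    rcases hj with h | h
    · exact Or.inl h
    · exact Or.inr (Or.inl h)
  have h1 : AnalyticOnNhd ℂ (LG (aFam 1 j) (kF 1 j)) Set.univ :=
    fun z _ => (LG_diff _ _ _ hT).analyticAt z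
  have h2 : AnalyticOnNhd ℂ (LE j) Set.univ := fun z _ => (LE_diff j hj').analyticAt z
  have h3 : LG (aFam 1 j) (kF 1 j) =ᶠ[nhds 2] LE j := by
    have hopen : IsOpen {s : ℂ | 3 / 2 < s.re} := isOpen_lt continuous_const Complex.continuous_re
    filter_upwards [hopen.mem_nhds (show (2 : ℂ) ∈ {s : ℂ | 3 / 2 < s.re} by
      change (3 / 2 : ℝ) < (2 : ℂ).re
      norm_num)] with s hs
    rw [(LG_eq _ _ _ hT s hs).2, LE_eq01 j hj s hs, hc]
  have h4 := h1.eq_of_eventuallyEq h2 h3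
  rw [h4]
  exact (LE_pos j hj' σ hσ).1

end W3283f
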