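import Pool.Agent.W_MP_3283e1_nt.Param
import Pool.Agent.W_MP_3283e1_nt.StepB

set_option autoImplicit false

namespace W3283f

open Complex W3283e1 MeasureTheory

/-- The transform `∫_1^∞ B(t) t^{-s-1} dt`. -/
noncomputable def TT (B : ℝ → ℝ) (s : ℂ) : ℂ :=
  ∫ t in Set.Ioi (1 : ℝ), (B t : ℂ) * (t : ℂ) ^ (-(s + 1))

/-- This is `W3283e1.param` with `σ0 = 0`. -/
theorem TT_diff (B : ℝ → ℝ) (hB : Measurable B) (h0 : ∀ t, 1 < t → 0 ≤ B t)
    (hint : ∀ σ : ℝ, 0 < σ → IntegrableOn (fun t : ℝ => B t * t ^ (-(σ + 1))) (Set.Ioi 1)) :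
    DifferentiableOn ℂ (TT B) {s : ℂ | 0 < s.re} :=
  param B hB h0 0 hint

/-- `log t ≤ t^{σ/2}/(σ/2)` for `t > 1`. -/
theorem TT_log_int (B : ℝ → ℝ) (hB : Measurable B) (h0 : ∀ t, 1 < t → 0 ≤ B t)
    (hint : ∀ σ : ℝ, 0 < σ → IntegrableOn (fun t : ℝ => B t * t ^ (-(σ + 1))) (Set.Ioi 1))
    (σ : ℝ) (hσ : 0 < σ) :
    IntegrableOn (fun t : ℝ => (B t * Real.log t) * t ^ (-(σ + 1))) (Set.Ioi 1) := by
  have h1 := (hint (σ / 2) (by linarith)).const_mul (σ / 2)⁻¹
  refine Integrable.mono' h1 ?_ ?_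
  · exact ((hB.mul Real.measurable_log).mul (measurable_id.pow_const _)).aestronglyMeasurable
  · refine (ae_restrict_iff' measurableSet_Ioi).2 (Filter.Eventually.of_forall fun t ht => ?_)
    have ht1 : 1 < t := ht
    have ht0 : 0 < t := by linarith
    have hlog : 0 ≤ Real.log t := Real.log_nonneg ht1.le
    have h2 : Real.log t ≤ t ^ (σ / 2) / (σ / 2) := Real.log_le_rpow_div ht0.le (by linarith)
    have h4 : 0 ≤ B t := h0 t ht1
    have h5 : 0 ≤ t ^ (-(σ + 1)) := Real.rpow_nonneg ht0.le _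
    rw [Real.norm_of_nonneg (mul_nonneg (mul_nonneg h4 hlog) h5)]
    calc B t * Real.log t * t ^ (-(σ + 1))
        ≤ B t * (t ^ (σ / 2) / (σ / 2)) * t ^ (-(σ + 1)) := by
          gcongr
      _ = (σ / 2)⁻¹ * (B t * (t ^ (σ / 2) * t ^ (-(σ + 1)))) := by ring
      _ = (σ / 2)⁻¹ * (B t * t ^ (-(σ / 2 + 1))) := by
          rw [← Real.rpow_add ht0]
          congr 3
          ring

/-- Differentiation under the integral sign (`hasDerivAt_integral_of_dominated_loc_of_deriv_le`;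
dominating function `B t log t t^{-(σ/2+1)}`, `TT_log_int` at `σ/2`). -/
theorem TT_deriv (B : ℝ → ℝ) (hB : Measurable B) (h0 : ∀ t, 1 < t → 0 ≤ B t)
    (hint : ∀ σ : ℝ, 0 < σ → IntegrableOn (fun t : ℝ => B t * t ^ (-(σ + 1))) (Set.Ioi 1))
    (s : ℂ) (hs : 0 < s.re) :
    HasDerivAt (TT B) (-TT (fun t => B t * Real.log t) s) s := by
  have hnorm : ∀ (s : ℂ) (t : ℝ), 1 < t →
      ‖(B t : ℂ) * (t : ℂ) ^ (-(s + 1))‖ = B t * t ^ (-(s.re + 1)) := by
    intro s t ht
    rw [norm_mul, Complex.norm_cpow_eq_rpow_re_of_pos (by linarith), Complex.norm_real,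
      Real.norm_of_nonneg (h0 t ht)]
    simp
  have hmeas : ∀ s : ℂ, Measurable (fun t : ℝ => (B t : ℂ) * (t : ℂ) ^ (-(s + 1))) := by
    intro s
    exact (Complex.measurable_ofReal.comp hB).mul (Complex.measurable_ofReal.pow_const _)
  have key := hasDerivAt_integral_of_dominated_loc_of_deriv_le
    (μ := volume.restrict (Set.Ioi (1 : ℝ))) (s := Metric.ball s (s.re / 2))
    (F := fun (s : ℂ) (t : ℝ) => (B t : ℂ) * (t : ℂ) ^ (-(s + 1)))
    (F' := fun (s : ℂ) (t : ℝ) => (B t : ℂ) * ((t : ℂ) ^ (-(s + 1)) * Complex.log t * (-1)))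
    (x₀ := s) (bound := fun t => (B t * Real.log t) * t ^ (-(s.re / 2 + 1)))
    (Metric.ball_mem_nhds s (by linarith)) ?_ ?_ ?_ ?_ ?_ ?_
  · refine key.2.congr_deriv ?_
    unfold TT
    rw [← integral_neg]
    refine setIntegral_congr_fun measurableSet_Ioi fun t ht => ?_
    have ht1 : 1 < t := ht
    change (B t : ℂ) * ((t : ℂ) ^ (-(s + 1)) * Complex.log t * (-1)) =
      -(((B t * Real.log t : ℝ) : ℂ) * (t : ℂ) ^ (-(s + 1)))
    rw [Complex.ofReal_mul, Complex.ofReal_log (by linarith)]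
    ring
  · exact Filter.Eventually.of_forall fun s => (hmeas s).aestronglyMeasurable
  · have h1 := hint s.re hs
    refine Integrable.mono' h1 (hmeas s).aestronglyMeasurable ?_
    refine (ae_restrict_iff' measurableSet_Ioi).2 (Filter.Eventually.of_forall fun t ht => ?_)
    exact (hnorm s t ht).le
  · refine Measurable.aestronglyMeasurable ?_
    refine (Complex.measurable_ofReal.comp hB).mul (Measurable.mul (Measurable.mul ?_ ?_) ?_)
    · exact Complex.measurable_ofReal.pow_const _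
    · exact Complex.measurable_log.comp Complex.measurable_ofReal
    · exact measurable_const
  · refine (ae_restrict_iff' measurableSet_Ioi).2 (Filter.Eventually.of_forall fun t ht z hz => ?_)
    have ht1 : 1 < t := ht
    have ht0 : 0 < t := by linarith
    have hlog : 0 ≤ Real.log t := Real.log_nonneg ht1.le
    have hre : s.re / 2 ≤ z.re := by
      rw [Metric.mem_ball, dist_eq_norm] at hz
      have h1 := (Complex.abs_re_le_norm (z - s)).trans hz.le
      rw [Complex.sub_re] at h1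
      have := (abs_le.1 h1).1
      linarith
    have e1 : ‖(B t : ℂ) * ((t : ℂ) ^ (-(z + 1)) * Complex.log t * (-1))‖ =
        Real.log t * (B t * t ^ (-(z.re + 1))) := by
      rw [← hnorm z t ht1, ← Complex.ofReal_log ht0.le]
      rw [norm_mul, norm_mul, norm_mul, norm_mul, Complex.norm_real (Real.log t),
        Real.norm_of_nonneg hlog, norm_neg, norm_one]
      ring
    rw [e1]
    have h3 : t ^ (-(z.re + 1)) ≤ t ^ (-(s.re / 2 + 1)) :=
      Real.rpow_le_rpow_of_exponent_le ht1.le (by linarith)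
    have h4 : 0 ≤ B t := h0 t ht1
    calc Real.log t * (B t * t ^ (-(z.re + 1)))
        ≤ Real.log t * (B t * t ^ (-(s.re / 2 + 1))) := by gcongr
      _ = (B t * Real.log t) * t ^ (-(s.re / 2 + 1)) := by ring
  · exact TT_log_int B hB h0 hint (s.re / 2) (by linarith)
  · refine (ae_restrict_iff' measurableSet_Ioi).2 (Filter.Eventually.of_forall fun t ht z _ => ?_)
    have ht1 : 1 < t := ht
    have ht0 : (t : ℂ) ≠ 0 := by
      have : t ≠ 0 := by linarith
      exact_mod_cast this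
    have h1 : HasDerivAt (fun s : ℂ => -(s + 1)) (-1) z := by
      exact ((hasDerivAt_id z).add_const (1 : ℂ)).neg
    exact (h1.const_cpow (Or.inl ht0)).const_mul _

/-- Positive definiteness.  For a nonnegative `D` with `∫_1^∞ D(t) t^{-σ-1} dt < ∞`:
`∑_{i,j} c_i conj(c_j) TT D (σ + i(l_i - l_j)) = ∫ D(t) t^{-σ-1} |∑_i c_i t^{-i l_i}|² dt ≥ 0`
(`t^{-i(l_i - l_j)} = t^{-i l_i} conj(t^{-i l_j})` for `t > 0`; `integral_finset_sum`, then the
integrand has real part `≥ 0`). -/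
theorem TT_pd (D : ℝ → ℝ) (hD : Measurable D) (h0 : ∀ t, 1 < t → 0 ≤ D t) (σ : ℝ)
    (hint : IntegrableOn (fun t : ℝ => D t * t ^ (-(σ + 1))) (Set.Ioi 1))
    (ι : Type) (S : Finset ι) (c : ι → ℂ) (l : ι → ℝ) :
    0 ≤ (∑ i ∈ S, ∑ j ∈ S, c i * (starRingEnd ℂ) (c j) *
      TT D (σ + ((l i - l j : ℝ) : ℂ) * I)).re := by
  have hI : ∀ i j : ι, IntegrableOn (fun t : ℝ => c i * (starRingEnd ℂ) (c j) *
      ((D t : ℂ) * (t : ℂ) ^ (-((σ : ℂ) + ((l i - l j : ℝ) : ℂ) * I + 1)))) (Set.Ioi 1) := by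
    intro i j
    refine Integrable.const_mul ?_ _
    refine Integrable.mono' hint ?_ ?_
    · exact ((Complex.measurable_ofReal.comp hD).mul
        (Complex.measurable_ofReal.pow_const _)).aestronglyMeasurable
    · refine (ae_restrict_iff' measurableSet_Ioi).2 (Filter.Eventually.of_forall fun t ht => ?_)
      have ht1 : 1 < t := ht
      rw [norm_mul, Complex.norm_cpow_eq_rpow_re_of_pos (by linarith), Complex.norm_real,
        Real.norm_of_nonneg (h0 t ht1)]
      simp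
  have hsum : ∑ i ∈ S, ∑ j ∈ S, c i * (starRingEnd ℂ) (c j) *
      TT D (σ + ((l i - l j : ℝ) : ℂ) * I) =
      ∫ t in Set.Ioi (1 : ℝ), ∑ i ∈ S, ∑ j ∈ S, c i * (starRingEnd ℂ) (c j) *
      ((D t : ℂ) * (t : ℂ) ^ (-((σ : ℂ) + ((l i - l j : ℝ) : ℂ) * I + 1))) := by
    rw [integral_finsetSum S fun i _ => integrable_finsetSum S fun j _ => hI i j]
    refine Finset.sum_congr rfl fun i _ => ?_
    rw [integral_finsetSum S fun j _ => hI i j]
    refine Finset.sum_congr rfl fun j _ => ?_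
    rw [integral_const_mul]
    rfl
  have hval : ∀ t ∈ Set.Ioi (1 : ℝ), ∑ i ∈ S, ∑ j ∈ S, c i * (starRingEnd ℂ) (c j) *
      ((D t : ℂ) * (t : ℂ) ^ (-((σ : ℂ) + ((l i - l j : ℝ) : ℂ) * I + 1))) =
      ((D t * t ^ (-(σ + 1)) * Complex.normSq (∑ i ∈ S, c i * (t : ℂ) ^ (-((l i : ℂ) * I))) : ℝ) :
        ℂ) := by
    intro t ht
    have ht1 : 1 < t := ht
    have ht0 : 0 < t := by linarith
    have htc : (t : ℂ) ≠ 0 := by exact_mod_cast ht0.ne'
    have hconj : ∀ j : ι, (starRingEnd ℂ) ((t : ℂ) ^ (-((l j : ℂ) * I))) =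
        (t : ℂ) ^ ((l j : ℂ) * I) := by
      intro j
      rw [Complex.cpow_def_of_ne_zero htc, Complex.cpow_def_of_ne_zero htc,
        ← Complex.exp_conj, ← Complex.ofReal_log ht0.le]
      congr 1
      simp
    rw [Complex.ofReal_mul, Complex.ofReal_mul, Complex.normSq_eq_conj_mul_self, map_sum,
      Finset.sum_mul_sum, Finset.mul_sum, Finset.sum_comm]
    refine Finset.sum_congr rfl fun j _ => ?_
    rw [Finset.mul_sum]
    refine Finset.sum_congr rfl fun i _ => ?_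
    rw [map_mul, hconj]
    have e1 : (-((σ : ℂ) + ((l i - l j : ℝ) : ℂ) * I + 1)) =
        (-((σ : ℂ) + 1)) + (-((l i : ℂ) * I)) + ((l j : ℂ) * I) := by
      push_cast
      ring
    have e2 : ((t ^ (-(σ + 1)) : ℝ) : ℂ) = (t : ℂ) ^ (-((σ : ℂ) + 1)) := by
      rw [Complex.ofReal_cpow ht0.le]
      push_cast
      rfl
    rw [e1, Complex.cpow_add _ _ htc, Complex.cpow_add _ _ htc, e2]
    ring
  rw [hsum, setIntegral_congr_fun measurableSet_Ioi hval, integral_complex_ofReal,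
    Complex.ofReal_re]
  refine setIntegral_nonneg measurableSet_Ioi fun t ht => ?_
  have ht1 : 1 < t := ht
  exact mul_nonneg (mul_nonneg (h0 t ht1) (Real.rpow_nonneg (by linarith) _))
    (Complex.normSq_nonneg _)

end W3283f
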