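import Pool.Agent.W_MP_3283e1_h19.H0D
import Pool.Agent.W_MP_3283e1_h19.TT

set_option autoImplicit false

namespace W3283f

open Complex W3283e1 MeasureTheory

/-- The nonnegative function; `a` is the logarithm of the constant, `ρ` the exponent. -/
noncomputable def Bg (α : ℕ → ℂ) (a ρ η K X : ℝ) (t : ℝ) : ℝ :=
  if t ≤ X then 14 * Real.sqrt X - η * AA α t
  else K / Real.log t - η * (AA α t - a - ρ * Real.log (Real.log t))

/-- Piecewise measurable (`AA_meas`), as `Bf_meas`. -/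
theorem Bg_meas (α : ℕ → ℂ) (a ρ η K X : ℝ) : Measurable (Bg α a ρ η K X) := by
  unfold Bg
  refine Measurable.ite measurableSet_Iic ?_ ?_
  · exact measurable_const.sub (measurable_const.mul (AA_meas α))
  · exact (measurable_const.div Real.measurable_log).sub
      (measurable_const.mul (((AA_meas α).sub measurable_const).sub
        (measurable_const.mul (Real.measurable_log.comp Real.measurable_log))))

/-- As `Bf_nonneg`. -/
theorem Bg_nonneg (α : ℕ → ℂ) (hα : ∀ p : ℕ, p.Prime → p ≠ 2 → ‖α p‖ ^ 2 = p)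
    (a ρ η K X : ℝ) (hη : η = 1 ∨ η = -1)
    (h : ∀ x : ℝ, X ≤ x → η * (AA α x - a - ρ * Real.log (Real.log x)) ≤ K / Real.log x)
    (t : ℝ) (ht : 1 < t) : 0 ≤ Bg α a ρ η K X t := by
  unfold Bg
  split_ifs with htX
  · have h1 := abs_AA_le α hα t (by linarith)
    have h2 : Real.sqrt t ≤ Real.sqrt X := Real.sqrt_le_sqrt htX
    obtain ⟨h3, h4⟩ := abs_le.1 h1
    rcases hη with rfl | rfl <;> linarith
  · have := h t (le_of_lt (not_le.1 htX))
    linarith

/-- The transform for `Re s > 1/2`, as `Bf_transform` (which is the case `ρ = 0`):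
`Bg α a ρ η K X t = Bf α a η K X t + η ρ log log t` for `t > X` and `Bg = Bf` for `t ≤ X`; use
`Bf_transform`, `H1_integrable` and `H1_eq`. -/
theorem Bg_transform (α : ℕ → ℂ) (hα : ∀ p : ℕ, p.Prime → p ≠ 2 → ‖α p‖ ^ 2 = p)
    (a ρ η K X : ℝ) (hX : 3 ≤ X) (s : ℂ) (hs : 1 / 2 < s.re) :
    IntegrableOn (fun t : ℝ => Bg α a ρ η K X t * t ^ (-(s.re + 1))) (Set.Ioi 1) ∧
    s * TT (Bg α a ρ η K X) s
      = (14 * Real.sqrt X : ℝ) * (1 - (X : ℂ) ^ (-s)) + K * s * H0 X s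
        + η * (a : ℂ) * (X : ℂ) ^ (-s)
        + η * ρ * ((Real.log (Real.log X) : ℂ) * (X : ℂ) ^ (-s) + H0 X s) - η * GG α s := by
  have hσ : 0 < s.re := by linarith
  have hX1 : (1 : ℝ) ≤ X := by linarith
  have hX0 : (0 : ℝ) < X := by linarith
  have hunion : Set.Ioc (1 : ℝ) X ∪ Set.Ioi X = Set.Ioi 1 := Set.Ioc_union_Ioi_eq_Ioi hX1
  have hdisj : Disjoint (Set.Ioc (1 : ℝ) X) (Set.Ioi X) := Set.Ioc_disjoint_Ioi le_rfl
  have hsubX : Set.Ioi X ⊆ Set.Ioi (1 : ℝ) := Set.Ioi_subset_Ioi hX1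
  have hsubc : Set.Ioc (1 : ℝ) X ⊆ Set.Ioi 1 := Set.Ioc_subset_Ioi_self
  obtain ⟨hBf, hBfv⟩ := Bf_transform α hα a η K X hX s hs
  have hH1 := H1_integrable X hX s.re hσ
  have hH1v := H1_eq X hX s hσ
  have hint : IntegrableOn (fun t : ℝ => Bg α a ρ η K X t * t ^ (-(s.re + 1))) (Set.Ioi 1) := by
    rw [← hunion]
    refine IntegrableOn.union ?_ ?_
    · refine (hBf.mono_set hsubc).congr_fun ?_ measurableSet_Ioc
      intro t ht
      have htX : t ≤ X := ht.2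
      simp only [Bf, Bg, if_pos htX]
    · have h1 : IntegrableOn (fun t : ℝ => Bf α a η K X t * t ^ (-(s.re + 1)) +
          (η * ρ) * (Real.log (Real.log t) * t ^ (-(s.re + 1)))) (Set.Ioi X) :=
        (hBf.mono_set hsubX).add (hH1.const_mul _)
      refine h1.congr_fun ?_ measurableSet_Ioi
      intro t ht
      have htX : ¬ t ≤ X := not_le.2 ht
      simp only [Bf, Bg, if_neg htX]
      ring
  refine ⟨hint, ?_⟩
  have cBf := sb_conv _ (Bf_meas α a η K X) 1 zero_le_one s hBf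
  have cBg := sb_conv _ (Bg_meas α a ρ η K X) 1 zero_le_one s hint
  have cH := sb_conv (fun t => Real.log (Real.log t))
    (Real.measurable_log.comp Real.measurable_log) X hX0.le s hH1
  have e1 : TT (Bg α a ρ η K X) s =
      (∫ t in Set.Ioc 1 X, (Bg α a ρ η K X t : ℂ) * (t : ℂ) ^ (-(s + 1))) +
        ∫ t in Set.Ioi X, (Bg α a ρ η K X t : ℂ) * (t : ℂ) ^ (-(s + 1)) := by
    unfold TT
    rw [← hunion]
    exact setIntegral_union hdisj measurableSet_Ioi (cBg.mono_set hsubc) (cBg.mono_set hsubX)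
  have e2 : ∫ t in Set.Ioi (1 : ℝ), (Bf α a η K X t : ℂ) * (t : ℂ) ^ (-(s + 1)) =
      (∫ t in Set.Ioc 1 X, (Bf α a η K X t : ℂ) * (t : ℂ) ^ (-(s + 1))) +
        ∫ t in Set.Ioi X, (Bf α a η K X t : ℂ) * (t : ℂ) ^ (-(s + 1)) := by
    rw [← hunion]
    exact setIntegral_union hdisj measurableSet_Ioi (cBf.mono_set hsubc) (cBf.mono_set hsubX)
  have e3 : ∫ t in Set.Ioc 1 X, (Bg α a ρ η K X t : ℂ) * (t : ℂ) ^ (-(s + 1)) =
      ∫ t in Set.Ioc 1 X, (Bf α a η K X t : ℂ) * (t : ℂ) ^ (-(s + 1)) := by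
    refine setIntegral_congr_fun measurableSet_Ioc ?_
    intro t ht
    have htX : t ≤ X := ht.2
    simp only [Bf, Bg, if_pos htX]
  have e4 : ∫ t in Set.Ioi X, (Bg α a ρ η K X t : ℂ) * (t : ℂ) ^ (-(s + 1)) =
      (∫ t in Set.Ioi X, (Bf α a η K X t : ℂ) * (t : ℂ) ^ (-(s + 1))) +
        (η * ρ : ℂ) * H1 X s := by
    unfold H1
    rw [← integral_const_mul, ← integral_add (cBf.mono_set hsubX) (cH.const_mul _)]
    refine setIntegral_congr_fun measurableSet_Ioi ?_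
    intro t ht
    have htX : ¬ t ≤ X := not_le.2 ht
    simp only [Bf, Bg, if_neg htX]
    push_cast
    ring
  have e5 : TT (Bg α a ρ η K X) s =
      (∫ t in Set.Ioi (1 : ℝ), (Bf α a η K X t : ℂ) * (t : ℂ) ^ (-(s + 1))) +
        (η * ρ : ℂ) * H1 X s := by
    rw [e1, e2, e3, e4]
    ring
  rw [e5]
  linear_combination hBfv + (η * ρ : ℂ) * hH1v

end W3283f
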