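import Pool.Agent.W_MP_3283e1_h19.PD1

set_option autoImplicit false

namespace W3283f

open Complex

/-- Let `res` be positive definite with `res 0 = K` and `res x = i η m(x)/x` for `x ≠ 0`, where
`η = ±1` and `m : ℝ → ℕ` is even.  By `pd_trig` with `u = η π/(2T)` and `Γ` the finite set `Γ0 ∪ -Γ0 ∪ {0}`
(`Γ0` contains all `x` in `(0,T)` with `m x ≠ 0`): pairing `x` and `-x`,
`0 ≤ K - ∑_{0 < x < T} (1 - x/T) (2 m(x)/x) sin(π x/(2T))`, and `sin(π x/(2T)) ≥ x/T`
(`Real.mul_le_sin`).  Hence `(2/T) ∑_{0<x<T} (1 - x/T) m(x) ≤ K`, and the terms with `x ≤ T/2`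
contribute at least `(1/T) ∑ m(x)`. -/
theorem pd_count (res : ℝ → ℂ) (h : PDef res) (K η : ℝ) (hη : η = 1 ∨ η = -1) (m : ℝ → ℕ)
    (hm : ∀ x, m (-x) = m x) (h0 : res 0 = K)
    (h1 : ∀ x : ℝ, x ≠ 0 → res x = I * η * (m x : ℂ) / x)
    (hfin : ∀ T : ℝ, {x : ℝ | |x| ≤ T ∧ m x ≠ 0}.Finite)
    (T : ℝ) (hT : 0 < T) (Γ : Finset ℝ) (hΓ : ∀ x ∈ Γ, 0 < x ∧ x ≤ T / 2) :
    ∑ x ∈ Γ, (m x : ℝ) ≤ K * T := by
  classical
  set F : Finset ℝ := (hfin T).toFinset.filter (fun x => 0 < x) with hF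
  have memF : ∀ x, x ∈ F ↔ (|x| ≤ T ∧ m x ≠ 0) ∧ 0 < x := by
    intro x
    rw [hF, Finset.mem_filter, Set.Finite.mem_toFinset]
    rfl
  have hFT : ∀ x ∈ F, 0 < x ∧ x ≤ T := by
    intro x hx
    obtain ⟨⟨h2, -⟩, h3⟩ := (memF x).1 hx
    rw [abs_of_pos h3] at h2
    exact ⟨h3, h2⟩
  set u : ℝ := η * (Real.pi / (2 * T)) with hu
  let f : ℝ → ℂ := fun x => Complex.exp (I * u * x) *
    (((max (1 - |x| / T) 0 : ℝ) : ℂ) * res x)
  -- the finite set
  set G : Finset ℝ := insert 0 (F ∪ F.image (fun x => -x)) with hG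
  have key := pd_trig h T hT G (by
    intro x hx hr
    rw [hG, Finset.mem_insert, Finset.mem_union, Finset.mem_image]
    by_cases h0' : x = 0
    · exact Or.inl h0'
    right
    have hmx : m x ≠ 0 := by
      intro h2
      apply hr
      rw [h1 x h0', h2]
      simp
    rcases lt_or_gt_of_ne h0' with h2 | h2
    · right
      refine ⟨-x, (memF _).2 ⟨⟨?_, ?_⟩, by linarith⟩, by ring⟩
      · rw [abs_neg]
        exact hx.le
      · rw [hm]
        exact hmx
    · left
      exact (memF _).2 ⟨⟨hx.le, hmx⟩, h2⟩) u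
  have hdisj : Disjoint F (F.image (fun x => -x)) := by
    rw [Finset.disjoint_left]
    intro x hx hx'
    obtain ⟨y, hy, hyx⟩ := Finset.mem_image.1 hx'
    have h2 := (hFT x hx).1
    have h3 := (hFT y hy).1
    linarith
  have h0G : (0 : ℝ) ∉ F ∪ F.image (fun x => -x) := by
    rw [Finset.mem_union, Finset.mem_image, not_or]
    constructor
    · intro h2
      exact lt_irrefl _ (hFT 0 h2).1
    · rintro ⟨y, hy, hy'⟩
      have h3 := (hFT y hy).1
      linarith
  have hsum : ∑ x ∈ G, f x = f 0 + ∑ x ∈ F, (f x + f (-x)) := by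
    rw [hG, Finset.sum_insert h0G, Finset.sum_union hdisj, Finset.sum_image, Finset.sum_add_distrib]
    intro a _ b _ hab
    simp only at hab
    linarith
  have hf0 : f 0 = (K : ℂ) := by
    simp only [f]
    rw [h0]
    simp
  have hηη : η * η = 1 := by
    rcases hη with rfl | rfl <;> norm_num
  have hpair : ∀ x ∈ F, f x + f (-x) =
      ((-(2 * (max (1 - |x| / T) 0) * ((m x : ℝ) / x) *
        Real.sin (Real.pi * x / (2 * T))) : ℝ) : ℂ) := by
    intro x hx
    obtain ⟨hx0, hxT⟩ := hFT x hx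
    have hxne : x ≠ 0 := hx0.ne'
    have hxne' : -x ≠ 0 := neg_ne_zero.2 hxne
    have e1 : res (-x) = - res x := by
      rw [h1 x hxne, h1 (-x) hxne', hm]
      push_cast
      rw [div_neg]
    have e2 : f (-x) = -(Complex.exp (-(I * u * x)) *
        (((max (1 - |x| / T) 0 : ℝ) : ℂ) * res x)) := by
      simp only [f]
      rw [e1, abs_neg]
      push_cast
      have e3 : I * (u : ℂ) * (-(x : ℂ)) = -(I * u * x) := by ring
      rw [e3]
      ring
    have e4 : Complex.exp (I * u * x) - Complex.exp (-(I * u * x)) =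
        2 * I * (Real.sin (u * x) : ℂ) := by
      have e5 : I * (u : ℂ) * x = ((u * x : ℝ) : ℂ) * I := by
        push_cast
        ring
      have e6 : -(((u * x : ℝ) : ℂ) * I) = -((u * x : ℝ) : ℂ) * I := by ring
      rw [e5, e6, Complex.exp_mul_I, Complex.exp_mul_I, Complex.cos_neg, Complex.sin_neg,
        Complex.ofReal_sin]
      ring
    have e7 : Real.sin (u * x) = η * Real.sin (Real.pi * x / (2 * T)) := by
      have e8 : u * x = η * (Real.pi * x / (2 * T)) := by
        rw [hu]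
        ring
      rw [e8]
      rcases hη with rfl | rfl
      · rw [one_mul, one_mul]
      · rw [neg_one_mul, neg_one_mul, Real.sin_neg]
    have e9 : f x + f (-x) = (((max (1 - |x| / T) 0 : ℝ) : ℂ) * res x) *
        (Complex.exp (I * u * x) - Complex.exp (-(I * u * x))) := by
      rw [e2]
      simp only [f]
      ring
    rw [e9, e4, e7, h1 x hxne]
    have hII : I * I = -1 := Complex.I_mul_I
    have hηc : (η : ℂ) * (η : ℂ) = 1 := by
      rw [← Complex.ofReal_mul, hηη, Complex.ofReal_one]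
    generalize hM : max (1 - |x| / T) 0 = M
    generalize hS : Real.sin (Real.pi * x / (2 * T)) = S
    have hxc : (x : ℂ) ≠ 0 := Complex.ofReal_ne_zero.2 hxne
    push_cast
    have e10 : (M : ℂ) * (I * η * (m x : ℂ) / x) * (2 * I * (η * S)) =
        (I * I) * (η * η) * (2 * M * ((m x : ℂ) / x) * S) := by
      field_simp
    rw [e10, hII, hηc]
    ring
  have hkey : 0 ≤ K - ∑ x ∈ F, (2 * (max (1 - |x| / T) 0) * ((m x : ℝ) / x) *
        Real.sin (Real.pi * x / (2 * T))) := by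
    have e1 : ∑ x ∈ G, f x = ((K - ∑ x ∈ F, (2 * (max (1 - |x| / T) 0) * ((m x : ℝ) / x) *
        Real.sin (Real.pi * x / (2 * T))) : ℝ) : ℂ) := by
      rw [hsum, hf0, Finset.sum_congr rfl hpair, ← Complex.ofReal_sum, ← Complex.ofReal_add,
        Finset.sum_neg_distrib, sub_eq_add_neg]
    have e2 : 0 ≤ (∑ x ∈ G, f x).re := key
    rw [e1, Complex.ofReal_re] at e2
    exact e2
  -- lower bounds of the terms
  have hnn : ∀ x ∈ F, 0 ≤ 2 * (max (1 - |x| / T) 0) * ((m x : ℝ) / x) *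
        Real.sin (Real.pi * x / (2 * T)) := by
    intro x hx
    obtain ⟨hx0, hxT⟩ := hFT x hx
    have hs : 0 ≤ Real.sin (Real.pi * x / (2 * T)) := by
      apply Real.sin_nonneg_of_nonneg_of_le_pi
      · positivity
      · rw [div_le_iff₀ (by positivity)]
        have := Real.pi_pos
        nlinarith
    have hmx : (0 : ℝ) ≤ max (1 - |x| / T) 0 := le_max_right _ _
    positivity
  have hlow : ∀ x ∈ F, x ≤ T / 2 → (m x : ℝ) / T ≤ 2 * (max (1 - |x| / T) 0) *
      ((m x : ℝ) / x) * Real.sin (Real.pi * x / (2 * T)) := by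
    intro x hx hx2
    obtain ⟨hx0, hxT⟩ := hFT x hx
    have hpi := Real.pi_pos
    have hs : x / T ≤ Real.sin (Real.pi * x / (2 * T)) := by
      have e1 := Real.mul_le_sin (x := Real.pi * x / (2 * T)) (by positivity) (by
        rw [div_le_div_iff₀ (by positivity) (by norm_num)]
        nlinarith)
      have e2 : 2 / Real.pi * (Real.pi * x / (2 * T)) = x / T := by
        field_simp
      rwa [e2] at e1
    have hM : (1 : ℝ) / 2 ≤ max (1 - |x| / T) 0 := by
      refine le_max_of_le_left ?_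
      rw [abs_of_pos hx0]
      have : x / T ≤ 1 / 2 := by
        rw [div_le_iff₀ hT]
        linarith
      linarith
    have hmx : (0 : ℝ) ≤ (m x : ℝ) / x := by positivity
    have hxT' : 0 ≤ x / T := by positivity
    calc (m x : ℝ) / T = 2 * (1 / 2) * ((m x : ℝ) / x) * (x / T) := by
          field_simp
      _ ≤ 2 * (max (1 - |x| / T) 0) * ((m x : ℝ) / x) * (x / T) := by
          gcongr
      _ ≤ _ := by
          gcongr
  -- the comparison
  have hcmp : ∑ x ∈ Γ, (m x : ℝ) / T ≤ ∑ x ∈ F, (2 * (max (1 - |x| / T) 0) *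
      ((m x : ℝ) / x) * Real.sin (Real.pi * x / (2 * T))) := by
    have e1 : ∑ x ∈ Γ, (m x : ℝ) / T = ∑ x ∈ Γ.filter (fun x => m x ≠ 0), (m x : ℝ) / T := by
      symm
      apply Finset.sum_filter_of_ne
      intro x _ hx hm0
      apply hx
      rw [hm0]
      simp
    rw [e1]
    have hsub : Γ.filter (fun x => m x ≠ 0) ⊆ F := by
      intro x hx
      obtain ⟨h2, h3⟩ := Finset.mem_filter.1 hx
      obtain ⟨h4, h5⟩ := hΓ x h2
      refine (memF x).2 ⟨⟨?_, h3⟩, h4⟩
      rw [abs_of_pos h4]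
      linarith
    refine le_trans (Finset.sum_le_sum fun x hx => ?_)
      (Finset.sum_le_sum_of_subset_of_nonneg hsub fun x hx _ => hnn x hx)
    exact hlow x (hsub hx) (hΓ x (Finset.mem_filter.1 hx).1).2
  have hfinal : ∑ x ∈ Γ, (m x : ℝ) / T ≤ K := by linarith
  rw [← Finset.sum_div, div_le_iff₀ hT] at hfinal
  exact hfinal

end W3283f
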