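import Pool.Agent.W_MP_3283e1_h19.Resid
import Pool.Agent.W_MP_3283e1_h19.PD2

set_option autoImplicit false

namespace W3283f

open Complex W3283e1 Filter Topology

/-- The residue function. -/
noncomputable def resF (L : ℂ → ℂ) (η K : ℝ) (γ : ℝ) : ℂ :=
  if γ = 0 then (K : ℂ) else I * η * (mL L γ : ℂ) / γ

/-- The residue function is positive definite: by `TT_pd` (applied to `Bg log t`, `TT_log_int`)
the sums `∑ c_i conj(c_j) TT(...)(σ + i(l_i - l_j))` have nonnegative real part for every `σ > 0`;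
multiply by `σ` and let `σ → 0+` (`resid_ne`, `resid_zero`). -/
theorem resF_pd (α : ℕ → ℂ) (L W : ℂ → ℂ) (hD : DataF α L W) (a ρ η K X : ℝ)
    (h : OneSided α a ρ η K X) : PDef (resF L η K) := by
  intro ι S c l
  set D : ℝ → ℝ := fun t => Bg α a ρ η K X t * Real.log t with hDdef
  have hBm : Measurable (Bg α a ρ η K X) := Bg_meas α a ρ η K X
  have hBn : ∀ t, 1 < t → 0 ≤ Bg α a ρ η K X t :=
    fun t ht => Bg_nonneg α hD.norm_α a ρ η K X h.hη h.bd t ht
  have hDm : Measurable D := hBm.mul Real.measurable_log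
  have hDn : ∀ t, 1 < t → 0 ≤ D t := fun t ht => mul_nonneg (hBn t ht) (Real.log_nonneg ht.le)
  -- pointwise limits
  have hlim : ∀ γ : ℝ, Tendsto (fun σ : ℝ => (σ : ℂ) * TT D (σ + ((γ : ℝ) : ℂ) * I))
      (𝓝[>] 0) (𝓝 (resF L η K γ)) := by
    intro γ
    by_cases hγ : γ = 0
    · have h0 := (resid_zero α L W hD a ρ η K X h).2
      simp only [resF, hγ, if_true, Complex.ofReal_zero, zero_mul, add_zero]
      exact h0
    · have h1 := resid_ne α L W hD a ρ η K X h γ hγ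
      simp only [resF, hγ, if_false]
      exact h1
  have hsum : Tendsto (fun σ : ℝ => (∑ i ∈ S, ∑ j ∈ S, c i * (starRingEnd ℂ) (c j) *
      ((σ : ℂ) * TT D (σ + ((l i - l j : ℝ) : ℂ) * I))).re) (𝓝[>] 0)
      (𝓝 (∑ i ∈ S, ∑ j ∈ S, c i * (starRingEnd ℂ) (c j) * resF L η K (l i - l j)).re) := by
    refine (Complex.continuous_re.tendsto _).comp ?_
    refine tendsto_finsetSum _ fun i _ => tendsto_finsetSum _ fun j _ => ?_
    exact (hlim (l i - l j)).const_mul _
  refine ge_of_tendsto hsum ?_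
  filter_upwards [self_mem_nhdsWithin] with σ hσ
  have hσ0 : 0 < σ := hσ
  have hint := TT_log_int (Bg α a ρ η K X) hBm hBn h.conv σ hσ0
  have hpd := TT_pd D hDm hDn σ hint ι S c l
  have e : (∑ i ∈ S, ∑ j ∈ S, c i * (starRingEnd ℂ) (c j) *
      ((σ : ℂ) * TT D (σ + ((l i - l j : ℝ) : ℂ) * I)))
      = (σ : ℂ) * (∑ i ∈ S, ∑ j ∈ S, c i * (starRingEnd ℂ) (c j) *
      TT D (σ + ((l i - l j : ℝ) : ℂ) * I)) := by
    rw [Finset.mul_sum]
    refine Finset.sum_congr rfl fun i _ => ?_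
    rw [Finset.mul_sum]
    refine Finset.sum_congr rfl fun j _ => ?_
    ring
  rw [e, Complex.re_ofReal_mul]
  exact mul_nonneg hσ0.le hpd

/-- Main consequence of a one sided bound: `L` has no zero with `Re > 1` (`Nf_deriv`), and the
number of zeros `1 + iγ` with `0 < γ ≤ T` is at most `2 K T`: `pd_count` with `T` replaced by `2T`;
the multiplicities are symmetric by hypothesis; finiteness by `logD_fin_zeros`. -/
theorem coreF (α : ℕ → ℂ) (L W : ℂ → ℂ) (hD : DataF α L W) (a ρ η K X : ℝ)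
    (h : OneSided α a ρ η K X) (hsym : ∀ γ : ℝ, mL L (-γ) = mL L γ) :
    (∀ s : ℂ, 1 < s.re → L s ≠ 0) ∧
      ∀ T : ℝ, 0 < T → ∀ Γ : Finset ℝ, (∀ γ ∈ Γ, 0 < γ ∧ γ ≤ T) →
        ∑ γ ∈ Γ, (mL L γ : ℝ) ≤ 2 * K * T := by
  have hfirst : ∀ s : ℂ, 1 < s.re → L s ≠ 0 := by
    intro s hs
    obtain ⟨q, _, hq⟩ := Nf_deriv α L W hD a ρ η K X h
    have := (hq (s - 1) (by simp; linarith)).1
    simpa using this
  refine ⟨hfirst, ?_⟩
  intro T hT Γ hΓ
  have hLd : DifferentiableOn ℂ (fun s : ℂ => L (1 + s)) {s : ℂ | -(1 / 4) < s.re} := by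
    refine hD.L_diff.comp (by fun_prop) ?_
    intro s hs
    simp only [Set.mem_ofPred_eq, Complex.add_re, Complex.one_re] at hs ⊢
    linarith
  have hfin : ∀ T : ℝ, {x : ℝ | |x| ≤ T ∧ mL L x ≠ 0}.Finite := by
    intro T
    have h1 := logD_fin_zeros (fun s : ℂ => L (1 + s)) (-(1 / 4)) hLd 1 (by norm_num)
      (hfirst (1 + 1) (by norm_num)) 0 (by norm_num) T
    refine h1.subset ?_
    rintro x ⟨hx1, hx2⟩
    refine ⟨hx1, ?_⟩
    have h2 := apply_eq_zero_of_analyticOrderNatAt_ne_zero hx2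
    simpa using h2
  have key := pd_count (resF L η K) (resF_pd α L W hD a ρ η K X h) K η h.hη (mL L) hsym
    (by simp [resF]) (fun x hx => by simp [resF, hx]) hfin (2 * T) (by linarith) Γ
    (fun x hx => ⟨(hΓ x hx).1, by linarith [(hΓ x hx).2]⟩)
  linarith

end W3283f
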