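import Pool.Agent.W_MP_3283e1_h19.Four

set_option autoImplicit false

namespace W3283f

open Complex W3283e1

/-- The product only depends on the integer part. -/
theorem PP_floor (α : ℕ → ℂ) (x : ℝ) : PP α x = PP α (⌊x⌋₊ : ℕ) := by
  unfold PP
  rw [Nat.floor_natCast]

/-- One step: a new odd prime multiplies by its factor. -/
theorem PP_succ_prime (α : ℕ → ℂ) (n : ℕ) (hp : (n + 1).Prime) (h2 : n + 1 ≠ 2) :
    PP α ((n + 1 : ℕ) : ℝ) =
      PP α (n : ℝ) * ((((n + 1 : ℕ) : ℝ) + 1 - 2 * (α (n + 1)).re) / ((n + 1 : ℕ) : ℝ)) := by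
  classical
  unfold PP
  rw [Nat.floor_natCast, Nat.floor_natCast, Finset.range_add_one (n := n + 1),
    Finset.filter_insert, if_pos ⟨hp, h2⟩, Finset.prod_insert, mul_comm]
  simp

theorem PP_succ_not (α : ℕ → ℂ) (n : ℕ) (hp : ¬ ((n + 1).Prime ∧ n + 1 ≠ 2)) :
    PP α ((n + 1 : ℕ) : ℝ) = PP α (n : ℝ) := by
  classical
  unfold PP
  rw [Nat.floor_natCast, Nat.floor_natCast, Finset.range_add_one (n := n + 1),
    Finset.filter_insert, if_neg hp]

/-- Lower bound for one factor. -/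
theorem factor_low (a : ℂ) (p : ℕ) (hp : p.Prime) (ha : ‖a‖ ^ 2 = p) :
    1 - 2 / Real.sqrt p ≤ ((p : ℝ) + 1 - 2 * a.re) / p := by
  rw [ratio_eq a p hp ha]
  have h1 := (W3283e1.norm_div a p hp ha).1
  have hp0 : (0 : ℝ) < p := by exact_mod_cast hp.pos
  have h2 : (p : ℝ) ^ (-(1 / 2) : ℝ) = 1 / Real.sqrt p := by
    rw [Real.rpow_neg hp0.le, ← Real.sqrt_eq_rpow, one_div]
  rw [h2] at h1
  have h3 : 1 - ‖a / (p : ℂ)‖ ≤ ‖1 - a / (p : ℂ)‖ := by
    have := norm_sub_norm_le (1 : ℂ) (a / p)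
    rwa [norm_one] at this
  have h4 : ‖a / (p : ℂ)‖ ≤ 1 := by
    have := (W3283e1.norm_div a p hp ha).2
    linarith
  have h5 : (1 - ‖a / (p : ℂ)‖) ^ 2 ≤ ‖1 - a / (p : ℂ)‖ ^ 2 :=
    pow_le_pow_left₀ (by linarith) h3 2
  have h6 : 1 - 2 / Real.sqrt p ≤ (1 - ‖a / (p : ℂ)‖) ^ 2 := by
    rw [h1]
    have h7 : 0 ≤ (1 / Real.sqrt p) ^ 2 := by positivity
    have h8 : (1 - 1 / Real.sqrt p) ^ 2 = 1 - 2 / Real.sqrt p + (1 / Real.sqrt p) ^ 2 := by ring
    linarith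
  linarith

/-- Discrete crossing: if `PP > C` at `n1` and `PP ≤ C` at a later integer, then at some integer in
between `PP` is within `4 C/√n` of `C`. -/
theorem cross_aux (α : ℕ → ℂ) (hα : ∀ p : ℕ, p.Prime → p ≠ 2 → ‖α p‖ ^ 2 = p) (C : ℝ)
    (n1 : ℕ) (h16 : 16 ≤ n1) (h1 : C < PP α (n1 : ℝ)) (d : ℕ)
    (h2 : PP α ((n1 + d : ℕ) : ℝ) ≤ C) :
    ∃ n : ℕ, n1 < n ∧ |PP α (n : ℝ) - C| ≤ 4 * C / Real.sqrt n := by
  induction d with
  | zero =>
    exfalso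
    rw [Nat.add_zero] at h2
    linarith
  | succ d ih =>
    by_cases h3 : PP α ((n1 + d : ℕ) : ℝ) ≤ C
    · exact ih h3
    · push Not at h3
      set n : ℕ := n1 + d with hn
      have hsucc : n1 + (d + 1) = n + 1 := by omega
      rw [hsucc] at h2
      by_cases hp : (n + 1).Prime ∧ n + 1 ≠ 2
      · refine ⟨n + 1, by omega, ?_⟩
        have ha := hα (n + 1) hp.1 hp.2
        rw [PP_succ_prime α n hp.1 hp.2] at h2 ⊢
        set R : ℝ := (((n + 1 : ℕ) : ℝ) + 1 - 2 * (α (n + 1)).re) / ((n + 1 : ℕ) : ℝ) with hR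
        have hlow : 1 - 2 / Real.sqrt ((n + 1 : ℕ) : ℝ) ≤ R :=
          factor_low (α (n + 1)) (n + 1) hp.1 ha
        have hs4 : (4 : ℝ) ≤ Real.sqrt ((n + 1 : ℕ) : ℝ) := by
          apply Real.le_sqrt_of_sq_le
          have : (16 : ℝ) ≤ ((n + 1 : ℕ) : ℝ) := by
            have : 16 ≤ n + 1 := by omega
            exact_mod_cast this
          linarith
        have hs0 : (0 : ℝ) < Real.sqrt ((n + 1 : ℕ) : ℝ) := by linarith
        set y : ℝ := 1 / Real.sqrt ((n + 1 : ℕ) : ℝ) with hy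
        have hy0 : 0 < y := by positivity
        have hy4 : y ≤ 1 / 4 := one_div_le_one_div_of_le (by norm_num) hs4
        have e1 : 2 / Real.sqrt ((n + 1 : ℕ) : ℝ) = 2 * y := by rw [hy]; ring
        have e2 : 4 * C / Real.sqrt ((n + 1 : ℕ) : ℝ) = 4 * C * y := by rw [hy]; ring
        rw [e1] at hlow
        rw [e2]
        have hR2 : 1 / 2 ≤ R := by linarith
        have hPpos : 0 < PP α (n : ℝ) := by
          rw [PP_eq α hα]
          exact Real.exp_pos _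
        have hC0 : 0 < C := by
          have : 0 < PP α (n : ℝ) * R := mul_pos hPpos (by linarith)
          linarith
        have h5 : PP α (n : ℝ) ≤ 2 * C := by nlinarith
        rw [abs_le]
        constructor
        · nlinarith
        · have : 0 ≤ 4 * C * y := by positivity
          linarith
      · exfalso
        rw [PP_succ_not α n hp] at h2
        linarith

/-- The product of the four curves comes close to the constant of Goldfeld for arbitrarily large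
`x`. -/
theorem cross4 (a : ℤ) (h : a = -1 ∨ a = 4 ∨ a = 1 ∨ a = -4) :
    ∃ L : ℂ → ℂ, Differentiable ℂ L ∧
      (∀ s : ℂ, 3 / 2 < s.re → HasProd (fun p : {p : ℕ // p.Prime ∧ p ≠ 2} =>
        (1 - ((p : ℂ) + 1 - (npts a 0 p : ℂ)) * (p : ℂ) ^ (-s) + (p : ℂ) ^ (1 - 2 * s))⁻¹)
        (L s)) ∧
      (L 1).im = 0 ∧ 0 < (L 1).re ∧
      ∀ X : ℝ, ∃ x : ℝ, X ≤ x ∧
        |bsdProd a 0 x - Real.sqrt 2 / (L 1).re| ≤
          4 * (Real.sqrt 2 / (L 1).re) / Real.sqrt x := by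
  obtain ⟨j, hj, hj'⟩ : ∃ j : ℕ, (((a = -1 ∨ a = 4) ∧ j = 0) ∨ ((a = 1 ∨ a = -4) ∧ j = 1)) ∧
      (j = 0 ∨ j = 1) := by
    rcases h with h | h | h | h
    · exact ⟨0, Or.inl ⟨Or.inl h, rfl⟩, Or.inl rfl⟩
    · exact ⟨0, Or.inl ⟨Or.inr h, rfl⟩, Or.inl rfl⟩
    · exact ⟨1, Or.inr ⟨Or.inl h, rfl⟩, Or.inr rfl⟩
    · exact ⟨1, Or.inr ⟨Or.inr h, rfl⟩, Or.inr rfl⟩
  have hα : ∀ p : ℕ, p.Prime → p ≠ 2 → ‖alpha j p‖ ^ 2 = p := fun p hp h2 =>
    norm_alpha j p hp h2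
  obtain ⟨L, hL1, hL2, hL3, hL4, hL5⟩ := main4U a h
  refine ⟨L, hL1, hL2, hL3, hL4, ?_⟩
  intro X
  set C : ℝ := Real.sqrt 2 / (L 1).re with hC
  have hC0 : 0 < C := by positivity
  obtain ⟨hup, hdown⟩ := hL5 1
  obtain ⟨x1, hx1, hP1⟩ := hup (max X 17)
  have hx17 : (17 : ℝ) ≤ x1 := (le_max_right _ _).trans hx1
  have hxX : X ≤ x1 := (le_max_left _ _).trans hx1
  obtain ⟨x2, hx2, hP2⟩ := hdown (x1 + 2)
  have hlog1 : 0 < Real.log x1 := Real.log_pos (by linarith)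
  have hlog2 : 0 < Real.log x2 := Real.log_pos (by linarith)
  rw [bsdProd_eq a j hj] at hP1 hP2
  set n1 : ℕ := ⌊x1⌋₊ with hn1
  have h16 : 16 ≤ n1 := Nat.le_floor (by push_cast; linarith)
  have hgt : C < PP (alpha j) (n1 : ℝ) := by
    rw [← PP_floor]
    have h5 : C * 1 < C * (1 + 1 / Real.log x1) := by
      apply mul_lt_mul_of_pos_left _ hC0
      have : 0 < 1 / Real.log x1 := by positivity
      linarith
    linarith
  have hle : PP (alpha j) ((⌊x2⌋₊ : ℕ) : ℝ) ≤ C := by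
    rw [← PP_floor]
    have h5 : C * (1 - 1 / Real.log x2) ≤ C * 1 := by
      apply mul_le_mul_of_nonneg_left _ hC0.le
      have : 0 < 1 / Real.log x2 := by positivity
      linarith
    linarith
  have hn12 : n1 + 1 ≤ ⌊x2⌋₊ := by
    apply Nat.le_floor
    have := Nat.floor_le (show 0 ≤ x1 by linarith)
    push_cast
    linarith
  obtain ⟨d, hd⟩ := Nat.exists_eq_add_of_le (show n1 ≤ ⌊x2⌋₊ by omega)
  rw [hd] at hle
  obtain ⟨n, hn, hbound⟩ := cross_aux (alpha j) hα C n1 h16 hgt d hle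
  refine ⟨n, ?_, ?_⟩
  · have : n1 + 1 ≤ n := hn
    have h6 : ((n1 + 1 : ℕ) : ℝ) ≤ n := by exact_mod_cast this
    have h7 := Nat.lt_floor_add_one x1
    push_cast at h6
    linarith
  · rw [bsdProd_eq a j hj]
    exact hbound

end W3283f
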