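import Pool.Agent.W_MP_3283e1_nt.Omega

set_option autoImplicit false

namespace W3283f

open Complex W3283e1

/-- The analytic data of the second oscillation theorem.  `α p` is the Frobenius eigenvalue at the
odd prime `p`, `L` is the L-function (holomorphic on `Re s > 3/4` only), and `W w` is the symmetric
square L-function at `2 + w` without its Euler factor at `2`, now nonzero on the whole closed half
plane. -/
structure DataF (α : ℕ → ℂ) (L W : ℂ → ℂ) : Prop where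
  norm_α : ∀ p : ℕ, p.Prime → p ≠ 2 → ‖α p‖ ^ 2 = p
  L_diff : DifferentiableOn ℂ L {s : ℂ | 3 / 4 < s.re}
  L_prod : ∀ s : ℂ, 3 / 2 < s.re → HasProd (fun p : OP => (fL (α p) p s)⁻¹) (L s)
  W_diff : Differentiable ℂ W
  W_prod : ∀ w : ℂ, 0 < w.re →
    HasProd (fun p : OP => (fM (α p) p w)⁻¹) (W w / (riemannZeta (1 + w) * t2 w))
  W_ne : ∀ w : ℂ, 0 ≤ w.re → W w ≠ 0

/-- Trivial. -/
theorem dataF_of_data (α : ℕ → ℂ) (L W : ℂ → ℂ) (hD : Data α L W)
    (hW : ∀ w : ℂ, w.re = 0 → W w ≠ 0) : DataF α L W where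
  norm_α := hD.norm_α
  L_diff := hD.L_diff.differentiableOn
  L_prod := hD.L_prod
  W_diff := hD.W_diff
  W_prod := hD.W_prod
  W_ne := fun w hw => by
    rcases hw.eq_or_lt with h | h
    · exact hW w h.symm
    · exact hD.W_ne w h

/-- The basic identity: the same proof as `W3283e1.ident` (module `Ident` of the folder
W_MP_3283e1_nt; copy it), which only uses `norm_α`, `L_prod`, `W_prod` and `W_ne`. -/
theorem identF (α : ℕ → ℂ) (L W : ℂ → ℂ) (hD : DataF α L W) :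
    ∃ R : ℂ → ℂ, DifferentiableOn ℂ R {s : ℂ | -(1 / 10) < s.re} ∧ R 0 = 0 ∧
      (∀ σ : ℝ, -(1 / 10) < σ → (R σ).im = 0) ∧
      ∀ s : ℂ, 1 / 2 < s.re →
        (L (1 + s)) ^ 2 * Complex.exp (2 * GG α s) * W s * ZZ (2 * s) * t2 (2 * s)
          = 2 * W (2 * s) * ZZ s * t2 s * Complex.exp (R s) := by
  obtain ⟨R, hRd, hR0, hRr, hRs⟩ := R_exists α hD.norm_α
  refine ⟨R, hRd, hR0, hRr, fun s hs => ?_⟩
  have hs0 : s ≠ 0 := by
    rintro rfl
    norm_num at hs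
  have h2s0 : 2 * s ≠ 0 := mul_ne_zero two_ne_zero hs0
  have hre2 : (2 * s).re = 2 * s.re := by simp
  have hre1 : (1 + s).re = 1 + s.re := by simp
  have hζ1 : riemannZeta (1 + s) ≠ 0 :=
    riemannZeta_ne_zero_of_one_le_re (by rw [hre1]; linarith)
  have hζ2 : riemannZeta (1 + 2 * s) ≠ 0 :=
    riemannZeta_ne_zero_of_one_le_re (by simp only [Complex.add_re, Complex.one_re, hre2]; linarith)
  have ht1 : t2 s ≠ 0 := t2_ne s (by linarith)
  have ht2 : t2 (2 * s) ≠ 0 := t2_ne (2 * s) (by rw [hre2]; linarith)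
  have hW2 : W (2 * s) ≠ 0 := hD.W_ne (2 * s) (by rw [hre2]; linarith)
  have hA : HasProd (fun p : OP => Complex.exp (rp (α p) p s)) (Complex.exp (R s)) :=
    (hRs s (by linarith)).cexp
  have hB : HasProd (fun p : OP => Complex.exp (2 * ((ell (α p) p : ℂ) * (p : ℂ) ^ (-s))))
      (Complex.exp (2 * GG α s)) := ((hasSum_GG α hD.norm_α s hs).mul_left 2).cexp
  have hC := hD.L_prod (1 + s) (by rw [hre1]; linarith)
  have hE := hD.W_prod s (by linarith)
  have hF := (hD.W_prod (2 * s) (by rw [hre2]; linarith)).inv₀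
    (div_ne_zero hW2 (mul_ne_zero hζ2 ht2))
  have hG := ((hB.mul (hC.mul hC)).mul hE).mul hF
  have hfun : (fun p : OP => Complex.exp (rp (α p) p s)) = fun p : OP =>
      Complex.exp (2 * ((ell (α p) p : ℂ) * (p : ℂ) ^ (-s))) *
        ((fL (α p) p (1 + s))⁻¹ * (fL (α p) p (1 + s))⁻¹) * (fM (α p) p s)⁻¹ *
        ((fM (α p) p (2 * s))⁻¹)⁻¹ := by
    funext p
    rw [rp_exp (α p) p p.2.1 (hD.norm_α p p.2.1 p.2.2) s (by linarith), inv_inv, sq]
  rw [hfun] at hA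
  have hfin := hA.unique hG
  rw [hfin]
  have hZ1 : ZZ s = s * riemannZeta (1 + s) := if_neg hs0
  have hZ2 : ZZ (2 * s) = (2 * s) * riemannZeta (1 + 2 * s) := if_neg h2s0
  rw [hZ1, hZ2]
  have key : ∀ l e w1 z2 u2 w2 z1 u1 : ℂ, w2 ≠ 0 → z2 ≠ 0 → u2 ≠ 0 → z1 ≠ 0 → u1 ≠ 0 →
      l ^ 2 * e * w1 * (2 * s * z2) * u2 =
        2 * w2 * (s * z1) * u1 * (e * (l * l) * (w1 / (z1 * u1)) * (w2 / (z2 * u2))⁻¹) := by
    intro l e w1 z2 u2 w2 z1 u1 h1 h2 h3 h4 h5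
    field_simp
  exact key _ _ _ _ _ _ _ _ hW2 hζ2 ht2 hζ1 ht1

end W3283f
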