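import Pool.Agent.W_MP_3283e1_h19.Edge2
import Pool.Agent.W_MP_3283e1_h19.DF
import Pool.Agent.W_MP_3283e1_nt.WfunB
import Pool.Agent.W_MP_3283e1_nt.Inst

set_option autoImplicit false

namespace W3283f

open Complex W3283e1
open scoped ComplexOrder

/-- The terms of the Dirichlet series of `bE γ` at `s`. -/
theorem bE_term (γ : ℝ) (s : ℂ) (n : ℕ) :
    LSeries.term (bE γ) s n = LSeries.term (cc 2) (1 + s + γ * I) n := by
  rcases eq_or_ne n 0 with rfl | hn
  · simp
  · have hn' : (n : ℂ) ≠ 0 := by exact_mod_cast hn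
    rw [LSeries.term_of_ne_zero hn, LSeries.term_of_ne_zero hn]
    unfold bE
    rw [div_eq_mul_inv, div_eq_mul_inv, ← Complex.cpow_neg, ← Complex.cpow_neg, mul_assoc,
      ← Complex.cpow_add _ _ hn']
    congr 2
    ring

theorem bE_term_fun (γ : ℝ) (s : ℂ) :
    LSeries.term (bE γ) s = LSeries.term (cc 2) (1 + s + γ * I) :=
  funext fun n => bE_term γ s n

theorem bE_summable (γ : ℝ) (s : ℂ) (hs : 1 < s.re) : LSeriesSummable (bE γ) s := by
  unfold LSeriesSummable
  rw [bE_term_fun]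
  refine cc_summable 2 (1 + s + γ * I) ?_
  simp
  linarith

theorem bE_LSeries (γ : ℝ) (s : ℂ) (hs : 1 < s.re) :
    LSeries (bE γ) s = LE 2 (1 + s + γ * I) := by
  unfold LSeries
  rw [bE_term_fun]
  have h := LE_eq2 (1 + s + γ * I) (by simp; linarith)
  rw [h]
  rfl

/-- For `Re s > 1`: summability and value (`LSeries_convolution'`, `cc_summable`, `cc0_eq`,
`LE_eq2`; the Dirichlet series of `bE γ` at `s` is that of `cc 2` at `1 + s + iγ`). -/
theorem aE_series (γ : ℝ) (s : ℂ) (hs : 1 < s.re) :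
    LSeriesSummable (aE γ) s ∧
    LSeries (aE γ) s = (riemannZeta s * (1 - (2 : ℂ) ^ (-s)) * L4 s) ^ 2 *
      (LE 2 (1 + s + γ * I) * LE 2 (1 + s - γ * I)) := by
  have h0 : LSeriesSummable (cc 0) s := cc_summable 0 s (by simpa using hs)
  have h1 := bE_summable γ s hs
  have h2 := bE_summable (-γ) s hs
  have h3 := h0.convolution h0
  have h4 := h1.convolution h2
  refine ⟨h3.convolution h4, ?_⟩
  unfold aE
  rw [LSeries_convolution' h3 h4, LSeries_convolution' h0 h0, LSeries_convolution' h1 h2,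
    bE_LSeries γ s hs, bE_LSeries (-γ) s hs, cc0_eq s hs, sq]
  congr 3
  push_cast
  ring

/-- `LE 2` is real on the real axis: `LE 2 (conj s) = conj (LE 2 s)` (the defining integral has a
real kernel; or the Dirichlet series has real coefficients and the identity theorem). -/
theorem LE2_conj (s : ℂ) : LE 2 ((starRingEnd ℂ) s) = (starRingEnd ℂ) (LE 2 s) := by
  have hpos : 0 < Real.pi * kap 2 := mul_pos Real.pi_pos (lfun_kap_pos 2)
  have h1 : ∀ x : ℝ, 0 < x → ∀ z : ℂ,
      (x : ℂ) ^ ((starRingEnd ℂ) z) = (starRingEnd ℂ) ((x : ℂ) ^ z) := by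
    intro x hx z
    have h := Complex.cpow_conj (x : ℂ) z (by
      rw [Complex.arg_ofReal_of_nonneg hx.le]
      exact Real.pi_pos.ne)
    rw [h, Complex.conj_ofReal]
  have h2 : mellin (fun t => (FF 2 t : ℂ)) ((starRingEnd ℂ) s) =
      (starRingEnd ℂ) (mellin (fun t => (FF 2 t : ℂ)) s) := by
    unfold mellin
    rw [← integral_conj]
    refine MeasureTheory.setIntegral_congr_fun measurableSet_Ioi fun t ht => ?_
    have ht' : 0 < t := ht
    simp only [smul_eq_mul, map_mul, Complex.conj_ofReal]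
    rw [← h1 t ht' (s - 1), map_sub, map_one]
  unfold W3283e1.LE
  rw [h1 _ hpos, Complex.Gamma_conj, h2, map_mul, map_mul, map_inv₀]

/-- The zero of an entire function divided out. -/
theorem edge3_dslope (f : ℂ → ℂ) (hf : Differentiable ℂ f) (h1 : f 1 = 0) :
    Differentiable ℂ (dslope f 1) ∧ ∀ s : ℂ, f s = (s - 1) * dslope f 1 s := by
  constructor
  · intro s
    have h := (Complex.differentiableOn_dslope (c := (1 : ℂ)) (s := Set.univ) (f := f)
      Filter.univ_mem).2 hf.differentiableOn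
    exact (h s (Set.mem_univ s)).differentiableAt Filter.univ_mem
  · intro s
    have h := sub_smul_dslope f 1 s
    rw [h1, sub_zero, smul_eq_mul] at h
    exact h.symm

/-- Landau.  For `γ = 0` this is `LE_pos`.  Suppose `LE 2 (2+iγ) = 0`; then also
`LE 2 (2-iγ) = 0`, the quotients `LE 2 (1+s±iγ)/(s-1)` extend to entire functions (`dslope`), and with
`(s-1) ζ(s) = ZZ (s-1)` the right side of `aE_series` extends to the entire function
`(ZZ (s-1) (1-2^{-s}) L4 s)² q₁ q₂`, which vanishes at `s = 0` because of `1 - 2^0 = 0`.  But the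
coefficients are nonnegative (`aE_nonneg`, `aE_one`), so
`LSeries.positive_of_differentiable_of_eqOn` says it is positive at `0`. -/
theorem LE2_edge (γ : ℝ) : LE 2 (2 + γ * I) ≠ 0 := by
  intro h0
  have h0' : LE 2 (2 - γ * I) = 0 := by
    have h := LE2_conj (2 + γ * I)
    rw [h0, map_zero] at h
    rw [← h]
    congr 1
    apply Complex.ext <;> simp
  have hd : Differentiable ℂ (LE 2) := LE_diff 2 (Or.inr (Or.inr rfl))
  have hp : Differentiable ℂ (fun s : ℂ => LE 2 (1 + s + γ * I)) :=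
    hd.comp ((differentiable_id.const_add 1).add_const _)
  have hm : Differentiable ℂ (fun s : ℂ => LE 2 (1 + s - γ * I)) :=
    hd.comp ((differentiable_id.const_add 1).sub_const _)
  obtain ⟨hpd, hpe⟩ := edge3_dslope _ hp (by
    show LE 2 (1 + 1 + γ * I) = 0
    rw [show (1 : ℂ) + 1 = 2 by norm_num]
    exact h0)
  obtain ⟨hmd, hme⟩ := edge3_dslope _ hm (by
    show LE 2 (1 + 1 - γ * I) = 0
    rw [show (1 : ℂ) + 1 = 2 by norm_num]
    exact h0')
  set qp := dslope (fun s : ℂ => LE 2 (1 + s + γ * I)) 1 with hqp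
  set qm := dslope (fun s : ℂ => LE 2 (1 + s - γ * I)) 1 with hqm
  have h2d : Differentiable ℂ (fun s : ℂ => (2 : ℂ) ^ (-s)) :=
    fun s => (differentiable_id.neg s).const_cpow (Or.inl two_ne_zero)
  have hfd : Differentiable ℂ (fun s : ℂ =>
      (ZZ (s - 1) * (1 - (2 : ℂ) ^ (-s)) * L4 s) ^ 2 * (qp s * qm s)) :=
    ((((ZZ_diff.comp (differentiable_id.sub_const 1)).mul (h2d.const_sub 1)).mul L4_diff).pow
      2).mul (hpd.mul hmd)
  have hx : LSeries.abscissaOfAbsConv (aE γ) ≤ ((1 : ℝ) : EReal) :=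
    LSeries.abscissaOfAbsConv_le_of_forall_lt_LSeriesSummable fun y hy =>
      (aE_series γ y (by simpa using hy)).1
  have h1 : (0 : ℂ) < aE γ 1 := by
    rw [aE_one]
    exact zero_lt_one
  have hpos := LSeries.positive_of_differentiable_of_eqOn (aE_nonneg γ) h1 hfd hx (by
    intro s hs
    have hs' : 1 < s.re := hs
    have hs1 : s - 1 ≠ 0 := by
      intro h
      rw [sub_eq_zero.1 h] at hs'
      simp at hs'
    show (ZZ (s - 1) * (1 - (2 : ℂ) ^ (-s)) * L4 s) ^ 2 * (qp s * qm s) = _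
    rw [(aE_series γ s hs').2, hpe s, hme s]
    unfold ZZ
    rw [if_neg hs1, show (1 : ℂ) + (s - 1) = s by ring]
    ring) 0
  refine absurd hpos (not_lt_of_ge (le_of_eq ?_))
  simp

/-- `WW w = LE 2 (2+w) L4 (1+w)`: `LE2_edge` and `L4_ne`. -/
theorem WW_edge (w : ℂ) (hw : w.re = 0) : WW w ≠ 0 := by
  unfold WW
  refine mul_ne_zero ?_ (L4_ne _ (by simp [hw]))
  have h : w = (w.im : ℂ) * I := by
    apply Complex.ext <;> simp [hw]
  rw [h]
  exact LE2_edge w.im

/-- The data of the four curves. -/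
theorem dataF_inst (j : ℕ) (hj : j = 0 ∨ j = 1) : DataF (alpha j) (LE j) WW :=
  dataF_of_data _ _ _ (data_inst j hj) WW_edge

end W3283f
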