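import Mathlib

set_option autoImplicit false

namespace W3283f

open Complex

theorem et2_ne_top (f : ℂ → ℂ) (hf : Differentiable ℂ f) (hne : ∃ z, f z ≠ 0) (z0 : ℂ) :
    analyticOrderAt f z0 ≠ ⊤ := by
  intro htop
  rw [analyticOrderAt_eq_top] at htop
  obtain ⟨z, hz⟩ := hne
  have hA : AnalyticOnNhd ℂ f Set.univ := fun w _ => hf.analyticAt w
  have h1 := hA.eqOn_zero_of_preconnected_of_eventuallyEq_zero isPreconnected_univ
    (Set.mem_univ z0) htop
  exact hz (h1 (Set.mem_univ z))

/-- division by one zero. -/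
theorem et2_single (f : ℂ → ℂ) (hf : Differentiable ℂ f) (hne : ∃ z, f z ≠ 0) (z0 : ℂ) :
    ∃ g : ℂ → ℂ, Differentiable ℂ g ∧ (∀ z, f z = (z - z0) ^ analyticOrderNatAt f z0 * g z) ∧
      g z0 ≠ 0 ∧ (∀ w, w ≠ z0 → analyticOrderNatAt g w = analyticOrderNatAt f w) := by
  have hfa : AnalyticAt ℂ f z0 := hf.analyticAt z0
  obtain ⟨g, hg, hg0, hfg⟩ := (hfa.analyticOrderAt_ne_top).1 (et2_ne_top f hf hne z0)
  set n := analyticOrderNatAt f z0 with hn
  classical
  let G : ℂ → ℂ := fun z => if z = z0 then g z0 else f z / (z - z0) ^ n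
  have hGev : G =ᶠ[nhds z0] g := by
    filter_upwards [hfg] with z hz
    by_cases h : z = z0
    · simp [G, h]
    · have h' : z - z0 ≠ 0 := sub_ne_zero.2 h
      simp only [G, h, if_false, hz, smul_eq_mul]
      field_simp
  have hGd : Differentiable ℂ G := by
    intro z
    by_cases h : z = z0
    · rw [h]
      exact hGev.differentiableAt_iff.2 hg.differentiableAt
    · have h' : z - z0 ≠ 0 := sub_ne_zero.2 h
      have h1 : DifferentiableAt ℂ (fun z => f z / (z - z0) ^ n) z := by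
        apply DifferentiableAt.div (hf z)
        · fun_prop
        · exact pow_ne_zero _ h'
      refine h1.congr_of_eventuallyEq ?_
      filter_upwards [isOpen_ne.mem_nhds h] with w hw
      simp only [G]
      rw [if_neg hw]
  have hGf : ∀ z, f z = (z - z0) ^ n * G z := by
    intro z
    by_cases h : z = z0
    · have h2 := hfg.self_of_nhds
      rw [h, h2]
      simp [G]
    · have h' : z - z0 ≠ 0 := sub_ne_zero.2 h
      simp only [G, h, if_false]
      field_simp
  refine ⟨G, hGd, hGf, by simpa [G] using hg0, ?_⟩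
  intro w hw
  have h' : w - z0 ≠ 0 := sub_ne_zero.2 hw
  have hP : AnalyticAt ℂ (fun z => (z - z0) ^ n) w := by fun_prop
  have hfeq : f = (fun z => (z - z0) ^ n) * G := by
    funext z
    rw [Pi.mul_apply]
    exact hGf z
  have h3 : analyticOrderAt f w = analyticOrderAt G w := by
    have h4 := analyticOrderAt_mul hP (hGd.analyticAt w)
    rw [← hfeq] at h4
    have h5 : analyticOrderAt (fun z => (z - z0) ^ n) w = 0 := by
      rw [hP.analyticOrderAt_eq_zero]
      exact pow_ne_zero _ h'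
    rw [h5, zero_add] at h4
    exact h4
  unfold analyticOrderNatAt
  rw [h3]

/-- Division of an entire function, not identically zero, by its zeros at the points `0` and `±iγ`,
`γ` in a finite set of positive reals, with multiplicities; `m` is the order.  One zero at a time:
if `f` is entire and has order `k` at `z0` then `f z = (z - z0)^k g z` with `g` entire (on
`z ≠ z0` the quotient is holomorphic, near `z0` use `AnalyticAt.analyticOrderAt_ne_top`), `g z0 ≠ 0`,
and the orders of `g` at the other points are those of `f` (`analyticOrderAt_mul`).  The pair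
`±iγ` gives `(s - iγ)^m (s + iγ)^m = (s² + γ²)^m`. -/
theorem divide (f : ℂ → ℂ) (hf : Differentiable ℂ f) (hne : ∃ z, f z ≠ 0) (Γ : Finset ℝ)
    (hpos : ∀ γ ∈ Γ, 0 < γ)
    (hsym : ∀ γ : ℝ, analyticOrderNatAt f (-(γ * I)) = analyticOrderNatAt f (γ * I)) :
    ∃ h : ℂ → ℂ, Differentiable ℂ h ∧
      (∀ s : ℂ, f s = s ^ analyticOrderNatAt f 0 *
        (∏ γ ∈ Γ, (s ^ 2 + (γ : ℂ) ^ 2) ^ analyticOrderNatAt f (γ * I)) * h s) ∧
      h 0 ≠ 0 ∧ ∀ γ ∈ Γ, h (γ * I) ≠ 0 ∧ h (-(γ * I)) ≠ 0 := by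
  classical
  suffices hs : ∃ h : ℂ → ℂ, Differentiable ℂ h ∧
      (∀ s : ℂ, f s = s ^ analyticOrderNatAt f 0 *
        (∏ γ ∈ Γ, (s ^ 2 + (γ : ℂ) ^ 2) ^ analyticOrderNatAt f (γ * I)) * h s) ∧
      h 0 ≠ 0 ∧ (∀ γ ∈ Γ, h (γ * I) ≠ 0 ∧ h (-(γ * I)) ≠ 0) ∧
      ∀ w : ℂ, w ≠ 0 → (∀ γ ∈ Γ, w ≠ γ * I ∧ w ≠ -(γ * I)) →
        analyticOrderNatAt h w = analyticOrderNatAt f w by
    obtain ⟨h, h1, h2, h3, h4, -⟩ := hs
    exact ⟨h, h1, h2, h3, h4⟩
  induction Γ using Finset.induction_on with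
  | empty =>
    obtain ⟨g, hg, hfg, hg0, hgo⟩ := et2_single f hf hne 0
    refine ⟨g, hg, ?_, hg0, by simp, fun w hw _ => hgo w hw⟩
    intro s
    have := hfg s
    rw [sub_zero] at this
    rw [Finset.prod_empty, mul_one]
    exact this
  | insert γ0 Γ hγ ih =>
    obtain ⟨h, hd, hfh, h0, hΓ, hord⟩ := ih (fun γ hg => hpos γ (Finset.mem_insert_of_mem hg))
    have hγ0 : 0 < γ0 := hpos γ0 (Finset.mem_insert_self _ _)
    have hI : (γ0 : ℂ) * I ≠ 0 := by
      simp [hγ0.ne']
    have hmem : ∀ γ ∈ Γ, (γ : ℂ) ≠ γ0 := by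
      intro γ hg h'
      have : γ = γ0 := by exact_mod_cast h'
      exact hγ (this ▸ hg)
    have hmem' : ∀ γ ∈ Γ, (γ : ℂ) ≠ -γ0 := by
      intro γ hg h'
      have h1 : γ = -γ0 := by exact_mod_cast h'
      have := hpos γ (Finset.mem_insert_of_mem hg)
      linarith
    have hne1 : ∃ z, h z ≠ 0 := ⟨0, h0⟩
    obtain ⟨g1, hg1, hg1f, hg10, hg1o⟩ := et2_single h hd hne1 (γ0 * I)
    have hk1 : analyticOrderNatAt h (γ0 * I) = analyticOrderNatAt f (γ0 * I) := by
      apply hord _ hI
      intro γ hg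
      constructor
      · intro h'
        exact hmem γ hg (mul_right_cancel₀ I_ne_zero h'.symm)
      · intro h'
        apply hmem' γ hg
        have h2 : (γ0 : ℂ) * I = (-γ) * I := by rw [h']; ring
        have h3 := mul_right_cancel₀ I_ne_zero h2
        rw [h3]; ring
    have hg1ne : ∃ z, g1 z ≠ 0 := ⟨γ0 * I, hg10⟩
    obtain ⟨g2, hg2, hg2f, hg20, hg2o⟩ := et2_single g1 hg1 hg1ne (-(γ0 * I))
    have hne2 : -((γ0 : ℂ) * I) ≠ γ0 * I := by
      intro h'
      apply hI
      have : 2 * ((γ0 : ℂ) * I) = 0 := by linear_combination -h'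
      simpa using this
    have hk2 : analyticOrderNatAt g1 (-(γ0 * I)) = analyticOrderNatAt f (γ0 * I) := by
      rw [hg1o _ hne2, hord _ (neg_ne_zero.2 hI), hsym]
      intro γ hg
      constructor
      · intro h'
        apply hmem' γ hg
        have h2 : (γ : ℂ) * I = (-γ0) * I := by rw [← h']; ring
        exact mul_right_cancel₀ I_ne_zero h2
      · intro h'
        exact hmem γ hg (mul_right_cancel₀ I_ne_zero (neg_injective h').symm)
    rw [hk1] at hg1f
    rw [hk2] at hg2f
    have hh : ∀ s, h s = (s ^ 2 + (γ0 : ℂ) ^ 2) ^ analyticOrderNatAt f (γ0 * I) * g2 s := by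
      intro s
      rw [hg1f, hg2f, ← mul_assoc, ← mul_pow]
      congr 2
      have : I ^ 2 = -1 := I_sq
      linear_combination (-(γ0 : ℂ) ^ 2) * this
    have hnz : ∀ s, h s ≠ 0 → g2 s ≠ 0 := by
      intro s hs' h'
      apply hs'
      rw [hh, h', mul_zero]
    refine ⟨g2, hg2, ?_, hnz 0 h0, ?_, ?_⟩
    · intro s
      rw [hfh s, Finset.prod_insert hγ, hh s]
      ring
    · intro γ hg
      rw [Finset.mem_insert] at hg
      rcases hg with rfl | hg
      · refine ⟨?_, hg20⟩
        intro h'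
        apply hg10
        rw [hg2f, h', mul_zero]
      · exact ⟨hnz _ (hΓ γ hg).1, hnz _ (hΓ γ hg).2⟩
    · intro w hw hwΓ
      have h1 := hwΓ γ0 (Finset.mem_insert_self _ _)
      rw [hg2o w h1.2, hg1o w h1.1]
      exact hord w hw (fun γ hg => hwΓ γ (Finset.mem_insert_of_mem hg))

/-- The symmetry `f(-s) = ε f(s)` makes the orders symmetric (compose with `s ↦ -s`). -/
theorem order_symm (f : ℂ → ℂ) (hf : Differentiable ℂ f) (ε : ℂ) (hε : ε = 1 ∨ ε = -1)
    (h : ∀ s, f (-s) = ε * f s) (z : ℂ) :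
    analyticOrderNatAt f (-z) = analyticOrderNatAt f z := by
  have hε0 : ε ≠ 0 := by rcases hε with rfl | rfl <;> norm_num
  by_cases hne : ∃ z, f z ≠ 0
  swap
  · push Not at hne
    have h0 : f = fun _ => 0 := funext hne
    rw [h0]
    unfold analyticOrderNatAt
    have h1 : ∀ w : ℂ, analyticOrderAt (fun _ : ℂ => (0 : ℂ)) w = ⊤ := by
      intro w
      rw [analyticOrderAt_eq_top]
      simp
    rw [h1, h1]
  · obtain ⟨g, hg, hfg, hg0, -⟩ := et2_single f hf hne z
    set n := analyticOrderNatAt f z with hn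
    have h1 : analyticOrderAt f (-z) = (n : ℕ∞) := by
      rw [(hf.analyticAt (-z)).analyticOrderAt_eq_natCast]
      refine ⟨fun s => ε⁻¹ * (-1) ^ n * g (-s), ?_, ?_, ?_⟩
      · have h2 : Differentiable ℂ (fun s => ε⁻¹ * (-1) ^ n * g (-s)) := by
          apply Differentiable.const_mul
          exact hg.comp (differentiable_neg)
        exact h2.analyticAt _
      · simp only [neg_neg]
        exact mul_ne_zero (mul_ne_zero (inv_ne_zero hε0) (pow_ne_zero _ (by norm_num))) hg0
      · apply Filter.Eventually.of_forall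
        intro s
        have h3 := h s
        have h4 := hfg (-s)
        rw [smul_eq_mul]
        have h5 : f s = ε⁻¹ * f (-s) := by
          rw [h3]; field_simp
        rw [h5, h4]
        have h6 : (-s - z) ^ n = (s - -z) ^ n * (-1) ^ n := by
          rw [← mul_pow]; congr 1; ring
        rw [h6]; ring
    unfold analyticOrderNatAt at hn ⊢
    rw [h1]
    simp

end W3283f
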