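import Mathlib

set_option autoImplicit false

namespace W3283f

open Complex

/-- Even, zero free functions grow slowly near the centre.  On the ball of radius `R` write
`u = exp l`, `l` holomorphic, `l 0 = 0`.  `L z = (l z + l (-z))/2` is even, so `L w = o(w)`, and
`‖u z‖ = exp (Re (L z))` as `u` is even.  `Re l ≤ a`, so by `Complex.borelCaratheodory_zero`
`‖L z‖ ≤ 2a ‖z‖/(R - ‖z‖)`, at most `2a` for `‖z‖ < R/2`, and by the Schwarz lemma of order two
`‖L z‖ ≤ 2a (2‖z‖/R)²`. -/
theorem even_slow (u : ℂ → ℂ) (hu : Differentiable ℂ u) (h0 : u 0 = 1) (hev : ∀ z, u (-z) = u z)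
    (R a : ℝ) (hR : 0 < R) (ha : 0 < a) (hne : ∀ z, ‖z‖ < R → u z ≠ 0)
    (hb : ∀ z, ‖z‖ < R → ‖u z‖ ≤ Real.exp a) (z : ℂ) (hz : ‖z‖ < R / 2) :
    ‖u z‖ ≤ Real.exp (8 * a * ‖z‖ ^ 2 / R ^ 2) := by
  have hd : Differentiable ℂ (deriv u) := fun s => (hu.analyticAt s).deriv.differentiableAt
  have hg : DifferentiableOn ℂ (fun z => deriv u z / u z) (Metric.ball 0 R) := fun z hz =>
    ((hd z).div (hu z) (hne z (by simpa using hz))).differentiableWithinAt
  obtain ⟨l, hl0, hl⟩ := (hg.isExactOn_ball).with_val_at 0 0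
  have hF : ∀ z ∈ Metric.ball (0 : ℂ) R,
      HasDerivAt (fun z => u z * Complex.exp (-l z)) 0 z := by
    intro z hz
    have hz0 : u z ≠ 0 := hne z (by simpa using hz)
    have h1 := ((hu z).hasDerivAt).mul ((hl z hz).neg.cexp)
    have h2 : deriv u z * Complex.exp (-l z) +
        u z * (Complex.exp (-l z) * -(deriv u z / u z)) = 0 := by
      field_simp [hz0]
      ring
    exact h1.congr_deriv h2
  have h0m : (0 : ℂ) ∈ Metric.ball (0 : ℂ) R := Metric.mem_ball_self hR
  have hexp : ∀ z ∈ Metric.ball (0 : ℂ) R, u z = Complex.exp (l z) := by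
    intro z hz
    have h1 := Metric.isOpen_ball.is_const_of_deriv_eq_zero
      (convex_ball (0 : ℂ) R).isPreconnected
      (fun w hw => (hF w hw).differentiableAt.differentiableWithinAt)
      (fun w hw => (hF w hw).deriv) hz h0m
    simp only [h0, hl0, neg_zero, Complex.exp_zero, mul_one] at h1
    rw [Complex.exp_neg] at h1
    have h2 := Complex.exp_ne_zero (l z)
    field_simp at h1
    exact h1
  have hneg : ∀ w ∈ Metric.ball (0 : ℂ) R, -w ∈ Metric.ball (0 : ℂ) R := by
    intro w hw
    rw [mem_ball_zero_iff] at hw ⊢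
    rwa [norm_neg]
  -- real part of the logarithm
  have hre : Set.MapsTo l (Metric.ball 0 R) {z | z.re ≤ a} := by
    intro w hw
    show (l w).re ≤ a
    have h1 := hb w (by simpa using hw)
    rw [hexp w hw, Complex.norm_exp] at h1
    exact Real.exp_le_exp.1 h1
  have hld : DifferentiableOn ℂ l (Metric.ball 0 R) := fun w hw =>
    (hl w hw).differentiableAt.differentiableWithinAt
  have hbc : ∀ w : ℂ, ‖w‖ < R / 2 → ‖l w‖ ≤ 2 * a := by
    intro w hw
    have hwR : w ∈ Metric.ball (0 : ℂ) R := by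
      rw [mem_ball_zero_iff]
      linarith
    have h1 := Complex.borelCaratheodory_zero ha hld hre hR hwR hl0
    refine h1.trans ?_
    have h2 : 0 < R - ‖w‖ := by linarith
    rw [div_le_iff₀ h2]
    exact mul_le_mul_of_nonneg_left (by linarith) (by linarith)
  -- the even part
  have hLderiv : ∀ w ∈ Metric.ball (0 : ℂ) R,
      HasDerivAt (fun w => (l w + l (-w)) / 2)
        ((deriv u w / u w + (deriv u (-w) / u (-w)) * (-1)) / 2) w := by
    intro w hw
    have h1 := hl w hw
    have h2 : HasDerivAt (fun w => l (-w)) ((deriv u (-w) / u (-w)) * (-1)) w :=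
      (hl (-w) (hneg w hw)).comp w (hasDerivAt_neg w)
    exact (h1.add h2).div_const 2
  have hhalf : ∀ w ∈ Metric.ball (0 : ℂ) (R / 2), w ∈ Metric.ball (0 : ℂ) R := by
    intro w hw
    rw [mem_ball_zero_iff] at hw ⊢
    linarith
  have hLd : DifferentiableOn ℂ (fun w => (l w + l (-w)) / 2) (Metric.ball 0 (R / 2)) :=
    fun w hw => (hLderiv w (hhalf w hw)).differentiableAt.differentiableWithinAt
  have hL0 : (l 0 + l (-0)) / 2 = 0 := by rw [neg_zero, hl0]; simp
  have hLmaps : Set.MapsTo (fun w => (l w + l (-w)) / 2) (Metric.ball 0 (R / 2))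
      (Metric.closedBall ((l 0 + l (-0)) / 2) (2 * a)) := by
    intro w hw
    rw [hL0, mem_closedBall_zero_iff]
    have hw' : ‖w‖ < R / 2 := by simpa using hw
    have h1 := hbc w hw'
    have h2 := hbc (-w) (by rwa [norm_neg])
    rw [norm_div, Complex.norm_ofNat]
    have h3 := norm_add_le (l w) (l (-w))
    linarith
  have hLo : (fun w => (l w + l (-w)) / 2 - (l 0 + l (-0)) / 2) =o[nhds (0 : ℂ)]
      (fun w => ‖w - 0‖ ^ 1) := by
    have h1 := (hLderiv 0 h0m).isLittleO
    simp only [pow_one]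
    refine Asymptotics.IsLittleO.norm_right ?_
    refine h1.congr_left ?_
    intro w
    rw [neg_zero]
    simp
  have hzm : z ∈ Metric.ball (0 : ℂ) (R / 2) := by
    rw [mem_ball_zero_iff]
    exact hz
  have hS := Complex.dist_le_mul_div_pow_of_mapsTo_ball_of_isLittleO (n := 1) hLd hLmaps hLo hzm
  rw [hL0, dist_zero_right, dist_zero_right] at hS
  -- conclusion
  have hzR := hhalf z hzm
  have h1 : u z = Complex.exp (l z) := hexp z hzR
  have h2 : u z = Complex.exp (l (-z)) := by
    rw [← hev z]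
    exact hexp (-z) (hneg z hzR)
  have h3 : ‖u z‖ = Real.exp ((l z + l (-z)) / 2).re := by
    have h4 : Real.log ‖u z‖ = (l z).re := by
      rw [h1, Complex.norm_exp, Real.log_exp]
    have h5 : Real.log ‖u z‖ = (l (-z)).re := by
      rw [h2, Complex.norm_exp, Real.log_exp]
    have h6 : ((l z + l (-z)) / 2).re = Real.log ‖u z‖ := by
      have : ((l z + l (-z)) / 2).re = ((l z).re + (l (-z)).re) / 2 := by
        rw [Complex.div_ofNat_re, Complex.add_re]
      rw [this, ← h4, ← h5]
      ring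
    rw [h6, Real.exp_log (norm_pos_iff.2 (hne z (by simpa using hzR)))]
  rw [h3]
  refine Real.exp_le_exp.2 ((Complex.re_le_norm _).trans (hS.trans (le_of_eq ?_)))
  rw [div_div_eq_mul_div, div_pow, mul_pow]
  ring

end W3283f
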