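import Pool.Agent.W_MP_3283e1_h19.ET1
import Pool.Agent.W_MP_3283e1_h19.ET2
import Pool.Agent.W_MP_3283e1_h19.ET3

set_option autoImplicit false

namespace W3283f

open Complex

/-- the zeros on the positive imaginary axis below `R` form a finite set. -/
theorem et4_finite (f : ℂ → ℂ) (hf : Differentiable ℂ f) (hne : ∃ z, f z ≠ 0) (B : ℝ)
    (hcount : ∀ T : ℝ, 0 < T → ∀ Γ : Finset ℝ, (∀ γ ∈ Γ, 0 < γ ∧ γ ≤ T) →
      ∑ γ ∈ Γ, (analyticOrderNatAt f (γ * I) : ℝ) ≤ B * T) (R : ℝ) (hR : 0 < R) :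
    {γ : ℝ | 0 < γ ∧ γ < R ∧ f (γ * I) = 0}.Finite := by
  by_contra hinf
  obtain ⟨n, hn⟩ := exists_nat_gt (B * R)
  obtain ⟨Γ, hΓ, hcard⟩ := Set.Infinite.exists_subset_card_eq hinf n
  have h1 := hcount R hR Γ (fun γ hγ => ⟨(hΓ hγ).1, (hΓ hγ).2.1.le⟩)
  have h2 : ∀ γ ∈ Γ, (1 : ℝ) ≤ (analyticOrderNatAt f (γ * I) : ℝ) := by
    intro γ hγ
    have h3 : f (γ * I) = 0 := (hΓ hγ).2.2
    have h4 := et2_ne_top f hf hne (γ * I)
    have h5 : analyticOrderAt f (γ * I) ≠ 0 := by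
      intro h6
      exact ((hf.analyticAt _).analyticOrderAt_eq_zero.1 h6) h3
    have h7 : analyticOrderNatAt f (γ * I) ≠ 0 := by
      unfold analyticOrderNatAt
      intro h8
      rw [ENat.toNat_eq_zero] at h8
      exact h8.elim h5 h4
    exact_mod_cast Nat.one_le_iff_ne_zero.2 h7
  have h3 : (n : ℝ) ≤ ∑ γ ∈ Γ, (analyticOrderNatAt f (γ * I) : ℝ) := by
    have h4 := Finset.card_nsmul_le_sum Γ (fun γ => (analyticOrderNatAt f (γ * I) : ℝ)) 1 h2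
    rw [hcard] at h4
    simpa using h4
  linarith

/-- maximum principle on a ball. -/
theorem et4_max (u : ℂ → ℂ) (hu : Differentiable ℂ u) (r b : ℝ) (hr : 0 < r)
    (h : ∀ s : ℂ, ‖s‖ = r → ‖u s‖ ≤ b) (s : ℂ) (hs : ‖s‖ ≤ r) : ‖u s‖ ≤ b := by
  have hb : Bornology.IsBounded (Metric.ball (0 : ℂ) r) := Metric.isBounded_ball
  refine Complex.norm_le_of_forall_mem_frontier_norm_le hb hu.diffContOnCl ?_ ?_
  · intro z hz
    rw [frontier_ball (0 : ℂ) hr.ne'] at hz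
    exact h z (by simpa using hz)
  · rw [closure_ball (0 : ℂ) hr.ne']
    simpa using hs

/-- the function `h` of `divide` is even. -/
theorem et4_even (f : ℂ → ℂ) (ε : ℂ) (hsym : ∀ s, f (-s) = ε * f s) (Γ : Finset ℝ)
    (hpos : ∀ γ ∈ Γ, 0 < γ) (n0 : ℕ) (m : ℝ → ℕ) (h : ℂ → ℂ) (hd : Differentiable ℂ h)
    (hfh : ∀ s : ℂ, f s = s ^ n0 * (∏ γ ∈ Γ, (s ^ 2 + (γ : ℂ) ^ 2) ^ m γ) * h s)
    (h0 : h 0 ≠ 0) (s : ℂ) : h (-s) = h s := by
  -- near the centre the product does not vanish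
  have hPc : Continuous (fun s : ℂ => ∏ γ ∈ Γ, (s ^ 2 + (γ : ℂ) ^ 2) ^ m γ) := by
    fun_prop
  have hP0 : (∏ γ ∈ Γ, ((0 : ℂ) ^ 2 + (γ : ℂ) ^ 2) ^ m γ) ≠ 0 := by
    rw [Finset.prod_ne_zero_iff]
    intro γ hγ
    have : (γ : ℂ) ≠ 0 := by exact_mod_cast (hpos γ hγ).ne'
    refine pow_ne_zero _ ?_
    simpa using this
  have hPn : ∀ᶠ s : ℂ in nhds 0, (∏ γ ∈ Γ, (s ^ 2 + (γ : ℂ) ^ 2) ^ m γ) ≠ 0 :=
    hPc.continuousAt.eventually_ne hP0
  have key : ∀ s : ℂ, s ≠ 0 → (∏ γ ∈ Γ, (s ^ 2 + (γ : ℂ) ^ 2) ^ m γ) ≠ 0 →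
      (-1) ^ n0 * h (-s) = ε * h s := by
    intro s hs hP
    have e1 := hsym s
    rw [hfh (-s), hfh s, neg_sq, neg_pow] at e1
    have hs' : s ^ n0 ≠ 0 := pow_ne_zero _ hs
    have e2 : (s ^ n0 * ∏ γ ∈ Γ, (s ^ 2 + (γ : ℂ) ^ 2) ^ m γ) * ((-1) ^ n0 * h (-s)) =
        (s ^ n0 * ∏ γ ∈ Γ, (s ^ 2 + (γ : ℂ) ^ 2) ^ m γ) * (ε * h s) := by
      linear_combination e1
    exact mul_left_cancel₀ (mul_ne_zero hs' hP) e2
  have hcont1 : Filter.Tendsto (fun s : ℂ => (-1) ^ n0 * h (-s)) (nhdsWithin 0 {0}ᶜ)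
      (nhds ((-1) ^ n0 * h (-0))) := by
    have hc : Continuous (fun s : ℂ => (-1) ^ n0 * h (-s)) := by
      have := hd.continuous
      fun_prop
    exact (hc.tendsto 0).mono_left nhdsWithin_le_nhds
  have hcont2 : Filter.Tendsto (fun s : ℂ => ε * h s) (nhdsWithin 0 {0}ᶜ)
      (nhds (ε * h 0)) := by
    have hc : Continuous (fun s : ℂ => ε * h s) := by
      have := hd.continuous
      fun_prop
    exact (hc.tendsto 0).mono_left nhdsWithin_le_nhds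
  have hev : (fun s : ℂ => (-1) ^ n0 * h (-s)) =ᶠ[nhdsWithin 0 {0}ᶜ] fun s => ε * h s := by
    filter_upwards [nhdsWithin_le_nhds hPn, self_mem_nhdsWithin] with s h1 h2
    exact key s h2 h1
  have hlim := tendsto_nhds_unique (hcont1.congr' hev) hcont2
  rw [neg_zero] at hlim
  have hε : ε = (-1) ^ n0 := (mul_right_cancel₀ h0 hlim).symm
  have hone : ((-1 : ℂ) ^ n0) ≠ 0 := pow_ne_zero _ (by norm_num)
  have hnear : (fun s : ℂ => h (-s)) =ᶠ[nhds 0] h := by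
    filter_upwards [hPn] with s h1
    by_cases hs : s = 0
    · rw [hs, neg_zero]
    · have := key s hs h1
      rw [hε] at this
      exact mul_left_cancel₀ hone this
  have hd' : Differentiable ℂ (fun s : ℂ => h (-s)) := hd.comp differentiable_neg
  have hall := AnalyticOnNhd.eq_of_eventuallyEq (f := fun s : ℂ => h (-s)) (g := h)
    (fun w _ => hd'.analyticAt w) (fun w _ => hd.analyticAt w) hnear
  exact congrFun hall s

/-- One radius.  Let `m = analyticOrderNatAt f`, `n0 = m 0`, `Γ` the finite set of `γ` in `(0,R)`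
with `f(iγ) = 0` (isolated zeros in a compact set), `f s = s^{n0} ∏ (s²+γ²)^{mγ} h s` (`divide`).
All zeros of `f` lie on the imaginary axis, so `h` has no zero in `‖s‖ < R`.  The constant
`c = h(0) ∏ γ^{2 mγ}` does not depend on `R` (it is the limit of `f(s)/s^{n0}` as `s → 0`).  From
`f(-s) = ε f(s)`: `h(-s) = ε (-1)^{n0} h(s)` and `h 0 ≠ 0`, so `h` is even.  `u = h/h(0)`.
On `‖s‖ = 2R`: `‖s^{n0}‖ ≥ 1` and `‖s²+γ²‖ ≥ 4R² - γ² ≥ γ²`, so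
`‖u‖ ≤ exp(C(1+2R)^{3/2})/‖c‖`, on the whole ball by the maximum principle
(`Complex.norm_le_of_forall_mem_frontier_norm_le`).  Then `even_slow` with
`a = C (1+2R)^{3/2} + log(1/‖c‖)` made positive, and `prod_le_exp`:
`‖f s‖ ≤ ‖s‖^{n0} ‖c‖ exp(π B ‖s‖) exp(8 a ‖s‖²/R²)`. -/
theorem exp_type_R (f : ℂ → ℂ) (hf : Differentiable ℂ f) (hne : ∃ z, f z ≠ 0) (ε : ℂ)
    (hε : ε = 1 ∨ ε = -1) (hsym : ∀ s, f (-s) = ε * f s) (C : ℝ) (hC : 0 < C)
    (hgr : ∀ s, ‖f s‖ ≤ Real.exp (C * (1 + ‖s‖) ^ (3 / 2 : ℝ)))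
    (hre : ∀ s, f s = 0 → s.re = 0) (B : ℝ) (hB : 0 ≤ B)
    (hcount : ∀ T : ℝ, 0 < T → ∀ Γ : Finset ℝ, (∀ γ ∈ Γ, 0 < γ ∧ γ ≤ T) →
      ∑ γ ∈ Γ, (analyticOrderNatAt f (γ * I) : ℝ) ≤ B * T) :
    ∃ c a0 : ℝ, 0 < c ∧ 0 ≤ a0 ∧ ∀ R : ℝ, 1 ≤ R → ∀ s : ℂ, ‖s‖ < R / 2 →
      ‖f s‖ ≤ ‖s‖ ^ analyticOrderNatAt f 0 * c * Real.exp (Real.pi * B * ‖s‖) *
        Real.exp (8 * (C * (1 + 2 * R) ^ (3 / 2 : ℝ) + a0) * ‖s‖ ^ 2 / R ^ 2) := by
  obtain ⟨g, hg, hfg, hg0, -⟩ := et2_single f hf hne 0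
  set n0 := analyticOrderNatAt f 0 with hn0
  have hc0 : 0 < ‖g 0‖ := norm_pos_iff.2 hg0
  refine ⟨‖g 0‖, |Real.log ‖g 0‖|, hc0, abs_nonneg _, ?_⟩
  intro R hR s hs
  have hR0 : 0 < R := by linarith
  have hfin := et4_finite f hf hne B hcount R hR0
  set Γ := hfin.toFinset with hΓdef
  have hΓ : ∀ γ, γ ∈ Γ ↔ 0 < γ ∧ γ < R ∧ f (γ * I) = 0 := by
    intro γ
    rw [hΓdef, Set.Finite.mem_toFinset]
    rfl
  have hpos : ∀ γ ∈ Γ, 0 < γ := fun γ hγ => ((hΓ γ).1 hγ).1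
  obtain ⟨h, hd, hfh, h0, hΓh⟩ := divide f hf hne Γ hpos
    (fun γ => order_symm f hf ε hε hsym (γ * I))
  rw [← hn0] at hfh
  set m : ℝ → ℕ := fun γ => analyticOrderNatAt f (γ * I) with hm
  have heven : ∀ s, h (-s) = h s :=
    et4_even f ε hsym Γ hpos n0 m h hd hfh h0
  -- the value at the centre
  have hg0h : g 0 = (∏ γ ∈ Γ, ((γ : ℂ) ^ 2) ^ m γ) * h 0 := by
    have hPc : Continuous (fun s : ℂ => (∏ γ ∈ Γ, (s ^ 2 + (γ : ℂ) ^ 2) ^ m γ) * h s) := by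
      have := hd.continuous
      fun_prop
    have e1 : Filter.Tendsto g (nhdsWithin 0 {0}ᶜ) (nhds (g 0)) :=
      (hg.continuous.tendsto 0).mono_left nhdsWithin_le_nhds
    have e2 : Filter.Tendsto (fun s : ℂ => (∏ γ ∈ Γ, (s ^ 2 + (γ : ℂ) ^ 2) ^ m γ) * h s)
        (nhdsWithin 0 {0}ᶜ) (nhds ((∏ γ ∈ Γ, ((0 : ℂ) ^ 2 + (γ : ℂ) ^ 2) ^ m γ) * h 0)) :=
      (hPc.tendsto 0).mono_left nhdsWithin_le_nhds
    have e3 : g =ᶠ[nhdsWithin 0 {0}ᶜ]
        fun s : ℂ => (∏ γ ∈ Γ, (s ^ 2 + (γ : ℂ) ^ 2) ^ m γ) * h s := by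
      filter_upwards [self_mem_nhdsWithin] with w hw
      have hw' : w ≠ 0 := hw
      have h1 := hfg w
      rw [hfh w, sub_zero, mul_assoc] at h1
      exact (mul_left_cancel₀ (pow_ne_zero _ hw') h1).symm
    have e4 := tendsto_nhds_unique (e1.congr' e3) e2
    rw [e4]
    simp
  -- norms
  set Q : ℝ := ∏ γ ∈ Γ, (γ ^ 2) ^ m γ with hQ
  have hQpos : 0 < Q := Finset.prod_pos fun γ hγ => by
    have := hpos γ hγ
    positivity
  have hQn : ‖∏ γ ∈ Γ, ((γ : ℂ) ^ 2) ^ m γ‖ = Q := by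
    rw [norm_prod, hQ]
    refine Finset.prod_congr rfl fun γ _ => ?_
    rw [norm_pow, norm_pow, Complex.norm_real, Real.norm_eq_abs, sq_abs]
  have hg0n : ‖g 0‖ = Q * ‖h 0‖ := by
    rw [hg0h, norm_mul, hQn]
  -- `h` does not vanish in the ball
  have hnz : ∀ z : ℂ, ‖z‖ < R → h z ≠ 0 := by
    intro z hz hz0
    have hfz : f z = 0 := by rw [hfh, hz0, mul_zero]
    have hzre := hre z hfz
    have hzI : z = (z.im : ℂ) * I := by
      apply Complex.ext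
      · simp [hzre]
      · simp
    have hzn : |z.im| < R := by
      have := Complex.abs_im_le_norm z
      linarith
    rcases lt_trichotomy z.im 0 with hi | hi | hi
    · have h1 : f ((-z.im : ℝ) * I) = 0 := by
        have h2 : ((-z.im : ℝ) : ℂ) * I = -z := by
          push_cast
          rw [neg_mul, ← hzI]
        rw [h2, hsym, hfz, mul_zero]
      have h3 : (-z.im) ∈ Γ := (hΓ _).2 ⟨by linarith, by
        rw [abs_of_neg hi] at hzn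
        exact hzn, h1⟩
      apply (hΓh _ h3).2
      have h4 : -(((-z.im : ℝ) : ℂ) * I) = z := by
        push_cast
        rw [neg_mul, neg_neg, ← hzI]
      rw [h4]
      exact hz0
    · apply h0
      have h4 : z = 0 := by
        rw [hzI, hi]
        simp
      rw [h4] at hz0
      exact hz0
    · have h3 : z.im ∈ Γ := (hΓ _).2 ⟨hi, by
        rw [abs_of_pos hi] at hzn
        exact hzn, by rw [← hzI]; exact hfz⟩
      apply (hΓh _ h3).1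
      rw [← hzI]
      exact hz0
  -- the bound of `h` on the circle of radius `2 R`
  set a : ℝ := C * (1 + 2 * R) ^ (3 / 2 : ℝ) + |Real.log ‖g 0‖| with ha
  have hapos : 0 < a := by
    have : 0 < (1 + 2 * R) ^ (3 / 2 : ℝ) := Real.rpow_pos_of_pos (by linarith) _
    have h2 := abs_nonneg (Real.log ‖g 0‖)
    have h3 := mul_pos hC this
    linarith
  have hcirc : ∀ z : ℂ, ‖z‖ = 2 * R → ‖h z / h 0‖ ≤ Real.exp a := by
    intro z hz
    have h1 : 1 ≤ ‖z‖ ^ n0 := one_le_pow₀ (by rw [hz]; linarith)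
    have h2 : Q ≤ ‖∏ γ ∈ Γ, (z ^ 2 + (γ : ℂ) ^ 2) ^ m γ‖ := by
      rw [norm_prod, hQ]
      refine Finset.prod_le_prod (fun γ _ => by positivity) fun γ hγ => ?_
      rw [norm_pow]
      refine pow_le_pow_left₀ (by positivity) ?_ _
      have h3 := ((hΓ γ).1 hγ).2.1
      have h4 := hpos γ hγ
      have h5 : ‖z ^ 2‖ - ‖(γ : ℂ) ^ 2‖ ≤ ‖z ^ 2 + (γ : ℂ) ^ 2‖ := by
        have := norm_sub_norm_le (z ^ 2) (-(γ : ℂ) ^ 2)
        rw [norm_neg, sub_neg_eq_add] at this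
        exact this
      rw [norm_pow, norm_pow, Complex.norm_real, Real.norm_eq_abs, sq_abs, hz] at h5
      nlinarith
    have h3 : ‖f z‖ = ‖z‖ ^ n0 * ‖∏ γ ∈ Γ, (z ^ 2 + (γ : ℂ) ^ 2) ^ m γ‖ * ‖h z‖ := by
      rw [hfh z, norm_mul, norm_mul, norm_pow]
    have h4 : Q * ‖h z‖ ≤ ‖f z‖ := by
      rw [h3]
      refine mul_le_mul_of_nonneg_right ?_ (norm_nonneg _)
      calc Q = 1 * Q := (one_mul _).symm
        _ ≤ _ := mul_le_mul h1 h2 hQpos.le (by positivity)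
    have h5 := hgr z
    rw [hz] at h5
    have h6 : Real.exp (C * (1 + 2 * R) ^ (3 / 2 : ℝ)) ≤ ‖g 0‖ * Real.exp a := by
      have h7 : ‖g 0‖ = Real.exp (Real.log ‖g 0‖) := (Real.exp_log hc0).symm
      have h8 : ‖g 0‖ * Real.exp a = Real.exp (Real.log ‖g 0‖ + a) := by
        rw [Real.exp_add (Real.log ‖g 0‖) a, ← h7]
      rw [h8]
      refine Real.exp_le_exp.2 ?_
      have := neg_abs_le (Real.log ‖g 0‖)
      rw [ha]
      linarith
    have h7 : Q * ‖h z‖ ≤ (Q * ‖h 0‖) * Real.exp a := by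
      rw [← hg0n]
      exact h4.trans (h5.trans h6)
    have h8 : ‖h z‖ ≤ ‖h 0‖ * Real.exp a := by
      rw [mul_assoc] at h7
      exact le_of_mul_le_mul_left h7 hQpos
    rw [norm_div, div_le_iff₀ (norm_pos_iff.2 h0), mul_comm (Real.exp a)]
    exact h8
  have hud : Differentiable ℂ (fun z => h z / h 0) := hd.div_const _
  have hball : ∀ z : ℂ, ‖z‖ < R → ‖h z / h 0‖ ≤ Real.exp a := by
    intro z hz
    exact et4_max _ hud (2 * R) _ (by linarith) hcirc z (by linarith)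
  have hslow := even_slow (fun z => h z / h 0) hud (div_self h0)
    (fun z => by simp only [heven]) R a hR0 hapos
    (fun z hz => div_ne_zero (hnz z hz) h0) hball s hs
  -- the finite product
  have hprod := prod_le_exp Γ m B hB hpos (by
    intro T hT
    refine hcount T hT _ fun γ hγ => ?_
    rw [Finset.mem_filter] at hγ
    exact ⟨hpos γ hγ.1, hγ.2⟩) s
  have hfac : (∏ γ ∈ Γ, (s ^ 2 + (γ : ℂ) ^ 2) ^ m γ) =
      (∏ γ ∈ Γ, ((γ : ℂ) ^ 2) ^ m γ) * ∏ γ ∈ Γ, (1 + s ^ 2 / (γ : ℂ) ^ 2) ^ m γ := by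
    rw [← Finset.prod_mul_distrib]
    refine Finset.prod_congr rfl fun γ hγ => ?_
    have h1 : (γ : ℂ) ≠ 0 := by exact_mod_cast (hpos γ hγ).ne'
    rw [← mul_pow]
    congr 1
    field_simp
    ring
  have hfin2 : ‖f s‖ = ‖s‖ ^ n0 * ‖g 0‖ *
      ‖∏ γ ∈ Γ, (1 + s ^ 2 / (γ : ℂ) ^ 2) ^ m γ‖ * ‖h s / h 0‖ := by
    rw [hfh s, hfac, norm_mul, norm_mul, norm_mul, norm_pow, hQn, hg0n, norm_div]
    have : ‖h 0‖ ≠ 0 := (norm_pos_iff.2 h0).ne'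
    field_simp
  rw [hfin2]
  gcongr

/-- Let `R → ∞`: `(1+2R)^{3/2}/R² → 0`, so `‖f s‖ ≤ ‖s‖^{n0} c exp(π B ‖s‖)`, and
`‖s‖^{n0} ≤ n0! exp ‖s‖`. -/
theorem exp_type (f : ℂ → ℂ) (hf : Differentiable ℂ f) (hne : ∃ z, f z ≠ 0) (ε : ℂ)
    (hε : ε = 1 ∨ ε = -1) (hsym : ∀ s, f (-s) = ε * f s) (C : ℝ)
    (hgr : ∀ s, ‖f s‖ ≤ Real.exp (C * (1 + ‖s‖) ^ (3 / 2 : ℝ)))
    (hre : ∀ s, f s = 0 → s.re = 0) (B : ℝ) (hB : 0 ≤ B)
    (hcount : ∀ T : ℝ, 0 < T → ∀ Γ : Finset ℝ, (∀ γ ∈ Γ, 0 < γ ∧ γ ≤ T) →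
      ∑ γ ∈ Γ, (analyticOrderNatAt f (γ * I) : ℝ) ≤ B * T) :
    ∃ C' : ℝ, ∀ s : ℂ, ‖f s‖ ≤ Real.exp (C' * (1 + ‖s‖)) := by
  obtain ⟨c, a0, hc, ha0, hbd⟩ := exp_type_R f hf hne ε hε hsym (max C 1)
    (lt_of_lt_of_le one_pos (le_max_right _ _)) (fun s => (hgr s).trans (Real.exp_le_exp.2
      (mul_le_mul_of_nonneg_right (le_max_left _ _) (by positivity)))) hre B hB hcount
  set C1 := max C 1 with hC1
  have hC1p : 0 < C1 := lt_of_lt_of_le one_pos (le_max_right _ _)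
  set n0 := analyticOrderNatAt f 0 with hn0
  -- the limit `R → ∞`
  have hlim : ∀ s : ℂ, ‖f s‖ ≤ ‖s‖ ^ n0 * c * Real.exp (Real.pi * B * ‖s‖) := by
    intro s
    have h1 : Filter.Tendsto (fun R : ℝ => 8 * (C1 * (1 + 2 * R) ^ (3 / 2 : ℝ) + a0) *
        ‖s‖ ^ 2 / R ^ 2) Filter.atTop (nhds 0) := by
      have hup : Filter.Tendsto (fun R : ℝ => 8 * (C1 * (3 : ℝ) ^ (3 / 2 : ℝ) *
          R ^ (-(1 / 2 : ℝ)) + a0 * R ^ (-(2 : ℝ))) * ‖s‖ ^ 2) Filter.atTop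
          (nhds (8 * (C1 * (3 : ℝ) ^ (3 / 2 : ℝ) * 0 + a0 * 0) * ‖s‖ ^ 2)) := by
        refine Filter.Tendsto.mul_const _ (Filter.Tendsto.const_mul _ (Filter.Tendsto.add ?_ ?_))
        · exact (tendsto_rpow_neg_atTop (by norm_num)).const_mul _
        · exact (tendsto_rpow_neg_atTop (by norm_num)).const_mul _
      have hup0 : (8 * (C1 * (3 : ℝ) ^ (3 / 2 : ℝ) * 0 + a0 * 0) * ‖s‖ ^ 2) = 0 := by ring
      rw [hup0] at hup
      refine tendsto_of_tendsto_of_tendsto_of_le_of_le' tendsto_const_nhds hup ?_ ?_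
      · filter_upwards [Filter.eventually_ge_atTop (1 : ℝ)] with R hR
        have h2 : 0 ≤ (1 + 2 * R) ^ (3 / 2 : ℝ) := Real.rpow_nonneg (by linarith) _
        positivity
      · filter_upwards [Filter.eventually_ge_atTop (1 : ℝ)] with R hR
        have hR0 : 0 < R := by linarith
        have h2 : (1 + 2 * R) ^ (3 / 2 : ℝ) ≤ (3 : ℝ) ^ (3 / 2 : ℝ) * R ^ (3 / 2 : ℝ) := by
          rw [← Real.mul_rpow (by norm_num) hR0.le]
          exact Real.rpow_le_rpow (by linarith) (by linarith) (by norm_num)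
        have h3 : R ^ (3 / 2 : ℝ) / R ^ 2 = R ^ (-(1 / 2 : ℝ)) := by
          rw [← Real.rpow_natCast R 2, ← Real.rpow_sub hR0]
          norm_num
        have h4 : 1 / R ^ 2 = R ^ (-(2 : ℝ)) := by
          rw [Real.rpow_neg hR0.le, one_div]
          norm_cast
        have h5 : 8 * (C1 * (1 + 2 * R) ^ (3 / 2 : ℝ) + a0) * ‖s‖ ^ 2 / R ^ 2 ≤
            8 * (C1 * ((3 : ℝ) ^ (3 / 2 : ℝ) * R ^ (3 / 2 : ℝ)) + a0) * ‖s‖ ^ 2 / R ^ 2 := by
          gcongr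
        refine h5.trans (le_of_eq ?_)
        rw [← h3, ← h4]
        ring
    have h2 : Filter.Tendsto (fun R : ℝ => ‖s‖ ^ n0 * c * Real.exp (Real.pi * B * ‖s‖) *
        Real.exp (8 * (C1 * (1 + 2 * R) ^ (3 / 2 : ℝ) + a0) * ‖s‖ ^ 2 / R ^ 2)) Filter.atTop
        (nhds (‖s‖ ^ n0 * c * Real.exp (Real.pi * B * ‖s‖) * Real.exp 0)) :=
      ((Real.continuous_exp.tendsto 0).comp h1).const_mul _
    rw [Real.exp_zero, mul_one] at h2
    refine ge_of_tendsto h2 ?_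
    filter_upwards [Filter.eventually_ge_atTop (1 : ℝ),
      Filter.eventually_gt_atTop (2 * ‖s‖)] with R hR hR2
    exact hbd R hR s (by linarith)
  set K : ℝ := (n0.factorial : ℝ) * c with hK
  have hKp : 0 < K := by positivity
  refine ⟨|Real.log K| + (Real.pi * B + 1), fun s => ?_⟩
  have h1 : ‖s‖ ^ n0 ≤ n0.factorial * Real.exp ‖s‖ := by
    have h2 := Real.pow_div_factorial_le_exp ‖s‖ (norm_nonneg s) n0
    have h3 : (0 : ℝ) < n0.factorial := by positivity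
    rw [div_le_iff₀ h3] at h2
    linarith
  have hpi := Real.pi_pos
  calc ‖f s‖ ≤ ‖s‖ ^ n0 * c * Real.exp (Real.pi * B * ‖s‖) := hlim s
    _ ≤ (n0.factorial * Real.exp ‖s‖) * c * Real.exp (Real.pi * B * ‖s‖) := by gcongr
    _ = K * Real.exp (‖s‖ + Real.pi * B * ‖s‖) := by rw [Real.exp_add, hK]; ring
    _ = Real.exp (Real.log K + (‖s‖ + Real.pi * B * ‖s‖)) := by
        rw [Real.exp_add (Real.log K), Real.exp_log hKp]
    _ ≤ Real.exp ((|Real.log K| + (Real.pi * B + 1)) * (1 + ‖s‖)) := by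
        refine Real.exp_le_exp.2 ?_
        have h4 := le_abs_self (Real.log K)
        have h5 := abs_nonneg (Real.log K)
        have h6 := norm_nonneg s
        have h7 : 0 ≤ |Real.log K| * ‖s‖ := by positivity
        have h8 : 0 ≤ Real.pi * B := by positivity
        nlinarith

end W3283f
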