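import Pool.Agent.W_MP_3283e1_h19.NF

set_option autoImplicit false

namespace W3283f

open Complex W3283e1 MeasureTheory Filter Topology

/-- the upper bounds for `Bg` under a two sided bound. -/
theorem TwoF_upper (α : ℕ → ℂ) (hα : ∀ p : ℕ, p.Prime → p ≠ 2 → ‖α p‖ ^ 2 = p)
    (a ρ K X : ℝ)
    (h : ∀ x : ℝ, X ≤ x → |AA α x - a - ρ * Real.log (Real.log x)| ≤ K / Real.log x)
    (t : ℝ) (ht : 1 < t) :
    (t ≤ X → Bg α a ρ 1 K X t ≤ 28 * Real.sqrt X) ∧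
    (X < t → Bg α a ρ 1 K X t ≤ 2 * K * (1 / Real.log t)) := by
  constructor
  · intro htX
    unfold Bg
    rw [if_pos htX]
    have h1 := abs_AA_le α hα t (by linarith)
    have h2 : Real.sqrt t ≤ Real.sqrt X := Real.sqrt_le_sqrt htX
    have h3 := (abs_le.1 h1).1
    linarith
  · intro htX
    unfold Bg
    rw [if_neg (not_le.2 htX)]
    have h1 := (abs_le.1 (h t htX.le)).1
    have h2 : 2 * K * (1 / Real.log t) = K / Real.log t + K / Real.log t := by ring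
    rw [h2]
    linarith

/-- the integral on `(1, X]`. -/
theorem TwoF_low (α : ℕ → ℂ) (hα : ∀ p : ℕ, p.Prime → p ≠ 2 → ‖α p‖ ^ 2 = p)
    (a ρ K X : ℝ) (hX : 3 ≤ X)
    (h : ∀ x : ℝ, X ≤ x → |AA α x - a - ρ * Real.log (Real.log x)| ≤ K / Real.log x)
    (h0 : ∀ t, 1 < t → 0 ≤ Bg α a ρ 1 K X t) (σ : ℝ) (hσ : 0 < σ) :
    IntegrableOn (fun t : ℝ => Bg α a ρ 1 K X t * t ^ (-(σ + 1))) (Set.Ioc 1 X) ∧
    ∫ t in Set.Ioc 1 X, Bg α a ρ 1 K X t * t ^ (-(σ + 1)) ≤ 28 * Real.sqrt X * (X - 1) := by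
  have hle : ∀ t ∈ Set.Ioc (1 : ℝ) X, Bg α a ρ 1 K X t * t ^ (-(σ + 1)) ≤ 28 * Real.sqrt X := by
    intro t ht
    have h1 := (TwoF_upper α hα a ρ K X h t ht.1).1 ht.2
    have h2 : t ^ (-(σ + 1)) ≤ 1 := Real.rpow_le_one_of_one_le_of_nonpos ht.1.le (by linarith)
    have h3 : 0 ≤ t ^ (-(σ + 1)) := Real.rpow_nonneg (by linarith [ht.1]) _
    have h4 := h0 t ht.1
    calc Bg α a ρ 1 K X t * t ^ (-(σ + 1)) ≤ Bg α a ρ 1 K X t * 1 :=
          mul_le_mul_of_nonneg_left h2 h4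
      _ ≤ 28 * Real.sqrt X := by rw [mul_one]; exact h1
  have hc : IntegrableOn (fun _ : ℝ => 28 * Real.sqrt X) (Set.Ioc 1 X) :=
    continuousOn_const.integrableOn_Icc.mono_set Set.Ioc_subset_Icc_self
  have hi : IntegrableOn (fun t : ℝ => Bg α a ρ 1 K X t * t ^ (-(σ + 1))) (Set.Ioc 1 X) := by
    refine Integrable.mono' hc ?_ ?_
    · exact ((Bg_meas α a ρ 1 K X).mul (measurable_id.pow_const _)).aestronglyMeasurable
    · refine (ae_restrict_iff' measurableSet_Ioc).2 (Filter.Eventually.of_forall fun t ht => ?_)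
      have h3 : 0 ≤ t ^ (-(σ + 1)) := Real.rpow_nonneg (by linarith [ht.1]) _
      rw [Real.norm_of_nonneg (mul_nonneg (h0 t ht.1) h3)]
      exact hle t ht
  refine ⟨hi, ?_⟩
  calc ∫ t in Set.Ioc 1 X, Bg α a ρ 1 K X t * t ^ (-(σ + 1))
      ≤ ∫ t in Set.Ioc (1 : ℝ) X, 28 * Real.sqrt X :=
        setIntegral_mono_on hi hc measurableSet_Ioc hle
    _ = 28 * Real.sqrt X * (X - 1) := by
        rw [setIntegral_const, smul_eq_mul, Measure.real, Real.volume_Ioc,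
          ENNReal.toReal_ofReal (by linarith)]
        ring

/-- the integral on `(X, ∞)`. -/
theorem TwoF_high (α : ℕ → ℂ) (hα : ∀ p : ℕ, p.Prime → p ≠ 2 → ‖α p‖ ^ 2 = p)
    (a ρ K X : ℝ) (hX : 3 ≤ X)
    (h : ∀ x : ℝ, X ≤ x → |AA α x - a - ρ * Real.log (Real.log x)| ≤ K / Real.log x)
    (h0 : ∀ t, 1 < t → 0 ≤ Bg α a ρ 1 K X t) (σ : ℝ) (hσ : 0 < σ) :
    IntegrableOn (fun t : ℝ => Bg α a ρ 1 K X t * t ^ (-(σ + 1))) (Set.Ioi X) ∧
    ∫ t in Set.Ioi X, Bg α a ρ 1 K X t * t ^ (-(σ + 1)) ≤ 2 * K * (H0 X σ).re := by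
  have hle : ∀ t ∈ Set.Ioi X, Bg α a ρ 1 K X t * t ^ (-(σ + 1)) ≤
      2 * K * ((1 / Real.log t) * t ^ (-(σ + 1))) := by
    intro t ht
    have ht' : X < t := ht
    have h1 := (TwoF_upper α hα a ρ K X h t (by linarith)).2 ht'
    have h3 : 0 ≤ t ^ (-(σ + 1)) := Real.rpow_nonneg (by linarith) _
    calc Bg α a ρ 1 K X t * t ^ (-(σ + 1)) ≤ 2 * K * (1 / Real.log t) * t ^ (-(σ + 1)) :=
          mul_le_mul_of_nonneg_right h1 h3
      _ = _ := by ring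
  have hc : IntegrableOn (fun t : ℝ => 2 * K * ((1 / Real.log t) * t ^ (-(σ + 1)))) (Set.Ioi X) :=
    (H0_integrable X hX σ hσ).const_mul _
  have hi : IntegrableOn (fun t : ℝ => Bg α a ρ 1 K X t * t ^ (-(σ + 1))) (Set.Ioi X) := by
    refine Integrable.mono' hc ?_ ?_
    · exact ((Bg_meas α a ρ 1 K X).mul (measurable_id.pow_const _)).aestronglyMeasurable
    · refine (ae_restrict_iff' measurableSet_Ioi).2 (Filter.Eventually.of_forall fun t ht => ?_)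
      have ht' : X < t := ht
      have h3 : 0 ≤ t ^ (-(σ + 1)) := Real.rpow_nonneg (by linarith) _
      rw [Real.norm_of_nonneg (mul_nonneg (h0 t (by linarith)) h3)]
      exact hle t ht
  refine ⟨hi, ?_⟩
  rw [(H0_real X hX σ).2, ← integral_const_mul]
  exact setIntegral_mono_on hi hc measurableSet_Ioi hle

/-- A two sided bound gives the hypotheses `OneSided` with `η = 1`: `0 ≤ Bg ≤ 2K/log t` for `t > X`
and `0 ≤ Bg ≤ 28 √X` for `1 < t ≤ X`, so `∫ Bg t^{-σ-1} ≤ 28 √X log X + 2 K H0(σ)` converges for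
every `σ > 0` (`H0_integrable`), and `σ` times it tends to `0` (`H0_mul_tendsto`; the norm of `TT` at
a real point is at most the real integral, `step_norm_int` of `W3283e1`). -/
theorem oneSided_of_two (α : ℕ → ℂ) (hα : ∀ p : ℕ, p.Prime → p ≠ 2 → ‖α p‖ ^ 2 = p)
    (a ρ K X : ℝ) (hK : 0 < K) (hX : 3 ≤ X)
    (h : ∀ x : ℝ, X ≤ x → |AA α x - a - ρ * Real.log (Real.log x)| ≤ K / Real.log x) :
    OneSided α a ρ 1 K X := by
  have hbd : ∀ x : ℝ, X ≤ x → (1 : ℝ) * (AA α x - a - ρ * Real.log (Real.log x)) ≤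
      K / Real.log x := fun x hx => by
    rw [one_mul]
    exact (le_abs_self _).trans (h x hx)
  have h0 : ∀ t, 1 < t → 0 ≤ Bg α a ρ 1 K X t := fun t ht =>
    Bg_nonneg α hα a ρ 1 K X (Or.inl rfl) hbd t ht
  have hsplit : Set.Ioi (1 : ℝ) = Set.Ioc 1 X ∪ Set.Ioi X :=
    (Set.Ioc_union_Ioi_eq_Ioi (by linarith)).symm
  refine ⟨Or.inl rfl, hK, hX, hbd, ?_, ?_⟩
  · intro σ hσ
    rw [hsplit]
    exact (TwoF_low α hα a ρ K X hX h h0 σ hσ).1.union (TwoF_high α hα a ρ K X hX h h0 σ hσ).1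
  · have key : ∀ σ : ℝ, 0 < σ → ‖(σ : ℂ) * TT (Bg α a ρ 1 K X) σ‖ ≤
        σ * (28 * Real.sqrt X * (X - 1)) + 2 * K * ‖(σ : ℂ) * H0 X σ‖ := by
      intro σ hσ
      have h1 := step_norm_int (Bg α a ρ 1 K X) h0 (σ : ℂ)
      rw [ofReal_re] at h1
      have h2 : ∫ t in Set.Ioi (1 : ℝ), Bg α a ρ 1 K X t * t ^ (-(σ + 1)) ≤
          28 * Real.sqrt X * (X - 1) + 2 * K * (H0 X σ).re := by
        rw [hsplit, setIntegral_union (Set.Ioc_disjoint_Ioi le_rfl) measurableSet_Ioi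
          (TwoF_low α hα a ρ K X hX h h0 σ hσ).1 (TwoF_high α hα a ρ K X hX h h0 σ hσ).1]
        exact add_le_add (TwoF_low α hα a ρ K X hX h h0 σ hσ).2
          (TwoF_high α hα a ρ K X hX h h0 σ hσ).2
      have h3 : (H0 X σ).re ≤ ‖H0 X σ‖ := Complex.re_le_norm _
      rw [norm_mul, norm_mul, Complex.norm_real, Real.norm_of_nonneg hσ.le]
      have h4 : ‖TT (Bg α a ρ 1 K X) σ‖ ≤ 28 * Real.sqrt X * (X - 1) + 2 * K * ‖H0 X σ‖ := by
        refine (h1.trans h2).trans ?_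
        have : 2 * K * (H0 X σ).re ≤ 2 * K * ‖H0 X σ‖ :=
          mul_le_mul_of_nonneg_left h3 (by linarith)
        linarith
      calc σ * ‖TT (Bg α a ρ 1 K X) σ‖ ≤ σ * (28 * Real.sqrt X * (X - 1) + 2 * K * ‖H0 X σ‖) :=
            mul_le_mul_of_nonneg_left h4 hσ.le
        _ = _ := by ring
    refine squeeze_zero_norm' (a := fun σ : ℝ => σ * (28 * Real.sqrt X * (X - 1)) +
      2 * K * ‖(σ : ℂ) * H0 X σ‖) ?_ ?_
    · filter_upwards [self_mem_nhdsWithin] with σ hσ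
      exact key σ hσ
    · have e1 : Tendsto (fun σ : ℝ => σ * (28 * Real.sqrt X * (X - 1)))
          (nhdsWithin 0 (Set.Ioi 0)) (nhds 0) := by
        have : Tendsto (fun σ : ℝ => σ * (28 * Real.sqrt X * (X - 1))) (nhds 0)
            (nhds (0 * (28 * Real.sqrt X * (X - 1)))) := tendsto_id.mul_const _
        rw [zero_mul] at this
        exact this.mono_left nhdsWithin_le_nhds
      have e2 : Tendsto (fun σ : ℝ => 2 * K * ‖(σ : ℂ) * H0 X σ‖)
          (nhdsWithin 0 (Set.Ioi 0)) (nhds 0) := by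
        have := ((H0_mul_tendsto X hX).norm).const_mul (2 * K)
        rwa [norm_zero, mul_zero] at this
      have := e1.add e2
      rwa [add_zero] at this

end W3283f
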