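import Pool.Agent.W_MP_3283e1_h19.LG
import Pool.Agent.W_MP_3283e1_h19.CoreF
import Pool.Agent.W_MP_3283e1_h19.TwoF
import Pool.Agent.W_MP_3283e1_h19.ET4

set_option autoImplicit false

namespace W3283f

open Complex W3283e1 Filter Topology

/-- Multiplication by a holomorphic function without zeros does not change the orders: for
`LL s = LG s * u s` on `Re s > 3/4`, `mL LL γ` is the order of `LamG` at `iγ` (`LamG_order`,
`analyticOrderAt_mul`; the two functions agree near `1 + iγ`). -/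
theorem mL_fam (a : ℕ → ℝ) (κ ε : ℝ) (h : ThData a κ ε) (LL u : ℂ → ℂ)
    (hu : ∀ s : ℂ, 3 / 4 < s.re → AnalyticAt ℂ u s ∧ u s ≠ 0)
    (hLL : ∀ s : ℂ, 3 / 4 < s.re → LL s = LG a κ s * u s) (γ : ℝ) :
    mL LL γ = analyticOrderNatAt (LamG a κ) (γ * I) := by
  have hz : (-1 : ℝ) < ((γ : ℂ) * I).re := by simp
  rw [LamG_order a κ ε h _ hz]
  unfold mL analyticOrderNatAt
  have hre : (3 / 4 : ℝ) < (1 + (γ : ℂ) * I).re := by
    simp only [Complex.add_re, Complex.one_re, Complex.mul_re, Complex.ofReal_re, Complex.I_re,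
      mul_zero, Complex.ofReal_im, Complex.I_im, mul_one, sub_self, add_zero]
    norm_num
  -- local agreement
  have hev : (fun s : ℂ => LL (1 + s)) =ᶠ[𝓝 ((γ : ℂ) * I)]
      ((fun s : ℂ => LG a κ (1 + s)) * fun s : ℂ => u (1 + s)) := by
    have hc : Continuous (fun s : ℂ => (1 + s).re) := by fun_prop
    have ho : ∀ᶠ s : ℂ in 𝓝 ((γ : ℂ) * I), (3 / 4 : ℝ) < (1 + s).re :=
      hc.continuousAt.eventually (lt_mem_nhds hre)
    filter_upwards [ho] with s hs
    rw [Pi.mul_apply]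
    exact hLL (1 + s) hs
  have hA : AnalyticAt ℂ (fun s : ℂ => LG a κ (1 + s)) ((γ : ℂ) * I) :=
    ((LG_diff a κ ε h).comp (differentiable_id.const_add 1)).analyticAt _
  have hB : AnalyticAt ℂ (fun s : ℂ => u (1 + s)) ((γ : ℂ) * I) := by
    have h1 : AnalyticAt ℂ (fun s : ℂ => 1 + s) ((γ : ℂ) * I) :=
      analyticAt_const.add analyticAt_id
    exact AnalyticAt.comp' (hu _ hre).1 h1
  rw [analyticOrderAt_congr hev, analyticOrderAt_mul hA hB]
  have h2 : analyticOrderAt (fun s : ℂ => u (1 + s)) ((γ : ℂ) * I) = 0 :=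
    hB.analyticOrderAt_eq_zero.2 (hu _ hre).2
  rw [h2, add_zero]

/-- The abstract theorem for families.  Suppose the bound `|AA - A - ρ log log| ≤ K/log x` holds for
`x ≥ X` (enlarge `X` to be at least `3`, `K` to be positive).  `oneSided_of_two` and `coreF`: no
zeros of `LL` with `Re > 1` and `∑ mL ≤ 2KT`, hence the same for `LamG a κ` (`mL_fam`,
`order_symm`); all zeros of `LamG` are on the imaginary axis by the functional equation and
`LamG_zero`; `exp_type` contradicts `LamG_not_exp`. -/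
theorem fam_abs (a : ℕ → ℝ) (κ ε : ℝ) (h : ThData a κ ε) (α : ℕ → ℂ) (LL W u : ℂ → ℂ)
    (hD : DataF α LL W)
    (hu : ∀ s : ℂ, 3 / 4 < s.re → AnalyticAt ℂ u s ∧ u s ≠ 0)
    (hLL : ∀ s : ℂ, 3 / 4 < s.re → LL s = LG a κ s * u s) (A ρ K X : ℝ) :
    ∃ x : ℝ, X ≤ x ∧ K / Real.log x < |AA α x - A - ρ * Real.log (Real.log x)| := by
  by_contra hcon
  push Not at hcon
  obtain ⟨hd, hsym, C, hgr⟩ := LamG_basic a κ ε h
  have hεC : (ε : ℂ) = 1 ∨ (ε : ℂ) = -1 := by
    rcases h.eps with he | he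
    · left; rw [he]; norm_num
    · right; rw [he]; norm_num
  set X' : ℝ := max X 3 with hX'
  set K' : ℝ := max K 1 with hK'
  have hK'0 : 0 < K' := lt_of_lt_of_le one_pos (le_max_right _ _)
  have hX'3 : 3 ≤ X' := le_max_right _ _
  have hbd : ∀ x : ℝ, X' ≤ x → |AA α x - A - ρ * Real.log (Real.log x)| ≤ K' / Real.log x := by
    intro x hx
    have hx1 : X ≤ x := (le_max_left _ _).trans hx
    have hlog : 0 ≤ Real.log x := Real.log_nonneg (by linarith)
    exact (hcon x hx1).trans (div_le_div_of_nonneg_right (le_max_left _ _) hlog)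
  have hOS := oneSided_of_two α hD.norm_α A ρ K' X' hK'0 hX'3 hbd
  have hms : ∀ γ : ℝ, mL LL (-γ) = mL LL γ := by
    intro γ
    rw [mL_fam a κ ε h LL u hu hLL, mL_fam a κ ε h LL u hu hLL]
    have h1 := order_symm (LamG a κ) hd (ε : ℂ) hεC hsym (γ * I)
    rw [← h1]
    congr 1
    push_cast
    ring
  obtain ⟨hz, hcount⟩ := coreF α LL W hD A ρ 1 K' X' hOS hms
  have hpos : ∀ s : ℂ, LamG a κ s = 0 → ¬ 0 < s.re := by
    intro s hs hre
    have hre1 : 1 < (1 + s).re := by rw [Complex.add_re, Complex.one_re]; linarith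
    refine hz (1 + s) hre1 ?_
    rw [hLL (1 + s) (by linarith), LamG_zero a κ ε h s (by linarith) hs, zero_mul]
  have hne : ∃ z, LamG a κ z ≠ 0 := ⟨1, fun h0 => hpos 1 h0 (by simp)⟩
  refine LamG_not_exp a κ ε h (exp_type (LamG a κ) hd hne (ε : ℂ) hεC hsym C hgr ?_ (2 * K')
    (by positivity) ?_)
  · intro s hs
    have h1 := hpos s hs
    have h2 := hpos (-s) (by rw [hsym, hs, mul_zero])
    rw [Complex.neg_re] at h2
    push Not at h1 h2
    linarith
  · intro T hT Γ hΓ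
    refine le_trans (le_of_eq (Finset.sum_congr rfl fun γ _ => ?_)) (hcount T hT Γ hΓ)
    rw [mL_fam a κ ε h LL u hu hLL γ]

end W3283f
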