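import Pool.Agent.W_MP_3283e1_h19.ThF

set_option autoImplicit false

namespace W3283f

open Complex W3283e1

theorem ThI_Psi_const (M : ℕ) (c : ℂ) (f g : ℤ → ℤ → ℂ) (h : ∀ a b, g a b = c * f a b) (t : ℝ) :
    Psi M g t = c * Psi M f t := by
  unfold Psi
  rw [← tsum_mul_left]
  refine tsum_congr fun z => ?_
  rw [h]
  ring

/-- `j = 1`: `Psi_inv`, `FT_fF1`: the factor is `-i t²/(4n) · 4 i n χ₄(n) = χ₄(n) t²`. -/
theorem Th_inv1 (n : ℕ) (hn : Odd n) (hs : Squarefree n) (t : ℝ) (ht : 0 < t) :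
    Th (aFam n 1) (1 / (4 * n)) (1 / t) =
      ((ZMod.χ₄ (n : ZMod 4) : ℤ) : ℝ) * t ^ 2 * Th (aFam n 1) (1 / (4 * n)) t := by
  have hn0 : 0 < n := hn.pos
  have hnC : (n : ℂ) ≠ 0 := by exact_mod_cast hn0.ne'
  have h1 := Psi_inv (4 * n) (by omega) (fF n 1) (fF_per n 1 hn0) t ht
  rw [ThI_Psi_const (4 * n) _ (fF n 1) _ (fun a b => FT_fF1 n hn hs a b) t,
    Psi_eq n 1 hn0 t ht, Psi_eq n 1 hn0 (1 / t) (by positivity)] at h1
  have h2 : ((Th (aFam n 1) (1 / (4 * n)) (1 / t) : ℝ) : ℂ) =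
      ((((ZMod.χ₄ (n : ZMod 4) : ℤ) : ℝ) * t ^ 2 * Th (aFam n 1) (1 / (4 * n)) t : ℝ) : ℂ) := by
    set A := Th (aFam n 1) (1 / (4 * n)) (1 / t)
    set B := Th (aFam n 1) (1 / (4 * n)) t
    push_cast at h1 ⊢
    have h3 : (4 * (A : ℂ)) = 4 * ((((ZMod.χ₄ (n : ZMod 4) : ℤ) : ℂ)) * t ^ 2 * B) := by
      rw [h1]
      have hI : I * I = -1 := I_mul_I
      field_simp
      linear_combination (-(t : ℂ) ^ 2 * (B : ℂ) * (((ZMod.χ₄ (n : ZMod 4) : ℤ) : ℂ))) * hI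
    exact mul_left_cancel₀ (by norm_num) h3
  exact_mod_cast h2

/-- `j = 0`: `Psi_inv`, `FT_fF0`; the transform is supported on `a + b` even, that is on
`(a + bi) = (1+i)(a' + b' i)` (bijection `(a',b') ↦ (a' - b', a' + b')`), so
`Psi(FT)(t) = 4(1+i)² n χ₄(n) J(2|n) ∑ f(w') w' e^{-2π|w'|² t/(4n)}`, `(1+i)² = 2i`. -/
theorem Th_inv0 (n : ℕ) (hn : Odd n) (hs : Squarefree n) (t : ℝ) (ht : 0 < t) :
    Th (aFam n 0) (1 / (4 * n)) (1 / t) =
      2 * ((ZMod.χ₄ (n : ZMod 4) : ℤ) : ℝ) * ((jacobiSym 2 n : ℤ) : ℝ) * t ^ 2 *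
        Th (aFam n 0) (1 / (4 * n)) (2 * t) := by
  have hn0 : 0 < n := hn.pos
  have hnC : (n : ℂ) ≠ 0 := by exact_mod_cast hn0.ne'
  have h1 := Psi_inv (4 * n) (by omega) (fF n 0) (fF_per n 0 hn0) t ht
  have hF : Psi (4 * n) (FT (4 * n) (fF n 0)) t =
      (8 * I * n * ((ZMod.χ₄ (n : ZMod 4) : ℤ) : ℂ) * ((jacobiSym 2 n : ℤ) : ℂ)) *
        Psi (4 * n) (fF n 0) (2 * t) := by
    unfold Psi
    rw [← tsum_mul_left]
    have hinj : Function.Injective (fun z : ℤ × ℤ => (z.1 - z.2, z.1 + z.2)) := by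
      rintro ⟨a, b⟩ ⟨c, d⟩ h
      simp only [Prod.mk.injEq] at h ⊢
      omega
    rw [← hinj.tsum_eq]
    · refine tsum_congr fun z => ?_
      have e1 : (z.1 - z.2 + (z.1 + z.2)) / 2 = z.1 := by omega
      have e2 : (z.1 + z.2 - (z.1 - z.2)) / 2 = z.2 := by omega
      have e3 : (z.1 - z.2 + (z.1 + z.2)) % 2 = 0 := by omega
      simp only [FT_fF0 n hn hs, e1, e2, e3, if_true]
      have e4 : -Real.pi * (((z.1 - z.2 : ℤ) : ℝ) ^ 2 + ((z.1 + z.2 : ℤ) : ℝ) ^ 2) * t /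
          ((4 * n : ℕ) : ℝ) = -Real.pi * ((z.1 : ℝ) ^ 2 + (z.2 : ℝ) ^ 2) * (2 * t) /
          ((4 * n : ℕ) : ℝ) := by
        push_cast
        ring
      rw [e4]
      push_cast
      have hI : I * I = -1 := I_mul_I
      linear_combination (4 * n * ((ZMod.χ₄ (n : ZMod 4) : ℤ) : ℂ) * ((jacobiSym 2 n : ℤ) : ℂ) *
        fF n 0 z.1 z.2 * Complex.exp (-Real.pi * ((z.1 : ℂ) ^ 2 + (z.2 : ℂ) ^ 2) * (2 * t) /
          (4 * n)) * ((z.1 + z.2 * I) - (1 + I) * z.2)) * hI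
    · intro z hz
      rw [Function.mem_support] at hz
      have hpar : (z.1 + z.2) % 2 = 0 := by
        by_contra hne
        apply hz
        rw [FT_fF0 n hn hs, if_neg hne, zero_mul, zero_mul]
      refine ⟨((z.1 + z.2) / 2, (z.2 - z.1) / 2), ?_⟩
      apply Prod.ext
      · change (z.1 + z.2) / 2 - (z.2 - z.1) / 2 = z.1
        omega
      · change (z.1 + z.2) / 2 + (z.2 - z.1) / 2 = z.2
        omega
  rw [hF, Psi_eq n 0 hn0 (2 * t) (by positivity), Psi_eq n 0 hn0 (1 / t) (by positivity)] at h1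
  have h2 : ((Th (aFam n 0) (1 / (4 * n)) (1 / t) : ℝ) : ℂ) =
      ((2 * ((ZMod.χ₄ (n : ZMod 4) : ℤ) : ℝ) * ((jacobiSym 2 n : ℤ) : ℝ) * t ^ 2 *
        Th (aFam n 0) (1 / (4 * n)) (2 * t) : ℝ) : ℂ) := by
    set A := Th (aFam n 0) (1 / (4 * n)) (1 / t)
    set B := Th (aFam n 0) (1 / (4 * n)) (2 * t)
    push_cast at h1 ⊢
    have h3 : (4 * (A : ℂ)) = 4 * (2 * (((ZMod.χ₄ (n : ZMod 4) : ℤ) : ℂ)) *
        (((jacobiSym 2 n : ℤ) : ℂ)) * t ^ 2 * B) := by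
      rw [h1]
      have hI : I * I = -1 := I_mul_I
      field_simp
      linear_combination (-8 * (t : ℂ) ^ 2 * (B : ℂ) * (((ZMod.χ₄ (n : ZMod 4) : ℤ) : ℂ)) *
        (((jacobiSym 2 n : ℤ) : ℂ))) * hI
    exact mul_left_cancel₀ (by norm_num) h3
  exact_mod_cast h2

theorem ThI_chi4 (n : ℕ) (hn : Odd n) : ZMod.χ₄ (n : ZMod 4) = 1 ∨ ZMod.χ₄ (n : ZMod 4) = -1 := by
  have h : n % 4 = 1 ∨ n % 4 = 3 := by
    obtain ⟨k, hk⟩ := hn
    omega
  rcases h with h | h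
  · left
    exact ZMod.χ₄_nat_one_mod_four h
  · right
    exact ZMod.χ₄_nat_three_mod_four h

theorem ThI_jac (n : ℕ) (hn : Odd n) : jacobiSym 2 n = 1 ∨ jacobiSym 2 n = -1 := by
  apply jacobiSym.eq_one_or_neg_one
  rw [Int.gcd_eq_natAbs]
  change Nat.gcd 2 n = 1
  exact (Nat.coprime_two_left).2 hn

theorem ThI_scale (a : ℕ → ℝ) (n : ℕ) (t : ℝ) :
    Th a (Real.sqrt 2 / (4 * n)) t = Th a (1 / (4 * n)) (Real.sqrt 2 * t) := by
  unfold Th
  refine tsum_congr fun m => ?_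
  congr 2
  ring

/-- `a_0 = 0` (`cc_zero`), `a_1 = 1` (`cc_one`), `aFam_sum`, and for `j = 0`
`Th a (√2 κ) t = Th a κ (√2 t)`. -/
theorem thData_fam (n j : ℕ) (hj : j = 0 ∨ j = 1) (hn : Odd n) (hs : Squarefree n) :
    ThData (aFam n j) (kF n j) (eF n j) := by
  have hn0 : 0 < n := hn.pos
  have hnR : (0 : ℝ) < n := by exact_mod_cast hn0
  refine ⟨?_, ?_, aFam_sum n j, ?_, ?_, ?_⟩
  · unfold aFam
    rw [cc_zero]
    simp
  · unfold aFam
    rw [cc_one]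
    simp
  · unfold kF
    split_ifs
    · positivity
    · positivity
  · unfold eF
    rcases ThI_chi4 n hn with h1 | h1 <;> rcases ThI_jac n hn with h2 | h2 <;>
      rcases hj with h3 | h3 <;> rw [h1, h3] <;> simp [h2]
  · intro t ht
    rcases hj with h3 | h3
    · subst h3
      unfold kF eF
      rw [if_pos rfl, if_pos rfl, ThI_scale, ThI_scale]
      have hs2 : Real.sqrt 2 * Real.sqrt 2 = 2 := Real.mul_self_sqrt (by norm_num)
      have hs0 : (0 : ℝ) < Real.sqrt 2 := by positivity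
      have h4 := Th_inv0 n hn hs (t / Real.sqrt 2) (by positivity)
      have h5 : 1 / (t / Real.sqrt 2) = Real.sqrt 2 * (1 / t) := by
        field_simp
      have h6 : 2 * (t / Real.sqrt 2) = Real.sqrt 2 * t := by
        field_simp
        linear_combination (-1 : ℝ) * hs2
      have h7 : (t / Real.sqrt 2) ^ 2 = t ^ 2 / 2 := by
        rw [div_pow, Real.sq_sqrt (by norm_num)]
      rw [h5, h6, h7] at h4
      rw [h4]
      ring
    · subst h3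
      unfold kF eF
      rw [if_neg one_ne_zero, if_neg one_ne_zero, mul_one]
      exact Th_inv1 n hn hs t ht

end W3283f
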