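import Pool.Agent.W_MP_3283e1_h19.EulF
import Pool.Agent.W_MP_3283e1_h19.ThI
import Pool.Agent.W_MP_3283e1_h19.FamAbs
import Pool.Agent.W_MP_3283e1_h19.Edge3

set_option autoImplicit false

namespace W3283f

open Complex W3283e1

/-- The L-function with the Euler factors at the primes dividing `n` added. -/
noncomputable def LLF (n j : ℕ) (s : ℂ) : ℂ := LG (aFam n j) (kF n j) s * uF n j s

/-- `norm_alF`, `euler_full` with `LG_eq`, `LG_diff`, `uF_good`; `fM (alF n j p) p w =
fM (alpha j p) p w` by `alF_sq` (for the conjugate also), so `WW_prod j` applies; `WW_ne`,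
`WW_edge`. -/
theorem dataF_fam (n j : ℕ) (hj : j = 0 ∨ j = 1) (hn : Odd n) (hs : Squarefree n) :
    DataF (alF n j) (LLF n j) WW := by
  have hT := thData_fam n j hj hn hs
  refine
    { norm_α := fun p hp h2 => norm_alF n j p hp h2
      L_diff := fun s h3 => ?_
      L_prod := fun s h3 => ?_
      W_diff := WW_diff
      W_prod := fun w hw => ?_
      W_ne := fun w hw => ?_ }
  · exact (((LG_diff _ _ _ hT) s).mul (uF_good n j hn s h3).1.differentiableAt).differentiableWithinAt
  · have h4 := euler_full n j hn s h3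
    rw [← (LG_eq _ _ _ hT s h3).2] at h4
    exact h4
  · have h4 : (fun p : OP => (fM (alF n j p) p w)⁻¹) = fun p : OP => (fM (alpha j p) p w)⁻¹ := by
      funext p
      unfold fM
      rw [← map_pow, alF_sq n j p p.2.1 p.2.2, map_pow]
    rw [h4]
    exact WW_prod j w hw
  · rcases hw.eq_or_lt with h | h
    · exact WW_edge w h.symm
    · exact WW_ne w h

/-- `fam_abs`. -/
theorem fam_AA (n j : ℕ) (hj : j = 0 ∨ j = 1) (hn : Odd n) (hs : Squarefree n) (A ρ K X : ℝ) :
    ∃ x : ℝ, X ≤ x ∧ K / Real.log x < |AA (alF n j) x - A - ρ * Real.log (Real.log x)| := by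
  exact fam_abs (aFam n j) (kF n j) (eF n j) (thData_fam n j hj hn hs) (alF n j) (LLF n j) WW
    (uF n j) (dataF_fam n j hj hn hs) (fun s h => uF_good n j hn s h) (fun s _ => rfl) A ρ K X

end W3283f
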