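import Mathlib

set_option autoImplicit false

namespace W3283f

open MeasureTheory Set Filter Topology

/-- The kernel `2y²/(t(t²+y²))` has primitive `-log(1+y²/t²)` on the positive axis. -/
theorem hasDerivAt_kernel (y t : ℝ) (ht : 0 < t) :
    HasDerivAt (fun t : ℝ => -Real.log (1 + y ^ 2 / t ^ 2)) (2 * y ^ 2 / (t * (t ^ 2 + y ^ 2))) t := by
  have h1 : HasDerivAt (fun t : ℝ => 1 + y ^ 2 / t ^ 2)
      ((0 * t ^ 2 - y ^ 2 * (2 * t ^ (2 - 1))) / (t ^ 2) ^ 2) t := by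
    have h2 : HasDerivAt (fun t : ℝ => t ^ 2) (2 * t ^ (2 - 1)) t := by
      simpa using hasDerivAt_pow 2 t
    have h3 := ((hasDerivAt_const t (y ^ 2)).div h2 (by positivity)).const_add 1
    exact h3
  have hpos : (1 + y ^ 2 / t ^ 2) ≠ 0 := by positivity
  have h4 := (h1.log hpos).neg
  refine h4.congr_deriv ?_
  have ht' : t ≠ 0 := ht.ne'
  have h5 : t ^ 2 + y ^ 2 ≠ 0 := by positivity
  field_simp
  ring

theorem tendsto_kernel (y : ℝ) :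
    Tendsto (fun t : ℝ => -Real.log (1 + y ^ 2 / t ^ 2)) atTop (𝓝 0) := by
  have h1 : Tendsto (fun t : ℝ => 1 + y ^ 2 / t ^ 2) atTop (𝓝 (1 + 0)) := by
    refine tendsto_const_nhds.add ?_
    exact tendsto_const_nhds.div_atTop (tendsto_pow_atTop (by norm_num))
  have h2 : Tendsto (fun t : ℝ => Real.log (1 + y ^ 2 / t ^ 2)) atTop (𝓝 (Real.log (1 + 0))) :=
    (Real.continuousAt_log (by norm_num)).tendsto.comp h1
  have h3 := h2.neg
  simpa using h3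

theorem kernel_nonneg (y t : ℝ) (ht : 0 < t) : 0 ≤ 2 * y ^ 2 / (t * (t ^ 2 + y ^ 2)) := by
  positivity

theorem kernel_integrable (y γ : ℝ) (hγ : 0 < γ) :
    IntegrableOn (fun t : ℝ => 2 * y ^ 2 / (t * (t ^ 2 + y ^ 2))) (Ioi γ) := by
  refine integrableOn_Ioi_deriv_of_nonneg' (g := fun t : ℝ => -Real.log (1 + y ^ 2 / t ^ 2))
    (l := 0) ?_ ?_ (tendsto_kernel y)
  · intro t ht
    exact hasDerivAt_kernel y t (lt_of_lt_of_le hγ ht)
  · intro t ht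
    exact kernel_nonneg y t (lt_trans hγ ht)

theorem kernel_integral (y γ : ℝ) (hγ : 0 < γ) :
    ∫ t in Ioi γ, 2 * y ^ 2 / (t * (t ^ 2 + y ^ 2)) = Real.log (1 + y ^ 2 / γ ^ 2) := by
  have h := integral_Ioi_of_hasDerivAt_of_nonneg' (a := γ)
    (g := fun t : ℝ => -Real.log (1 + y ^ 2 / t ^ 2))
    (g' := fun t : ℝ => 2 * y ^ 2 / (t * (t ^ 2 + y ^ 2))) (l := 0)
    (fun t ht => hasDerivAt_kernel y t (lt_of_lt_of_le hγ ht))
    (fun t ht => kernel_nonneg y t (lt_trans hγ ht)) (tendsto_kernel y)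
  rw [h]
  ring

theorem hasDerivAt_arctan_kernel (y t : ℝ) (hy : 0 < y) :
    HasDerivAt (fun t : ℝ => 2 * y * Real.arctan (t / y)) (2 * y ^ 2 / (t ^ 2 + y ^ 2)) t := by
  have h1 : HasDerivAt (fun t : ℝ => t / y) (1 / y) t := (hasDerivAt_id t).div_const y
  have h2 := (h1.arctan).const_mul (2 * y)
  refine h2.congr_deriv ?_
  have hy' : y ≠ 0 := hy.ne'
  have h5 : t ^ 2 + y ^ 2 ≠ 0 := by positivity
  have h6 : 1 + (t / y) ^ 2 ≠ 0 := by positivity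
  field_simp
  ring

theorem tendsto_arctan_kernel (y : ℝ) (hy : 0 < y) :
    Tendsto (fun t : ℝ => 2 * y * Real.arctan (t / y)) atTop (𝓝 (2 * y * (Real.pi / 2))) := by
  refine Tendsto.const_mul _ ?_
  have h1 : Tendsto (fun t : ℝ => t / y) atTop atTop := tendsto_id.atTop_div_const hy
  exact (tendsto_nhds_of_tendsto_nhdsWithin Real.tendsto_arctan_atTop).comp h1

theorem arctan_integrable (y : ℝ) (hy : 0 < y) :
    IntegrableOn (fun t : ℝ => 2 * y ^ 2 / (t ^ 2 + y ^ 2)) (Ioi 0) := by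
  refine integrableOn_Ioi_deriv_of_nonneg' (g := fun t : ℝ => 2 * y * Real.arctan (t / y))
    (l := 2 * y * (Real.pi / 2)) ?_ ?_ (tendsto_arctan_kernel y hy)
  · intro t _
    exact hasDerivAt_arctan_kernel y t hy
  · intro t _
    positivity

theorem arctan_integral (y : ℝ) (hy : 0 < y) :
    ∫ t in Ioi (0 : ℝ), 2 * y ^ 2 / (t ^ 2 + y ^ 2) = Real.pi * y := by
  have h := integral_Ioi_of_hasDerivAt_of_nonneg' (a := 0)
    (g := fun t : ℝ => 2 * y * Real.arctan (t / y))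
    (g' := fun t : ℝ => 2 * y ^ 2 / (t ^ 2 + y ^ 2)) (l := 2 * y * (Real.pi / 2))
    (fun t _ => hasDerivAt_arctan_kernel y t hy)
    (fun t _ => by positivity) (tendsto_arctan_kernel y hy)
  rw [h]
  simp
  ring

/-- `log(1 + y²/γ²) = ∫_γ^∞ 2y²/(t(t²+y²)) dt` (primitive `-log(1 + y²/t²)`); so the left side is
`∫_0^∞ (∑_{γ ≤ t} m γ) 2y²/(t(t²+y²)) dt ≤ ∫_0^∞ 2 B y²/(t²+y²) dt = π B y`.  (The sum is finite.)
Any other constant in place of `π` may be obtained by a dyadic argument, but please keep the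
statement. -/
theorem sum_log_le (Γ : Finset ℝ) (m : ℝ → ℕ) (B : ℝ) (hB : 0 ≤ B) (hpos : ∀ γ ∈ Γ, 0 < γ)
    (hcount : ∀ T : ℝ, 0 < T → ∑ γ ∈ Γ with γ ≤ T, (m γ : ℝ) ≤ B * T) (y : ℝ) (hy : 0 ≤ y) :
    ∑ γ ∈ Γ, (m γ : ℝ) * Real.log (1 + y ^ 2 / γ ^ 2) ≤ Real.pi * B * y := by
  rcases hy.eq_or_lt with h0 | hy
  · subst h0
    simp
  set g : ℝ → ℝ := fun t => 2 * y ^ 2 / (t * (t ^ 2 + y ^ 2)) with hg
  have hint : ∀ γ ∈ Γ, IntegrableOn (fun t => (m γ : ℝ) * (Ioi γ).indicator g t) (Ioi 0) := by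
    intro γ hγ
    refine Integrable.const_mul ?_ _
    refine Integrable.integrableOn ?_
    rw [integrable_indicator_iff measurableSet_Ioi]
    exact kernel_integrable y γ (hpos γ hγ)
  have hterm : ∀ γ ∈ Γ, (m γ : ℝ) * Real.log (1 + y ^ 2 / γ ^ 2)
      = ∫ t in Ioi (0 : ℝ), (m γ : ℝ) * (Ioi γ).indicator g t := by
    intro γ hγ
    rw [integral_const_mul, setIntegral_indicator measurableSet_Ioi,
      Set.Ioi_inter_Ioi, max_eq_right (hpos γ hγ).le, hg, kernel_integral y γ (hpos γ hγ)]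
  rw [Finset.sum_congr rfl hterm, ← integral_finsetSum _ hint]
  have hR : Real.pi * B * y = ∫ t in Ioi (0 : ℝ), B * (2 * y ^ 2 / (t ^ 2 + y ^ 2)) := by
    rw [integral_const_mul, arctan_integral y hy]
    ring
  rw [hR]
  refine setIntegral_mono_on (integrable_finsetSum _ hint)
    ((arctan_integrable y hy).const_mul B) measurableSet_Ioi ?_
  intro t ht
  have ht' : (0 : ℝ) < t := ht
  have hgt : 0 ≤ g t := kernel_nonneg y t ht'
  have h1 : ∑ γ ∈ Γ, (m γ : ℝ) * (Ioi γ).indicator g t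
      = (∑ γ ∈ Γ with γ < t, (m γ : ℝ)) * g t := by
    rw [Finset.sum_filter, Finset.sum_mul]
    refine Finset.sum_congr rfl ?_
    intro γ _
    by_cases h : γ < t
    · rw [Set.indicator_of_mem (show t ∈ Ioi γ from h), if_pos h]
    · rw [Set.indicator_of_notMem (show t ∉ Ioi γ from h), if_neg h]
      ring
  have h2 : ∑ γ ∈ Γ with γ < t, (m γ : ℝ) ≤ ∑ γ ∈ Γ with γ ≤ t, (m γ : ℝ) := by
    refine Finset.sum_le_sum_of_subset_of_nonneg ?_ (fun _ _ _ => Nat.cast_nonneg _)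
    intro γ hγ
    rw [Finset.mem_filter] at hγ ⊢
    exact ⟨hγ.1, hγ.2.le⟩
  have h3 := hcount t ht'
  calc ∑ γ ∈ Γ, (m γ : ℝ) * (Ioi γ).indicator g t
      = (∑ γ ∈ Γ with γ < t, (m γ : ℝ)) * g t := h1
    _ ≤ (B * t) * g t := mul_le_mul_of_nonneg_right (h2.trans h3) hgt
    _ = B * (2 * y ^ 2 / (t ^ 2 + y ^ 2)) := by
        rw [hg]
        have h5 : t ^ 2 + y ^ 2 ≠ 0 := by positivity
        field_simp

/-- Exponentiate. -/
theorem prod_le_exp (Γ : Finset ℝ) (m : ℝ → ℕ) (B : ℝ) (hB : 0 ≤ B) (hpos : ∀ γ ∈ Γ, 0 < γ)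
    (hcount : ∀ T : ℝ, 0 < T → ∑ γ ∈ Γ with γ ≤ T, (m γ : ℝ) ≤ B * T) (s : ℂ) :
    ‖∏ γ ∈ Γ, (1 + s ^ 2 / (γ : ℂ) ^ 2) ^ m γ‖ ≤ Real.exp (Real.pi * B * ‖s‖) := by
  have h1 := sum_log_le Γ m B hB hpos hcount ‖s‖ (norm_nonneg s)
  rw [norm_prod]
  calc ∏ γ ∈ Γ, ‖(1 + s ^ 2 / (γ : ℂ) ^ 2) ^ m γ‖
      ≤ ∏ γ ∈ Γ, Real.exp ((m γ : ℝ) * Real.log (1 + ‖s‖ ^ 2 / γ ^ 2)) := by
        refine Finset.prod_le_prod (fun _ _ => norm_nonneg _) ?_
        intro γ hγ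
        have hγ0 := hpos γ hγ
        have h2 : ‖(1 : ℂ) + s ^ 2 / (γ : ℂ) ^ 2‖ ≤ 1 + ‖s‖ ^ 2 / γ ^ 2 := by
          refine (norm_add_le _ _).trans ?_
          rw [norm_one, norm_div, norm_pow, norm_pow, Complex.norm_real, Real.norm_eq_abs,
            sq_abs]
        have h3 : (0 : ℝ) < 1 + ‖s‖ ^ 2 / γ ^ 2 := by positivity
        rw [norm_pow, mul_comm, Real.exp_mul, Real.exp_log h3, Real.rpow_natCast]
        exact pow_le_pow_left₀ (norm_nonneg _) h2 _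
    _ = Real.exp (∑ γ ∈ Γ, (m γ : ℝ) * Real.log (1 + ‖s‖ ^ 2 / γ ^ 2)) := by
        rw [Real.exp_sum]
    _ ≤ Real.exp (Real.pi * B * ‖s‖) := Real.exp_le_exp.mpr h1

end W3283f
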