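import Mathlib

set_option autoImplicit false

namespace W3283f

open PowerSeries in
/-- the operator `X d/dX` -/
noncomputable def edge1Th (f : PowerSeries ℂ) : PowerSeries ℂ :=
  PowerSeries.mk fun n => (n : ℂ) * PowerSeries.coeff n f

theorem edge1_mul (f g : PowerSeries ℂ) :
    edge1Th (f * g) = edge1Th f * g + f * edge1Th g := by
  ext n
  unfold edge1Th
  rw [map_add, PowerSeries.coeff_mk, PowerSeries.coeff_mul, PowerSeries.coeff_mul,
    PowerSeries.coeff_mul, Finset.mul_sum, ← Finset.sum_add_distrib]
  refine Finset.sum_congr rfl fun x hx => ?_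
  rw [PowerSeries.coeff_mk, PowerSeries.coeff_mk]
  have h1 : (n : ℂ) = x.1 + x.2 := by
    rw [← Finset.HasAntidiagonal.mem_antidiagonal.1 hx]
    push_cast
    ring
  rw [h1]
  ring

theorem edge1_one : edge1Th 1 = 0 := by
  ext n
  unfold edge1Th
  rw [PowerSeries.coeff_mk, PowerSeries.coeff_one, map_zero]
  split_ifs with h
  · rw [h]
    simp
  · simp

theorem edge1_geom (w : ℂ) : edge1Th (PowerSeries.mk fun n => w ^ n) =
    (PowerSeries.mk fun n => w ^ n) * PowerSeries.mk fun n => if n = 0 then 0 else w ^ n := by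
  ext n
  unfold edge1Th
  rw [PowerSeries.coeff_mk, PowerSeries.coeff_mk, PowerSeries.coeff_mul]
  simp only [PowerSeries.coeff_mk]
  rw [Finset.Nat.sum_antidiagonal_eq_sum_range_succ
    (fun a b => w ^ a * (if b = 0 then 0 else w ^ b)), Finset.sum_range_succ]
  rw [Finset.sum_congr rfl (g := fun _ => w ^ n)]
  · simp
  · intro a ha
    have ha' : a < n := Finset.mem_range.1 ha
    rw [if_neg (by omega), ← pow_add]
    congr 1
    omega

theorem edge1_prod {ι : Type*} [DecidableEq ι] (w : ι → ℂ) (s : Finset ι) :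
    edge1Th (∏ i ∈ s, PowerSeries.mk fun n => w i ^ n) =
      (∏ i ∈ s, PowerSeries.mk fun n => w i ^ n) *
        ∑ i ∈ s, PowerSeries.mk fun n => if n = 0 then 0 else w i ^ n := by
  induction s using Finset.induction_on with
  | empty => rw [Finset.prod_empty, Finset.sum_empty, edge1_one, mul_zero]
  | insert i s hi ih =>
    rw [Finset.prod_insert hi, Finset.sum_insert hi, edge1_mul, ih, edge1_geom]
    ring

open ComplexOrder in
/-- Newton: let `G = ∏ 1/(1 - w_i X)` with real nonnegative power sums `p_k = ∑ w_i^k`, `k ≥ 1`.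
Then `k G_k = ∑_{j=1}^k p_j G_{k-j}` (`X G' = G ∑_i w_i X/(1 - w_i X)`: induction on the number of
factors with `PowerSeries.derivative`, or directly by induction on `m` for the
convolution formula), so by strong induction all coefficients are real and nonnegative. -/
theorem geom_nonneg (m : ℕ) (w : Fin m → ℂ)
    (hw : ∀ k : ℕ, 1 ≤ k → 0 ≤ (∑ i, w i ^ k).re ∧ (∑ i, w i ^ k).im = 0) (k : ℕ) :
    0 ≤ (PowerSeries.coeff k (∏ i, PowerSeries.mk (fun n => w i ^ n))).re ∧
      (PowerSeries.coeff k (∏ i, PowerSeries.mk (fun n => w i ^ n))).im = 0 := by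
  classical
  have hp : ∀ b : ℕ, 0 ≤ PowerSeries.coeff b
      (∑ i, PowerSeries.mk fun n => if n = 0 then (0 : ℂ) else w i ^ n) := by
    intro b
    rw [map_sum]
    simp only [PowerSeries.coeff_mk]
    by_cases hb : b = 0
    · simp [hb]
    · simp only [if_neg hb]
      exact Complex.nonneg_iff.2 ⟨(hw b (by omega)).1, (hw b (by omega)).2.symm⟩
  have key : ∀ k : ℕ, 0 ≤ PowerSeries.coeff k (∏ i, PowerSeries.mk (fun n => w i ^ n)) := by
    intro k
    induction k using Nat.strong_induction_on with
    | _ k ih =>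
      rcases Nat.eq_zero_or_pos k with hk | hk
      · rw [hk, PowerSeries.coeff_zero_eq_constantCoeff_apply, map_prod]
        refine Finset.prod_nonneg fun i _ => ?_
        rw [← PowerSeries.coeff_zero_eq_constantCoeff_apply, PowerSeries.coeff_mk, pow_zero]
        exact zero_le_one
      · have h1 := congrArg (PowerSeries.coeff k) (edge1_prod w Finset.univ)
        unfold edge1Th at h1
        rw [PowerSeries.coeff_mk, PowerSeries.coeff_mul] at h1
        have h2 : 0 ≤ (k : ℂ) * PowerSeries.coeff k (∏ i, PowerSeries.mk (fun n => w i ^ n)) := by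
          rw [h1]
          refine Finset.sum_nonneg fun x hx => ?_
          have hx' := Finset.HasAntidiagonal.mem_antidiagonal.1 hx
          rcases Nat.eq_zero_or_pos x.2 with h0 | h0
          · rw [h0]
            have h3 : PowerSeries.coeff 0
                (∑ i, PowerSeries.mk fun n => if n = 0 then (0 : ℂ) else w i ^ n) = 0 := by
              rw [map_sum]
              simp
            rw [h3, mul_zero]
          · exact mul_nonneg (ih x.1 (by omega)) (hp x.2)
        have hk' : (k : ℂ) ≠ 0 := by exact_mod_cast hk.ne'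
        have h4 : (0 : ℂ) ≤ (((k : ℝ)⁻¹ : ℝ) : ℂ) := Complex.zero_le_real.2 (by positivity)
        have h5 := mul_nonneg h4 h2
        rw [← mul_assoc] at h5
        push_cast at h5
        rwa [inv_mul_cancel₀ hk', one_mul] at h5
  have h := Complex.nonneg_iff.1 (key k)
  exact ⟨h.1, h.2.symm⟩

end W3283f
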