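import Pool.Agent.W_MP_3283e1_h19.Edge1
import Pool.Agent.W_MP_3283e1_nt.EulerB

set_option autoImplicit false

namespace W3283f

open Complex W3283e1
open scoped ComplexOrder

/-- The coefficients `cc 2 n n^{-1-iγ}`. -/
noncomputable def bE (γ : ℝ) (n : ℕ) : ℂ := cc 2 n * (n : ℂ) ^ (-(1 + γ * I))

/-- The coefficients of `ζ_K(s)² L(s+iγ) L(s-iγ)`. -/
noncomputable def aE (γ : ℝ) : ℕ → ℂ :=
  LSeries.convolution (LSeries.convolution (cc 0) (cc 0))
    (LSeries.convolution (bE γ) (bE (-γ)))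

theorem edge2_tA (f : ℕ → ℂ) (h : f 0 = 0) (n : ℕ) : toArithmeticFunction f n = f n := by
  change (if n = 0 then 0 else f n) = f n
  split_ifs with hn
  · rw [hn, h]
  · rfl

theorem edge2_aE (γ : ℝ) : aE γ = ⇑((toArithmeticFunction (cc 0) * toArithmeticFunction (cc 0)) *
    (toArithmeticFunction (bE γ) * toArithmeticFunction (bE (-γ)))) := by
  unfold aE LSeries.convolution
  rw [ArithmeticFunction.toArithmeticFunction_eq_self,
    ArithmeticFunction.toArithmeticFunction_eq_self]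

theorem edge2_bE_zero (γ : ℝ) : bE γ 0 = 0 := by
  unfold bE
  rw [cc_zero, zero_mul]

theorem edge2_bE_one (γ : ℝ) : bE γ 1 = 1 := by
  unfold bE
  rw [cc_one, Nat.cast_one, one_cpow, one_mul]

theorem edge2_bE_mul (γ : ℝ) (m n : ℕ) (h : Nat.Coprime m n) :
    bE γ (m * n) = bE γ m * bE γ n := by
  unfold bE
  rw [cc_mul 2 m n h, Nat.cast_mul, natCast_mul_natCast_cpow]
  ring

theorem edge2_mult (f : ℕ → ℂ) (h0 : f 0 = 0) (h1 : f 1 = 1)
    (h : ∀ m n, Nat.Coprime m n → f (m * n) = f m * f n) :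
    (toArithmeticFunction f).IsMultiplicative := by
  refine ⟨?_, fun {m n} hmn => ?_⟩
  · rw [edge2_tA f h0, h1]
  · rw [edge2_tA f h0, edge2_tA f h0, edge2_tA f h0, h m n hmn]

theorem edge2_isMult (γ : ℝ) :
    ((toArithmeticFunction (cc 0) * toArithmeticFunction (cc 0)) *
    (toArithmeticFunction (bE γ) * toArithmeticFunction (bE (-γ)))).IsMultiplicative := by
  have h0 := edge2_mult (cc 0) (cc_zero 0) (cc_one 0) (fun m n h => cc_mul 0 m n h)
  have hb : ∀ γ : ℝ, (toArithmeticFunction (bE γ)).IsMultiplicative := fun γ =>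
    edge2_mult (bE γ) (edge2_bE_zero γ) (edge2_bE_one γ) (edge2_bE_mul γ)
  exact (h0.mul h0).mul ((hb γ).mul (hb (-γ)))

/-- `cc k` is multiplicative on coprime arguments (`cc_mul`), `n ↦ n^{-1-iγ}` completely, and the
Dirichlet convolution of multiplicative functions is multiplicative
(`ArithmeticFunction.IsMultiplicative.mul`, `LSeries.convolution` is defined through arithmetic
functions). -/
theorem aE_mul (γ : ℝ) (m n : ℕ) (h : Nat.Coprime m n) : aE γ (m * n) = aE γ m * aE γ n := by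
  rw [edge2_aE]
  exact (edge2_isMult γ).map_mul_of_coprime h

/-- `a_1 = 1`. -/
theorem aE_one (γ : ℝ) : aE γ 1 = 1 := by
  rw [edge2_aE]
  exact (edge2_isMult γ).map_one

open PowerSeries in
theorem edge2_conv (f g : ℕ → ℂ) (p : ℕ) (hp : p.Prime) :
    (PowerSeries.mk fun n => LSeries.convolution f g (p ^ n)) =
      (PowerSeries.mk fun n => f (p ^ n)) * PowerSeries.mk fun n => g (p ^ n) := by
  ext n
  rw [PowerSeries.coeff_mk, PowerSeries.coeff_mul, LSeries.convolution_def]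
  simp only [PowerSeries.coeff_mk]
  rw [Nat.sum_divisorsAntidiagonal (fun i j => f i * g j), Nat.divisors_prime_pow hp,
    Finset.sum_map, Finset.Nat.sum_antidiagonal_eq_sum_range_succ (fun i j => f (p ^ i) * g (p ^ j))]
  refine Finset.sum_congr rfl fun i hi => ?_
  have hi' : i ≤ n := by
    have := Finset.mem_range.1 hi
    omega
  change f (p ^ i) * g (p ^ n / p ^ i) = _
  rw [Nat.pow_div hi' hp.pos]

theorem edge2_geo (u : ℂ) : (PowerSeries.mk fun n => u ^ n) *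
    (1 - PowerSeries.C u * PowerSeries.X) = 1 := by
  ext n
  rw [mul_sub, mul_one, map_sub, PowerSeries.coeff_mk, ← mul_assoc, PowerSeries.coeff_one]
  cases n with
  | zero => simp
  | succ m =>
    rw [PowerSeries.coeff_succ_mul_X, mul_comm, PowerSeries.coeff_C_mul, PowerSeries.coeff_mk,
      if_neg (by omega), pow_succ]
    ring

/-- A sequence with a recursion of order two is a product of two geometric series. -/
theorem edge2_rec (a : ℕ → ℂ) (u v : ℂ) (h0 : a 0 = 1) (h1 : a 1 = u + v)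
    (h2 : ∀ n, a (n + 2) = (u + v) * a (n + 1) - (u * v) * a n) :
    PowerSeries.mk a = (PowerSeries.mk fun n => u ^ n) * PowerSeries.mk fun n => v ^ n := by
  have hS : ∀ n, PowerSeries.coeff n
      ((PowerSeries.mk fun n => u ^ n) * PowerSeries.mk fun n => v ^ n) = a n := by
    have hu := edge2_geo u
    have hv := edge2_geo v
    set P := (PowerSeries.mk fun n => u ^ n) * PowerSeries.mk fun n => v ^ n with hP
    have hprod : P = 1 + PowerSeries.C (u + v) * (P * PowerSeries.X) -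
        PowerSeries.C (u * v) * (P * PowerSeries.X ^ 2) := by
      have h3 : P * ((1 - PowerSeries.C u * PowerSeries.X) *
          (1 - PowerSeries.C v * PowerSeries.X)) = 1 := by
        rw [hP]
        linear_combination (PowerSeries.mk fun n => v ^ n) *
          (1 - PowerSeries.C v * PowerSeries.X) * hu + hv
      rw [map_add, map_mul]
      linear_combination h3
    have c0 : PowerSeries.coeff 0 P = 1 := by
      rw [hP, PowerSeries.coeff_mul]
      simp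
    have c1 : PowerSeries.coeff 1 P = u + v := by
      rw [hP, PowerSeries.coeff_mul, Finset.Nat.antidiagonal_succ]
      simp
      ring
    have c2 : ∀ n, PowerSeries.coeff (n + 2) P =
        (u + v) * PowerSeries.coeff (n + 1) P - (u * v) * PowerSeries.coeff n P := by
      intro n
      conv_lhs => rw [hprod]
      rw [map_sub, map_add, PowerSeries.coeff_C_mul, PowerSeries.coeff_C_mul,
        PowerSeries.coeff_succ_mul_X, PowerSeries.coeff_mul_X_pow, PowerSeries.coeff_one,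
        if_neg (by omega), zero_add]
    intro n
    induction n using Nat.twoStepInduction with
    | zero => rw [c0, h0]
    | one => rw [c1, h1]
    | more n ih1 ih2 => rw [c2, ih1, ih2, h2]
  ext n
  rw [hS n, PowerSeries.coeff_mk]

/-- The local data at a prime. -/
theorem edge2_local (p : ℕ) (hp : p.Prime) : ∃ u0 v0 u v : ℂ,
    (∀ k : ℕ, 1 ≤ k → ∃ S T : ℝ, u0 ^ k + v0 ^ k = S ∧ u ^ k + v ^ k = T ∧ |T| ≤ S) ∧
    (cc 0 p = u0 + v0 ∧ ∀ n, cc 0 (p ^ (n + 2)) =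
      (u0 + v0) * cc 0 (p ^ (n + 1)) - (u0 * v0) * cc 0 (p ^ n)) ∧
    (cc 2 p * (p : ℂ)⁻¹ = u + v ∧ ∀ n, cc 2 (p ^ (n + 2)) * ((p : ℂ)⁻¹) ^ (n + 2) =
      (u + v) * (cc 2 (p ^ (n + 1)) * ((p : ℂ)⁻¹) ^ (n + 1)) -
        (u * v) * (cc 2 (p ^ n) * ((p : ℂ)⁻¹) ^ n)) := by
  have hp0 : (p : ℂ) ≠ 0 := by exact_mod_cast hp.ne_zero
  rcases hp.eq_two_or_odd with h2 | hodd
  · refine ⟨0, 0, 0, 0, ?_, ⟨?_, ?_⟩, ⟨?_, ?_⟩⟩
    · intro k hk
      refine ⟨0, 0, ?_, ?_, ?_⟩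
      · rw [zero_pow (by omega)]; simp
      · rw [zero_pow (by omega)]; simp
      · simp
    · rw [cc_even 0 p (by rw [h2]; exact even_two)]; simp
    · intro n
      rw [cc_even 0 (p ^ (n + 2)) (by rw [h2]; exact even_two.pow_of_ne_zero (by omega))]; simp
    · rw [cc_even 2 p (by rw [h2]; exact even_two)]; simp
    · intro n
      rw [cc_even 2 (p ^ (n + 2)) (by rw [h2]; exact even_two.pow_of_ne_zero (by omega))]; simp
  · have h13 : p % 4 = 1 ∨ p % 4 = 3 := by omega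
    rcases h13 with h1 | h3
    · have hz := zp_mem p hp h1
      set z := zp p with hzd
      have hn : ‖cz z‖ ^ 2 = (p : ℝ) := norm_cz p z hz
      have hzz : cz z * (starRingEnd ℂ (cz z)) = (p : ℂ) := by
        rw [mul_conj, normSq_eq_norm_sq, hn, ofReal_natCast]
      refine ⟨1, 1, cz z ^ 2 * (p : ℂ)⁻¹, (starRingEnd ℂ (cz z)) ^ 2 * (p : ℂ)⁻¹, ?_,
        ⟨?_, ?_⟩, ⟨?_, ?_⟩⟩
      · intro k _
        refine ⟨2, 2 * ((cz z ^ 2 * (p : ℂ)⁻¹) ^ k).re, ?_, ?_, ?_⟩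
        · rw [one_pow]; norm_num
        · have h5 : ((starRingEnd ℂ (cz z)) ^ 2 * (p : ℂ)⁻¹) ^ k =
              (starRingEnd ℂ) ((cz z ^ 2 * (p : ℂ)⁻¹) ^ k) := by
            rw [map_pow, map_mul, map_pow, map_inv₀, conj_natCast]
          rw [h5, add_conj]
        · have h6 : ‖(cz z ^ 2 * (p : ℂ)⁻¹) ^ k‖ = 1 := by
            rw [norm_pow, norm_mul, norm_pow, hn, norm_inv, norm_natCast, mul_inv_cancel₀, one_pow]
            exact_mod_cast hp.ne_zero
          have h7 := abs_re_le_norm ((cz z ^ 2 * (p : ℂ)⁻¹) ^ k)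
          rw [h6] at h7
          rw [abs_mul, abs_two]
          linarith
      · rw [cc_p1 0 p hp h1 z hz, pow_zero, pow_zero]
      · intro n
        rw [cc_p1_rec 0 p n hp h1 z hz, pow_zero, pow_zero, pow_zero]
        ring
      · rw [cc_p1 2 p hp h1 z hz]
        ring
      · intro n
        rw [cc_p1_rec 2 p n hp h1 z hz]
        have h8 : cz z ^ 2 * (p : ℂ)⁻¹ * ((starRingEnd ℂ (cz z)) ^ 2 * (p : ℂ)⁻¹) = 1 := by
          have : cz z ^ 2 * (p : ℂ)⁻¹ * ((starRingEnd ℂ (cz z)) ^ 2 * (p : ℂ)⁻¹) =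
            (cz z * (starRingEnd ℂ (cz z)) * (p : ℂ)⁻¹) ^ 2 := by ring
          rw [this, hzz, mul_inv_cancel₀ hp0, one_pow]
        rw [h8]
        have h9 : (p : ℂ) ^ 2 * (p : ℂ)⁻¹ ^ (n + 2) = (p : ℂ)⁻¹ ^ n := by
          rw [pow_add, ← mul_assoc, mul_comm ((p : ℂ) ^ 2), mul_assoc, ← mul_pow,
            mul_inv_cancel₀ hp0, one_pow, mul_one]
        linear_combination (-cc 2 (p ^ n)) * h9
    · refine ⟨1, -1, 1, -1, ?_, ⟨?_, ?_⟩, ⟨?_, ?_⟩⟩
      · intro k _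
        refine ⟨1 + (-1) ^ k, 1 + (-1) ^ k, ?_, ?_, ?_⟩
        · push_cast
          rw [one_pow]
        · push_cast
          rw [one_pow]
        · rcases neg_one_pow_eq_or ℝ k with h | h
          · rw [h]; norm_num
          · rw [h]; norm_num
      · rw [cc_p3 0 p hp h3]; ring
      · intro n
        rw [cc_p3_rec 0 p n hp h3]
        ring
      · rw [cc_p3 2 p hp h3]; ring
      · intro n
        rw [cc_p3_rec 2 p n hp h3]
        have h9 : (p : ℂ) ^ 2 * (p : ℂ)⁻¹ ^ (n + 2) = (p : ℂ)⁻¹ ^ n := by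
          rw [pow_add, ← mul_assoc, mul_comm ((p : ℂ) ^ 2), mul_assoc, ← mul_pow,
            mul_inv_cancel₀ hp0, one_pow, mul_one]
        linear_combination (cc 2 (p ^ n)) * h9

theorem edge2_bE_pow (γ : ℝ) (p : ℕ) (hp : p.Prime) (n : ℕ) :
    bE γ (p ^ n) = (cc 2 (p ^ n) * ((p : ℂ)⁻¹) ^ n) * ((p : ℂ) ^ (-(γ * I))) ^ n := by
  have hp0 : (p : ℂ) ≠ 0 := by exact_mod_cast hp.ne_zero
  unfold bE
  have h1 : ((p ^ n : ℕ) : ℂ) ^ (-(1 + γ * I)) = ((p : ℂ) ^ (-(1 + γ * I))) ^ n := by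
    rw [Nat.cast_pow, ← cpow_nat_mul, ← Complex.natCast_cpow_natCast_mul]
  have h2 : (p : ℂ) ^ (-(1 + γ * I)) = (p : ℂ)⁻¹ * (p : ℂ) ^ (-(γ * I)) := by
    rw [show (-(1 + γ * I) : ℂ) = -1 + -(γ * I) by ring, cpow_add _ _ hp0, cpow_neg_one]
  rw [h1, h2, mul_pow]
  ring

theorem edge2_bE_geo (γ : ℝ) (p : ℕ) (hp : p.Prime) (u v : ℂ)
    (h1 : cc 2 p * (p : ℂ)⁻¹ = u + v)
    (h2 : ∀ n, cc 2 (p ^ (n + 2)) * ((p : ℂ)⁻¹) ^ (n + 2) =
      (u + v) * (cc 2 (p ^ (n + 1)) * ((p : ℂ)⁻¹) ^ (n + 1)) -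
        (u * v) * (cc 2 (p ^ n) * ((p : ℂ)⁻¹) ^ n)) :
    (PowerSeries.mk fun n => bE γ (p ^ n)) =
      (PowerSeries.mk fun n => (u * (p : ℂ) ^ (-(γ * I))) ^ n) *
        PowerSeries.mk fun n => (v * (p : ℂ) ^ (-(γ * I))) ^ n := by
  apply edge2_rec
  · rw [pow_zero, edge2_bE_one]
  · rw [edge2_bE_pow γ p hp 1, pow_one, pow_one, pow_one, h1]
    ring
  · intro n
    rw [edge2_bE_pow γ p hp, edge2_bE_pow γ p hp, edge2_bE_pow γ p hp, h2]
    ring

theorem edge2_cc_geo (p : ℕ) (u v : ℂ) (h1 : cc 0 p = u + v)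
    (h2 : ∀ n, cc 0 (p ^ (n + 2)) = (u + v) * cc 0 (p ^ (n + 1)) - (u * v) * cc 0 (p ^ n)) :
    (PowerSeries.mk fun n => cc 0 (p ^ n)) =
      (PowerSeries.mk fun n => u ^ n) * PowerSeries.mk fun n => v ^ n := by
  apply edge2_rec
  · rw [pow_zero, cc_one]
  · rw [pow_one, h1]
  · intro n
    exact h2 n

theorem edge2_e (γ : ℝ) (p : ℕ) (hp : p.Prime) (k : ℕ) :
    ∃ t : ℝ, |t| ≤ 2 ∧ ((p : ℂ) ^ (-(γ * I))) ^ k + ((p : ℂ) ^ (-(((-γ : ℝ) : ℂ) * I))) ^ k = t := by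
  have hp0 : (p : ℂ) ≠ 0 := by exact_mod_cast hp.ne_zero
  set e := (p : ℂ) ^ (-(γ * I)) with he
  have hn : ‖e‖ = 1 := by
    rw [he, norm_natCast_cpow_of_pos hp.pos]
    simp
  have he' : (p : ℂ) ^ (-(((-γ : ℝ) : ℂ) * I)) = (starRingEnd ℂ) e := by
    have h1 : e * (p : ℂ) ^ (-(((-γ : ℝ) : ℂ) * I)) = 1 := by
      rw [he, ← cpow_add _ _ hp0]
      push_cast
      rw [show (-(γ * I) + -(-γ * I) : ℂ) = 0 by ring, cpow_zero]
    have h2 : e * (starRingEnd ℂ) e = 1 := by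
      rw [mul_conj, normSq_eq_norm_sq, hn]
      norm_num
    have h3 : e ≠ 0 := by
      intro h
      rw [h, norm_zero] at hn
      exact zero_ne_one hn
    exact mul_left_cancel₀ h3 (h1.trans h2.symm)
  refine ⟨2 * (e ^ k).re, ?_, ?_⟩
  · have h7 := abs_re_le_norm (e ^ k)
    rw [norm_pow, hn, one_pow] at h7
    rw [abs_mul, abs_two]
    linarith
  · rw [he', ← map_pow, add_conj]

/-- The coefficients at the powers of a prime.  At powers of `p` the Dirichlet convolution is the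
product of power series.  Let `e = p^{-iγ}`, `|e| = 1`.
`p = 2`: all `w_i = 0` (`cc k (2^n) = 0` for `n ≥ 1`).
`p ≡ 3 mod 4`: `cc 0 (p^n)` and `cc 2 (p^n) p^{-n}` are `1` for even `n`, `0` for odd `n`
(`cc_p3`, `cc_p3_rec`), so `w = (1,-1,1,-1,e,-e,e',-e')`, `e'` the conjugate; the power sums are `0` for
odd `k` and `4 + 4 Re e^k` for even `k`.
`p ≡ 1 mod 4`: with a primary `z` of norm `p` and `u = z²/p`, `|u| = 1`, the recursion
`cc_p1_rec` gives `∑ cc 0 (p^n) X^n = 1/(1-X)²`, `∑ cc 2 (p^n) p^{-n} X^n = 1/((1-uX)(1-u'X))`, so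
`w = (1,1,1,1,ue,u'e,ue',u'e')` with power sums `4 + (2 Re u^k)(2 Re e^k) ≥ 0`. -/
theorem aE_prime_pow (γ : ℝ) (p : ℕ) (hp : p.Prime) :
    ∃ w : Fin 8 → ℂ,
      (∀ k : ℕ, 1 ≤ k → 0 ≤ (∑ i, w i ^ k).re ∧ (∑ i, w i ^ k).im = 0) ∧
      ∀ k : ℕ, aE γ (p ^ k) =
        PowerSeries.coeff k (∏ i, PowerSeries.mk (fun n => w i ^ n)) := by
  obtain ⟨u0, v0, u, v, hS, ⟨h1, h2⟩, ⟨h3, h4⟩⟩ := edge2_local p hp
  set e := (p : ℂ) ^ (-(γ * I)) with he
  set e' := (p : ℂ) ^ (-(((-γ : ℝ) : ℂ) * I)) with he'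
  refine ⟨![u0, v0, u0, v0, u * e, v * e, u * e', v * e'], ?_, ?_⟩
  · intro k hk
    obtain ⟨S, T, hS1, hT1, hST⟩ := hS k hk
    obtain ⟨t, ht, ht2⟩ := edge2_e γ p hp k
    have hsum : ∑ i, (![u0, v0, u0, v0, u * e, v * e, u * e', v * e'] : Fin 8 → ℂ) i ^ k =
        ((2 * S + T * t : ℝ) : ℂ) := by
      rw [Fin.sum_univ_eight]
      simp only [Matrix.cons_val]
      push_cast
      rw [← hS1, ← hT1, ← ht2, mul_pow, mul_pow, mul_pow, mul_pow]
      ring
    rw [hsum]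
    refine ⟨?_, ofReal_im _⟩
    rw [ofReal_re]
    have h5 : |T * t| ≤ S * 2 := by
      rw [abs_mul]
      exact mul_le_mul hST ht (abs_nonneg _) ((abs_nonneg _).trans hST)
    have h6 := neg_abs_le (T * t)
    linarith
  · intro k
    have hE : (PowerSeries.mk fun n => aE γ (p ^ n)) =
        ∏ i, PowerSeries.mk (fun n =>
          (![u0, v0, u0, v0, u * e, v * e, u * e', v * e'] : Fin 8 → ℂ) i ^ n) := by
      unfold aE
      rw [edge2_conv _ _ p hp, edge2_conv _ _ p hp, edge2_conv _ _ p hp,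
        edge2_cc_geo p u0 v0 h1 h2, edge2_bE_geo γ p hp u v h3 h4,
        edge2_bE_geo (-γ) p hp u v h3 h4, Fin.prod_univ_eight]
      simp only [Matrix.cons_val]
      ring
    rw [← hE, PowerSeries.coeff_mk]

/-- Multiplicativity reduces to prime powers (`geom_nonneg`); induction on coprime factorisations
(`Nat.recOnPosPrimePosCoprime`); `a_0 = 0`. -/
theorem aE_nonneg (γ : ℝ) : 0 ≤ aE γ := by
  intro n
  change 0 ≤ aE γ n
  induction n using Nat.recOnPosPrimePosCoprime with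
  | prime_pow p n hp hn =>
    obtain ⟨w, hw, hk⟩ := aE_prime_pow γ p hp
    rw [hk n]
    have h := geom_nonneg 8 w hw n
    exact Complex.nonneg_iff.2 ⟨h.1, h.2.symm⟩
  | zero =>
    unfold aE
    rw [LSeries.convolution_map_zero]
  | one =>
    rw [aE_one]
    exact zero_le_one
  | coprime a b ha hb hab iha ihb =>
    rw [aE_mul γ a b hab]
    exact mul_nonneg iha ihb

end W3283f
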