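import Pool.Agent.W_MP_3283e1_h19.ThF
import Pool.Agent.W_MP_3283e1_nt.EulerC

set_option autoImplicit false

namespace W3283f

open Complex W3283e1

/-- The Frobenius eigenvalues of the family; at the primes dividing `n` the values of the curve of
conductor `32` or `64` are used. -/
noncomputable def alF (n j p : ℕ) : ℂ :=
  (if p ∣ n ∨ p % 4 ≠ 1 then 1 else ((jacobiSym p n : ℤ) : ℂ)) * alpha j p

/-- The square of the Jacobi symbol at a coprime argument. -/
theorem jac_sq (n p : ℕ) (hp : p.Prime) (h : ¬ p ∣ n) : ((jacobiSym p n : ℤ) : ℂ) ^ 2 = 1 := by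
  have hc : Int.gcd (p : ℤ) (n : ℤ) = 1 := by
    rw [Int.gcd_natCast_natCast]
    exact (Nat.Prime.coprime_iff_not_dvd hp).2 h
  have := jacobiSym.sq_one hc
  rw [← Int.cast_pow, this]
  simp

/-- The square of the sign in the definition of `alF`. -/
theorem sgn_sq (n p : ℕ) (hp : p.Prime) :
    (if p ∣ n ∨ p % 4 ≠ 1 then (1 : ℂ) else ((jacobiSym p n : ℤ) : ℂ)) ^ 2 = 1 := by
  split_ifs with h
  · simp
  · push Not at h
    exact jac_sq n p hp h.1

theorem norm_alF (n j p : ℕ) (hp : p.Prime) (h2 : p ≠ 2) : ‖alF n j p‖ ^ 2 = p := by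
  unfold alF
  rw [norm_mul, mul_pow, ← norm_pow, sgn_sq n p hp, norm_one, one_mul]
  exact norm_alpha j p hp h2

/-- The squares do not depend on `n`. -/
theorem alF_sq (n j p : ℕ) (hp : p.Prime) (h2 : p ≠ 2) : alF n j p ^ 2 = alpha j p ^ 2 := by
  unfold alF
  rw [mul_pow, sgn_sq n p hp, one_mul]

/-- The complex form of the coefficients. -/
theorem aFam_cast (n j m : ℕ) :
    ((aFam n j m : ℝ) : ℂ) = ((jacobiSym m n : ℤ) : ℂ) * chi8 m ^ j * cc 1 m := by
  have hre : ((cc 1 m).re : ℂ) = cc 1 m := by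
    apply Complex.ext
    · simp
    · simp [(cc_real 1 m).1]
  unfold aFam chi8
  push_cast
  rw [hre]

theorem jac_norm_le (m n : ℕ) : ‖((jacobiSym m n : ℤ) : ℂ)‖ ≤ 1 := by
  rcases jacobiSym.trichotomy (m : ℤ) n with h | h | h <;> rw [h] <;> simp

theorem aFam_norm_le (n j m : ℕ) : ‖((aFam n j m : ℝ) : ℂ)‖ ≤ ‖cc 1 m‖ := by
  rw [aFam_cast, norm_mul, norm_mul, norm_pow]
  have h := pow_le_one₀ (n := j) (norm_nonneg _) (eC_chi8_norm_le m)
  have h2 := jac_norm_le m n
  have h3 : ‖((jacobiSym m n : ℤ) : ℂ)‖ * ‖chi8 m‖ ^ j ≤ 1 := by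
    have h4 : (0 : ℝ) ≤ ‖chi8 m‖ ^ j := by positivity
    nlinarith [norm_nonneg (((jacobiSym m n : ℤ) : ℂ))]
  nlinarith [norm_nonneg (cc 1 m)]

/-- The Euler product of the family: factor `1` at the primes dividing `n`.  Use
`eC_euler` with `f m = aFam n j m` (multiplicative: `cc_mul`, `jacobiSym.mul_left`, `χ₈`
multiplicative; `cc 1 m` is real; zero at even `m`), `F p = if p ∣ n then 1 else fL (alF n j p) p s`,
and the recursions `cc_p1_rec`, `cc_p3_rec`, exactly as in `euler_cE`. -/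
theorem euler_fam (n j : ℕ) (hn : Odd n) (s : ℂ) (hs : 3 / 2 < s.re) :
    HasProd (fun p : OP => (if (p : ℕ) ∣ n then 1 else (fL (alF n j p) p s)⁻¹))
      (LSeries (fun m => (aFam n j m : ℂ)) s) := by
  have hn0 : n ≠ 0 := by
    rintro rfl
    exact absurd hn (by decide)
  have hsum0 : LSeriesSummable (cc 1) s := cc_summable 1 s (by push_cast; linarith)
  have hsum : LSeriesSummable (fun m => (aFam n j m : ℂ)) s :=
    Summable.of_norm_bounded hsum0.norm (fun m => LSeries.norm_term_le s (aFam_norm_le n j m))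
  have hcongr : (fun p : OP => (if (p : ℕ) ∣ n then (1 : ℂ) else (fL (alF n j p) p s)⁻¹)) =
      (fun p : OP => (if (p : ℕ) ∣ n then (1 : ℂ) else fL (alF n j p) p s)⁻¹) := by
    funext p
    split_ifs <;> simp
  rw [hcongr]
  refine eC_euler (fun m => (aFam n j m : ℂ)) ?_ ?_ ?_ s hsum
    (fun p => if p ∣ n then (1 : ℂ) else fL (alF n j p) p s) ?_
  · show ((aFam n j 1 : ℝ) : ℂ) = 1
    rw [aFam_cast, eC_chi8_one, cc_one]
    simp
  · intro m hm
    show ((aFam n j m : ℝ) : ℂ) = 0
    rw [aFam_cast, cc_even 1 m hm]; simp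
  · intro m k h
    show ((aFam n j (m * k) : ℝ) : ℂ) = ((aFam n j m : ℝ) : ℂ) * ((aFam n j k : ℝ) : ℂ)
    rw [aFam_cast, aFam_cast, aFam_cast, cc_mul 1 m k h, eC_chi8_mul, mul_pow]
    push_cast
    rw [jacobiSym.mul_left]
    push_cast
    ring
  · intro p hp hp2
    have hodd : p % 2 = 1 := hp.eq_two_or_odd.resolve_left hp2
    obtain ⟨x, hx⟩ : ∃ x : ℂ, x = (p : ℂ) ^ (-s) := ⟨_, rfl⟩
    have hterm : ∀ e, LSeries.term (fun m => (aFam n j m : ℂ)) s (p ^ e) =
        (aFam n j (p ^ e) : ℂ) * x ^ e := by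
      intro e; rw [hx]; exact eC_term_pow _ s p hp e
    have hsumg : Summable (fun e : ℕ => LSeries.term (fun m => (aFam n j m : ℂ)) s (p ^ e)) :=
      hsum.comp_injective (Nat.pow_right_injective hp.two_le)
    by_cases hdvd : p ∣ n
    · show (if p ∣ n then (1 : ℂ) else fL (alF n j p) p s) * _ = 1
      rw [if_pos hdvd, one_mul, tsum_eq_single 0]
      · rw [hterm, pow_zero, pow_zero, mul_one, aFam_cast, eC_chi8_one, cc_one]
        simp
      · intro e he
        rw [hterm, aFam_cast]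
        have hz : jacobiSym ((p ^ e : ℕ) : ℤ) n = 0 := by
          rw [jacobiSym.eq_zero_iff]
          refine ⟨hn0, ?_⟩
          rw [Int.gcd_natCast_natCast]
          intro hg
          have h1 : p ∣ Nat.gcd (p ^ e) n := Nat.dvd_gcd (dvd_pow_self p he) hdvd
          rw [hg] at h1
          exact hp.one_lt.ne' (Nat.dvd_one.1 h1)
        rw [hz]
        simp
    · obtain ⟨ψ, hψ⟩ : ∃ ψ : ℂ, ψ = ((jacobiSym p n : ℤ) : ℂ) * chi8 p ^ j := ⟨_, rfl⟩
      have hjac : ((jacobiSym p n : ℤ) : ℂ) ^ 2 = 1 := jac_sq n p hp hdvd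
      have hchi : chi8 p ^ 2 = 1 := eC_chi8_sq p hodd
      have hchij : (chi8 p ^ j) ^ 2 = 1 := by rw [← pow_mul, mul_comm, pow_mul, hchi, one_pow]
      have hψ2 : ψ ^ 2 = 1 := by rw [hψ, mul_pow, hjac, hchij, one_mul]
      have hcE : ∀ e, (aFam n j (p ^ e) : ℂ) = ψ ^ e * cc 1 (p ^ e) := by
        intro e
        rw [aFam_cast, eC_chi8_pow, hψ, mul_pow, ← pow_mul, ← pow_mul, mul_comm e j]
        push_cast
        rw [jacobiSym.pow_left]
        push_cast
        ring
      have h4 : p % 4 = 1 ∨ p % 4 = 3 := by omega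
      show (if p ∣ n then (1 : ℂ) else fL (alF n j p) p s) * _ = 1
      rw [if_neg hdvd]
      rcases h4 with h4 | h4
      · obtain ⟨Z, hZ⟩ : ∃ Z : ℂ, Z = cz (zp p) := ⟨_, rfl⟩
        have hZ2 : Z * (starRingEnd ℂ) Z = (p : ℂ) := by
          rw [mul_conj, hZ, normSq_eq_norm_sq, norm_cz p _ (zp_mem p hp h4)]
          simp
        have hrec : ∀ e, cc 1 (p ^ (e + 2)) = (Z + (starRingEnd ℂ) Z) * cc 1 (p ^ (e + 1))
            - (p : ℂ) * cc 1 (p ^ e) := by
          intro e
          have := cc_p1_rec 1 p e hp h4 (zp p) (zp_mem p hp h4)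
          rw [hZ]
          simpa using this
        have hc1 : cc 1 p = Z + (starRingEnd ℂ) Z := by
          have := cc_p1 1 p hp h4 (zp p) (zp_mem p hp h4)
          rw [hZ]; simpa using this
        have key := eC_rec_sum (fun e : ℕ => LSeries.term (fun m => (aFam n j m : ℂ)) s (p ^ e))
          (ψ * (Z + (starRingEnd ℂ) Z) * x) ((p : ℂ) * x ^ 2) hsumg
          (by
            show LSeries.term (fun m => (aFam n j m : ℂ)) s (p ^ 0) = 1
            rw [hterm, hcE]; simp [cc_one])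
          (by
            show LSeries.term (fun m => (aFam n j m : ℂ)) s (p ^ 1) = _
            rw [hterm, hcE, pow_one, pow_one, pow_one, hc1])
          (by
            intro e
            show LSeries.term (fun m => (aFam n j m : ℂ)) s (p ^ (e + 2)) =
              _ * LSeries.term (fun m => (aFam n j m : ℂ)) s (p ^ (e + 1)) -
              _ * LSeries.term (fun m => (aFam n j m : ℂ)) s (p ^ e)
            rw [hterm, hterm, hterm, hcE, hcE, hcE, hrec]
            linear_combination (-(p : ℂ) * cc 1 (p ^ e) * ψ ^ e * x ^ (e + 2)) * hψ2)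
        have hψc : (starRingEnd ℂ) ψ = ψ := by
          rw [hψ, map_mul, map_pow, eC_chi8_conj, map_intCast]
        have hal : alF n j p = ψ * Z := by
          unfold alF alpha
          rw [if_neg (by push Not; exact ⟨hdvd, h4⟩), if_pos h4, hψ, hZ]
          ring
        have hfL : fL (alF n j p) p s =
            1 - ψ * (Z + (starRingEnd ℂ) Z) * x + (p : ℂ) * x ^ 2 := by
          unfold fL
          rw [hal, ← hx, map_mul, hψc]
          linear_combination ψ ^ 2 * x ^ 2 * hZ2 + (p : ℂ) * x ^ 2 * hψ2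
        rw [hfL]; exact key
      · have hrec : ∀ e, cc 1 (p ^ (e + 2)) = -(p : ℂ) * cc 1 (p ^ e) := by
          intro e
          have := cc_p3_rec 1 p e hp h4
          simpa using this
        have key := eC_rec_sum (fun e : ℕ => LSeries.term (fun m => (aFam n j m : ℂ)) s (p ^ e))
          0 ((p : ℂ) * x ^ 2) hsumg
          (by
            show LSeries.term (fun m => (aFam n j m : ℂ)) s (p ^ 0) = 1
            rw [hterm, hcE]; simp [cc_one])
          (by
            show LSeries.term (fun m => (aFam n j m : ℂ)) s (p ^ 1) = _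
            rw [hterm, hcE, pow_one, pow_one, pow_one, cc_p3 1 p hp h4]; ring)
          (by
            intro e
            show LSeries.term (fun m => (aFam n j m : ℂ)) s (p ^ (e + 2)) =
              _ * LSeries.term (fun m => (aFam n j m : ℂ)) s (p ^ (e + 1)) -
              _ * LSeries.term (fun m => (aFam n j m : ℂ)) s (p ^ e)
            rw [hterm, hterm, hterm, hcE, hcE, hcE, hrec]
            linear_combination (-(p : ℂ) * cc 1 (p ^ e) * ψ ^ e * x ^ (e + 2)) * hψ2)
        have hsq : ((Real.sqrt p : ℝ) : ℂ) ^ 2 = (p : ℂ) := by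
          rw [← ofReal_pow, Real.sq_sqrt (Nat.cast_nonneg p)]; simp
        have hfL : fL (alF n j p) p s = 1 - 0 + (p : ℂ) * x ^ 2 := by
          unfold fL alF alpha
          rw [if_pos (by right; omega), if_neg (by omega), ← hx, one_mul, map_mul, conj_I,
            conj_ofReal]
          linear_combination (-(x ^ 2) * ((Real.sqrt p : ℝ) : ℂ) ^ 2) * I_sq + x ^ 2 * hsq
        rw [hfL]; exact key

/-- The finite product over the primes dividing `n`. -/
noncomputable def uF (n j : ℕ) (s : ℂ) : ℂ := ∏ p ∈ n.primeFactors, (fL (alF n j p) p s)⁻¹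

/-- A factor `1 - a p^{-s}` with `|a|² = p` does not vanish for `Re s > 1/2`. -/
theorem fac_ne (a : ℂ) (p : ℕ) (hp : p.Prime) (ha : ‖a‖ ^ 2 = p) (s : ℂ) (hs : 3 / 4 < s.re) :
    1 - a * (p : ℂ) ^ (-s) ≠ 0 := by
  intro h
  have h1 : a * (p : ℂ) ^ (-s) = 1 := (sub_eq_zero.1 h).symm
  have hp1 : (1 : ℝ) < p := by exact_mod_cast hp.one_lt
  have hp0 : (0 : ℝ) < p := by linarith
  have h2 : ‖a‖ * (p : ℝ) ^ (-s.re) = 1 := by
    have := congrArg norm h1
    rw [norm_mul, norm_one, Complex.norm_natCast_cpow_of_pos hp.pos] at this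
    simpa using this
  have h3 : (‖a‖ * (p : ℝ) ^ (-s.re)) ^ 2 = 1 := by rw [h2]; norm_num
  rw [mul_pow, ha] at h3
  have h4 : ((p : ℝ) ^ (-s.re)) ^ 2 = (p : ℝ) ^ (-(2 * s.re)) := by
    rw [← Real.rpow_natCast, ← Real.rpow_mul hp0.le]
    congr 1
    push_cast
    ring
  rw [h4] at h3
  have h5 : (p : ℝ) * (p : ℝ) ^ (-(2 * s.re)) = (p : ℝ) ^ (1 - 2 * s.re) := by
    rw [sub_eq_add_neg, Real.rpow_add hp0, Real.rpow_one]
  rw [h5] at h3
  have h6 : (p : ℝ) ^ (1 - 2 * s.re) < 1 := Real.rpow_lt_one_of_one_lt_of_neg hp1 (by linarith)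
  linarith

theorem fL_ne (a : ℂ) (p : ℕ) (hp : p.Prime) (ha : ‖a‖ ^ 2 = p) (s : ℂ) (hs : 3 / 4 < s.re) :
    fL a p s ≠ 0 := by
  unfold fL
  refine mul_ne_zero (fac_ne a p hp ha s hs) (fac_ne _ p hp ?_ s hs)
  rw [RCLike.norm_conj]
  exact ha

theorem fL_an (a : ℂ) (p : ℕ) (hp : p.Prime) (s : ℂ) : AnalyticAt ℂ (fL a p) s := by
  have hd : Differentiable ℂ (fL a p) := by
    intro z
    have hp0 : (p : ℂ) ≠ 0 := by exact_mod_cast hp.ne_zero
    have h1 : DifferentiableAt ℂ (fun w : ℂ => (p : ℂ) ^ (-w)) z := by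
      refine DifferentiableAt.const_cpow (differentiableAt_id.neg) (Or.inl hp0)
    unfold fL
    exact (((differentiableAt_const _).sub ((differentiableAt_const _).mul h1))).mul
      ((differentiableAt_const _).sub ((differentiableAt_const _).mul h1))
  exact hd.analyticAt s

/-- `|α p^{-s}| = p^{1/2 - Re s} < 1` for `Re s > 1/2`. -/
theorem uF_good (n j : ℕ) (hn : Odd n) (s : ℂ) (hs : 3 / 4 < s.re) :
    AnalyticAt ℂ (uF n j) s ∧ uF n j s ≠ 0 := by
  have hne : ∀ p ∈ n.primeFactors, fL (alF n j p) p s ≠ 0 := by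
    intro p hp
    have hpp := Nat.prime_of_mem_primeFactors hp
    have hdvd := Nat.dvd_of_mem_primeFactors hp
    refine fL_ne _ p hpp (norm_alF n j p hpp ?_) s hs
    rintro rfl
    exact (Nat.not_even_iff_odd.2 hn) (even_iff_two_dvd.2 hdvd)
  constructor
  · unfold uF
    refine Finset.analyticAt_fun_prod _ ?_
    intro p hp
    exact (fL_an _ p (Nat.prime_of_mem_primeFactors hp) s).fun_inv (hne p hp)
  · unfold uF
    rw [Finset.prod_ne_zero_iff]
    intro p hp
    exact inv_ne_zero (hne p hp)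

/-- Insert the missing factors (a finite modification of a convergent product). -/
theorem euler_full (n j : ℕ) (hn : Odd n) (s : ℂ) (hs : 3 / 2 < s.re) :
    HasProd (fun p : OP => (fL (alF n j p) p s)⁻¹)
      (LSeries (fun m => (aFam n j m : ℂ)) s * uF n j s) := by
  classical
  have hn0 : n ≠ 0 := by
    rintro rfl
    exact absurd hn (by decide)
  have hodd : ∀ p ∈ n.primeFactors, p.Prime ∧ p ≠ 2 := by
    intro p hp
    have hpp := Nat.prime_of_mem_primeFactors hp
    have hdvd := Nat.dvd_of_mem_primeFactors hp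
    refine ⟨hpp, ?_⟩
    rintro rfl
    exact (Nat.not_even_iff_odd.2 hn) (even_iff_two_dvd.2 hdvd)
  let T : Finset OP := n.primeFactors.attach.image (fun p => ⟨p.1, hodd p.1 p.2⟩)
  have hT : ∀ p : OP, p ∈ T ↔ (p : ℕ) ∣ n := by
    intro p
    constructor
    · intro h
      obtain ⟨q, _, hq⟩ := Finset.mem_image.1 h
      rw [← hq]
      exact Nat.dvd_of_mem_primeFactors q.2
    · intro h
      refine Finset.mem_image.2 ⟨⟨p.1, Nat.mem_primeFactors.2 ⟨p.2.1, h, hn0⟩⟩,
        Finset.mem_attach _ _, ?_⟩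
      rfl
  have h2 : HasProd (fun p : OP => (if (p : ℕ) ∣ n then (fL (alF n j p) p s)⁻¹ else 1))
      (uF n j s) := by
    have h3 : HasProd (fun p : OP => (if (p : ℕ) ∣ n then (fL (alF n j p) p s)⁻¹ else 1))
        (∏ p ∈ T, (if (p : ℕ) ∣ n then (fL (alF n j p) p s)⁻¹ else 1)) := by
      refine hasProd_prod_of_ne_finset_one ?_
      intro p hp
      rw [if_neg]
      intro h
      exact hp ((hT p).2 h)
    have h4 : (∏ p ∈ T, (if (p : ℕ) ∣ n then (fL (alF n j p) p s)⁻¹ else 1)) = uF n j s := by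
      unfold uF
      rw [← Finset.prod_attach n.primeFactors]
      rw [Finset.prod_image]
      · refine Finset.prod_congr rfl ?_
        intro q _
        rw [if_pos]
        exact Nat.dvd_of_mem_primeFactors q.2
      · intro a _ b _ hab
        apply Subtype.ext
        exact congrArg (fun q : OP => (q : ℕ)) hab
    rw [← h4]
    exact h3
  have h5 := (euler_fam n j hn s hs).mul h2
  have h6 : (fun p : OP => (if (p : ℕ) ∣ n then (1 : ℂ) else (fL (alF n j p) p s)⁻¹) *
      (if (p : ℕ) ∣ n then (fL (alF n j p) p s)⁻¹ else 1)) =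
      (fun p : OP => (fL (alF n j p) p s)⁻¹) := by
    funext p
    split_ifs <;> simp
  rw [← h6]
  exact h5

end W3283f
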