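import Pool.Agent.W_MP_3283e1_h19.Poi2

set_option autoImplicit false

namespace W3283f

open Complex

/-- Summation of a function of period `M N` by the Chinese remainder theorem. -/
theorem FT_sum_crt (M N : ℕ) (hM : 0 < M) (hN : 0 < N) (h : Nat.Coprime M N) (F : ℤ → ℂ)
    (hF : ∀ x k : ℤ, F (x + k * (M * N : ℕ)) = F x) :
    ∑ x ∈ Finset.range (M * N), F x =
      ∑ x ∈ Finset.range M, ∑ y ∈ Finset.range N, F (N * x + M * y) := by
  have hMN : 0 < M * N := Nat.mul_pos hM hN
  have hinj : Set.InjOn (fun p : ℕ × ℕ => (N * p.1 + M * p.2) % (M * N))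
      (Finset.range M ×ˢ Finset.range N : Finset (ℕ × ℕ)) := by
    rintro ⟨a, b⟩ hab ⟨c, d⟩ hcd e
    simp only [Finset.coe_product, Finset.coe_range, Set.mem_prod, Set.mem_Iio] at hab hcd
    have e1 : N * a + M * b ≡ N * c + M * d [MOD M * N] := e
    have e2 : N * a ≡ N * c [MOD M] := by
      have e3 := e1.of_mul_right N
      have e4 : N * a + M * b ≡ N * a + 0 [MOD M] :=
        Nat.ModEq.add_left _ ((Nat.modEq_zero_iff_dvd).2 (Dvd.intro _ rfl))
      have e5 : N * c + M * d ≡ N * c + 0 [MOD M] :=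
        Nat.ModEq.add_left _ ((Nat.modEq_zero_iff_dvd).2 (Dvd.intro _ rfl))
      exact (e4.symm.trans e3).trans e5
    have e6 : M * b ≡ M * d [MOD N] := by
      have e3 := e1.of_mul_left M
      have e4 : N * a + M * b ≡ 0 + M * b [MOD N] :=
        Nat.ModEq.add_right _ ((Nat.modEq_zero_iff_dvd).2 (Dvd.intro _ rfl))
      have e5 : N * c + M * d ≡ 0 + M * d [MOD N] :=
        Nat.ModEq.add_right _ ((Nat.modEq_zero_iff_dvd).2 (Dvd.intro _ rfl))
      have e7 := (e4.symm.trans e3).trans e5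
      simpa using e7
    have e8 : a ≡ c [MOD M] := Nat.ModEq.cancel_left_of_coprime h e2
    have e9 : b ≡ d [MOD N] := Nat.ModEq.cancel_left_of_coprime h.symm e6
    exact Prod.ext (Nat.ModEq.eq_of_lt_of_lt e8 hab.1 hcd.1)
      (Nat.ModEq.eq_of_lt_of_lt e9 hab.2 hcd.2)
  have himg : (Finset.range M ×ˢ Finset.range N).image
      (fun p : ℕ × ℕ => (N * p.1 + M * p.2) % (M * N)) = Finset.range (M * N) := by
    apply Finset.eq_of_subset_of_card_le
    · intro x hx
      rw [Finset.mem_image] at hx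
      obtain ⟨p, _, rfl⟩ := hx
      exact Finset.mem_range.2 (Nat.mod_lt _ hMN)
    · rw [Finset.card_image_of_injOn hinj, Finset.card_product, Finset.card_range,
        Finset.card_range, Finset.card_range]
  rw [← himg, Finset.sum_image hinj, Finset.sum_product]
  apply Finset.sum_congr rfl
  intro x _
  apply Finset.sum_congr rfl
  intro y _
  have h1 := hF (((N * x + M * y) % (M * N) : ℕ) : ℤ) (((N * x + M * y) / (M * N) : ℕ) : ℤ)
  rw [← h1]
  congr 1
  have h2 := Nat.mod_add_div (N * x + M * y) (M * N)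
  have h3 : (((N * x + M * y) % (M * N) : ℕ) : ℤ) +
      ((M * N : ℕ) : ℤ) * (((N * x + M * y) / (M * N) : ℕ) : ℤ) = ((N * x + M * y : ℕ) : ℤ) := by
    exact_mod_cast h2
  rw [mul_comm ((((N * x + M * y) / (M * N) : ℕ)) : ℤ) _, h3]
  push_cast
  ring

theorem FT_per_mul {M : ℕ} {f : ℤ → ℤ → ℂ} (hf : Per M f) (x y k : ℤ) :
    f (x + k * M) y = f x y ∧ f x (y + k * M) = f x y := by
  have h1 : Function.Periodic (fun x => f x y) (M : ℤ) := fun x => (hf x y).1
  have h2 : Function.Periodic (fun y => f x y) (M : ℤ) := fun y => (hf x y).2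
  exact ⟨(h1.int_mul k) x, (h2.int_mul k) y⟩

theorem FT_exp_per (K : ℕ) (hK : 0 < K) (n m : ℤ) :
    Complex.exp (2 * Real.pi * I * ((n + m * K : ℤ) : ℂ) / K) =
      Complex.exp (2 * Real.pi * I * ((n : ℤ) : ℂ) / K) := by
  have hK' : (K : ℂ) ≠ 0 := by exact_mod_cast hK.ne'
  rw [Complex.exp_eq_exp_iff_exists_int]
  refine ⟨m, ?_⟩
  push_cast
  field_simp

/-- For a periodic function the sum over `range M` may be replaced by the sum over any complete
system of residues. -/
theorem FT_crt (M N : ℕ) (hM : 0 < M) (hN : 0 < N) (h : Nat.Coprime M N) (f g : ℤ → ℤ → ℂ)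
    (hf : Per M f) (hg : Per N g) (a b : ℤ) :
    FT (M * N) (fun x y => f x y * g x y) a b =
      FT M (fun x y => f (N * x) (N * y)) a b * FT N (fun x y => g (M * x) (M * y)) a b := by
  have hMN : 0 < M * N := Nat.mul_pos hM hN
  have hM' : (M : ℂ) ≠ 0 := by exact_mod_cast hM.ne'
  have hN' : (N : ℂ) ≠ 0 := by exact_mod_cast hN.ne'
  have hfM : ∀ x y k : ℤ, f (x + k * (M * N : ℕ)) y = f x y ∧ f x (y + k * (M * N : ℕ)) = f x y := by
    intro x y k
    have e : k * ((M * N : ℕ) : ℤ) = (k * N) * M := by push_cast; ring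
    rw [e]
    exact FT_per_mul hf x y (k * N)
  have hgN : ∀ x y k : ℤ, g (x + k * (M * N : ℕ)) y = g x y ∧ g x (y + k * (M * N : ℕ)) = g x y := by
    intro x y k
    have e : k * ((M * N : ℕ) : ℤ) = (k * M) * N := by push_cast; ring
    rw [e]
    exact FT_per_mul hg x y (k * M)
  have hexp : ∀ x1 x2 y1 y2 : ℤ,
      Complex.exp (2 * Real.pi * I * ((a * (N * x1 + M * x2) + b * (N * y1 + M * y2) : ℤ) : ℂ) /
        (M * N : ℕ)) =
      Complex.exp (2 * Real.pi * I * ((a * x1 + b * y1 : ℤ) : ℂ) / M) *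
        Complex.exp (2 * Real.pi * I * ((a * x2 + b * y2 : ℤ) : ℂ) / N) := by
    intro x1 x2 y1 y2
    rw [← Complex.exp_add]
    congr 1
    push_cast
    field_simp
    ring
  have hf1 : ∀ x1 x2 y1 y2 : ℤ, f (N * x1 + M * x2) (N * y1 + M * y2) = f (N * x1) (N * y1) := by
    intro x1 x2 y1 y2
    rw [mul_comm (M : ℤ) x2, mul_comm (M : ℤ) y2, (FT_per_mul hf _ _ x2).1,
      (FT_per_mul hf _ _ y2).2]
  have hg1 : ∀ x1 x2 y1 y2 : ℤ, g (N * x1 + M * x2) (N * y1 + M * y2) = g (M * x2) (M * y2) := by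
    intro x1 x2 y1 y2
    rw [add_comm ((N : ℤ) * x1), add_comm ((N : ℤ) * y1), mul_comm (N : ℤ) x1,
      mul_comm (N : ℤ) y1, (FT_per_mul hg _ _ x1).1, (FT_per_mul hg _ _ y1).2]
  unfold FT
  rw [FT_sum_crt M N hM hN h (fun x => ∑ y ∈ Finset.range (M * N), f x y * g x y *
    Complex.exp (2 * Real.pi * I * ((a * x + b * y : ℤ) : ℂ) / (M * N : ℕ)))]
  · have hin : ∀ X : ℤ, (∑ y ∈ Finset.range (M * N), f X y * g X y *
        Complex.exp (2 * Real.pi * I * ((a * X + b * y : ℤ) : ℂ) / (M * N : ℕ))) =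
        ∑ y1 ∈ Finset.range M, ∑ y2 ∈ Finset.range N,
          f X (N * y1 + M * y2) * g X (N * y1 + M * y2) *
          Complex.exp (2 * Real.pi * I * ((a * X + b * (N * y1 + M * y2) : ℤ) : ℂ) /
            (M * N : ℕ)) := by
      intro X
      rw [FT_sum_crt M N hM hN h (fun y => f X y * g X y *
        Complex.exp (2 * Real.pi * I * ((a * X + b * y : ℤ) : ℂ) / (M * N : ℕ)))]
      intro y k
      rw [(hfM X y k).2, (hgN X y k).2]
      congr 1
      have e : a * X + b * (y + k * (M * N : ℕ)) = (a * X + b * y) + (b * k) * (M * N : ℕ) := by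
        ring
      rw [e, FT_exp_per _ hMN]
    simp only [hin, hexp, hf1, hg1]
    rw [Finset.sum_mul_sum]
    apply Finset.sum_congr rfl
    intro x1 _
    apply Finset.sum_congr rfl
    intro x2 _
    rw [Finset.sum_mul_sum]
    apply Finset.sum_congr rfl
    intro y1 _
    apply Finset.sum_congr rfl
    intro y2 _
    ring
  · intro x k
    apply Finset.sum_congr rfl
    intro y _
    rw [(hfM x y k).1, (hgN x y k).1]
    congr 1
    have e : a * (x + k * (M * N : ℕ)) + b * y = (a * x + b * y) + (a * k) * (M * N : ℕ) := by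
      ring
    rw [e, FT_exp_per _ hMN]

/-- The Fourier transform only depends on the values at the natural numbers below `M`, is linear,
and is itself periodic. -/
theorem FT_per (M : ℕ) (hM : 0 < M) (f : ℤ → ℤ → ℂ) : Per M (FT M f) := by
  intro a b
  constructor
  · unfold FT
    apply Finset.sum_congr rfl
    intro x _
    apply Finset.sum_congr rfl
    intro y _
    congr 1
    have e : (a + M) * (x : ℤ) + b * y = (a * x + b * y) + x * M := by ring
    rw [e, FT_exp_per _ hM]
  · unfold FT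
    apply Finset.sum_congr rfl
    intro x _
    apply Finset.sum_congr rfl
    intro y _
    congr 1
    have e : a * (x : ℤ) + (b + M) * y = (a * x + b * y) + y * M := by ring
    rw [e, FT_exp_per _ hM]

theorem FT_const_mul (M : ℕ) (c : ℂ) (f : ℤ → ℤ → ℂ) (a b : ℤ) :
    FT M (fun x y => c * f x y) a b = c * FT M f a b := by
  unfold FT
  rw [Finset.mul_sum]
  apply Finset.sum_congr rfl
  intro x _
  rw [Finset.mul_sum]
  apply Finset.sum_congr rfl
  intro y _
  ring

end W3283f
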