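import Pool.Agent.W_MP_3283e1_h19.FTa

set_option autoImplicit false

namespace W3283f

open Complex

section GaussTwo

variable {p : ℕ} [Fact p.Prime]

/-- The quadratic character mod `p` with complex values. -/
noncomputable def qcP (p : ℕ) [Fact p.Prime] : MulChar (ZMod p) ℂ :=
  (quadraticChar (ZMod p)).ringHomComp (Int.castRingHom ℂ)

lemma qcP_apply (a : ZMod p) : qcP p a = ((quadraticChar (ZMod p) a : ℤ) : ℂ) := rfl

lemma qcP_ringChar (h2 : p ≠ 2) : ringChar (ZMod p) ≠ 2 := by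
  rw [ZMod.ringChar_zmod_n]; exact h2

lemma qcP_ne_one (h2 : p ≠ 2) : qcP p ≠ 1 := by
  obtain ⟨a, ha⟩ := quadraticChar_exists_neg_one' (qcP_ringChar h2)
  intro h
  have h1 : qcP p (a : ZMod p) = 1 := by rw [h, MulChar.one_apply a.isUnit]
  rw [qcP_apply, ha] at h1
  norm_num at h1

lemma qcP_quad : (qcP p).IsQuadratic := (quadraticChar_isQuadratic (ZMod p)).comp _

lemma qcP_mul_self {t : ZMod p} (ht : t ≠ 0) : qcP p t * qcP p t = 1 := by
  have h := quadraticChar_sq_one ht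
  rw [qcP_apply, ← Int.cast_mul, ← pow_two, h, Int.cast_one]

lemma qcP_inv (t : ZMod p) : qcP p t⁻¹ = qcP p t := by
  by_cases ht : t = 0
  · rw [ht, inv_zero]
  · have h1 : qcP p t⁻¹ * qcP p t = 1 := by
      rw [← map_mul, inv_mul_cancel₀ ht, map_one]
    calc qcP p t⁻¹ = qcP p t⁻¹ * (qcP p t * qcP p t) := by rw [qcP_mul_self ht, mul_one]
      _ = (qcP p t⁻¹ * qcP p t) * qcP p t := by ring
      _ = qcP p t := by rw [h1, one_mul]

/-- `∑ χ(t) ψ(t m) = χ(m) G` for all `m`. -/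
lemma qcP_shift (h2 : p ≠ 2) (ψ : AddChar (ZMod p) ℂ) (m : ZMod p) :
    ∑ t, qcP p t * ψ (t * m) = qcP p m * gaussSum (qcP p) ψ := by
  by_cases hm : m = 0
  · subst hm
    have h0 : ∑ t, qcP p t = 0 := MulChar.sum_eq_zero_of_ne_one (qcP_ne_one h2)
    simp only [mul_zero, AddChar.map_zero_eq_one, mul_one, h0]
    rw [MulChar.map_zero, zero_mul]
  · have h1 := gaussSum_mulShift (qcP p) ψ (Units.mk0 m hm)
    rw [Units.val_mk0] at h1
    rw [← h1, ← mul_assoc, qcP_mul_self hm, one_mul]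
    unfold gaussSum
    apply Finset.sum_congr rfl
    intro t _
    rw [AddChar.mulShift_apply, mul_comm t m]

/-- `∑ ψ(t x²) = χ(t) G` for `t ≠ 0`. -/
lemma qcP_sq (h2 : p ≠ 2) (ψ : AddChar (ZMod p) ℂ) (hψ : ψ.IsPrimitive) {t : ZMod p}
    (ht : t ≠ 0) :
    ∑ x : ZMod p, ψ (t * x ^ 2) = qcP p t * gaussSum (qcP p) ψ := by
  have h1 : ∑ x : ZMod p, ψ (t * x ^ 2) =
      ∑ m : ZMod p, ∑ x ∈ Finset.univ.filter (fun x : ZMod p => x ^ 2 = m), ψ (t * x ^ 2) := by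
    rw [Finset.sum_fiberwise]
  rw [h1]
  have h3 : ∀ m : ZMod p, ∑ x ∈ Finset.univ.filter (fun x : ZMod p => x ^ 2 = m), ψ (t * x ^ 2)
      = (qcP p m + 1) * ψ (m * t) := by
    intro m
    have h4 : ∀ x ∈ Finset.univ.filter (fun x : ZMod p => x ^ 2 = m),
        ψ (t * x ^ 2) = ψ (m * t) := by
      intro x hx
      rw [Finset.mem_filter] at hx
      rw [hx.2, mul_comm]
    rw [Finset.sum_congr rfl h4, Finset.sum_const, nsmul_eq_mul]
    congr 1
    have h5 := quadraticChar_card_sqrts (qcP_ringChar h2) m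
    have h6 : ({x : ZMod p | x ^ 2 = m} : Set (ZMod p)).toFinset =
        Finset.univ.filter (fun x : ZMod p => x ^ 2 = m) := by
      ext x; simp
    rw [h6] at h5
    rw [qcP_apply]
    exact_mod_cast h5
  rw [Finset.sum_congr rfl (fun m _ => h3 m)]
  simp only [add_mul, one_mul, Finset.sum_add_distrib]
  rw [qcP_shift h2 ψ t]
  have h7 : ∑ x : ZMod p, ψ (x * t) = 0 := by
    have := AddChar.sum_mulShift t hψ
    rw [if_neg ht] at this
    simpa using this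
  rw [h7, add_zero]

lemma qcP_four_ne (h2 : p ≠ 2) : (2 : ZMod p) ≠ 0 := Ring.two_ne_zero (qcP_ringChar h2)

/-- `∑ ψ(t x² + a x) = χ(t) G ψ(-a²/(4t))`. -/
lemma qcP_compl (h2 : p ≠ 2) (ψ : AddChar (ZMod p) ℂ) (hψ : ψ.IsPrimitive) {t : ZMod p}
    (ht : t ≠ 0) (a : ZMod p) :
    ∑ x : ZMod p, ψ (t * x ^ 2 + a * x) =
      qcP p t * gaussSum (qcP p) ψ * ψ (-(a ^ 2 * (4 * t)⁻¹)) := by
  have h20 := qcP_four_ne h2
  rw [← qcP_sq h2 ψ hψ ht, Finset.sum_mul]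
  refine Fintype.sum_equiv (Equiv.addRight (a * (2 * t)⁻¹)) _ _ ?_
  intro x
  rw [← AddChar.map_add_eq_mul]
  congr 1
  simp only [Equiv.coe_addRight]
  have h4 : (4 : ZMod p) = 2 * 2 := by norm_num
  rw [h4]
  field_simp
  ring

/-- The Gauss sum in two variables. -/
lemma qcP_two (h2 : p ≠ 2) (ψ : AddChar (ZMod p) ℂ) (hψ : ψ.IsPrimitive) (a b : ZMod p) :
    ∑ x : ZMod p, ∑ y : ZMod p, qcP p (x ^ 2 + y ^ 2) * ψ (a * x + b * y) =
      p * qcP p (a ^ 2 + b ^ 2) := by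
  have h20 := qcP_four_ne h2
  set G := gaussSum (qcP p) ψ with hG
  have hcard : ((Fintype.card (ZMod p) : ℕ) : ℂ) ≠ 0 := by
    rw [ZMod.card]
    exact_mod_cast (Fact.out : p.Prime).ne_zero
  have hG0 : G ≠ 0 := gaussSum_ne_zero_of_nontrivial hcard (qcP_ne_one h2) hψ
  have hG2 : G ^ 2 = qcP p (-1) * p := by
    have h := gaussSum_sq (χ := qcP p) (qcP_ne_one h2) qcP_quad hψ
    rw [ZMod.card] at h
    rw [hG]; exact h
  apply mul_left_cancel₀ hG0
  have e1 : G * ∑ x : ZMod p, ∑ y : ZMod p, qcP p (x ^ 2 + y ^ 2) * ψ (a * x + b * y) =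
      ∑ t : ZMod p, qcP p t * ((∑ x : ZMod p, ψ (t * x ^ 2 + a * x)) *
        (∑ y : ZMod p, ψ (t * y ^ 2 + b * y))) := by
    have h1 : ∀ x y : ZMod p, G * (qcP p (x ^ 2 + y ^ 2) * ψ (a * x + b * y)) =
        ∑ t : ZMod p, qcP p t * (ψ (t * x ^ 2 + a * x) * ψ (t * y ^ 2 + b * y)) := by
      intro x y
      have h3 := qcP_shift h2 ψ (x ^ 2 + y ^ 2)
      calc G * (qcP p (x ^ 2 + y ^ 2) * ψ (a * x + b * y)) =
          (qcP p (x ^ 2 + y ^ 2) * G) * ψ (a * x + b * y) := by ring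
        _ = (∑ t, qcP p t * ψ (t * (x ^ 2 + y ^ 2))) * ψ (a * x + b * y) := by rw [h3]
        _ = _ := by
          rw [Finset.sum_mul]
          apply Finset.sum_congr rfl
          intro t _
          rw [mul_assoc, ← AddChar.map_add_eq_mul, ← AddChar.map_add_eq_mul]
          congr 2
          ring
    simp only [Finset.mul_sum]
    simp only [h1]
    have h4 : ∀ x : ZMod p, (∑ y : ZMod p, ∑ t : ZMod p,
        qcP p t * (ψ (t * x ^ 2 + a * x) * ψ (t * y ^ 2 + b * y))) =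
        ∑ t : ZMod p, ∑ y : ZMod p,
        qcP p t * (ψ (t * x ^ 2 + a * x) * ψ (t * y ^ 2 + b * y)) := fun x => Finset.sum_comm
    simp only [h4]
    rw [Finset.sum_comm]
    apply Finset.sum_congr rfl
    intro t _
    rw [Finset.sum_comm]
    apply Finset.sum_congr rfl
    intro y _
    rw [Finset.sum_mul, Finset.mul_sum]
  rw [e1]
  have e2 : ∀ t : ZMod p, qcP p t * ((∑ x : ZMod p, ψ (t * x ^ 2 + a * x)) *
        (∑ y : ZMod p, ψ (t * y ^ 2 + b * y))) =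
        G ^ 2 * (qcP p t * ψ (-((a ^ 2 + b ^ 2) * (4 * t)⁻¹))) := by
    intro t
    by_cases ht : t = 0
    · subst ht
      rw [MulChar.map_zero]; ring
    · rw [qcP_compl h2 ψ hψ ht, qcP_compl h2 ψ hψ ht]
      have h5 : -((a ^ 2 + b ^ 2) * (4 * t)⁻¹) = -(a ^ 2 * (4 * t)⁻¹) + -(b ^ 2 * (4 * t)⁻¹) := by
        ring
      rw [h5, AddChar.map_add_eq_mul]
      have h6 := qcP_mul_self ht
      calc _ = G ^ 2 * ((qcP p t * qcP p t) * qcP p t * (ψ (-(a ^ 2 * (4 * t)⁻¹)) *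
            ψ (-(b ^ 2 * (4 * t)⁻¹)))) := by ring
        _ = _ := by rw [h6, one_mul]
  simp only [e2]
  rw [← Finset.mul_sum]
  have h40 : (4 : ZMod p) ≠ 0 := by
    have h4 : (4 : ZMod p) = 2 * 2 := by norm_num
    rw [h4]; exact mul_ne_zero h20 h20
  have e3 : ∑ t : ZMod p, qcP p t * ψ (-((a ^ 2 + b ^ 2) * (4 * t)⁻¹)) =
      ∑ t : ZMod p, qcP p (-1) * (qcP p t * ψ (t * (a ^ 2 + b ^ 2))) := by
    have hinv : Function.Involutive (fun t : ZMod p => -(4 * t)⁻¹) := by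
      intro t
      by_cases ht : t = 0
      · subst ht; simp
      · simp only
        field_simp
    refine Fintype.sum_equiv hinv.toPerm _ _ ?_
    intro t
    simp only [Function.Involutive.coe_toPerm]
    have h8 : qcP p (-(4 * t)⁻¹) = qcP p (-1) * qcP p t := by
      have h9 : (-(4 * t)⁻¹ : ZMod p) = (-1) * (4 * t)⁻¹ := by ring
      rw [h9, map_mul, qcP_inv, map_mul]
      have h4 : (4 : ZMod p) = 2 * 2 := by norm_num
      rw [h4, map_mul, qcP_mul_self h20, one_mul]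
    rw [h8]
    have h10 : qcP p (-1) * qcP p (-1) = 1 := qcP_mul_self (neg_ne_zero.2 one_ne_zero)
    have h11 : -(4 * t)⁻¹ * (a ^ 2 + b ^ 2) = -((a ^ 2 + b ^ 2) * (4 * t)⁻¹) := by ring
    rw [h11]
    calc _ = 1 * (qcP p t * ψ (-((a ^ 2 + b ^ 2) * (4 * t)⁻¹))) := by rw [one_mul]
      _ = _ := by rw [← h10]; ring
  rw [e3, ← Finset.mul_sum, qcP_shift h2 ψ, hG2]
  have h10 : qcP p (-1) * qcP p (-1) = 1 := qcP_mul_self (neg_ne_zero.2 one_ne_zero)
  calc _ = (qcP p (-1) * qcP p (-1)) * (G * (p * qcP p (a ^ 2 + b ^ 2))) := by ring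
    _ = _ := by rw [h10, one_mul]

end GaussTwo

/-- Sums over `range p` and over `ZMod p`. -/
lemma sum_range_zmod {p : ℕ} [NeZero p] (F : ZMod p → ℂ) :
    ∑ x ∈ Finset.range p, F (x : ZMod p) = ∑ x : ZMod p, F x := by
  refine Finset.sum_bij' (fun x _ => (x : ZMod p)) (fun x _ => x.val) ?_ ?_ ?_ ?_ ?_
  · intro x _; exact Finset.mem_univ _
  · intro x _; exact Finset.mem_range.2 (ZMod.val_lt x)
  · intro x hx
    exact ZMod.val_cast_of_lt (Finset.mem_range.1 hx)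
  · intro x _; exact ZMod.natCast_zmod_val x
  · intro x _; rfl

/-- The quadratic Gauss sum in two variables.  Let `χ` be the quadratic character mod `p` and
`G = gaussSum χ ψ`, `ψ(x) = e(x/p)`; `G² = χ(-1) p` (`gaussSum_sq`) and
`χ(m) G = ∑_t χ(t) ψ(tm)` for all `m` (`gaussSum_mulShift`; both sides vanish for `m = 0`).
`∑_x ψ(t x² + a x) = χ(t) G ψ(-a²/(4t))` for `t ≠ 0` (complete the square;
`∑_x ψ(t x²) = ∑_m (1 + χ(m)) ψ(tm)`).  So
`G ∑ χ(x²+y²) ψ(ax+by) = ∑_{t≠0} χ(t) (χ(t) G)² ψ(-(a²+b²)/(4t)) = G² χ(-1) G χ(a²+b²)`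
(substitute `t ↦ -1/(4t)`), which is `G p χ(a²+b²)`. -/
theorem FT_prime (p : ℕ) (hp : p.Prime) (h2 : p ≠ 2) (a b : ℤ) :
    FT p (fun x y => ((jacobiSym (x ^ 2 + y ^ 2) p : ℤ) : ℂ)) a b =
      p * ((jacobiSym (a ^ 2 + b ^ 2) p : ℤ) : ℂ) := by
  have : Fact p.Prime := ⟨hp⟩
  have : NeZero p := ⟨hp.ne_zero⟩
  have hj : ∀ m : ℤ, ((jacobiSym m p : ℤ) : ℂ) = qcP p (m : ZMod p) := by
    intro m
    rw [← jacobiSym.legendreSym.to_jacobiSym, qcP_apply]
    rfl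
  have h := qcP_two h2 (ZMod.stdAddChar (N := p)) (ZMod.isPrimitive_stdAddChar p) (a : ZMod p)
    (b : ZMod p)
  rw [hj]
  push_cast
  rw [← h]
  unfold FT
  rw [← sum_range_zmod]
  apply Finset.sum_congr rfl
  intro x _
  rw [← sum_range_zmod]
  apply Finset.sum_congr rfl
  intro y _
  beta_reduce
  rw [hj]
  congr 1
  · push_cast; rfl
  · have h3 := ZMod.stdAddChar_coe (N := p) (a * x + b * y)
    push_cast at h3 ⊢
    exact h3.symm

end W3283f
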