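import Pool.Agent.W_MP_3283e1_h19.FTb

set_option autoImplicit false

namespace W3283f

open Complex

theorem jac_per (n : ℕ) (hn : 0 < n) :
    Per n (fun x y => ((jacobiSym (x ^ 2 + y ^ 2) n : ℤ) : ℂ)) := by
  intro x y
  constructor
  · show ((jacobiSym ((x + n) ^ 2 + y ^ 2) n : ℤ) : ℂ) = ((jacobiSym (x ^ 2 + y ^ 2) n : ℤ) : ℂ)
    have h : jacobiSym ((x + n) ^ 2 + y ^ 2) n = jacobiSym (x ^ 2 + y ^ 2) n := by
      apply jacobiSym.mod_left'
      apply Int.ModEq.add_right
      apply Int.ModEq.pow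
      simp [Int.ModEq]
    rw [h]
  · show ((jacobiSym (x ^ 2 + (y + n) ^ 2) n : ℤ) : ℂ) = ((jacobiSym (x ^ 2 + y ^ 2) n : ℤ) : ℂ)
    have h : jacobiSym (x ^ 2 + (y + n) ^ 2) n = jacobiSym (x ^ 2 + y ^ 2) n := by
      apply jacobiSym.mod_left'
      apply Int.ModEq.add_left
      apply Int.ModEq.pow
      simp [Int.ModEq]
    rw [h]

/-- The symbol of the norm does not change if both coordinates are multiplied by a unit. -/
theorem jac_scale (m n : ℕ) (h : Nat.Coprime m n) (x y : ℤ) :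
    jacobiSym ((m * x) ^ 2 + (m * y) ^ 2) n = jacobiSym (x ^ 2 + y ^ 2) n := by
  have e : ((m : ℤ) * x) ^ 2 + ((m : ℤ) * y) ^ 2 = (m : ℤ) ^ 2 * (x ^ 2 + y ^ 2) := by ring
  rw [e, jacobiSym.mul_left, jacobiSym.sq_one' (by simpa using h), one_mul]

theorem FT_jac_one (a b : ℤ) :
    FT 1 (fun x y => ((jacobiSym (x ^ 2 + y ^ 2) 1 : ℤ) : ℂ)) a b =
      (1 : ℕ) * ((jacobiSym (a ^ 2 + b ^ 2) 1 : ℤ) : ℂ) := by
  simp [FT, jacobiSym.one_right]

/-- Induction on the number of prime factors: `n = p n'` with `p ∤ n'`, `jacobiSym.mul_right`,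
`FT_crt`, and `jacobiSym ((n' x)² + (n' y)²) p = jacobiSym (x²+y²) p` (`jacobiSym.sq_one'`). -/
theorem FT_jac (n : ℕ) (hn : Odd n) (hs : Squarefree n) (a b : ℤ) :
    FT n (fun x y => ((jacobiSym (x ^ 2 + y ^ 2) n : ℤ) : ℂ)) a b =
      n * ((jacobiSym (a ^ 2 + b ^ 2) n : ℤ) : ℂ) := by
  induction n using Nat.strong_induction_on with
  | _ n ih =>
    by_cases h1 : n = 1
    · subst h1
      exact FT_jac_one a b
    · have hp : (n.minFac).Prime := Nat.minFac_prime h1
      obtain ⟨m, hm⟩ := n.minFac_dvd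
      set p := n.minFac with hpdef
      have hn0 : 0 < n := hn.pos
      have hm0 : 0 < m := by
        rcases Nat.eq_zero_or_pos m with h | h
        · rw [h, mul_zero] at hm; omega
        · exact h
      have hlt : m < n := by
        rw [hm]
        calc m = 1 * m := (one_mul m).symm
          _ < p * m := Nat.mul_lt_mul_of_pos_right hp.one_lt hm0
      have hs' : Squarefree (p * m) := by rw [← hm]; exact hs
      have hcop : Nat.Coprime p m := (Nat.squarefree_mul_iff.mp hs').1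
      have hsm : Squarefree m := (Nat.squarefree_mul_iff.mp hs').2.2
      have hodd : Odd (p * m) := by rw [← hm]; exact hn
      have hpo : Odd p := (Nat.odd_mul.mp hodd).1
      have hmo : Odd m := (Nat.odd_mul.mp hodd).2
      have hp2 : p ≠ 2 := by
        intro h
        rw [h] at hpo
        exact absurd hpo (by decide)
      have hmne : NeZero m := ⟨hm0.ne'⟩
      have hpne : NeZero p := ⟨hp.pos.ne'⟩
      have hfun : (fun x y : ℤ => ((jacobiSym (x ^ 2 + y ^ 2) n : ℤ) : ℂ)) =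
          fun x y => ((jacobiSym (x ^ 2 + y ^ 2) p : ℤ) : ℂ) *
            ((jacobiSym (x ^ 2 + y ^ 2) m : ℤ) : ℂ) := by
        funext x y
        rw [hm, jacobiSym.mul_right (x ^ 2 + y ^ 2) p m]
        push_cast
        ring
      rw [hfun]
      have hkey := FT_crt p m hp.pos hm0 hcop
        (fun x y => ((jacobiSym (x ^ 2 + y ^ 2) p : ℤ) : ℂ))
        (fun x y => ((jacobiSym (x ^ 2 + y ^ 2) m : ℤ) : ℂ))
        (jac_per p hp.pos) (jac_per m hm0) a b
      have e1 : (fun x y : ℤ => ((jacobiSym ((m * x) ^ 2 + (m * y) ^ 2) p : ℤ) : ℂ)) =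
          fun x y => ((jacobiSym (x ^ 2 + y ^ 2) p : ℤ) : ℂ) := by
        funext x y
        rw [jac_scale m p hcop.symm x y]
      have e2 : (fun x y : ℤ => ((jacobiSym ((p * x) ^ 2 + (p * y) ^ 2) m : ℤ) : ℂ)) =
          fun x y => ((jacobiSym (x ^ 2 + y ^ 2) m : ℤ) : ℂ) := by
        funext x y
        rw [jac_scale p m hcop x y]
      have hkey' : FT (p * m) (fun x y => ((jacobiSym (x ^ 2 + y ^ 2) p : ℤ) : ℂ) *
            ((jacobiSym (x ^ 2 + y ^ 2) m : ℤ) : ℂ)) a b =
          FT p (fun x y => ((jacobiSym (x ^ 2 + y ^ 2) p : ℤ) : ℂ)) a b *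
          FT m (fun x y => ((jacobiSym (x ^ 2 + y ^ 2) m : ℤ) : ℂ)) a b := by
        rw [← e1, ← e2] 
        exact hkey
      rw [hm, hkey', FT_prime p hp hp2 a b, ih m hlt hmo hsm, jacobiSym.mul_right]
      push_cast
      ring

end W3283f
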