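import Pool.Agent.W_MP_3283e1_h19.FTa

set_option autoImplicit false

namespace W3283f

open Complex

/-- The unit `u` such that `u (A + Bi)` is primary (`B` even, `A - B ≡ 1 mod 4`), for odd norm;
`0` for even norm. -/
noncomputable def eta (A B : ℤ) : ℂ :=
  if B % 2 = 0 then
    (if (A - B) % 4 = 1 then 1 else if (A - B) % 4 = 3 then -1 else 0)
  else if A % 2 = 0 then
    (if (A + B) % 4 = 1 then -I else if (A + B) % 4 = 3 then I else 0)
  else 0

/-- The character mod 8 on the integers, with complex values. -/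
noncomputable def chi8Z (m : ℤ) : ℂ := ((ZMod.χ₈ (m : ZMod 8) : ℤ) : ℂ)

/-- The part at 2 of the Hecke character. -/
noncomputable def f4 (j : ℕ) (A B : ℤ) : ℂ := eta A B * chi8Z (A ^ 2 + B ^ 2) ^ j

theorem f4_eta_congr (A B A' B' : ℤ) (hA : A % 4 = A' % 4) (hB : B % 4 = B' % 4) :
    eta A B = eta A' B' := by
  have h1 : B % 2 = B' % 2 := by omega
  have h2 : A % 2 = A' % 2 := by omega
  have h3 : (A - B) % 4 = (A' - B') % 4 := by omega
  have h4 : (A + B) % 4 = (A' + B') % 4 := by omega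
  unfold eta
  rw [h1, h2, h3, h4]

theorem f4_chi_congr (m n : ℤ) (h : m % 8 = n % 8) : chi8Z m = chi8Z n := by
  unfold chi8Z
  have : ((m : ℤ) : ZMod 8) = ((n : ℤ) : ZMod 8) := by
    rw [ZMod.intCast_eq_intCast_iff]
    exact h
  rw [this]

theorem f4_sq_congr (A A' : ℤ) (h : A % 4 = A' % 4) : A ^ 2 % 8 = A' ^ 2 % 8 := by
  obtain ⟨k, hk⟩ : ∃ k, A = A' + 4 * k := ⟨(A - A') / 4, by omega⟩
  subst hk
  have : (A' + 4 * k) ^ 2 = A' ^ 2 + 8 * (A' * k + 2 * k ^ 2) := by ring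
  rw [this]
  omega

theorem f4_congr (j : ℕ) (A B A' B' : ℤ) (hA : A % 4 = A' % 4) (hB : B % 4 = B' % 4) :
    f4 j A B = f4 j A' B' := by
  unfold f4
  rw [f4_eta_congr A B A' B' hA hB]
  rw [f4_chi_congr (A ^ 2 + B ^ 2) (A' ^ 2 + B' ^ 2)]
  have h1 := f4_sq_congr A A' hA
  have h2 := f4_sq_congr B B' hB
  omega

theorem f4_per (j : ℕ) : Per 4 (f4 j) := by
  intro x y
  constructor
  · exact f4_congr j _ _ _ _ (by push_cast; omega) rfl
  · exact f4_congr j _ _ _ _ rfl (by push_cast; omega)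

theorem f4_eta_neg (A B : ℤ) : eta (-A) (-B) = - eta A B := by
  unfold eta
  have h1 : (-B) % 2 = 0 ↔ B % 2 = 0 := by omega
  have h2 : (-A) % 2 = 0 ↔ A % 2 = 0 := by omega
  by_cases hB : B % 2 = 0
  · rw [if_pos (h1.mpr hB), if_pos hB]
    by_cases h3 : (A - B) % 4 = 1
    · rw [if_pos h3, if_neg (by omega), if_pos (by omega)]
    · by_cases h4 : (A - B) % 4 = 3
      · rw [if_neg h3, if_pos h4, if_pos (by omega), neg_neg]
      · rw [if_neg h3, if_neg h4, if_neg (by omega), if_neg (by omega), neg_zero]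
  · rw [if_neg (fun h => hB (h1.mp h)), if_neg hB]
    by_cases hA : A % 2 = 0
    · rw [if_pos (h2.mpr hA), if_pos hA]
      by_cases h3 : (A + B) % 4 = 1
      · rw [if_pos h3, if_neg (by omega), if_pos (by omega), neg_neg]
      · by_cases h4 : (A + B) % 4 = 3
        · rw [if_neg h3, if_pos h4, if_pos (by omega)]
        · rw [if_neg h3, if_neg h4, if_neg (by omega), if_neg (by omega), neg_zero]
    · rw [if_neg (fun h => hA (h2.mp h)), if_neg hA, neg_zero]

/-- Multiplication by an odd natural number: `η(n) = χ₄(n)`, and `χ₈(n²) = 1`. -/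
theorem f4_scale (j n : ℕ) (hn : Odd n) (A B : ℤ) :
    f4 j (n * A) (n * B) = ((ZMod.χ₄ (n : ZMod 4) : ℤ) : ℂ) * f4 j A B := by
  have hchi : chi8Z ((n * A) ^ 2 + (n * B) ^ 2) = chi8Z (A ^ 2 + B ^ 2) := by
    apply f4_chi_congr
    obtain ⟨k, hk⟩ := hn
    have h8 : ((n : ℤ)) ^ 2 % 8 = 1 := by
      subst hk
      push_cast
      have : (2 * (k : ℤ) + 1) ^ 2 = 4 * ((k : ℤ) * (k + 1)) + 1 := by ring
      rw [this]
      have h2 : ((k : ℤ) * (k + 1)) % 2 = 0 := by
        rcases Int.even_or_odd (k : ℤ) with ⟨r, hr⟩ | ⟨r, hr⟩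
        · rw [hr]
          have : (r + r) * (r + r + 1) = 2 * (r * (r + r + 1)) := by ring
          rw [this]; omega
        · rw [hr]
          have : (2 * r + 1) * (2 * r + 1 + 1) = 2 * ((2 * r + 1) * (r + 1)) := by ring
          rw [this]; omega
      omega
    obtain ⟨q, hq⟩ : ∃ q : ℤ, (n : ℤ) ^ 2 = 8 * q + 1 := ⟨(n : ℤ) ^ 2 / 8, by omega⟩
    have : (n * A) ^ 2 + (n * B) ^ 2 = (A ^ 2 + B ^ 2) + 8 * (q * (A ^ 2 + B ^ 2)) := by
      rw [mul_pow, mul_pow, hq]; ring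
    rw [this]
    omega
  unfold f4
  rw [hchi]
  have hn4 : n % 4 = 1 ∨ n % 4 = 3 := by
    obtain ⟨k, hk⟩ := hn
    omega
  rcases hn4 with h | h
  · have h1 : (ZMod.χ₄ (n : ZMod 4) : ℤ) = 1 := ZMod.χ₄_nat_one_mod_four h
    obtain ⟨k, hk⟩ : ∃ k : ℕ, n = 4 * k + 1 := ⟨n / 4, by omega⟩
    have h2 : eta (n * A) (n * B) = eta A B := by
      apply f4_eta_congr
      · subst hk
        push_cast
        have : (4 * (k : ℤ) + 1) * A = A + 4 * (k * A) := by ring
        rw [this]; omega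
      · subst hk
        push_cast
        have : (4 * (k : ℤ) + 1) * B = B + 4 * (k * B) := by ring
        rw [this]; omega
    rw [h1, h2]
    push_cast
    ring
  · have h1 : (ZMod.χ₄ (n : ZMod 4) : ℤ) = -1 := ZMod.χ₄_nat_three_mod_four h
    obtain ⟨k, hk⟩ : ∃ k : ℕ, n = 4 * k + 3 := ⟨n / 4, by omega⟩
    have h2 : eta (n * A) (n * B) = eta (-A) (-B) := by
      apply f4_eta_congr
      · subst hk
        push_cast
        have : (4 * (k : ℤ) + 3) * A = -A + 4 * (k * A + A) := by ring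
        rw [this]; omega
      · subst hk
        push_cast
        have : (4 * (k : ℤ) + 3) * B = -B + 4 * (k * B + B) := by ring
        rw [this]; omega
    rw [h1, h2, f4_eta_neg]
    push_cast
    ring

/-- The fourth roots of unity. -/
noncomputable def f4_iz (k : ℤ) : ℂ :=
  if k % 4 = 0 then 1 else if k % 4 = 1 then I else if k % 4 = 2 then -1 else -I

theorem f4_exp (k : ℤ) : Complex.exp (2 * Real.pi * I * ((k : ℤ) : ℂ) / ((4 : ℕ) : ℂ)) = f4_iz k := by
  have key : ∀ (q r : ℤ), k = 4 * q + r →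
      Complex.exp (2 * Real.pi * I * ((k : ℤ) : ℂ) / ((4 : ℕ) : ℂ)) =
        Complex.exp ((r : ℂ) * (Real.pi / 2 * I)) := by
    intro q r h
    have : 2 * Real.pi * I * ((k : ℤ) : ℂ) / ((4 : ℕ) : ℂ) =
        (r : ℂ) * (Real.pi / 2 * I) + q * (2 * Real.pi * I) := by
      rw [h]; push_cast; ring
    rw [this, Complex.exp_add, Complex.exp_int_mul_two_pi_mul_I, mul_one]
  have hI : Complex.exp (Real.pi / 2 * I) = I := Complex.exp_pi_div_two_mul_I
  unfold f4_iz
  by_cases h0 : k % 4 = 0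
  · rw [if_pos h0, key (k / 4) 0 (by omega)]
    simp
  · by_cases h1 : k % 4 = 1
    · rw [if_neg h0, if_pos h1, key (k / 4) 1 (by omega)]
      rw [Int.cast_one, one_mul, hI]
    · by_cases h2 : k % 4 = 2
      · rw [if_neg h0, if_neg h1, if_pos h2, key (k / 4) 2 (by omega)]
        have : ((2 : ℤ) : ℂ) * (Real.pi / 2 * I) = Real.pi / 2 * I + Real.pi / 2 * I := by
          push_cast; ring
        rw [this, Complex.exp_add, hI, I_mul_I]
      · rw [if_neg h0, if_neg h1, if_neg h2, key (k / 4) 3 (by omega)]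
        have : ((3 : ℤ) : ℂ) * (Real.pi / 2 * I) =
            Real.pi / 2 * I + Real.pi / 2 * I + Real.pi / 2 * I := by
          push_cast; ring
        rw [this, Complex.exp_add, Complex.exp_add, hI, I_mul_I]
        ring

theorem f4_iz_congr (k l : ℤ) (h : k % 4 = l % 4) : f4_iz k = f4_iz l := by
  unfold f4_iz
  rw [h]

theorem f4_FT (f : ℤ → ℤ → ℂ) (a b : ℤ) : FT 4 f a b =
    ∑ x ∈ Finset.range 4, ∑ y ∈ Finset.range 4,
      f x y * f4_iz ((a % 4) * x + (b % 4) * y) := by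
  unfold FT
  refine Finset.sum_congr rfl fun x _ => Finset.sum_congr rfl fun y _ => ?_
  rw [f4_exp]
  congr 1
  apply f4_iz_congr
  have h : a * x + b * y = (a % 4 * x + b % 4 * y) + 4 * ((a / 4) * x + (b / 4) * y) := by
    have ha := Int.emod_add_mul_ediv a 4
    have hb := Int.emod_add_mul_ediv b 4
    calc a * x + b * y = (a % 4 + 4 * (a / 4)) * x + (b % 4 + 4 * (b / 4)) * y := by rw [ha, hb]
      _ = _ := by ring
  rw [h]
  omega

theorem f4_chi_val (m : ℤ) : chi8Z m =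
    if m % 2 = 0 then 0 else if m % 8 = 1 ∨ m % 8 = 7 then 1 else -1 := by
  unfold chi8Z
  rw [ZMod.χ₈_int_eq_if_mod_eight]
  split_ifs <;> simp

/-- Finite computation: reduce `a, b` mod 4 (both sides have period 4), 16 cases, each a sum of 16
terms; `e(k/4) = i^k`. -/
theorem FT4_one (a b : ℤ) : FT 4 (f4 1) a b = 4 * I * f4 1 a b := by
  rw [f4_FT, f4_congr 1 a b (a % 4) (b % 4) (by omega) (by omega)]
  have ha : a % 4 = 0 ∨ a % 4 = 1 ∨ a % 4 = 2 ∨ a % 4 = 3 := by omega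
  have hb : b % 4 = 0 ∨ b % 4 = 1 ∨ b % 4 = 2 ∨ b % 4 = 3 := by omega
  rcases ha with ha | ha | ha | ha <;> rcases hb with hb | hb | hb | hb <;>
    rw [ha, hb] <;>
    simp [Finset.sum_range_succ, f4, eta, f4_iz, f4_chi_val] <;>
    ring_nf <;> simp

/-- The value of `eta` at `((a+b)/2, (b-a)/2)` in terms of `a, b`. -/
noncomputable def f4_e2 (a b : ℤ) : ℂ :=
  if (b - a) % 4 = 0 then (if a % 4 = 1 then 1 else if a % 4 = 3 then -1 else 0)
  else if (a + b) % 4 = 0 then (if b % 4 = 1 then -I else if b % 4 = 3 then I else 0)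
  else 0

theorem f4_e2_eq (a b : ℤ) (h : (a + b) % 2 = 0) :
    eta ((a + b) / 2) ((b - a) / 2) = f4_e2 a b := by
  have h1 : ((b - a) / 2) % 2 = 0 ↔ (b - a) % 4 = 0 := by omega
  have h2 : ((a + b) / 2) % 2 = 0 ↔ (a + b) % 4 = 0 := by omega
  have h3 : (a + b) / 2 - (b - a) / 2 = a := by omega
  have h4 : (a + b) / 2 + (b - a) / 2 = b := by omega
  unfold eta f4_e2
  rw [h3, h4]
  simp only [h1, h2]

theorem f4_e2_congr (a b : ℤ) : f4_e2 a b = f4_e2 (a % 4) (b % 4) := by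
  have h1 : (b - a) % 4 = (b % 4 - a % 4) % 4 := by omega
  have h2 : (a + b) % 4 = (a % 4 + b % 4) % 4 := by omega
  have h3 : a % 4 = (a % 4) % 4 := by omega
  have h4 : b % 4 = (b % 4) % 4 := by omega
  unfold f4_e2
  rw [h1, h2, ← h3, ← h4]

/-- The same; the right side has period 4 in `a` and in `b` since `eta` is invariant under
`(A,B) ↦ (A+2,B-2)`, `(A+2,B+2)`. -/
theorem FT4_zero (a b : ℤ) : FT 4 (f4 0) a b =
    if (a + b) % 2 = 0 then 4 * (1 + I) * eta ((a + b) / 2) ((b - a) / 2) else 0 := by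
  have hR : (if (a + b) % 2 = 0 then 4 * (1 + I) * eta ((a + b) / 2) ((b - a) / 2) else 0) =
      if (a % 4 + b % 4) % 2 = 0 then 4 * (1 + I) * f4_e2 (a % 4) (b % 4) else 0 := by
    have h2 : (a + b) % 2 = (a % 4 + b % 4) % 2 := by omega
    by_cases h : (a + b) % 2 = 0
    · rw [if_pos h, if_pos (by rw [← h2]; exact h), f4_e2_eq a b h, f4_e2_congr]
    · rw [if_neg h, if_neg (by rw [← h2]; exact h)]
  rw [hR, f4_FT]
  have ha : a % 4 = 0 ∨ a % 4 = 1 ∨ a % 4 = 2 ∨ a % 4 = 3 := by omega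
  have hb : b % 4 = 0 ∨ b % 4 = 1 ∨ b % 4 = 2 ∨ b % 4 = 3 := by omega
  rcases ha with ha | ha | ha | ha <;> rcases hb with hb | hb | hb | hb <;>
    rw [ha, hb] <;>
    simp [Finset.sum_range_succ, f4, eta, f4_iz, f4_e2] <;>
    ring_nf <;> simp <;> ring

end W3283f
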