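import Pool.Agent.W_MP_3283e1_h19.FTc
import Pool.Agent.W_MP_3283e1_h19.FTd

set_option autoImplicit false

namespace W3283f

open Complex

/-- The Hecke character of the family (finite part, times the unit making `z` primary). -/
noncomputable def fF (n j : ℕ) (A B : ℤ) : ℂ :=
  f4 j A B * ((jacobiSym (A ^ 2 + B ^ 2) n : ℤ) : ℂ)

theorem FTe_per_mul (M k : ℕ) (f : ℤ → ℤ → ℂ) (hf : Per M f) : Per (M * k) f := by
  induction k with
  | zero =>
    intro x y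
    simp
  | succ k ih =>
    intro x y
    have h1 := hf (x + ((M * k : ℕ) : ℤ)) y
    have h2 := hf x (y + ((M * k : ℕ) : ℤ))
    have h3 := ih x y
    constructor
    · rw [← h3.1, ← h1.1]
      congr 1
      push_cast
      ring
    · rw [← h3.2, ← h2.2]
      congr 1
      push_cast
      ring

theorem fF_per (n j : ℕ) (hn : 0 < n) : Per (4 * n) (fF n j) := by
  have h1 : Per (4 * n) (f4 j) := FTe_per_mul 4 n _ (f4_per j)
  have h2 : Per (4 * n) (fun x y => ((jacobiSym (x ^ 2 + y ^ 2) n : ℤ) : ℂ)) := by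
    rw [mul_comm]
    exact FTe_per_mul n 4 _ (jac_per n hn)
  intro x y
  have h3 := h1 x y
  have h4 := h2 x y
  simp only at h4
  constructor
  · unfold fF
    rw [h3.1, h4.1]
  · unfold fF
    rw [h3.2, h4.2]

/-- `FT_crt` with `M = 4`, `N = n`: `f4_scale`, `FT_const_mul`, and
`jacobiSym ((4x)² + (4y)²) n = jacobiSym (x²+y²) n` for odd `n`; `FT_jac`. -/
theorem FT_fF (n j : ℕ) (hn : Odd n) (hs : Squarefree n) (a b : ℤ) :
    FT (4 * n) (fF n j) a b = ((ZMod.χ₄ (n : ZMod 4) : ℤ) : ℂ) * FT 4 (f4 j) a b *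
      (n * ((jacobiSym (a ^ 2 + b ^ 2) n : ℤ) : ℂ)) := by
  have hcop : Nat.Coprime 4 n := by
    have : Nat.Coprime (2 ^ 2) n := Nat.Coprime.pow_left 2 (Nat.coprime_two_left.2 hn)
    simpa using this
  have h0 : FT (4 * n) (fF n j) a b =
      FT (4 * n) (fun x y => f4 j x y * ((jacobiSym (x ^ 2 + y ^ 2) n : ℤ) : ℂ)) a b := rfl
  rw [h0, FT_crt 4 n (by norm_num) hn.pos hcop (f4 j)
    (fun x y => ((jacobiSym (x ^ 2 + y ^ 2) n : ℤ) : ℂ)) (f4_per j) (jac_per n hn.pos) a b]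
  have h1 : (fun x y : ℤ => f4 j ((n : ℤ) * x) ((n : ℤ) * y)) =
      fun x y => ((ZMod.χ₄ (n : ZMod 4) : ℤ) : ℂ) * f4 j x y := by
    funext x y
    exact f4_scale j n hn x y
  have h2 : (fun x y : ℤ => ((jacobiSym ((((4 : ℕ) : ℤ) * x) ^ 2 + (((4 : ℕ) : ℤ) * y) ^ 2) n : ℤ)
      : ℂ)) = fun x y => ((jacobiSym (x ^ 2 + y ^ 2) n : ℤ) : ℂ) := by
    funext x y
    have h3 : (((4 : ℕ) : ℤ) * x) ^ 2 + (((4 : ℕ) : ℤ) * y) ^ 2 = 4 ^ 2 * (x ^ 2 + y ^ 2) := by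
      push_cast
      ring
    have h4 : jacobiSym ((4 : ℤ) ^ 2) n = 1 := by
      apply jacobiSym.sq_one'
      have : Int.gcd (4 : ℤ) (n : ℤ) = Nat.gcd 4 n := rfl
      rw [this]
      exact hcop
    rw [h3, jacobiSym.mul_left, h4, one_mul]
  rw [h1, h2, FT_const_mul, FT_jac n hn hs]

/-- `FT4_one`. -/
theorem FT_fF1 (n : ℕ) (hn : Odd n) (hs : Squarefree n) (a b : ℤ) :
    FT (4 * n) (fF n 1) a b = 4 * I * n * ((ZMod.χ₄ (n : ZMod 4) : ℤ) : ℂ) * fF n 1 a b := by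
  rw [FT_fF n 1 hn hs, FT4_one]
  unfold fF
  ring

/-- `FT4_zero`; for `a + b` even put `a' = (a+b)/2`, `b' = (b-a)/2`: `a² + b² = 2 (a'² + b'²)`. -/
theorem FT_fF0 (n : ℕ) (hn : Odd n) (hs : Squarefree n) (a b : ℤ) :
    FT (4 * n) (fF n 0) a b = if (a + b) % 2 = 0 then
      4 * (1 + I) * n * ((ZMod.χ₄ (n : ZMod 4) : ℤ) : ℂ) * ((jacobiSym 2 n : ℤ) : ℂ) *
        fF n 0 ((a + b) / 2) ((b - a) / 2) else 0 := by
  rw [FT_fF n 0 hn hs, FT4_zero]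
  by_cases h : (a + b) % 2 = 0
  · rw [if_pos h, if_pos h]
    obtain ⟨u, hu⟩ : ∃ u, u = (a + b) / 2 := ⟨_, rfl⟩
    obtain ⟨v, hv⟩ : ∃ v, v = (b - a) / 2 := ⟨_, rfl⟩
    have h1 : a = u - v := by omega
    have h2 : b = u + v := by omega
    rw [← hu, ← hv]
    have h3 : a ^ 2 + b ^ 2 = 2 * (u ^ 2 + v ^ 2) := by
      rw [h1, h2]
      ring
    rw [h3, jacobiSym.mul_left]
    unfold fF f4
    push_cast
    ring
  · rw [if_neg h, if_neg h]
    ring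

end W3283f
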