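import Pool.Agent.W_MP_3283e1_h19.NF
import Pool.Agent.W_MP_3283e1_nt.Step

set_option autoImplicit false

namespace W3283f

open Complex W3283e1 MeasureTheory Filter Topology

/-- The case `ρ = 0`. -/
theorem Bg_zero (α : ℕ → ℂ) (a η K X : ℝ) : Bg α a 0 η K X = Bf α a η K X := by
  funext t
  unfold Bg Bf
  simp

/-- A one sided bound with the constant of Goldfeld, when `L > 0` on `[1,∞)` (structure `Data` of
the first part).  Everything is in the proof of `W3283e1.step` (module `Step`): with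
`g` from `greal`, `F(σ) = (14 √X (1 - X^{-σ}) + K σ H0 + η (lC X^{-σ} - g σ))/σ` is real analytic on
`(0,∞)` and equals the transform for `σ > 1/2`, so by `landau` the transform converges and equals
`F` for all `σ > 0`: this is `conv`.  For `zero`: `σ F(σ) → 0` as `σ → 0+`, since `g 0 = lC`, `g` is
continuous at `0`, and `H0_mul_tendsto`. -/
theorem oneSided_of_data (α : ℕ → ℂ) (L W : ℂ → ℂ) (hD : Data α L W) (η K X : ℝ)
    (hη : η = 1 ∨ η = -1) (hK : 0 < K) (hX : 3 ≤ X)
    (h : ∀ x : ℝ, X ≤ x →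
      η * (AA α x - Real.log (Real.sqrt 2 / (L 1).re)) ≤ K / Real.log x) :
    OneSided α (Real.log (Real.sqrt 2 / (L 1).re)) 0 η K X := by
  have hX0 : 0 < X := by linarith
  obtain ⟨g, hg, hg0, hgG⟩ := greal α L W hD
  set lC : ℝ := Real.log (Real.sqrt 2 / (L 1).re) with hlC
  have hα := hD.norm_α
  set B : ℝ → ℝ := Bf α lC η K X with hBdef
  have hBm : Measurable B := Bf_meas α lC η K X
  have hB0 : ∀ t, 1 < t → 0 ≤ B t := fun t ht => Bf_nonneg α hα lC η K X hη h t ht
  set F : ℝ → ℝ := fun σ => (14 * Real.sqrt X * (1 - X ^ (-σ)) + K * σ * (H0 X σ).re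
      + η * lC * X ^ (-σ) - η * g σ) / σ with hF
  have hFan : ∀ σ : ℝ, 0 < σ → AnalyticAt ℝ F σ := by
    intro σ hσ
    have hp := step_rpow_analytic X hX σ
    have hH := step_H0_analytic X hX σ hσ
    have hgs := hg σ hσ.le
    have hid : AnalyticAt ℝ (fun τ : ℝ => τ) σ := analyticAt_id
    have hnum : AnalyticAt ℝ (fun τ : ℝ => 14 * Real.sqrt X * (1 - X ^ (-τ))
        + K * τ * (H0 X τ).re + η * lC * X ^ (-τ) - η * g τ) σ := by
      refine AnalyticAt.sub (AnalyticAt.add (AnalyticAt.add ?_ ?_) ?_) ?_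
      · exact analyticAt_const.mul (analyticAt_const.sub hp)
      · exact (analyticAt_const.mul hid).mul hH
      · exact analyticAt_const.mul hp
      · exact analyticAt_const.mul hgs
    exact hnum.div hid hσ.ne'
  have hint1 : ∀ σ : ℝ, 1 / 2 < σ →
      IntegrableOn (fun t : ℝ => B t * t ^ (-(σ + 1))) (Set.Ioi 1) := by
    intro σ hσ
    have := (Bf_transform α hα lC η K X hX (σ : ℂ) (by simpa using hσ)).1
    simpa using this
  have heq1 : ∀ σ : ℝ, 1 / 2 < σ →
      F σ = ∫ t in Set.Ioi (1 : ℝ), B t * t ^ (-(σ + 1)) := by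
    intro σ hσ
    have hσ0 : 0 < σ := by linarith
    have htr := (Bf_transform α hα lC η K X hX (σ : ℂ) (by simpa using hσ)).2
    have hHr := H0_real X hX σ
    have hH : H0 X σ = (((H0 X σ).re : ℝ) : ℂ) := by
      apply Complex.ext
      · simp
      · simpa using hHr.1
    have hXp : (X : ℂ) ^ (-(σ : ℂ)) = ((X ^ (-σ) : ℝ) : ℂ) := by
      rw [Complex.ofReal_cpow hX0.le]
      push_cast
      rfl
    rw [step_ofReal_int B σ, hgG σ hσ, hH, hXp] at htr
    have htr' : σ * (∫ t in Set.Ioi (1 : ℝ), B t * t ^ (-(σ + 1)))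
        = (14 * Real.sqrt X) * (1 - X ^ (-σ)) + K * σ * (H0 X σ).re
          + η * lC * X ^ (-σ) - η * g σ := by
      exact_mod_cast htr
    rw [hF]
    simp only
    rw [← htr', mul_div_cancel_left₀ _ hσ0.ne']
  have hland := landau B hBm hB0 F 0 (1 / 2) hFan hint1 heq1
  refine ⟨hη, hK, hX, ?_, ?_, ?_⟩
  · intro x hx
    have := h x hx
    simpa using this
  · intro σ hσ
    rw [Bg_zero]
    exact (hland σ hσ).1
  · rw [Bg_zero]
    -- the value of the transform
    have hval : ∀ σ : ℝ, 0 < σ → (σ : ℂ) * TT B σ =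
        (((14 * Real.sqrt X * (1 - X ^ (-σ)) + η * lC * X ^ (-σ) - η * g σ : ℝ)) : ℂ)
          + (K : ℂ) * (((σ : ℂ) * H0 X σ).re : ℂ) := by
      intro σ hσ
      unfold TT
      rw [step_ofReal_int B σ, ← (hland σ hσ).2]
      have h1 : ((σ : ℂ) * H0 X σ).re = σ * (H0 X σ).re := by simp
      rw [h1, hF]
      simp only
      push_cast
      have hs : (σ : ℂ) ≠ 0 := by exact_mod_cast hσ.ne'
      rw [mul_div_cancel₀ _ hs]
      ring
    have hcX : ContinuousAt (fun τ : ℝ => X ^ (-τ)) 0 := (step_rpow_analytic X hX 0).continuousAt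
    have hcg : ContinuousAt g 0 := (hg 0 le_rfl).continuousAt
    have hc1 : ContinuousAt (fun τ : ℝ => 14 * Real.sqrt X * (1 - X ^ (-τ))
        + η * lC * X ^ (-τ) - η * g τ) 0 :=
      ((continuousAt_const.mul (continuousAt_const.sub hcX)).add
        (continuousAt_const.mul hcX)).sub (continuousAt_const.mul hcg)
    have ht1 : Tendsto (fun τ : ℝ => 14 * Real.sqrt X * (1 - X ^ (-τ))
        + η * lC * X ^ (-τ) - η * g τ) (𝓝[>] 0) (𝓝 0) := by
      have h2 := hc1.tendsto
      simp only [neg_zero, Real.rpow_zero, sub_self, mul_zero, mul_one, zero_add, hg0] at h2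
      exact h2.mono_left nhdsWithin_le_nhds
    have ht2 : Tendsto (fun σ : ℝ => ((σ : ℂ) * H0 X σ).re) (𝓝[>] 0) (𝓝 0) := by
      have h3 := (Complex.continuous_re.tendsto 0).comp (H0_mul_tendsto X hX)
      rw [Complex.zero_re] at h3
      exact h3
    have ht3 : Tendsto (fun σ : ℝ =>
        (((14 * Real.sqrt X * (1 - X ^ (-σ)) + η * lC * X ^ (-σ) - η * g σ : ℝ)) : ℂ)
          + (K : ℂ) * (((σ : ℂ) * H0 X σ).re : ℂ)) (𝓝[>] 0) (𝓝 0) := by
      have h4 := (Complex.continuous_ofReal.tendsto 0).comp ht1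
      have h5 := ((Complex.continuous_ofReal.tendsto 0).comp ht2).const_mul (K : ℂ)
      have h6 := h4.add h5
      simp only [Complex.ofReal_zero, mul_zero, add_zero] at h6
      exact h6
    refine ht3.congr' ?_
    filter_upwards [self_mem_nhdsWithin] with σ hσ
    exact (hval σ hσ).symm

end W3283f
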