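import Mathlib

set_option autoImplicit false

namespace W3283f

open Complex

/-- `Γ(n+1) = n!` beats every exponential, and `∑ a_m m^{-σ} → a_1` as `σ → ∞`
(`LSeries.tendsto_atTop` or directly).  So if `κ^{1+σ} Λ(σ) = Γ(1+σ) ∑ a_m m^{-1-σ}`
with `a_1 = 1`, then `Λ` is not bounded by `exp(C(1+σ))`: take `σ = n`, `n → ∞`. -/
theorem not_exp_type (a : ℕ → ℂ) (h1 : a 1 = 1) (h2 : LSeriesSummable a 3) (κ : ℝ) (hκ : 0 < κ)
    (Λ : ℂ → ℂ)
    (h : ∀ σ : ℝ, 2 ≤ σ →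
      Λ σ = ((κ : ℂ) ^ (1 + (σ : ℂ)))⁻¹ * (Complex.Gamma (1 + σ) * LSeries a (1 + σ))) :
    ¬ ∃ C : ℝ, ∀ s : ℂ, ‖Λ s‖ ≤ Real.exp (C * (1 + ‖s‖)) := by
  rintro ⟨C, hC⟩
  have ha : LSeries.abscissaOfAbsConv a < ⊤ := by
    refine lt_of_le_of_lt h2.abscissaOfAbsConv_le ?_
    exact EReal.coe_lt_top _
  have hlim := LSeries.tendsto_atTop ha
  rw [h1] at hlim
  have hlim2 : Filter.Tendsto (fun n : ℕ => ‖LSeries a (((1 + n : ℝ)) : ℂ)‖) Filter.atTop (nhds 1) := by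
    have h3 : Filter.Tendsto (fun n : ℕ => (1 + n : ℝ)) Filter.atTop Filter.atTop :=
      Filter.tendsto_atTop_add_const_left _ _ tendsto_natCast_atTop_atTop
    have := (hlim.comp h3).norm
    simpa using this
  have e1 : ∀ᶠ n : ℕ in Filter.atTop, (1 / 2 : ℝ) < ‖LSeries a (((1 + n : ℝ)) : ℂ)‖ :=
    hlim2.eventually (lt_mem_nhds (by norm_num))
  set c : ℝ := κ * Real.exp C with hc
  have hcpos : 0 < c := by positivity
  have hf := (FloorSemiring.tendsto_pow_div_factorial_atTop c).const_mul (2 * c)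
  rw [mul_zero] at hf
  have e2 : ∀ᶠ n : ℕ in Filter.atTop, 2 * c * (c ^ n / n.factorial) < 1 :=
    hf.eventually (gt_mem_nhds (by norm_num))
  obtain ⟨n, hn1, hn2, hn3⟩ := (e1.and (e2.and (Filter.eventually_ge_atTop 2))).exists
  have hn' : (2 : ℝ) ≤ (n : ℝ) := by exact_mod_cast hn3
  have h4 := h n hn'
  have h5 := hC (n : ℝ)
  have hΓ : Complex.Gamma (1 + ((n : ℝ) : ℂ)) = (n.factorial : ℂ) := by
    rw [add_comm]
    have := Complex.Gamma_nat_eq_factorial n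
    simpa using this
  have hpow : ((κ : ℂ) ^ (1 + ((n : ℝ) : ℂ))) = (κ : ℂ) ^ (n + 1) := by
    have : (1 + ((n : ℝ) : ℂ)) = ((n + 1 : ℕ) : ℂ) := by push_cast; ring
    rw [this, Complex.cpow_natCast]
  rw [h4, hΓ, hpow, norm_mul, norm_mul, norm_inv, norm_pow, Complex.norm_real,
    Real.norm_of_nonneg hκ.le, Complex.norm_natCast] at h5
  have h6 : ‖((n : ℝ) : ℂ)‖ = n := by simp
  rw [h6] at h5
  have h7 : Real.exp (C * (1 + n)) = (Real.exp C) ^ (n + 1) := by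
    rw [← Real.exp_nat_mul]; congr 1; push_cast; ring
  rw [h7] at h5
  have h8 : ‖LSeries a (1 + ((n : ℝ) : ℂ))‖ = ‖LSeries a (((1 + n : ℝ)) : ℂ)‖ := by
    congr 2; push_cast; ring
  rw [h8] at h5
  have hfac : (0 : ℝ) < n.factorial := by exact_mod_cast Nat.factorial_pos n
  have h9 : (n.factorial : ℝ) * (1 / 2) ≤ κ ^ (n + 1) * (Real.exp C) ^ (n + 1) := by
    have h10 : (κ ^ (n + 1))⁻¹ * ((n.factorial : ℝ) * (1 / 2)) ≤ (Real.exp C) ^ (n + 1) := by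
      refine le_trans ?_ h5
      gcongr
    have hk : (0 : ℝ) < κ ^ (n + 1) := by positivity
    calc (n.factorial : ℝ) * (1 / 2) = κ ^ (n + 1) * ((κ ^ (n + 1))⁻¹ * ((n.factorial : ℝ) * (1 / 2))) := by
          field_simp
      _ ≤ _ := by gcongr
  rw [← mul_pow, ← hc] at h9
  have h11 : 2 * c * (c ^ n / n.factorial) = 2 * c ^ (n + 1) / n.factorial := by
    rw [pow_succ]; ring
  rw [h11, div_lt_one hfac] at hn2
  linarith

end W3283f
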