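import Pool.Agent.W_MP_3283e1_h19.Edge3
import Pool.Agent.W_MP_3283e1_h19.CoreF
import Pool.Agent.W_MP_3283e1_h19.OneF
import Pool.Agent.W_MP_3283e1_h19.ET4
import Pool.Agent.W_MP_3283e1_h19.SupE
import Pool.Agent.W_MP_3283e1_nt.Fin

set_option autoImplicit false

namespace W3283f

open Complex W3283e1

/-- The completed function, symmetric about `0`. -/
noncomputable def LamE (j : ℕ) (s : ℂ) : ℂ := mellin (fun t => (FF j t : ℂ)) (1 + s)

/-- Entire, even (`mellin_fe` with `k = 2`), of order less than `2` (`mellin_growth`; the constant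
absorbs the shift by `1`: `(2 + ‖s‖)^{3/2} ≤ 2^{3/2} (1 + ‖s‖)^{3/2}`). -/
theorem LamE_basic (j : ℕ) (hj : j = 0 ∨ j = 1) :
    Differentiable ℂ (LamE j) ∧ (∀ s, LamE j (-s) = 1 * LamE j s) ∧
      ∃ C : ℝ, ∀ s, ‖LamE j s‖ ≤ Real.exp (C * (1 + ‖s‖) ^ (3 / 2 : ℝ)) := by
  have hS := selfDual01 j hj
  refine ⟨?_, ?_, ?_⟩
  · exact (mellin_diff (FF j) 2 hS).comp (differentiable_id.const_add 1)
  · intro s
    have h1 := mellin_fe (FF j) 2 hS (1 + s)
    rw [one_mul]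
    unfold LamE
    rw [← h1]
    congr 1
    push_cast
    ring
  · obtain ⟨C, hC⟩ := mellin_growth (FF j) 2 hS
    refine ⟨|C| * 2 ^ (3 / 2 : ℝ), fun s => (hC (1 + s)).trans (Real.exp_le_exp.2 ?_)⟩
    have h1 : ‖(1 : ℂ) + s‖ ≤ 1 + ‖s‖ := by
      refine (norm_add_le _ _).trans ?_
      rw [norm_one]
    have h2 : (1 + ‖(1 : ℂ) + s‖) ^ (3 / 2 : ℝ) ≤ (2 * (1 + ‖s‖)) ^ (3 / 2 : ℝ) :=
      Real.rpow_le_rpow (by positivity) (by linarith [norm_nonneg s]) (by norm_num)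
    rw [Real.mul_rpow (by norm_num) (by positivity)] at h2
    have h3 : 0 ≤ (1 + ‖(1 : ℂ) + s‖) ^ (3 / 2 : ℝ) := by positivity
    calc C * (1 + ‖(1 : ℂ) + s‖) ^ (3 / 2 : ℝ)
        ≤ |C| * (1 + ‖(1 : ℂ) + s‖) ^ (3 / 2 : ℝ) :=
          mul_le_mul_of_nonneg_right (le_abs_self C) h3
      _ ≤ |C| * (2 ^ (3 / 2 : ℝ) * (1 + ‖s‖) ^ (3 / 2 : ℝ)) :=
          mul_le_mul_of_nonneg_left h2 (abs_nonneg C)
      _ = |C| * 2 ^ (3 / 2 : ℝ) * (1 + ‖s‖) ^ (3 / 2 : ℝ) := by ring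

/-- The factor between `LE j (1 + s)` and `LamE j s`. -/
noncomputable def LamE_fac (j : ℕ) (s : ℂ) : ℂ :=
  ((Real.pi * kap j : ℝ) : ℂ) ^ (1 + s) * (Complex.Gamma (1 + s))⁻¹

theorem LamE_fac_eq (j : ℕ) (s : ℂ) : LE j (1 + s) = LamE_fac j s * LamE j s := rfl

theorem LamE_pk_pos (j : ℕ) : 0 < Real.pi * kap j := by
  have := lfun_kap_pos j
  positivity

theorem LamE_pk_ne (j : ℕ) : ((Real.pi * kap j : ℝ) : ℂ) ≠ 0 := by
  exact_mod_cast (LamE_pk_pos j).ne'

theorem LamE_fac_diff (j : ℕ) : Differentiable ℂ (LamE_fac j) := by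
  have h1 : Differentiable ℂ (fun s : ℂ => ((Real.pi * kap j : ℝ) : ℂ) ^ (1 + s)) := by
    intro s
    exact (differentiableAt_id.const_add 1).const_cpow (Or.inl (LamE_pk_ne j))
  exact h1.mul (Complex.differentiable_one_div_Gamma.comp (differentiable_id.const_add 1))

theorem LamE_fac_ne (j : ℕ) (s : ℂ) (hs : -1 < s.re) : LamE_fac j s ≠ 0 := by
  unfold LamE_fac
  refine mul_ne_zero ?_ (inv_ne_zero (Complex.Gamma_ne_zero_of_re_pos ?_))
  · rw [Ne, Complex.cpow_eq_zero_iff]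
    exact fun h => LamE_pk_ne j h.1
  · rw [Complex.add_re, Complex.one_re]
    linarith

/-- `LE j s = (π kap)^s Γ(s)⁻¹ mellin s` (definition of `LE`), and `(π kap)^{1+s} Γ(1+s)⁻¹` is
holomorphic and nonzero at `iγ`: the orders agree (`analyticOrderAt_mul`). -/
theorem LamE_order (j : ℕ) (hj : j = 0 ∨ j = 1) (γ : ℝ) :
    analyticOrderNatAt (LamE j) (γ * I) = mL (LE j) γ := by
  have hd := (LamE_basic j hj).1
  have h1 : (fun s : ℂ => LE j (1 + s)) = LamE_fac j * LamE j := by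
    funext s
    exact LamE_fac_eq j s
  unfold mL analyticOrderNatAt
  rw [h1, analyticOrderAt_mul ((LamE_fac_diff j).analyticAt _) (hd.analyticAt _)]
  have h2 : analyticOrderAt (LamE_fac j) (γ * I) = 0 :=
    ((LamE_fac_diff j).analyticAt _).analyticOrderAt_eq_zero.2 (LamE_fac_ne j _ (by simp))
  rw [h2, zero_add]

/-- Zeros of `LamE` in `Re s > 0` are zeros of `LE j` in `Re > 1`. -/
theorem LamE_zero (j : ℕ) (hj : j = 0 ∨ j = 1) (s : ℂ) (hs : 0 < s.re) (h : LamE j s = 0) :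
    LE j (1 + s) = 0 := by
  rw [LamE_fac_eq, h, mul_zero]

/-- `not_exp_type` with `a = cE j`, `κ = π kap j` (`LE_eq01`). -/
theorem LamE_not_exp (j : ℕ) (hj : j = 0 ∨ j = 1) :
    ¬ ∃ C : ℝ, ∀ s : ℂ, ‖LamE j s‖ ≤ Real.exp (C * (1 + ‖s‖)) := by
  refine not_exp_type (cE j) ?_ ?_ (Real.pi * kap j) (LamE_pk_pos j) (LamE j) ?_
  · unfold cE
    rw [eC_chi8_one, cc_one]
    simp
  · exact (euler_cE j 3 (by norm_num)).1
  · intro σ hσ
    have h1 : LE j (1 + (σ : ℂ)) = LSeries (cE j) (1 + (σ : ℂ)) := LE_eq01 j hj _ (by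
      rw [Complex.add_re, Complex.one_re, Complex.ofReal_re]
      linarith)
    have hG : Complex.Gamma (1 + (σ : ℂ)) ≠ 0 := Complex.Gamma_ne_zero_of_re_pos (by
      rw [Complex.add_re, Complex.one_re, Complex.ofReal_re]
      linarith)
    have hp : ((Real.pi * kap j : ℝ) : ℂ) ^ (1 + (σ : ℂ)) ≠ 0 := by
      rw [Ne, Complex.cpow_eq_zero_iff]
      exact fun h => LamE_pk_ne j h.1
    rw [← h1, LamE_fac_eq]
    unfold LamE_fac
    field_simp

/-- No one sided bound: otherwise `oneSided_of_data` and `coreF` (the multiplicities are symmetric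
by `LamE_order`, `order_symm`) bound the number of zeros on the line by `2 K T` and exclude zeros
with `Re > 1`; by the functional equation all zeros of `LamE j` are on the imaginary axis;
`exp_type` contradicts `LamE_not_exp`. -/
theorem no_one_sided (j : ℕ) (hj : j = 0 ∨ j = 1) (η K X : ℝ) (hη : η = 1 ∨ η = -1) (hK : 0 < K)
    (hX : 3 ≤ X)
    (h : ∀ x : ℝ, X ≤ x →
      η * (AA (alpha j) x - Real.log (Real.sqrt 2 / (LE j 1).re)) ≤ K / Real.log x) : False := by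
  obtain ⟨hd, hsym, C, hgr⟩ := LamE_basic j hj
  have hOS := oneSided_of_data (alpha j) (LE j) WW (data_inst j hj) η K X hη hK hX h
  have hms : ∀ γ : ℝ, mL (LE j) (-γ) = mL (LE j) γ := by
    intro γ
    rw [← LamE_order j hj, ← LamE_order j hj]
    have h1 := order_symm (LamE j) hd 1 (Or.inl rfl) hsym (γ * I)
    rw [← h1]
    congr 1
    push_cast
    ring
  obtain ⟨hz, hcount⟩ := coreF (alpha j) (LE j) WW (dataF_inst j hj) _ 0 η K X hOS hms
  have hpos : ∀ s : ℂ, LamE j s = 0 → ¬ 0 < s.re := by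
    intro s hs hre
    exact hz (1 + s) (by rw [Complex.add_re, Complex.one_re]; linarith) (LamE_zero j hj s hre hs)
  have hne : ∃ z, LamE j z ≠ 0 := ⟨1, fun h0 => hpos 1 h0 (by simp)⟩
  refine LamE_not_exp j hj (exp_type (LamE j) hd hne 1 (Or.inl rfl) hsym C hgr ?_ (2 * K)
    (by positivity) ?_)
  · intro s hs
    rcases lt_trichotomy s.re 0 with h1 | h1 | h1
    · exfalso
      have h2 : LamE j (-s) = 0 := by rw [hsym, hs, mul_zero]
      exact hpos (-s) h2 (by rw [Complex.neg_re]; linarith)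
    · exact h1
    · exact absurd h1 (hpos s hs)
  · intro T hT Γ hΓ
    have h1 := hcount T hT Γ hΓ
    refine le_trans (le_of_eq ?_) h1
    refine Finset.sum_congr rfl fun γ _ => ?_
    rw [LamE_order j hj]

/-- Unbounded oscillation in product form: as in `omega_PP`, with an arbitrary `K` (for `K ≤ 0` use
`|K| + 1`). -/
theorem unb_PP (j : ℕ) (hj : j = 0 ∨ j = 1) (K : ℝ) :
    (∀ X : ℝ, ∃ x : ℝ, X ≤ x ∧
      Real.sqrt 2 / (LE j 1).re * (1 + K / Real.log x) ≤ PP (alpha j) x) ∧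
    (∀ X : ℝ, ∃ x : ℝ, X ≤ x ∧
      PP (alpha j) x ≤ Real.sqrt 2 / (LE j 1).re * (1 - K / Real.log x)) := by
  have hD := data_inst j hj
  have hL1 : 0 < (LE j 1).re := by
    have := (hD.L_pos 1 le_rfl).1
    simpa using this
  set C0 : ℝ := Real.sqrt 2 / (LE j 1).re with hC0def
  have hC0 : 0 < C0 := by positivity
  have hPP : ∀ x, PP (alpha j) x = C0 * Real.exp (AA (alpha j) x - Real.log C0) := by
    intro x
    rw [PP_eq (alpha j) hD.norm_α, Real.exp_sub, Real.exp_log hC0]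
    field_simp
  have hK' : 0 < |K| + 1 := by positivity
  have hKK : K ≤ |K| + 1 := by linarith [le_abs_self K]
  constructor
  · intro X
    by_contra hcon
    push Not at hcon
    refine no_one_sided j hj 1 (|K| + 1) (max X 3) (Or.inl rfl) hK' (le_max_right _ _) ?_
    intro x hx
    have hx3 : 3 ≤ x := (le_max_right _ _).trans hx
    have hlog : 0 < Real.log x := Real.log_pos (by linarith)
    have h1 := hcon x ((le_max_left _ _).trans hx)
    rw [hPP] at h1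
    have h2 := lt_of_mul_lt_mul_left h1 hC0.le
    have h3 := Real.add_one_le_exp (K / Real.log x)
    have h4 : AA (alpha j) x - Real.log C0 < K / Real.log x := by
      rw [← Real.exp_lt_exp]
      linarith
    have h5 : K / Real.log x ≤ (|K| + 1) / Real.log x :=
      div_le_div_of_nonneg_right hKK hlog.le
    rw [one_mul]
    linarith
  · intro X
    by_contra hcon
    push Not at hcon
    refine no_one_sided j hj (-1) (2 * (|K| + 1)) (max X (max 3 (Real.exp (2 * (|K| + 1)))))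
      (Or.inr rfl) (by positivity) ((le_max_left _ _).trans (le_max_right _ _)) ?_
    intro x hx
    have hx' : max 3 (Real.exp (2 * (|K| + 1))) ≤ x := (le_max_right _ _).trans hx
    have hx3 : 3 ≤ x := (le_max_left _ _).trans hx'
    have hxc : Real.exp (2 * (|K| + 1)) ≤ x := (le_max_right _ _).trans hx'
    have hlog : 0 < Real.log x := Real.log_pos (by linarith)
    have hlogc : 2 * (|K| + 1) ≤ Real.log x := by
      rw [Real.le_log_iff_exp_le (by linarith)]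
      exact hxc
    have h1 := hcon x ((le_max_left _ _).trans hx)
    rw [hPP] at h1
    have h2 := lt_of_mul_lt_mul_left h1 hC0.le
    have hy0 : 0 ≤ 2 * (|K| + 1) / Real.log x := by positivity
    have hy1 : 2 * (|K| + 1) / Real.log x ≤ 1 := by
      rw [div_le_one hlog]
      exact hlogc
    have h3 := omega_exp_neg hy0 hy1
    have h4 : 2 * (|K| + 1) / Real.log x / 2 = (|K| + 1) / Real.log x := by ring
    have h5 : K / Real.log x ≤ (|K| + 1) / Real.log x :=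
      div_le_div_of_nonneg_right hKK hlog.le
    have h6 : -(2 * (|K| + 1) / Real.log x) < AA (alpha j) x - Real.log C0 := by
      rw [← Real.exp_lt_exp]
      rw [h4] at h3
      linarith
    linarith

/-- Final statement for the four curves, as `W3283e1.main4`. -/
theorem main4U (a : ℤ) (h : a = -1 ∨ a = 4 ∨ a = 1 ∨ a = -4) :
    ∃ L : ℂ → ℂ, Differentiable ℂ L ∧
      (∀ s : ℂ, 3 / 2 < s.re → HasProd (fun p : {p : ℕ // p.Prime ∧ p ≠ 2} =>
        (1 - ((p : ℂ) + 1 - (npts a 0 p : ℂ)) * (p : ℂ) ^ (-s) + (p : ℂ) ^ (1 - 2 * s))⁻¹)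
        (L s)) ∧
      (L 1).im = 0 ∧ 0 < (L 1).re ∧
      ∀ K : ℝ,
        (∀ X : ℝ, ∃ x : ℝ, X ≤ x ∧
          Real.sqrt 2 / (L 1).re * (1 + K / Real.log x) ≤ bsdProd a 0 x) ∧
        (∀ X : ℝ, ∃ x : ℝ, X ≤ x ∧
          bsdProd a 0 x ≤ Real.sqrt 2 / (L 1).re * (1 - K / Real.log x)) := by
  obtain ⟨j, hj, hj'⟩ : ∃ j : ℕ, (((a = -1 ∨ a = 4) ∧ j = 0) ∨ ((a = 1 ∨ a = -4) ∧ j = 1)) ∧
      (j = 0 ∨ j = 1) := by
    rcases h with h | h | h | h
    · exact ⟨0, Or.inl ⟨Or.inl h, rfl⟩, Or.inl rfl⟩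
    · exact ⟨0, Or.inl ⟨Or.inr h, rfl⟩, Or.inl rfl⟩
    · exact ⟨1, Or.inr ⟨Or.inl h, rfl⟩, Or.inr rfl⟩
    · exact ⟨1, Or.inr ⟨Or.inr h, rfl⟩, Or.inr rfl⟩
  have hD := data_inst j hj'
  have h1 := hD.L_pos 1 le_rfl
  rw [Complex.ofReal_one] at h1
  refine ⟨LE j, hD.L_diff, ?_, h1.2, h1.1, ?_⟩
  · intro s hs
    have := hD.L_prod s hs
    refine this.congr_fun ?_
    intro p
    rw [euler_factor a j hj p p.2.1 p.2.2 s]
  · intro K
    obtain ⟨hA, hB⟩ := unb_PP j hj' K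
    refine ⟨?_, ?_⟩
    · intro X
      obtain ⟨x, hx, hxx⟩ := hA X
      exact ⟨x, hx, by rw [bsdProd_eq a j hj]; exact hxx⟩
    · intro X
      obtain ⟨x, hx, hxx⟩ := hB X
      exact ⟨x, hx, by rw [bsdProd_eq a j hj]; exact hxx⟩

end W3283f
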