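import Pool.Agent.W_MP_3283e1_nt.H0

set_option autoImplicit false

namespace W3283f

open Complex W3283e1 MeasureTheory

/-- Differentiate `H0 X s = ∫_X^∞ t^{-s-1}/log t dt` under the integral sign: the derivative is
`-∫_X^∞ t^{-s-1} dt = -X^{-s}/s`.  (Or: both sides of `H0(s) - H0(s') = ∫ ...` on a segment with
Fubini.)  `hasDerivAt_integral_of_dominated_loc_of_deriv_le` on a ball of radius `Re s/2`. -/
theorem H0_hasDeriv (X : ℝ) (hX : 3 ≤ X) (s : ℂ) (hs : 0 < s.re) :
    HasDerivAt (H0 X) (-((X : ℂ) ^ (-s) / s)) s := by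
  have hX0 : 0 < X := by linarith
  have hmc : ∀ r : ℂ, Measurable fun t : ℝ => (t : ℂ) ^ r := fun r =>
    Complex.measurable_ofReal.pow_const r
  have hmu : Measurable fun t : ℝ => ((1 / Real.log t : ℝ) : ℂ) :=
    Complex.measurable_ofReal.comp H0_meas
  have key := hasDerivAt_integral_of_dominated_loc_of_deriv_le
    (μ := volume.restrict (Set.Ioi X)) (𝕜 := ℂ) (E := ℂ)
    (bound := fun t : ℝ => t ^ (-(s.re / 2 + 1)))
    (F := fun (z : ℂ) (t : ℝ) => ((1 / Real.log t : ℝ) : ℂ) * (t : ℂ) ^ (-(z + 1)))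
    (x₀ := s) (s := Metric.ball s (s.re / 2)) (Metric.ball_mem_nhds s (by linarith))
    (Filter.Eventually.of_forall fun z => (hmu.mul (hmc _)).aestronglyMeasurable)
    ?_ (F' := fun (z : ℂ) (t : ℝ) => -((t : ℂ) ^ (-(z + 1))))
    (hmc _).neg.aestronglyMeasurable ?_ ?_ ?_
  · have h := key.2
    rw [integral_neg, integral_Ioi_cpow_of_lt (by
      rw [Complex.neg_re, Complex.add_re, Complex.one_re]; linarith) hX0] at h
    have h1 : -(s + 1) + 1 = -s := by ring
    rw [h1, neg_div_neg_eq] at h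
    exact h
  · have h := (H0_integrable X hX s.re hs)
    refine Integrable.mono' h (hmu.mul (hmc _)).aestronglyMeasurable ?_
    refine (ae_restrict_iff' measurableSet_Ioi).2 (Filter.Eventually.of_forall fun t ht => ?_)
    have ht' : X < t := ht
    have h2 := H0_one_le_log (t := t) (by linarith)
    rw [norm_mul, Complex.norm_real, Real.norm_of_nonneg (by positivity),
      Complex.norm_cpow_eq_rpow_re_of_pos (by linarith)]
    apply le_of_eq
    congr 2
  · refine (ae_restrict_iff' measurableSet_Ioi).2 (Filter.Eventually.of_forall fun t ht z hz => ?_)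
    have ht' : X < t := ht
    rw [norm_neg, Complex.norm_cpow_eq_rpow_re_of_pos (by linarith)]
    apply Real.rpow_le_rpow_of_exponent_le (by linarith)
    rw [Complex.neg_re, Complex.add_re, Complex.one_re]
    have h1 : |(z - s).re| < s.re / 2 := by
      refine lt_of_le_of_lt (Complex.abs_re_le_norm _) ?_
      rw [← dist_eq_norm]
      exact hz
    rw [abs_lt, Complex.sub_re] at h1
    linarith [h1.1]
  · exact integrableOn_Ioi_rpow_of_lt (by linarith) hX0
  · refine (ae_restrict_iff' measurableSet_Ioi).2 (Filter.Eventually.of_forall fun t ht z hz => ?_)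
    have ht' : X < t := ht
    have h2 := H0_one_le_log (t := t) (by linarith)
    have ht0 : (t : ℂ) ≠ 0 := by
      rw [Complex.ofReal_ne_zero]
      linarith
    have h3 : HasDerivAt (fun z : ℂ => -(z + 1)) (-1) z := ((hasDerivAt_id z).add_const 1).neg
    have h4 := (h3.const_cpow (c := (t : ℂ)) (Or.inl ht0)).const_mul (((1 / Real.log t : ℝ) : ℂ))
    refine h4.congr_deriv ?_
    have h5 : Complex.log (t : ℂ) = ((Real.log t : ℝ) : ℂ) := (Complex.ofReal_log (by linarith)).symm
    rw [h5]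
    have h6 : ((Real.log t : ℝ) : ℂ) ≠ 0 := by
      rw [Complex.ofReal_ne_zero]
      linarith
    push_cast
    field_simp

/-- The transform of `log log t`. -/
noncomputable def H1 (X : ℝ) (s : ℂ) : ℂ :=
  ∫ t in Set.Ioi X, (Real.log (Real.log t) : ℂ) * (t : ℂ) ^ (-(s + 1))

/-- Elementary bound for `log log t`. -/
theorem loglog_bound {t ε : ℝ} (ht : 3 ≤ t) (hε : 0 < ε) :
    0 ≤ Real.log (Real.log t) ∧ Real.log (Real.log t) ≤ t ^ ε / ε := by
  have h1 := H0_one_le_log ht
  refine ⟨Real.log_nonneg h1, ?_⟩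
  have h2 : Real.log (Real.log t) ≤ Real.log t := by
    have := Real.log_le_sub_one_of_pos (show 0 < Real.log t by linarith)
    linarith
  exact h2.trans (Real.log_le_rpow_div (by linarith) hε)

theorem loglog_meas : Measurable fun t : ℝ => Real.log (Real.log t) :=
  Real.measurable_log.comp Real.measurable_log

/-- For `t ≥ 3`: `0 ≤ log log t ≤ log t ≤ t^{σ/2}/(σ/2)`, and `t^{-σ/2-1}` is integrable. -/
theorem H1_integrable (X : ℝ) (hX : 3 ≤ X) (σ : ℝ) (hσ : 0 < σ) :
    IntegrableOn (fun t : ℝ => Real.log (Real.log t) * t ^ (-(σ + 1))) (Set.Ioi X) := by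
  have h1 : IntegrableOn (fun t : ℝ => t ^ (-(σ / 2 + 1)) * (σ / 2)⁻¹) (Set.Ioi X) :=
    (integrableOn_Ioi_rpow_of_lt (by linarith) (by linarith)).mul_const _
  refine Integrable.mono' h1 ?_ ?_
  · exact (loglog_meas.mul (measurable_id.pow_const _)).aestronglyMeasurable
  · refine (ae_restrict_iff' measurableSet_Ioi).2 (Filter.Eventually.of_forall fun t ht => ?_)
    have ht' : X < t := ht
    obtain ⟨h2, h3⟩ := loglog_bound (t := t) (by linarith) (half_pos hσ)
    have h4 : 0 ≤ t ^ (-(σ + 1)) := Real.rpow_nonneg (by linarith) _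
    rw [norm_mul, Real.norm_of_nonneg h4, Real.norm_of_nonneg h2]
    calc Real.log (Real.log t) * t ^ (-(σ + 1)) ≤ t ^ (σ / 2) / (σ / 2) * t ^ (-(σ + 1)) :=
          mul_le_mul_of_nonneg_right h3 h4
      _ = (t ^ (σ / 2) * t ^ (-(σ + 1))) * (σ / 2)⁻¹ := by ring
      _ = t ^ (-(σ / 2 + 1)) * (σ / 2)⁻¹ := by
          rw [← Real.rpow_add (by linarith)]
          congr 2
          ring

/-- Integrate by parts (`MeasureTheory.integral_Ioi_mul_deriv_eq_deriv_mul`, as in `H0_bdd` of the
imported module): `s ∫_X^∞ log log t t^{-s-1} dt = log log X X^{-s} + ∫_X^∞ t^{-s-1}/log t dt`. -/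
theorem H1_eq (X : ℝ) (hX : 3 ≤ X) (s : ℂ) (hs : 0 < s.re) :
    s * H1 X s = (Real.log (Real.log X) : ℂ) * (X : ℂ) ^ (-s) + H0 X s := by
  have hX0 : 0 < X := by linarith
  have hs0 : s ≠ 0 := by
    intro h
    rw [h] at hs
    simp at hs
  have hmc : ∀ r : ℂ, Measurable fun t : ℝ => (t : ℂ) ^ r := fun r =>
    Complex.measurable_ofReal.pow_const r
  set u : ℝ → ℂ := fun t => ((Real.log (Real.log t) : ℝ) : ℂ) with hu
  set u' : ℝ → ℂ := fun t => ((t⁻¹ / Real.log t : ℝ) : ℂ) with hu'
  set v : ℝ → ℂ := fun t => -((t : ℂ) ^ (-s)) with hv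
  set v' : ℝ → ℂ := fun t => s * (t : ℂ) ^ (-(s + 1)) with hv'
  have hudeq : ∀ t : ℝ, 3 ≤ t → HasDerivAt u (u' t) t := by
    intro t ht
    have h3 := H0_one_le_log ht
    exact ((Real.hasDerivAt_log (x := t) (by linarith)).log (by linarith)).ofReal_comp
  have hvdeq : ∀ t : ℝ, 3 ≤ t → HasDerivAt v (v' t) t := by
    intro t ht
    have h1 := (hasDerivAt_ofReal_cpow_const (x := t) (by linarith) (r := -s)
      (neg_ne_zero.2 hs0)).const_mul (-s)⁻¹
    have h2 := h1.const_mul s
    have h3 : (fun y : ℝ => s * ((-s)⁻¹ * ((y : ℂ) ^ (-s)))) = v := by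
      funext y
      rw [hv, ← mul_assoc, inv_neg, mul_neg, mul_inv_cancel₀ hs0, neg_one_mul]
    have h4 : HasDerivAt (fun y : ℝ => s * ((-s)⁻¹ * ((y : ℂ) ^ (-s)))) (v' t) t := by
      refine h2.congr_deriv ?_
      have h5 : (-s) - 1 = -(s + 1) := by ring
      rw [hv']
      simp only [h5]
      field_simp
    rw [h3] at h4
    exact h4
  have hmu : Measurable u := Complex.measurable_ofReal.comp loglog_meas
  have hmu' : Measurable u' :=
    Complex.measurable_ofReal.comp (measurable_inv.div Real.measurable_log)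
  have i1 : IntegrableOn (u * v') (Set.Ioi X) := by
    have h := (H1_integrable X hX s.re hs).const_mul ‖s‖
    refine Integrable.mono' h (hmu.mul ((hmc _).const_mul _)).aestronglyMeasurable ?_
    refine (ae_restrict_iff' measurableSet_Ioi).2 (Filter.Eventually.of_forall fun t ht => ?_)
    have ht' : X < t := ht
    obtain ⟨h2, -⟩ := loglog_bound (t := t) (by linarith) one_pos
    rw [Pi.mul_apply, hu, hv', norm_mul, norm_mul, Complex.norm_real, Real.norm_of_nonneg h2,
      Complex.norm_cpow_eq_rpow_re_of_pos (by linarith), Complex.neg_re, Complex.add_re,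
      Complex.one_re]
    apply le_of_eq
    ring
  have i2 : IntegrableOn (u' * v) (Set.Ioi X) := by
    refine Integrable.mono' (H0_integrable X hX s.re hs)
      (hmu'.mul (hmc _).neg).aestronglyMeasurable ?_
    refine (ae_restrict_iff' measurableSet_Ioi).2 (Filter.Eventually.of_forall fun t ht => ?_)
    have ht' : X < t := ht
    have ht0 : 0 < t := by linarith
    have h2 := H0_one_le_log (t := t) (by linarith)
    rw [Pi.mul_apply, hu', hv, norm_mul, norm_neg, Complex.norm_real,
      Real.norm_of_nonneg (by positivity), Complex.norm_cpow_eq_rpow_re_of_pos ht0,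
      Complex.neg_re]
    apply le_of_eq
    have h3 : t ^ (-(s.re + 1)) = t ^ (-s.re) * t⁻¹ := by
      rw [← Real.rpow_neg_one t, ← Real.rpow_add ht0]
      congr 1
      ring
    rw [h3]
    ring
  have t1 : Filter.Tendsto (u * v) (nhdsWithin X (Set.Ioi X)) (nhds (u X * v X)) := by
    have h1 : ContinuousAt (u * v) X :=
      (hudeq X hX).continuousAt.mul (hvdeq X hX).continuousAt
    exact h1.tendsto.mono_left nhdsWithin_le_nhds
  have t2 : Filter.Tendsto (u * v) Filter.atTop (nhds 0) := by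
    rw [tendsto_zero_iff_norm_tendsto_zero]
    have h1 : Filter.Tendsto (fun t : ℝ => (s.re / 2)⁻¹ * t ^ (-(s.re / 2))) Filter.atTop
        (nhds 0) := by
      have := (tendsto_rpow_neg_atTop (y := s.re / 2) (by linarith)).const_mul (s.re / 2)⁻¹
      rwa [mul_zero] at this
    refine squeeze_zero' (Filter.Eventually.of_forall fun t => norm_nonneg _) ?_ h1
    filter_upwards [Filter.eventually_ge_atTop (3 : ℝ)] with t ht
    have ht0 : 0 < t := by linarith
    obtain ⟨h2, h3⟩ := loglog_bound (t := t) ht (half_pos hs)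
    rw [Pi.mul_apply, hu, hv, norm_mul, norm_neg, Complex.norm_real,
      Real.norm_of_nonneg h2, Complex.norm_cpow_eq_rpow_re_of_pos ht0, Complex.neg_re]
    calc Real.log (Real.log t) * t ^ (-s.re) ≤ t ^ (s.re / 2) / (s.re / 2) * t ^ (-s.re) :=
          mul_le_mul_of_nonneg_right h3 (Real.rpow_nonneg ht0.le _)
      _ = (s.re / 2)⁻¹ * (t ^ (s.re / 2) * t ^ (-s.re)) := by ring
      _ = (s.re / 2)⁻¹ * t ^ (-(s.re / 2)) := by
          rw [← Real.rpow_add ht0]
          congr 2
          ring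
  have key := integral_Ioi_mul_deriv_eq_deriv_mul
    (fun t ht => hudeq t (hX.trans (le_of_lt ht))) (fun t ht => hvdeq t (hX.trans (le_of_lt ht)))
    i1 i2 t1 t2
  have e1 : s * H1 X s = ∫ t in Set.Ioi X, u t * v' t := by
    rw [H1, ← integral_const_mul]
    refine setIntegral_congr_fun measurableSet_Ioi fun t _ => ?_
    simp only [hu, hv']
    ring
  have e2 : H0 X s = -∫ t in Set.Ioi X, u' t * v t := by
    rw [H0, ← integral_neg]
    refine setIntegral_congr_fun measurableSet_Ioi fun t ht => ?_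
    have ht' : X < t := ht
    have ht0 : (t : ℂ) ≠ 0 := by
      rw [Complex.ofReal_ne_zero]
      linarith
    have h3 : (t : ℂ) ^ (-(s + 1)) = (t : ℂ) ^ (-s) * (t : ℂ)⁻¹ := by
      have h4 : -(s + 1) = -s + -1 := by ring
      rw [h4, Complex.cpow_add _ _ ht0, Complex.cpow_neg_one]
    simp only [hu', hv]
    rw [h3]
    push_cast
    ring
  rw [e1, key, e2]
  simp only [hu, hv]
  ring

/-- `σ H0(σ) → 0` as `σ → 0+`, from `H0_upper`, `H0_real`: `0 ≤ H0 ≤ log(1/σ) + 1`. -/
theorem H0_mul_tendsto (X : ℝ) (hX : 3 ≤ X) :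
    Filter.Tendsto (fun σ : ℝ => (σ : ℂ) * H0 X σ) (nhdsWithin 0 (Set.Ioi 0)) (nhds 0) := by
  rw [tendsto_zero_iff_norm_tendsto_zero]
  have h1 : Filter.Tendsto (fun σ : ℝ => σ - Real.log σ * σ ^ (1 : ℝ))
      (nhdsWithin 0 (Set.Ioi 0)) (nhds 0) := by
    have h2 : Filter.Tendsto (fun σ : ℝ => σ) (nhdsWithin 0 (Set.Ioi 0)) (nhds 0) :=
      Filter.tendsto_id.mono_left nhdsWithin_le_nhds
    have := h2.sub (tendsto_log_mul_rpow_nhdsGT_zero (r := 1) one_pos)
    rwa [sub_zero] at this
  refine squeeze_zero' (Filter.Eventually.of_forall fun t => norm_nonneg _) ?_ h1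
  have hmem : Set.Ioc (0 : ℝ) 1 ∈ nhdsWithin (0 : ℝ) (Set.Ioi 0) := Ioc_mem_nhdsGT one_pos
  filter_upwards [hmem] with σ hσ
  obtain ⟨h3, h4⟩ := H0_real X hX σ
  have h5 := H0_upper X hX σ hσ.1 hσ.2
  have h6 : 0 ≤ (H0 X σ).re := by
    rw [h4]
    refine setIntegral_nonneg measurableSet_Ioi fun t ht => ?_
    have ht' : X < t := ht
    have h2 := H0_one_le_log (t := t) (by linarith)
    have : 0 ≤ t ^ (-(σ + 1)) := Real.rpow_nonneg (by linarith) _
    positivity
  have h7 : H0 X σ = ((H0 X σ).re : ℂ) := by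
    apply Complex.ext
    · simp
    · simp [h3]
  rw [norm_mul, Complex.norm_real, Real.norm_of_nonneg hσ.1.le, h7, Complex.norm_real,
    Real.norm_of_nonneg h6]
  rw [one_div, Real.log_inv] at h5
  rw [Real.rpow_one]
  have := mul_le_mul_of_nonneg_left h5 hσ.1.le
  nlinarith

/-- The function `(1 - X^{-s})/s` extends to an entire function (removable singularity at `0`), so
its derivative is bounded on the segment `0 < σ ≤ 1`, `Im s = γ`. -/
theorem E0_bdd (X : ℝ) (hX : 3 ≤ X) (γ : ℝ) :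
    ∃ C : ℝ, ∀ σ : ℝ, 0 < σ → σ ≤ 1 →
      ‖deriv (fun z : ℂ => (1 - (X : ℂ) ^ (-z)) / z) (σ + γ * I)‖ ≤ C := by
  have hX0 : (X : ℂ) ≠ 0 := by
    rw [Complex.ofReal_ne_zero]
    linarith
  set g : ℂ → ℂ := fun z => 1 - (X : ℂ) ^ (-z) with hg
  have hgd : Differentiable ℂ g := by
    intro z
    exact ((((hasDerivAt_id z).neg).const_cpow (c := (X : ℂ)) (Or.inl hX0)).const_sub
      1).differentiableAt
  have hdd : Differentiable ℂ (dslope g 0) := by
    have h := (Complex.differentiableOn_dslope (f := g) (s := Set.univ) (c := 0)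
      Filter.univ_mem).2 hgd.differentiableOn
    rwa [differentiableOn_univ] at h
  have hc : Continuous (deriv (dslope g 0)) := hdd.deriv.continuous
  have hcont : ContinuousOn (fun σ : ℝ => deriv (dslope g 0) (σ + γ * I)) (Set.Icc 0 1) := by
    refine Continuous.continuousOn ?_
    fun_prop
  obtain ⟨C, hC⟩ := isCompact_Icc.exists_bound_of_continuousOn hcont
  refine ⟨C, fun σ h0 h1 => ?_⟩
  have hne : (σ + γ * I : ℂ) ≠ 0 := by
    intro h
    have := congrArg Complex.re h
    simp at this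
    linarith
  have heq : (fun z : ℂ => (1 - (X : ℂ) ^ (-z)) / z) =ᶠ[nhds (σ + γ * I : ℂ)] dslope g 0 := by
    filter_upwards [isOpen_ne.mem_nhds hne] with z hz
    rw [dslope_of_ne g hz, slope_def_field]
    simp [hg]
  rw [heq.deriv_eq]
  exact hC σ ⟨h0.le, h1⟩

end W3283f
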