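import Pool.Agent.W_MP_3283e1_h19.MelS
import Pool.Agent.W_MP_3283e1_h19.ET2
import Pool.Agent.W_MP_3283e1_h19.SupE
import Pool.Agent.W_MP_3283e1_nt.Lfun

set_option autoImplicit false

namespace W3283f

open Complex W3283e1

/-- The entire function `∑ a_m m^{-s}`. -/
noncomputable def LG (a : ℕ → ℝ) (κ : ℝ) (s : ℂ) : ℂ :=
  ((Real.pi * κ : ℝ) : ℂ) ^ s * (Complex.Gamma s)⁻¹ * mellin (fun t => (Th a κ t : ℂ)) s

/-- The completed function, symmetric about `0`. -/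
noncomputable def LamG (a : ℕ → ℝ) (κ : ℝ) (s : ℂ) : ℂ :=
  mellin (fun t => (Th a κ t : ℂ)) (1 + s)

theorem LG_pk_pos (κ : ℝ) (hκ : 0 < κ) : 0 < Real.pi * κ := by positivity

theorem LG_pk_ne (κ : ℝ) (hκ : 0 < κ) : ((Real.pi * κ : ℝ) : ℂ) ≠ 0 := by
  exact_mod_cast (LG_pk_pos κ hκ).ne'

/-- `Complex.differentiable_one_div_Gamma` and `melS_diff`. -/
theorem LG_diff (a : ℕ → ℝ) (κ ε : ℝ) (h : ThData a κ ε) : Differentiable ℂ (LG a κ) := by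
  have h1 : Differentiable ℂ (fun s : ℂ => ((Real.pi * κ : ℝ) : ℂ) ^ s) := by
    intro s
    exact DifferentiableAt.const_cpow differentiableAt_id (Or.inl (LG_pk_ne κ h.κpos))
  exact (h1.mul Complex.differentiable_one_div_Gamma).mul (melS_diff a κ ε h)

/-- Absolute convergence of the Dirichlet series. -/
theorem LG_summable (a : ℕ → ℝ) (κ ε : ℝ) (h : ThData a κ ε) (s : ℂ) (hs : 3 / 2 < s.re) :
    LSeriesSummable (fun m => (a m : ℂ)) s := by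
  rw [LSeriesSummable, ← summable_norm_iff]
  refine (h.sum s.re hs).congr fun m => ?_
  rw [LSeries.norm_term_eq]
  by_cases hm : m = 0
  · subst hm
    rw [if_pos rfl, h.a0, abs_zero, zero_mul]
  · rw [if_neg hm, Real.rpow_neg (Nat.cast_nonneg m), Complex.norm_real, Real.norm_eq_abs,
      div_eq_mul_inv]

/-- `W3283e1.lfun_gen`. -/
theorem LG_eq (a : ℕ → ℝ) (κ ε : ℝ) (h : ThData a κ ε) (s : ℂ) (hs : 3 / 2 < s.re) :
    LSeriesSummable (fun m => (a m : ℂ)) s ∧ LG a κ s = LSeries (fun m => (a m : ℂ)) s := by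
  have hsum := LG_summable a κ ε h s hs
  refine ⟨hsum, ?_⟩
  unfold LG
  exact lfun_gen (fun m => (a m : ℂ)) (Th a κ) κ h.κpos (by simp [h.a0]) s (by linarith)
    (fun t ht => Th_hasSum a κ ε h t ht) hsum

/-- As `LamE_basic` (module `Four`): `melS_diff`, `melS_fe`, `melS_growth`. -/
theorem LamG_basic (a : ℕ → ℝ) (κ ε : ℝ) (h : ThData a κ ε) :
    Differentiable ℂ (LamG a κ) ∧ (∀ s, LamG a κ (-s) = (ε : ℂ) * LamG a κ s) ∧
      ∃ C : ℝ, ∀ s, ‖LamG a κ s‖ ≤ Real.exp (C * (1 + ‖s‖) ^ (3 / 2 : ℝ)) := by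
  refine ⟨?_, ?_, ?_⟩
  · exact (melS_diff a κ ε h).comp (differentiable_id.const_add 1)
  · intro s
    have h1 := melS_fe a κ ε h (1 + s)
    unfold LamG
    rw [← h1]
    congr 1
    ring
  · obtain ⟨C, hC⟩ := melS_growth a κ ε h
    refine ⟨|C| * 2 ^ (3 / 2 : ℝ), fun s => (hC (1 + s)).trans (Real.exp_le_exp.2 ?_)⟩
    have h1 : ‖(1 : ℂ) + s‖ ≤ 1 + ‖s‖ := by
      refine (norm_add_le _ _).trans ?_
      rw [norm_one]
    have h2 : (1 + ‖(1 : ℂ) + s‖) ^ (3 / 2 : ℝ) ≤ (2 * (1 + ‖s‖)) ^ (3 / 2 : ℝ) :=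
      Real.rpow_le_rpow (by positivity) (by linarith [norm_nonneg s]) (by norm_num)
    rw [Real.mul_rpow (by norm_num) (by positivity)] at h2
    have h3 : 0 ≤ (1 + ‖(1 : ℂ) + s‖) ^ (3 / 2 : ℝ) := by positivity
    calc C * (1 + ‖(1 : ℂ) + s‖) ^ (3 / 2 : ℝ)
        ≤ |C| * (1 + ‖(1 : ℂ) + s‖) ^ (3 / 2 : ℝ) :=
          mul_le_mul_of_nonneg_right (le_abs_self C) h3
      _ ≤ |C| * (2 ^ (3 / 2 : ℝ) * (1 + ‖s‖) ^ (3 / 2 : ℝ)) :=
          mul_le_mul_of_nonneg_left h2 (abs_nonneg C)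
      _ = |C| * 2 ^ (3 / 2 : ℝ) * (1 + ‖s‖) ^ (3 / 2 : ℝ) := by ring

/-- The factor between `LG a κ (1 + s)` and `LamG a κ s`. -/
noncomputable def LamG_fac (κ : ℝ) (s : ℂ) : ℂ :=
  ((Real.pi * κ : ℝ) : ℂ) ^ (1 + s) * (Complex.Gamma (1 + s))⁻¹

theorem LamG_fac_eq (a : ℕ → ℝ) (κ : ℝ) (s : ℂ) :
    LG a κ (1 + s) = LamG_fac κ s * LamG a κ s := rfl

theorem LamG_fac_diff (κ : ℝ) (hκ : 0 < κ) : Differentiable ℂ (LamG_fac κ) := by
  have h1 : Differentiable ℂ (fun s : ℂ => ((Real.pi * κ : ℝ) : ℂ) ^ (1 + s)) := by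
    intro s
    exact (differentiableAt_id.const_add 1).const_cpow (Or.inl (LG_pk_ne κ hκ))
  exact h1.mul (Complex.differentiable_one_div_Gamma.comp (differentiable_id.const_add 1))

theorem LamG_fac_ne (κ : ℝ) (hκ : 0 < κ) (s : ℂ) (hs : -1 < s.re) : LamG_fac κ s ≠ 0 := by
  unfold LamG_fac
  refine mul_ne_zero ?_ (inv_ne_zero (Complex.Gamma_ne_zero_of_re_pos ?_))
  · rw [Ne, Complex.cpow_eq_zero_iff]
    exact fun h => LG_pk_ne κ hκ h.1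
  · rw [Complex.add_re, Complex.one_re]
    linarith

/-- The factor `(πκ)^{1+s} Γ(1+s)⁻¹` is holomorphic and nonzero on `Re s > -1`
(`analyticOrderAt_mul`, `AnalyticAt.analyticOrderAt_eq_zero`). -/
theorem LamG_order (a : ℕ → ℝ) (κ ε : ℝ) (h : ThData a κ ε) (z : ℂ) (hz : -1 < z.re) :
    analyticOrderNatAt (LamG a κ) z = analyticOrderNatAt (fun s : ℂ => LG a κ (1 + s)) z := by
  have hd := (LamG_basic a κ ε h).1
  have h1 : (fun s : ℂ => LG a κ (1 + s)) = LamG_fac κ * LamG a κ := by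
    funext s
    exact LamG_fac_eq a κ s
  unfold analyticOrderNatAt
  rw [h1, analyticOrderAt_mul ((LamG_fac_diff κ h.κpos).analyticAt _) (hd.analyticAt _)]
  have h2 : analyticOrderAt (LamG_fac κ) z = 0 :=
    ((LamG_fac_diff κ h.κpos).analyticAt _).analyticOrderAt_eq_zero.2 (LamG_fac_ne κ h.κpos _ hz)
  rw [h2, zero_add]

theorem LamG_zero (a : ℕ → ℝ) (κ ε : ℝ) (h : ThData a κ ε) (s : ℂ) (hs : -1 < s.re)
    (h0 : LamG a κ s = 0) : LG a κ (1 + s) = 0 := by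
  rw [LamG_fac_eq, h0, mul_zero]

/-- `not_exp_type` with `κ` replaced by `π κ` (`LG_eq`, `a1`). -/
theorem LamG_not_exp (a : ℕ → ℝ) (κ ε : ℝ) (h : ThData a κ ε) :
    ¬ ∃ C : ℝ, ∀ s : ℂ, ‖LamG a κ s‖ ≤ Real.exp (C * (1 + ‖s‖)) := by
  refine not_exp_type (fun m => (a m : ℂ)) (by simp [h.a1])
    (LG_summable a κ ε h 3 (by norm_num)) (Real.pi * κ) (LG_pk_pos κ h.κpos) (LamG a κ) ?_
  intro σ hσ
  have h1 : LG a κ (1 + (σ : ℂ)) = LSeries (fun m => (a m : ℂ)) (1 + (σ : ℂ)) :=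
    (LG_eq a κ ε h _ (by
      rw [Complex.add_re, Complex.one_re, Complex.ofReal_re]
      linarith)).2
  have hG : Complex.Gamma (1 + (σ : ℂ)) ≠ 0 := Complex.Gamma_ne_zero_of_re_pos (by
    rw [Complex.add_re, Complex.one_re, Complex.ofReal_re]
    linarith)
  have hp : ((Real.pi * κ : ℝ) : ℂ) ^ (1 + (σ : ℂ)) ≠ 0 := by
    rw [Ne, Complex.cpow_eq_zero_iff]
    exact fun h' => LG_pk_ne κ h.κpos h'.1
  rw [← h1, LamG_fac_eq]
  unfold LamG_fac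
  field_simp

end W3283f
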