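import Mathlib

set_option autoImplicit false

namespace W3283f

open Filter Topology

/-- Logarithmic derivative near a point: write `f z = (z - z0)^m g z` with `g z0 ≠ 0`
(`AnalyticAt.analyticOrderAt_ne_top`), `m = analyticOrderNatAt f z0`; on a punctured neighbourhood
`f'/f = m/(z - z0) + g'/g` and `h = deriv g / g` is analytic at `z0`. -/
theorem logD_local (f : ℂ → ℂ) (z0 : ℂ) (hf : AnalyticAt ℂ f z0)
    (hne : analyticOrderAt f z0 ≠ ⊤) :
    ∃ h : ℂ → ℂ, AnalyticAt ℂ h z0 ∧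
      ∀ᶠ z in 𝓝[≠] z0, deriv f z / f z = (analyticOrderNatAt f z0 : ℂ) / (z - z0) + h z := by
  obtain ⟨g, hg, hg0, hfg⟩ := hf.analyticOrderAt_ne_top.mp hne
  set m := analyticOrderNatAt f z0 with hm
  refine ⟨fun z => deriv g z / g z, hg.deriv.div hg hg0, ?_⟩
  have h1 : ∀ᶠ z in 𝓝 z0, ∀ᶠ w in 𝓝 z, f w = (w - z0) ^ m • g w :=
    eventually_eventually_nhds.mpr hfg
  have h2 : ∀ᶠ z in 𝓝 z0, g z ≠ 0 := hg.continuousAt.eventually_ne hg0
  have h3 : ∀ᶠ z in 𝓝 z0, AnalyticAt ℂ g z := hg.eventually_analyticAt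
  have h4 : ∀ᶠ z in 𝓝[≠] z0, z ≠ z0 := eventually_mem_nhdsWithin
  filter_upwards [h4, nhdsWithin_le_nhds h1, nhdsWithin_le_nhds h2, nhdsWithin_le_nhds h3]
    with z hz hfz hgz haz
  have hsub : z - z0 ≠ 0 := sub_ne_zero.mpr hz
  have hval : f z = (z - z0) ^ m * g z := by
    have := hfz.self_of_nhds
    simpa using this
  have hder : deriv f z = (m : ℂ) * (z - z0) ^ (m - 1) * g z + (z - z0) ^ m * deriv g z := by
    have he : f =ᶠ[𝓝 z] fun w => (w - z0) ^ m * g w := by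
      filter_upwards [hfz] with w hw
      simpa using hw
    rw [he.deriv_eq]
    have hd1 : HasDerivAt (fun w : ℂ => (w - z0) ^ m) ((m : ℂ) * (z - z0) ^ (m - 1)) z := by
      simpa using ((hasDerivAt_id z).sub_const z0).fun_pow m
    exact (hd1.mul haz.differentiableAt.hasDerivAt).deriv
  rw [hval, hder]
  have hpow : (z - z0) ^ m ≠ 0 := pow_ne_zero _ hsub
  rcases Nat.eq_zero_or_pos m with h0 | hpos
  · simp [h0]
  · have hp : (z - z0) ^ m = (z - z0) ^ (m - 1) * (z - z0) := by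
      rw [← pow_succ, Nat.sub_add_cancel hpos]
    have hpow' : (z - z0) ^ (m - 1) ≠ 0 := pow_ne_zero _ hsub
    rw [hp]
    field_simp

/-- A function holomorphic on the half plane `Re s > c` and not zero at one point of it has finite
order at every point of it (identity theorem). -/
theorem logD_finite (f : ℂ → ℂ) (c : ℝ) (hf : DifferentiableOn ℂ f {s : ℂ | c < s.re})
    (z1 : ℂ) (hz1 : c < z1.re) (h1 : f z1 ≠ 0) (z0 : ℂ) (hz0 : c < z0.re) :
    AnalyticAt ℂ f z0 ∧ analyticOrderAt f z0 ≠ ⊤ := by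
  have hopen : IsOpen {s : ℂ | c < s.re} := isOpen_lt continuous_const Complex.continuous_re
  have han : AnalyticOnNhd ℂ f {s : ℂ | c < s.re} := hf.analyticOnNhd hopen
  refine ⟨han z0 hz0, ?_⟩
  intro htop
  have hev : ∀ᶠ z in 𝓝 z0, f z = 0 := analyticOrderAt_eq_top.mp htop
  have hpre : IsPreconnected {s : ℂ | c < s.re} := (convex_halfSpace_re_gt c).isPreconnected
  have := han.eqOn_zero_of_preconnected_of_eventuallyEq_zero hpre hz0 hev
  exact h1 (this hz1)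

/-- Finiteness of the zeros on a vertical segment (compactness and isolated zeros). -/
theorem logD_fin_zeros (f : ℂ → ℂ) (c : ℝ) (hf : DifferentiableOn ℂ f {s : ℂ | c < s.re})
    (z1 : ℂ) (hz1 : c < z1.re) (h1 : f z1 ≠ 0) (σ : ℝ) (hσ : c < σ) (T : ℝ) :
    {γ : ℝ | |γ| ≤ T ∧ f (σ + γ * Complex.I) = 0}.Finite := by
  by_contra hinf
  have hinf' : {γ : ℝ | |γ| ≤ T ∧ f (σ + γ * Complex.I) = 0}.Infinite := hinf
  have hsub : {γ : ℝ | |γ| ≤ T ∧ f (σ + γ * Complex.I) = 0} ⊆ Set.Icc (-T) T := by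
    intro γ hγ
    exact abs_le.mp hγ.1
  obtain ⟨γ0, -, hacc⟩ := hinf'.exists_accPt_of_subset_isCompact isCompact_Icc hsub
  have hre : ((σ : ℂ) + (γ0 : ℂ) * Complex.I).re = σ := by simp
  obtain ⟨han, hord⟩ := logD_finite f c hf z1 hz1 h1 ((σ : ℂ) + (γ0 : ℂ) * Complex.I)
    (by rw [hre]; exact hσ)
  apply hord
  rw [analyticOrderAt_eq_top]
  refine han.frequently_zero_iff_eventually_zero.mp ?_
  have hfr : ∃ᶠ γ in 𝓝[≠] γ0, |γ| ≤ T ∧ f (σ + γ * Complex.I) = 0 :=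
    accPt_iff_frequently_nhdsNE.mp hacc
  have hcont : Continuous (fun γ : ℝ => (σ : ℂ) + (γ : ℂ) * Complex.I) := by fun_prop
  have htend : Tendsto (fun γ : ℝ => (σ : ℂ) + (γ : ℂ) * Complex.I) (𝓝[≠] γ0)
      (𝓝[≠] ((σ : ℂ) + (γ0 : ℂ) * Complex.I)) := by
    refine tendsto_nhdsWithin_iff.mpr ⟨(hcont.tendsto γ0).mono_left nhdsWithin_le_nhds, ?_⟩
    filter_upwards [eventually_mem_nhdsWithin] with γ hγ
    intro h
    apply hγ
    have h2 := congrArg Complex.im h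
    simpa using h2
  exact htend.frequently (hfr.mono fun γ hγ => hγ.2)

end W3283f
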