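import Pool.Agent.W_MP_3283e1_h19.QSer
import Pool.Agent.W_MP_3283e1_nt.MelB

set_option autoImplicit false

namespace W3283f

open Complex W3283e1 MeasureTheory

/-- a positive self-dual majorant of `|Th|`. -/
noncomputable def melSH (a : ℕ → ℝ) (κ t : ℝ) : ℝ := |Th a κ t| + t⁻¹ * Real.exp (-(t + t⁻¹))

theorem melSH_dual (a : ℕ → ℝ) (κ ε : ℝ) (h : ThData a κ ε) : SelfDual (melSH a κ) 2 where
  cont := by
    unfold melSH
    have h1 : ContinuousOn (fun t : ℝ => t⁻¹) (Set.Ioi 0) :=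
      continuousOn_inv₀.mono fun t ht => ne_of_gt ht
    have h2 : ContinuousOn (fun t : ℝ => Real.exp (-(t + t⁻¹))) (Set.Ioi 0) :=
      Real.continuous_exp.comp_continuousOn ((continuousOn_id.add h1).neg)
    exact (Th_cont a κ ε h).abs.add (h1.mul h2)
  pos := by
    intro t ht
    unfold melSH
    have h1 : 0 < t⁻¹ * Real.exp (-(t + t⁻¹)) := by positivity
    have h2 := abs_nonneg (Th a κ t)
    linarith
  inv := by
    intro t ht
    have h0 : t ≠ 0 := ht.ne'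
    have h1 : |ε| = 1 := by rcases h.eps with h | h <;> simp [h]
    have h2 : t ^ (2 : ℝ) = t ^ 2 := by exact_mod_cast Real.rpow_natCast t 2
    unfold melSH
    rw [h.inv t ht, abs_mul, abs_mul, h1, one_mul, abs_of_nonneg (by positivity : (0 : ℝ) ≤ t ^ 2),
      h2, one_div, inv_inv, add_comm t⁻¹ t]
    have h3 : t = t ^ 2 * t⁻¹ := by field_simp
    rw [mul_add, ← mul_assoc (t ^ 2) t⁻¹, ← h3]
  decay := by
    obtain ⟨C, hC, hd⟩ := Th_decay a κ ε h
    have hk : 0 < Real.pi * κ := mul_pos Real.pi_pos h.κpos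
    refine ⟨C + 1, min (Real.pi * κ) 1, lt_min hk one_pos, fun t ht => ?_⟩
    unfold melSH
    have h1 := hd t ht
    have h2 : Real.exp (-(Real.pi * κ) * t) ≤ Real.exp (-(min (Real.pi * κ) 1) * t) := by
      refine Real.exp_le_exp.2 ?_
      have := mul_le_mul_of_nonneg_right (min_le_left (Real.pi * κ) 1) (by linarith : (0 : ℝ) ≤ t)
      linarith
    have h3 : Real.exp (-(t + t⁻¹)) ≤ Real.exp (-(min (Real.pi * κ) 1) * t) := by
      refine Real.exp_le_exp.2 ?_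
      have h4 := mul_le_mul_of_nonneg_right (min_le_right (Real.pi * κ) 1)
        (by linarith : (0 : ℝ) ≤ t)
      have h5 : 0 < t⁻¹ := by positivity
      linarith
    have h4 : t⁻¹ ≤ 1 := inv_le_one_of_one_le₀ ht
    have h5 : t⁻¹ * Real.exp (-(t + t⁻¹)) ≤ 1 * Real.exp (-(min (Real.pi * κ) 1) * t) :=
      mul_le_mul h4 h3 (Real.exp_pos _).le zero_le_one
    have h6 := mul_le_mul_of_nonneg_left h2 hC
    linarith

theorem melSH_ge (a : ℕ → ℝ) (κ ε : ℝ) (h : ThData a κ ε) (t : ℝ) (ht : 0 < t) :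
    |Th a κ t| ≤ melSH a κ t := by
  unfold melSH
  have h1 : 0 < t⁻¹ * Real.exp (-(t + t⁻¹)) := by positivity
  linarith

theorem melS_locInt (a : ℕ → ℝ) (κ ε : ℝ) (h : ThData a κ ε) :
    LocallyIntegrableOn (fun t => (Th a κ t : ℂ)) (Set.Ioi 0) :=
  (Complex.continuous_ofReal.comp_continuousOn (Th_cont a κ ε h)).locallyIntegrableOn
    measurableSet_Ioi

theorem melS_top (a : ℕ → ℝ) (κ ε : ℝ) (h : ThData a κ ε) (b : ℝ) :
    (fun t => (Th a κ t : ℂ)) =O[Filter.atTop] (fun t : ℝ => t ^ (-b)) := by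
  refine Asymptotics.IsBigO.trans ?_ (melA_top (melSH a κ) 2 (melSH_dual a κ ε h) b)
  apply Asymptotics.IsBigO.of_bound 1
  filter_upwards [Filter.eventually_gt_atTop 0] with t ht
  rw [one_mul, Complex.norm_real, Real.norm_eq_abs, Real.norm_eq_abs]
  exact (melSH_ge a κ ε h t ht).trans (le_abs_self _)

theorem melS_bot (a : ℕ → ℝ) (κ ε : ℝ) (h : ThData a κ ε) (b : ℝ) :
    (fun t => (Th a κ t : ℂ)) =O[nhdsWithin 0 (Set.Ioi 0)] (fun t : ℝ => t ^ (-b)) := by
  refine Asymptotics.IsBigO.trans ?_ (melA_bot (melSH a κ) 2 (melSH_dual a κ ε h) b)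
  apply Asymptotics.IsBigO.of_bound 1
  filter_upwards [self_mem_nhdsWithin] with t ht
  rw [one_mul, Complex.norm_real, Real.norm_eq_abs, Real.norm_eq_abs]
  exact (melSH_ge a κ ε h t ht).trans (le_abs_self _)

/-- The Mellin transform converges everywhere (decay at `∞` by `Th_decay`, at `0` by `inv`); the
proofs of `W3283e1.mellin_conv`, `mellin_diff`, `mellin_fe`, `mellin_growth` (modules `MelA`, `MelB`
of part one, for a positive function) adapt word for word, with `|Th|` in the estimates. -/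
theorem melS_conv (a : ℕ → ℝ) (κ ε : ℝ) (h : ThData a κ ε) (s : ℂ) :
    MellinConvergent (fun t => (Th a κ t : ℂ)) s :=
  mellinConvergent_of_isBigO_rpow (melS_locInt a κ ε h) (melS_top a κ ε h (s.re + 1))
    (by linarith) (melS_bot a κ ε h (s.re - 1)) (by linarith)

theorem melS_diff (a : ℕ → ℝ) (κ ε : ℝ) (h : ThData a κ ε) :
    Differentiable ℂ (mellin (fun t => (Th a κ t : ℂ))) := fun s =>
  mellin_differentiableAt_of_isBigO_rpow (melS_locInt a κ ε h) (melS_top a κ ε h (s.re + 1))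
    (by linarith) (melS_bot a κ ε h (s.re - 1)) (by linarith)

theorem melS_fe (a : ℕ → ℝ) (κ ε : ℝ) (h : ThData a κ ε) (s : ℂ) :
    mellin (fun t => (Th a κ t : ℂ)) (2 - s) = ε * mellin (fun t => (Th a κ t : ℂ)) s := by
  have h1 := mellin_comp_inv (fun t => (Th a κ t : ℂ)) (s - 2)
  rw [neg_sub] at h1
  rw [← h1]
  have h2 := mellin_cpow_smul (fun t => (Th a κ t : ℂ)) (s - 2) (2 : ℂ)
  rw [sub_add_cancel] at h2
  rw [← h2]
  unfold mellin
  rw [← integral_const_mul]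
  apply setIntegral_congr_fun measurableSet_Ioi
  intro t ht
  have ht' : 0 < t := ht
  have h3 := h.inv t ht'
  rw [one_div] at h3
  have h4 : (t : ℂ) ^ (2 : ℂ) = (t : ℂ) ^ 2 := by
    have := Complex.cpow_natCast (t : ℂ) 2
    exact_mod_cast this
  simp only [smul_eq_mul]
  rw [h3, h4]
  push_cast
  ring

theorem melS_growth (a : ℕ → ℝ) (κ ε : ℝ) (h : ThData a κ ε) :
    ∃ C : ℝ, ∀ s : ℂ, ‖mellin (fun t => (Th a κ t : ℂ)) s‖ ≤
      Real.exp (C * (1 + ‖s‖) ^ (3 / 2 : ℝ)) := by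
  have hH := melSH_dual a κ ε h
  obtain ⟨C, hC⟩ := mellin_growth (melSH a κ) 2 hH
  refine ⟨|C|, fun s => ?_⟩
  have h1 : ‖mellin (fun t => (Th a κ t : ℂ)) s‖ ≤
      ∫ t in Set.Ioi (0 : ℝ), t ^ (s.re - 1) * melSH a κ t := by
    unfold mellin
    refine (norm_integral_le_integral_norm _).trans ?_
    have hint := melA_integrable (melSH a κ) 2 hH s.re
    have hint2 : IntegrableOn (fun t : ℝ => ‖(t : ℂ) ^ (s - 1) • (Th a κ t : ℂ)‖)
        (Set.Ioi 0) := (melS_conv a κ ε h s).norm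
    refine setIntegral_mono_on hint2 hint measurableSet_Ioi ?_
    intro t ht
    have ht' : 0 < t := ht
    rw [norm_smul, norm_cpow_eq_rpow_re_of_pos ht', Complex.norm_real, Real.norm_eq_abs]
    have h2 : (s - 1).re = s.re - 1 := by simp
    rw [h2]
    exact mul_le_mul_of_nonneg_left (melSH_ge a κ ε h t ht') (Real.rpow_nonneg ht'.le _)
  have h2 : ∫ t in Set.Ioi (0 : ℝ), t ^ (s.re - 1) * melSH a κ t ≤
      ‖mellin (fun t => (melSH a κ t : ℂ)) (s.re : ℂ)‖ := by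
    rw [melA_real, Complex.norm_real, Real.norm_eq_abs]
    exact le_abs_self _
  have h3 := hC (s.re : ℂ)
  rw [Complex.norm_real, Real.norm_eq_abs] at h3
  refine h1.trans (h2.trans (h3.trans (Real.exp_le_exp.2 ?_)))
  have h4 : |s.re| ≤ ‖s‖ := abs_re_le_norm s
  have h5 : (1 + |s.re|) ^ (3 / 2 : ℝ) ≤ (1 + ‖s‖) ^ (3 / 2 : ℝ) :=
    Real.rpow_le_rpow (by positivity) (by linarith) (by norm_num)
  have h6 : 0 ≤ (1 + |s.re|) ^ (3 / 2 : ℝ) := Real.rpow_nonneg (by positivity) _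
  calc C * (1 + |s.re|) ^ (3 / 2 : ℝ) ≤ |C| * (1 + |s.re|) ^ (3 / 2 : ℝ) :=
        mul_le_mul_of_nonneg_right (le_abs_self C) h6
    _ ≤ |C| * (1 + ‖s‖) ^ (3 / 2 : ℝ) := mul_le_mul_of_nonneg_left h5 (abs_nonneg C)

end W3283f
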