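import Mathlib

set_option autoImplicit false

namespace W3283f

open Complex Filter Topology MeasureTheory

/-- A positive definite function on the discrete group of the real numbers. -/
def PDef (res : ℝ → ℂ) : Prop :=
  ∀ (ι : Type) (S : Finset ι) (c : ι → ℂ) (l : ι → ℝ),
    0 ≤ (∑ i ∈ S, ∑ j ∈ S, c i * (starRingEnd ℂ) (c j) * res (l i - l j)).re

/-- The length of the intersection of two intervals. -/
theorem pd1_overlap (T : ℝ) (hT : 0 < T) (a b : ℝ) :
    ∫ x, (Set.Icc a (a + T)).indicator (fun _ => (1 : ℝ)) x *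
      (Set.Icc b (b + T)).indicator (fun _ => (1 : ℝ)) x = T * max (1 - |a - b| / T) 0 := by
  have h1 : (fun x => (Set.Icc a (a + T)).indicator (fun _ => (1 : ℝ)) x *
      (Set.Icc b (b + T)).indicator (fun _ => (1 : ℝ)) x) =
      (Set.Icc (max a b) (min (a + T) (b + T))).indicator (fun _ => (1 : ℝ)) := by
    funext x
    have h := Set.inter_indicator_mul (s := Set.Icc a (a + T)) (t := Set.Icc b (b + T))
      (fun _ : ℝ => (1 : ℝ)) (fun _ => 1) x
    rw [← Set.Icc_inter_Icc, ← h]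
    simp
  rw [h1, integral_indicator measurableSet_Icc, setIntegral_const, smul_eq_mul, mul_one,
    Real.volume_real_Icc]
  have h2 : min (a + T) (b + T) - max a b = T - |a - b| := by
    rcases le_total a b with h | h
    · rw [min_eq_left (by linarith), max_eq_right h, abs_of_nonpos (by linarith)]
      ring
    · rw [min_eq_right (by linarith), max_eq_left h, abs_of_nonneg (by linarith)]
      ring
  rw [h2, mul_max_of_nonneg _ _ hT.le, mul_zero]
  congr 1
  field_simp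

theorem pd1_integrable (T a b : ℝ) : Integrable (fun x : ℝ =>
    (Set.Icc a (a + T)).indicator (fun _ => (1 : ℝ)) x *
      (Set.Icc b (b + T)).indicator (fun _ => (1 : ℝ)) x) := by
  have h1 : (fun x => (Set.Icc a (a + T)).indicator (fun _ => (1 : ℝ)) x *
      (Set.Icc b (b + T)).indicator (fun _ => (1 : ℝ)) x) =
      (Set.Icc (max a b) (min (a + T) (b + T))).indicator (fun _ => (1 : ℝ)) := by
    funext x
    have h := Set.inter_indicator_mul (s := Set.Icc a (a + T)) (t := Set.Icc b (b + T))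
      (fun _ : ℝ => (1 : ℝ)) (fun _ => 1) x
    rw [← Set.Icc_inter_Icc, ← h]
    simp
  rw [h1, integrable_indicator_iff measurableSet_Icc]
  exact integrableOn_const (by simp)

/-- Multiplication by the triangle function `φ(x) = max (1 - |x|/T) 0` preserves positive
definiteness: `T φ(a - b)` is the length of `[a, a+T] ∩ [b, b+T]`, so
`T ∑ c_i conj(c_j) φ(l_i - l_j) res(l_i - l_j) = ∫ (∑ c_i(x) conj(c_j(x)) res(l_i - l_j)) dx`
with `c_i(x) = c_i` if `l_i ≤ x ≤ l_i + T` and `0` otherwise. -/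
theorem PDef.tri {res : ℝ → ℂ} (h : PDef res) (T : ℝ) (hT : 0 < T) :
    PDef (fun x => ((max (1 - |x| / T) 0 : ℝ) : ℂ) * res x) := by
  intro ι S c l
  obtain ⟨e, he⟩ : ∃ e : ι → ℝ → ℝ, ∀ i x, e i x =
    (Set.Icc (l i) (l i + T)).indicator (fun _ => (1 : ℝ)) x := ⟨_, fun _ _ => rfl⟩
  -- the integrand
  have h1 : ∀ x : ℝ, 0 ≤ ∑ i ∈ S, ∑ j ∈ S,
      (e i x * e j x) * (c i * (starRingEnd ℂ) (c j) * res (l i - l j)).re := by
    intro x
    have h2 := h ι S (fun i => ((e i x : ℝ) : ℂ) * c i) l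
    have h3 : (∑ i ∈ S, ∑ j ∈ S, ((e i x : ℝ) : ℂ) * c i *
        (starRingEnd ℂ) (((e j x : ℝ) : ℂ) * c j) * res (l i - l j)).re =
        ∑ i ∈ S, ∑ j ∈ S, (e i x * e j x) *
          (c i * (starRingEnd ℂ) (c j) * res (l i - l j)).re := by
      rw [Complex.re_sum]
      refine Finset.sum_congr rfl fun i _ => ?_
      rw [Complex.re_sum]
      refine Finset.sum_congr rfl fun j _ => ?_
      rw [← Complex.re_ofReal_mul]
      congr 1
      rw [map_mul, Complex.conj_ofReal]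
      push_cast
      ring
    rw [← h3]
    exact h2
  have hint : ∀ i j, Integrable (fun x : ℝ => e i x * e j x) := by
    intro i j
    simp only [he]
    exact pd1_integrable T (l i) (l j)
  have h4 : 0 ≤ ∫ x : ℝ, ∑ i ∈ S, ∑ j ∈ S,
      (e i x * e j x) * (c i * (starRingEnd ℂ) (c j) * res (l i - l j)).re :=
    integral_nonneg fun x => h1 x
  rw [integral_finsetSum _ fun i _ => integrable_finsetSum _ fun j _ =>
    (hint i j).mul_const _] at h4
  have h5 : ∀ i ∈ S, ∫ x, ∑ j ∈ S, (e i x * e j x) *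
      (c i * (starRingEnd ℂ) (c j) * res (l i - l j)).re =
      ∑ j ∈ S, (T * max (1 - |l i - l j| / T) 0) *
        (c i * (starRingEnd ℂ) (c j) * res (l i - l j)).re := by
    intro i _
    rw [integral_finsetSum _ fun j _ => (hint i j).mul_const _]
    refine Finset.sum_congr rfl fun j _ => ?_
    rw [integral_mul_const]
    congr 1
    simp only [he]
    exact pd1_overlap T hT (l i) (l j)
  rw [Finset.sum_congr rfl h5] at h4
  have h6 : (∑ i ∈ S, ∑ j ∈ S, c i * (starRingEnd ℂ) (c j) *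
      (((max (1 - |l i - l j| / T) 0 : ℝ) : ℂ) * res (l i - l j))).re =
      T⁻¹ * ∑ i ∈ S, ∑ j ∈ S, (T * max (1 - |l i - l j| / T) 0) *
        (c i * (starRingEnd ℂ) (c j) * res (l i - l j)).re := by
    rw [Complex.re_sum, Finset.mul_sum]
    refine Finset.sum_congr rfl fun i _ => ?_
    rw [Complex.re_sum, Finset.mul_sum]
    refine Finset.sum_congr rfl fun j _ => ?_
    have h7 : T⁻¹ * (T * max (1 - |l i - l j| / T) 0 *
        (c i * (starRingEnd ℂ) (c j) * res (l i - l j)).re) =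
        max (1 - |l i - l j| / T) 0 * (c i * (starRingEnd ℂ) (c j) * res (l i - l j)).re := by
      rw [mul_assoc, ← mul_assoc T⁻¹, inv_mul_cancel₀ hT.ne', one_mul]
    rw [h7, ← Complex.re_ofReal_mul]
    congr 1
    ring
  rw [h6]
  exact mul_nonneg (inv_nonneg.2 hT.le) h4

/-- Multiplication by a character preserves positive definiteness: replace `c_i` by
`c_i exp(i u l_i)`. -/
theorem PDef.char {res : ℝ → ℂ} (h : PDef res) (u : ℝ) :
    PDef (fun x => Complex.exp (I * u * x) * res x) := by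
  intro ι S c l
  have h1 := h ι S (fun i => c i * Complex.exp (I * u * l i)) l
  have h2 : ∀ i ∈ S, ∀ j ∈ S, c i * (starRingEnd ℂ) (c j) *
      (Complex.exp (I * u * ((l i - l j : ℝ) : ℂ)) * res (l i - l j)) =
      c i * Complex.exp (I * u * l i) *
        (starRingEnd ℂ) (c j * Complex.exp (I * u * l j)) * res (l i - l j) := by
    intro i _ j _
    rw [map_mul, ← Complex.exp_conj, map_mul, map_mul, Complex.conj_I, Complex.conj_ofReal,
      Complex.conj_ofReal]
    have h3 : Complex.exp (I * u * ((l i - l j : ℝ) : ℂ)) =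
        Complex.exp (I * u * l i) * Complex.exp (-I * u * l j) := by
      rw [← Complex.exp_add]
      congr 1
      push_cast
      ring
    rw [h3]
    ring
  rw [Finset.sum_congr rfl fun i hi => Finset.sum_congr rfl fun j hj => h2 i hi j hj]
  exact h1

/-! ### Finite sets with small boundary -/

/-- The box of size `N`. -/
noncomputable def pd1Box (Γ : Finset ℝ) (N : ℕ) : Finset ℝ :=
  (Fintype.piFinset fun _ : Γ => Finset.range N).image fun n => ∑ γ : Γ, (n γ : ℝ) * (γ : ℝ)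

theorem pd1_mem {Γ : Finset ℝ} {N : ℕ} {x : ℝ} : x ∈ pd1Box Γ N ↔
    ∃ n : Γ → ℕ, (∀ γ, n γ < N) ∧ ∑ γ : Γ, (n γ : ℝ) * (γ : ℝ) = x := by
  unfold pd1Box
  simp [Fintype.mem_piFinset]

theorem pd1_mono {Γ : Finset ℝ} {N : ℕ} : pd1Box Γ N ⊆ pd1Box Γ (N + 1) := by
  intro x hx
  obtain ⟨n, h1, h2⟩ := pd1_mem.1 hx
  exact pd1_mem.2 ⟨n, fun γ => (h1 γ).trans (Nat.lt_succ_self N), h2⟩

theorem pd1_add {Γ : Finset ℝ} {N : ℕ} {x g : ℝ} (hx : x ∈ pd1Box Γ N) (hg : g ∈ Γ) :
    x + g ∈ pd1Box Γ (N + 1) := by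
  classical
  obtain ⟨n, h1, h2⟩ := pd1_mem.1 hx
  refine pd1_mem.2 ⟨fun γ => n γ + if γ = ⟨g, hg⟩ then 1 else 0, fun γ => ?_, ?_⟩
  · have := h1 γ
    show n γ + (if γ = ⟨g, hg⟩ then 1 else 0) < N + 1
    split_ifs <;> omega
  · have h3 : ∀ γ : Γ, ((n γ + if γ = ⟨g, hg⟩ then 1 else 0 : ℕ) : ℝ) * (γ : ℝ) =
        (n γ : ℝ) * (γ : ℝ) + if γ = ⟨g, hg⟩ then (γ : ℝ) else 0 := by
      intro γ
      split_ifs
      · push_cast
        ring
      · push_cast
        ring
    rw [Finset.sum_congr rfl fun γ _ => h3 γ, Finset.sum_add_distrib, h2]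
    congr 1
    simp

theorem pd1_card (Γ : Finset ℝ) (N : ℕ) : (pd1Box Γ N).card ≤ N ^ Γ.card := by
  refine Finset.card_image_le.trans ?_
  simp

theorem pd1_one (Γ : Finset ℝ) : 1 ≤ (pd1Box Γ 1).card := by
  rw [Finset.one_le_card]
  exact ⟨0, pd1_mem.2 ⟨fun _ => 0, fun _ => Nat.zero_lt_one, by simp⟩⟩

/-- Some box has a small boundary. -/
theorem pd1_small (Γ : Finset ℝ) {ε : ℝ} (hε : 0 < ε) : ∃ N : ℕ, 1 ≤ (pd1Box Γ N).card ∧
    ((pd1Box Γ (N + 1)).card : ℝ) ≤ (1 + ε) * (pd1Box Γ N).card := by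
  by_contra hcon
  push Not at hcon
  have h1 : ∀ N : ℕ, (1 + ε) ^ N ≤ ((pd1Box Γ (N + 1)).card : ℝ) ∧
      1 ≤ (pd1Box Γ (N + 1)).card := by
    intro N
    induction N with
    | zero =>
      refine ⟨?_, pd1_one Γ⟩
      rw [pow_zero]
      exact_mod_cast pd1_one Γ
    | succ N ih =>
      refine ⟨?_, ih.2.trans (Finset.card_le_card pd1_mono)⟩
      have h2 := hcon (N + 1) ih.2
      have h3 : (1 + ε) * (1 + ε) ^ N ≤ (1 + ε) * ((pd1Box Γ (N + 1)).card : ℝ) :=
        mul_le_mul_of_nonneg_left ih.1 (by linarith)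
      rw [pow_succ']
      linarith
  have h2 : Tendsto (fun n : ℕ => ((n : ℝ)) ^ Γ.card / (1 + ε) ^ n) atTop (𝓝 0) :=
    tendsto_pow_const_div_const_pow_of_one_lt Γ.card (by linarith)
  have h3 : ∀ᶠ n : ℕ in atTop, ((n : ℝ)) ^ Γ.card / (1 + ε) ^ n < 1 / (1 + ε) :=
    h2.eventually (gt_mem_nhds (by positivity))
  obtain ⟨n0, hn0⟩ := eventually_atTop.1 h3
  have h4 := hn0 (n0 + 1) (Nat.le_succ n0)
  have h5 := (h1 n0).1
  have h6 : ((pd1Box Γ (n0 + 1)).card : ℝ) ≤ ((n0 + 1 : ℕ) : ℝ) ^ Γ.card := by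
    exact_mod_cast pd1_card Γ (n0 + 1)
  have h7 : (0 : ℝ) < (1 + ε) ^ (n0 + 1) := by positivity
  rw [div_lt_div_iff₀ h7 (by linarith)] at h4
  rw [pow_succ] at h4
  have h8 : (1 + ε) ^ n0 * (1 + ε) ≤ ((n0 + 1 : ℕ) : ℝ) ^ Γ.card * (1 + ε) :=
    mul_le_mul_of_nonneg_right (h5.trans h6) (by linarith)
  linarith

open Classical in
/-- The number of translates by `x` in `F`. -/
noncomputable def pd1Cnt (F : Finset ℝ) (x : ℝ) : ℕ := (F.filter fun b => b + x ∈ F).card

theorem pd1_cnt_le (F : Finset ℝ) (x : ℝ) : pd1Cnt F x ≤ F.card := Finset.card_filter_le _ _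

theorem pd1_cnt_ge (Γ : Finset ℝ) {x : ℝ} (hx : x ∈ Γ) (N : ℕ) :
    2 * (pd1Box Γ N).card ≤ pd1Cnt (pd1Box Γ N) x + (pd1Box Γ (N + 1)).card := by
  classical
  have h1 : ((pd1Box Γ N).filter fun b => ¬ (b + x ∈ pd1Box Γ N)).card ≤
      (pd1Box Γ (N + 1) \ pd1Box Γ N).card := by
    refine Finset.card_le_card_of_injOn (fun b => b + x) ?_ ?_
    · intro b hb
      have hb' := Finset.mem_filter.1 (Finset.mem_coe.1 hb)
      exact Finset.mem_coe.2 (Finset.mem_sdiff.2 ⟨pd1_add hb'.1 hx, hb'.2⟩)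
    · intro b _ b' _ h
      exact add_right_cancel h
  have h2 := Finset.card_filter_add_card_filter_not (s := pd1Box Γ N)
    (fun b => b + x ∈ pd1Box Γ N)
  have h3 := Finset.card_sdiff_add_card_eq_card (pd1_mono (Γ := Γ) (N := N))
  have h4 : pd1Cnt (pd1Box Γ N) x = ((pd1Box Γ N).filter fun b => b + x ∈ pd1Box Γ N).card := by
    unfold pd1Cnt
    congr
  omega

/-- The double sum over a finite set. -/
theorem pd1_sum {res : ℝ → ℂ} (Γ : Finset ℝ) (hΓ : ∀ x, res x ≠ 0 → x ∈ Γ) (F : Finset ℝ) :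
    ∑ a ∈ F, ∑ b ∈ F, res (a - b) = ∑ x ∈ Γ, (pd1Cnt F x : ℂ) * res x := by
  classical
  have h1 : ∀ a b : ℝ, res (a - b) = ∑ x ∈ Γ, if a = b + x then res x else 0 := by
    intro a b
    have h2 : ∀ x ∈ Γ, (if a = b + x then res x else 0) = if x = a - b then res x else 0 := by
      intro x _
      by_cases h3 : a = b + x
      · rw [if_pos h3, if_pos (by linarith)]
      · rw [if_neg h3, if_neg (fun h4 => h3 (by linarith))]
    rw [Finset.sum_congr rfl h2, Finset.sum_ite_eq']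
    split_ifs with h3
    · rfl
    · by_contra h4
      exact h3 (hΓ _ h4)
  have h2 : ∑ a ∈ F, ∑ b ∈ F, res (a - b) =
      ∑ x ∈ Γ, ∑ b ∈ F, ∑ a ∈ F, if a = b + x then res x else 0 := by
    rw [Finset.sum_comm]
    simp only [h1]
    rw [Finset.sum_comm]
    calc ∑ a ∈ F, ∑ b ∈ F, ∑ x ∈ Γ, (if a = b + x then res x else 0)
        = ∑ a ∈ F, ∑ x ∈ Γ, ∑ b ∈ F, (if a = b + x then res x else 0) :=
          Finset.sum_congr rfl fun a _ => Finset.sum_comm
      _ = ∑ x ∈ Γ, ∑ a ∈ F, ∑ b ∈ F, (if a = b + x then res x else 0) := Finset.sum_comm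
      _ = ∑ x ∈ Γ, ∑ b ∈ F, ∑ a ∈ F, (if a = b + x then res x else 0) :=
          Finset.sum_congr rfl fun x _ => Finset.sum_comm
  rw [h2]
  refine Finset.sum_congr rfl fun x _ => ?_
  have h3 : ∀ b ∈ F, (∑ a ∈ F, if a = b + x then res x else 0) =
      if b + x ∈ F then res x else 0 := by
    intro b _
    rw [Finset.sum_ite_eq']
  rw [Finset.sum_congr rfl h3, ← Finset.sum_filter, Finset.sum_const, nsmul_eq_mul]
  unfold pd1Cnt
  congr

/-- The sum of the values of a positive definite function of finite support is nonnegative.  Let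
`F` be a box `{∑ n_γ γ : 0 ≤ n_γ < N}` with small boundary (it exists since the number of elements
of the boxes grows polynomially).  Apply positive definiteness to the points of `F`: the number of
pairs with difference `x` in `Γ` is at least `(1 - ε) |F|`. -/
theorem PDef.sum_nonneg {res : ℝ → ℂ} (h : PDef res) (Γ : Finset ℝ)
    (hΓ : ∀ x, res x ≠ 0 → x ∈ Γ) : 0 ≤ (∑ x ∈ Γ, res x).re := by
  have key : ∀ ε > (0 : ℝ), -(ε * ∑ x ∈ Γ, ‖res x‖) ≤ (∑ x ∈ Γ, res x).re := by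
    intro ε hε
    obtain ⟨N, hN, hN2⟩ := pd1_small Γ hε
    obtain ⟨F, hF⟩ : ∃ F, F = pd1Box Γ N := ⟨_, rfl⟩
    have hge : ∀ x ∈ Γ, (1 - ε) * (F.card : ℝ) ≤ (pd1Cnt F x : ℝ) := by
      intro x hx
      have h1 := pd1_cnt_ge Γ hx N
      have h2 : 2 * ((pd1Box Γ N).card : ℝ) ≤
          (pd1Cnt (pd1Box Γ N) x : ℝ) + ((pd1Box Γ (N + 1)).card : ℝ) := by
        exact_mod_cast h1
      rw [hF]
      linarith
    have hpos : (0 : ℝ) < F.card := by
      rw [hF]
      exact_mod_cast hN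
    have h1 := h ℝ F (fun _ => 1) (fun x => x)
    have h2 : ∑ a ∈ F, ∑ b ∈ F, (1 : ℂ) * (starRingEnd ℂ) 1 * res (a - b) =
        ∑ x ∈ Γ, (pd1Cnt F x : ℂ) * res x := by
      rw [← pd1_sum Γ hΓ F]
      simp
    rw [h2, Complex.re_sum] at h1
    have h3 : ∀ x ∈ Γ, ((pd1Cnt F x : ℂ) * res x).re ≤
        (F.card : ℝ) * ((res x).re + ε * ‖res x‖) := by
      intro x hx
      have h4 : ((pd1Cnt F x : ℂ) * res x).re = (pd1Cnt F x : ℝ) * (res x).re := by
        have h5 : (pd1Cnt F x : ℂ) = ((pd1Cnt F x : ℝ) : ℂ) := by push_cast; rfl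
        rw [h5, Complex.re_ofReal_mul]
      rw [h4]
      have h6 : (pd1Cnt F x : ℝ) ≤ F.card := by exact_mod_cast pd1_cnt_le F x
      have h7 := hge x hx
      have h8 := Complex.abs_re_le_norm (res x)
      have h9 := neg_abs_le (res x).re
      have h10 : ((F.card : ℝ) - pd1Cnt F x) * (-(res x).re) ≤
          ((F.card : ℝ) - pd1Cnt F x) * ‖res x‖ :=
        mul_le_mul_of_nonneg_left (by linarith) (by linarith)
      have h11 : ((F.card : ℝ) - pd1Cnt F x) * ‖res x‖ ≤ (ε * F.card) * ‖res x‖ :=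
        mul_le_mul_of_nonneg_right (by linarith) (norm_nonneg _)
      linarith
    have h4 := h1.trans (Finset.sum_le_sum h3)
    rw [← Finset.mul_sum] at h4
    have h5 : 0 ≤ ∑ x ∈ Γ, ((res x).re + ε * ‖res x‖) := by
      by_contra h6
      have h7 := mul_neg_of_pos_of_neg hpos (not_le.1 h6)
      linarith
    rw [Finset.sum_add_distrib, ← Finset.mul_sum] at h5
    rw [Complex.re_sum]
    linarith
  by_contra hneg
  have hneg := not_le.1 hneg
  obtain ⟨M, hM⟩ : ∃ M, M = ∑ x ∈ Γ, ‖res x‖ := ⟨_, rfl⟩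
  have hM0 : 0 ≤ M := by
    rw [hM]
    exact Finset.sum_nonneg fun x _ => norm_nonneg _
  obtain ⟨r, hr⟩ : ∃ r, r = (∑ x ∈ Γ, res x).re := ⟨_, rfl⟩
  rw [← hr] at hneg key
  rw [← hM] at key
  have h1 := key (-r / (2 * (M + 1))) (by
    apply div_pos
    · linarith
    · linarith)
  have h2 : -r / (2 * (M + 1)) * M ≤ -r / 2 := by
    rw [div_mul_eq_mul_div, div_le_div_iff₀ (by linarith) (by norm_num)]
    nlinarith
  linarith

/-- Combination of the three lemmas: `sum_nonneg` for the positive definite function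
`exp(iux) φ(x) res(x)`, which vanishes for `|x| ≥ T` and outside `Γ`. -/
theorem pd_trig {res : ℝ → ℂ} (h : PDef res) (T : ℝ) (hT : 0 < T) (Γ : Finset ℝ)
    (hΓ : ∀ x, |x| < T → res x ≠ 0 → x ∈ Γ) (u : ℝ) :
    0 ≤ (∑ x ∈ Γ, Complex.exp (I * u * x) * (((max (1 - |x| / T) 0 : ℝ) : ℂ) * res x)).re := by
  refine PDef.sum_nonneg ((h.tri T hT).char u) Γ ?_
  intro x hx
  have h1 : ((max (1 - |x| / T) 0 : ℝ) : ℂ) * res x ≠ 0 := right_ne_zero_of_mul hx
  refine hΓ x ?_ (right_ne_zero_of_mul h1)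
  by_contra h2
  apply left_ne_zero_of_mul h1
  have h3 : 1 ≤ |x| / T := by
    rw [le_div_iff₀ hT]
    linarith [not_lt.1 h2]
  rw [max_eq_right (by linarith)]
  simp

end W3283f
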