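import Mathlib

set_option autoImplicit false

namespace W3283f

open Complex

/-- The shifted Gaussian lattice term. -/
noncomputable def gT (a b u : ℝ) (z : ℤ × ℤ) : ℂ :=
  ((((z.1 : ℝ) + a : ℝ) : ℂ) + (((z.2 : ℝ) + b : ℝ) : ℂ) * I) *
    ((Real.exp (-Real.pi * (((z.1 : ℝ) + a) ^ 2 + ((z.2 : ℝ) + b) ^ 2) * u) : ℝ) : ℂ)

/-- The modulated Gaussian lattice term. -/
noncomputable def gM (a b u : ℝ) (z : ℤ × ℤ) : ℂ :=
  ((z.1 : ℂ) + (z.2 : ℂ) * I) * Complex.exp (2 * Real.pi * I * (a * z.1 + b * z.2)) *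
    ((Real.exp (-Real.pi * ((z.1 : ℝ) ^ 2 + (z.2 : ℝ) ^ 2) * u) : ℝ) : ℂ)

theorem p1_prod {f g : ℤ → ℂ} {A B : ℂ} (hf : HasSum f A) (hg : HasSum g B) :
    HasSum (fun z : ℤ × ℤ => f z.1 * g z.2) (A * B) :=
  hf.mul hg (summable_mul_of_summable_norm hf.summable.norm hg.summable.norm)

theorem gT_hasSum (a b u : ℝ) (hu : 0 < u) :
    HasSum (gT a b u) ((HurwitzZeta.oddKernel (a : UnitAddCircle) u : ℂ) *
      (HurwitzZeta.evenKernel (b : UnitAddCircle) u : ℂ) +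
      I * ((HurwitzZeta.evenKernel (a : UnitAddCircle) u : ℂ) *
      (HurwitzZeta.oddKernel (b : UnitAddCircle) u : ℂ))) := by
  have oa := hasSum_ofReal.2 (HurwitzZeta.hasSum_int_oddKernel a hu)
  have ob := hasSum_ofReal.2 (HurwitzZeta.hasSum_int_oddKernel b hu)
  have ea := hasSum_ofReal.2 (HurwitzZeta.hasSum_int_evenKernel a hu)
  have eb := hasSum_ofReal.2 (HurwitzZeta.hasSum_int_evenKernel b hu)
  refine ((p1_prod oa eb).add ((p1_prod ea ob).mul_left I)).congr_fun fun z => ?_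
  have h : Real.exp (-Real.pi * (((z.1 : ℝ) + a) ^ 2 + ((z.2 : ℝ) + b) ^ 2) * u) =
      Real.exp (-Real.pi * ((z.1 : ℝ) + a) ^ 2 * u) *
        Real.exp (-Real.pi * ((z.2 : ℝ) + b) ^ 2 * u) := by
    rw [← Real.exp_add]
    ring_nf
  unfold gT
  rw [h]
  push_cast
  ring

theorem gM_hasSum (a b u : ℝ) (hu : 0 < u) :
    HasSum (gM a b u) (I * ((HurwitzZeta.sinKernel (a : UnitAddCircle) u : ℂ) *
      (HurwitzZeta.cosKernel (b : UnitAddCircle) u : ℂ) +
      I * ((HurwitzZeta.cosKernel (a : UnitAddCircle) u : ℂ) *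
      (HurwitzZeta.sinKernel (b : UnitAddCircle) u : ℂ)))) := by
  have sa := HurwitzZeta.hasSum_int_sinKernel a hu
  have sb := HurwitzZeta.hasSum_int_sinKernel b hu
  have ca := HurwitzZeta.hasSum_int_cosKernel a hu
  have cb := HurwitzZeta.hasSum_int_cosKernel b hu
  refine (((p1_prod sa cb).add ((p1_prod ca sb).mul_left I)).mul_left I).congr_fun fun z => ?_
  have h : Real.exp (-Real.pi * ((z.1 : ℝ) ^ 2 + (z.2 : ℝ) ^ 2) * u) =
      Real.exp (-Real.pi * (z.1 : ℝ) ^ 2 * u) * Real.exp (-Real.pi * (z.2 : ℝ) ^ 2 * u) := by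
    rw [← Real.exp_add]
    ring_nf
  have h' : Complex.exp (2 * Real.pi * I * (a * z.1 + b * z.2)) =
      Complex.exp (2 * Real.pi * I * a * z.1) * Complex.exp (2 * Real.pi * I * b * z.2) := by
    rw [← Complex.exp_add]
    ring_nf
  unfold gM
  rw [h, h']
  push_cast
  linear_combination ((z.1 : ℂ) + (z.2 : ℂ) * I) * (cexp (2 * Real.pi * I * a * z.1) *
    cexp (2 * Real.pi * I * b * z.2)) * (cexp (-Real.pi * (z.1 : ℂ) ^ 2 * u) *
    cexp (-Real.pi * (z.2 : ℂ) ^ 2 * u)) * I_sq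

/-- Summability of `(n + n') e^{-π(...)}` over the plane lattice. -/
theorem gT_summable (a b u : ℝ) (hu : 0 < u) : Summable (gT a b u) :=
  (gT_hasSum a b u hu).summable

theorem gM_summable (a b u : ℝ) (hu : 0 < u) : Summable (gM a b u) :=
  (gM_hasSum a b u hu).summable

/-- Poisson summation in two variables from the one variable kernels of Mathlib:
`∑ ((n+a) + i(n'+b)) e^{-π((n+a)² + (n'+b)²)u}` is
`oddKernel a u * evenKernel b u + i evenKernel a u * oddKernel b u`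
(`HurwitzZeta.hasSum_int_oddKernel`, `hasSum_int_evenKernel`, products of summable series), the
functional equations `oddKernel_functional_equation`, `evenKernel_functional_equation` give
`u^{-2} (sinKernel a (1/u) cosKernel b (1/u) + i cosKernel a (1/u) sinKernel b (1/u))`, and
`hasSum_int_sinKernel` (terms `-i n e^{2πian} e^{-πn²t}`), `hasSum_int_cosKernel` give the right
side. -/
theorem poi_shift (a b u : ℝ) (hu : 0 < u) :
    ∑' z : ℤ × ℤ, gT a b u z = -I * ((u ^ 2 : ℝ) : ℂ)⁻¹ * ∑' z : ℤ × ℤ, gM a b (1 / u) z := by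
  rw [(gT_hasSum a b u hu).tsum_eq, (gM_hasSum a b (1 / u) (by positivity)).tsum_eq,
    HurwitzZeta.oddKernel_functional_equation, HurwitzZeta.oddKernel_functional_equation,
    HurwitzZeta.evenKernel_functional_equation, HurwitzZeta.evenKernel_functional_equation]
  have h : (1 / u ^ (3 / 2 : ℝ)) * (1 / u ^ (1 / 2 : ℝ)) = (u ^ 2)⁻¹ := by
    rw [div_mul_div_comm, one_mul, ← Real.rpow_add hu]
    norm_num
  have h' : ((1 / u ^ (3 / 2 : ℝ) : ℝ) : ℂ) * ((1 / u ^ (1 / 2 : ℝ) : ℝ) : ℂ) =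
      ((u ^ 2 : ℝ) : ℂ)⁻¹ := by
    rw [← ofReal_mul, h, ofReal_inv]
  rw [← h']
  rw [ofReal_mul, ofReal_mul, ofReal_mul, ofReal_mul]
  linear_combination (((1 / u ^ (3 / 2 : ℝ) : ℝ) : ℂ) * ((1 / u ^ (1 / 2 : ℝ) : ℝ) : ℂ)) *
    ((HurwitzZeta.sinKernel (a : UnitAddCircle) (1 / u) : ℂ) *
      (HurwitzZeta.cosKernel (b : UnitAddCircle) (1 / u) : ℂ) +
      I * ((HurwitzZeta.cosKernel (a : UnitAddCircle) (1 / u) : ℂ) *
      (HurwitzZeta.sinKernel (b : UnitAddCircle) (1 / u) : ℂ))) * I_sq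

end W3283f
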