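import Pool.Agent.W_MP_3283e1_h19.Poi1

set_option autoImplicit false

namespace W3283f

open Complex

/-- The finite Fourier transform of a function of period `M` in both variables. -/
noncomputable def FT (M : ℕ) (f : ℤ → ℤ → ℂ) (a b : ℤ) : ℂ :=
  ∑ x ∈ Finset.range M, ∑ y ∈ Finset.range M,
    f x y * Complex.exp (2 * Real.pi * I * ((a * x + b * y : ℤ) : ℂ) / M)

/-- The theta series `∑ f(A,B) (A + Bi) e^{-π(A²+B²)t/M}`. -/
noncomputable def Psi (M : ℕ) (f : ℤ → ℤ → ℂ) (t : ℝ) : ℂ :=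
  ∑' z : ℤ × ℤ, f z.1 z.2 * ((z.1 : ℂ) + (z.2 : ℂ) * I) *
    ((Real.exp (-Real.pi * ((z.1 : ℝ) ^ 2 + (z.2 : ℝ) ^ 2) * t / M) : ℝ) : ℂ)

/-- Periodicity in both variables. -/
def Per (M : ℕ) (f : ℤ → ℤ → ℂ) : Prop :=
  ∀ x y : ℤ, f (x + M) y = f x y ∧ f x (y + M) = f x y

theorem per_mul (M : ℕ) (f : ℤ → ℤ → ℂ) (hf : Per M f) (n n' x y : ℤ) :
    f (n * M + x) (n' * M + y) = f x y := by
  have h1 : ∀ (n x y : ℤ), f (n * M + x) y = f x y := by
    intro n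
    induction n using Int.induction_on with
    | zero => intro x y; rw [zero_mul, zero_add]
    | succ k ih =>
      intro x y
      have := (hf (k * M + x) y).1
      rw [show ((k : ℤ) + 1) * M + x = (k : ℤ) * M + x + M by ring, this, ih]
    | pred k ih =>
      intro x y
      have := (hf ((-(k : ℤ) - 1) * M + x) y).1
      rw [← this, show (-(k : ℤ) - 1) * M + x + M = -(k : ℤ) * M + x by ring, ih]
  have h2 : ∀ (n x y : ℤ), f x (n * M + y) = f x y := by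
    intro n
    induction n using Int.induction_on with
    | zero => intro x y; rw [zero_mul, zero_add]
    | succ k ih =>
      intro x y
      have := (hf x (k * M + y)).2
      rw [show ((k : ℤ) + 1) * M + y = (k : ℤ) * M + y + M by ring, this, ih]
    | pred k ih =>
      intro x y
      have := (hf x ((-(k : ℤ) - 1) * M + y)).2
      rw [← this, show (-(k : ℤ) - 1) * M + y + M = -(k : ℤ) * M + y by ring, ih]
  rw [h1, h2]

/-- A periodic function is bounded, so the series converges absolutely (`gM_summable` with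
`a = b = 0`). -/
theorem Psi_summable (M : ℕ) (hM : 0 < M) (f : ℤ → ℤ → ℂ) (hf : Per M f) (t : ℝ) (ht : 0 < t) :
    Summable (fun z : ℤ × ℤ => f z.1 z.2 * ((z.1 : ℂ) + (z.2 : ℂ) * I) *
      ((Real.exp (-Real.pi * ((z.1 : ℝ) ^ 2 + (z.2 : ℝ) ^ 2) * t / M) : ℝ) : ℂ)) := by
  have hM' : (0 : ℝ) < M := by exact_mod_cast hM
  have h1 := (gM_summable 0 0 (t / M) (by positivity)).norm.mul_left
    (∑ x ∈ Finset.range M, ∑ y ∈ Finset.range M, ‖f x y‖)
  refine Summable.of_norm_bounded h1 ?_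
  intro z
  have hb : ‖f z.1 z.2‖ ≤ ∑ x ∈ Finset.range M, ∑ y ∈ Finset.range M, ‖f x y‖ := by
    have hMz : (M : ℤ) ≠ 0 := by exact_mod_cast hM.ne'
    have hMp : (0 : ℤ) < M := by exact_mod_cast hM
    obtain ⟨x, hx⟩ := Int.eq_ofNat_of_zero_le (Int.emod_nonneg z.1 hMz)
    obtain ⟨y, hy⟩ := Int.eq_ofNat_of_zero_le (Int.emod_nonneg z.2 hMz)
    have hxM : x < M := by
      have := Int.emod_lt_of_pos z.1 hMp
      omega
    have hyM : y < M := by
      have := Int.emod_lt_of_pos z.2 hMp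
      omega
    have e1 : f z.1 z.2 = f x y := by
      have h2 := per_mul M f hf (z.1 / M) (z.2 / M) (z.1 % M) (z.2 % M)
      rw [show z.1 / (M : ℤ) * M + z.1 % M = z.1 by
          rw [mul_comm]; exact Int.mul_ediv_add_emod z.1 M,
        show z.2 / (M : ℤ) * M + z.2 % M = z.2 by
          rw [mul_comm]; exact Int.mul_ediv_add_emod z.2 M, hx, hy] at h2
      exact h2
    rw [e1]
    calc ‖f x y‖ ≤ ∑ y ∈ Finset.range M, ‖f x y‖ :=
          Finset.single_le_sum (f := fun y : ℕ => ‖f x y‖) (fun _ _ => norm_nonneg _)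
            (Finset.mem_range.2 hyM)
      _ ≤ ∑ x ∈ Finset.range M, ∑ y ∈ Finset.range M, ‖f x y‖ :=
          Finset.single_le_sum (f := fun x : ℕ => ∑ y ∈ Finset.range M, ‖f x y‖)
            (fun _ _ => Finset.sum_nonneg fun _ _ => norm_nonneg _) (Finset.mem_range.2 hxM)
  have e2 : gM 0 0 (t / M) z = ((z.1 : ℂ) + (z.2 : ℂ) * I) *
      ((Real.exp (-Real.pi * ((z.1 : ℝ) ^ 2 + (z.2 : ℝ) ^ 2) * t / M) : ℝ) : ℂ) := by
    unfold gM
    rw [show (2 * Real.pi * I * (((0 : ℝ) : ℂ) * z.1 + ((0 : ℝ) : ℂ) * z.2) : ℂ) = 0 by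
        simp, Complex.exp_zero, mul_one,
      show -Real.pi * ((z.1 : ℝ) ^ 2 + (z.2 : ℝ) ^ 2) * (t / M) =
        -Real.pi * ((z.1 : ℝ) ^ 2 + (z.2 : ℝ) ^ 2) * t / M by ring]
  rw [e2, mul_assoc, norm_mul]
  exact mul_le_mul_of_nonneg_right hb (norm_nonneg _)

/-- the bijection between the plane lattice and the product of the lattice with the classes. -/
def clsEquiv (M : ℕ) [NeZero M] : (Fin M × Fin M) × (ℤ × ℤ) ≃ ℤ × ℤ :=
  ((Equiv.prodProdProdComm (Fin M) (Fin M) ℤ ℤ).trans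
    ((Equiv.prodComm (Fin M) ℤ).prodCongr (Equiv.prodComm (Fin M) ℤ))).trans
    ((Int.divModEquiv M).symm.prodCongr (Int.divModEquiv M).symm)

theorem clsEquiv_apply (M : ℕ) [NeZero M] (p : (Fin M × Fin M) × (ℤ × ℤ)) :
    clsEquiv M p = (p.2.1 * M + (p.1.1.val : ℤ), p.2.2 * M + (p.1.2.val : ℤ)) := rfl

/-- Split the lattice into residue classes: `(A,B) = (M n + x, M n' + y)`, `0 ≤ x, y < M`
(bijection `ℤ × ℤ ≃ (ℤ × ℤ) × (range M × range M)`); the class of `(x,y)` contributes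
`f x y · M · ∑ gT (x/M) (y/M) (M t')` with `t' = t`, precisely the exponent is
`π M² ((n + x/M)² + (n' + y/M)²) t/M = π (...) (M t)`. -/
theorem Psi_classes (M : ℕ) (hM : 0 < M) (f : ℤ → ℤ → ℂ) (hf : Per M f) (t : ℝ) (ht : 0 < t) :
    Psi M f t = ∑ x ∈ Finset.range M, ∑ y ∈ Finset.range M,
      f x y * (M * ∑' z : ℤ × ℤ, gT ((x : ℝ) / M) ((y : ℝ) / M) (M * t) z) := by
  have hNe : NeZero M := ⟨hM.ne'⟩
  have hM' : (0 : ℝ) < M := by exact_mod_cast hM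
  have hMc : (M : ℂ) ≠ 0 := by exact_mod_cast hM.ne'
  have hs := Psi_summable M hM f hf t ht
  unfold Psi
  rw [← (clsEquiv M).tsum_eq]
  refine (((clsEquiv M).summable_iff.2 hs).tsum_prod).trans ?_
  rw [tsum_fintype, Fintype.sum_prod_type]
  have key : ∀ x y : ℕ, (∑' z : ℤ × ℤ, f (z.1 * M + x) (z.2 * M + y) *
      (((z.1 * M + x : ℤ) : ℂ) + ((z.2 * M + y : ℤ) : ℂ) * I) *
      ((Real.exp (-Real.pi * (((z.1 * M + x : ℤ) : ℝ) ^ 2 + ((z.2 * M + y : ℤ) : ℝ) ^ 2) * t / M) :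
        ℝ) : ℂ)) =
      f x y * (M * ∑' z : ℤ × ℤ, gT ((x : ℝ) / M) ((y : ℝ) / M) (M * t) z) := by
    intro x y
    rw [← tsum_mul_left, ← tsum_mul_left]
    refine tsum_congr fun z => ?_
    rw [per_mul M f hf, mul_assoc]
    congr 1
    unfold gT
    have e1 : -Real.pi * (((z.1 * M + x : ℤ) : ℝ) ^ 2 + ((z.2 * M + y : ℤ) : ℝ) ^ 2) * t / M =
        -Real.pi * (((z.1 : ℝ) + (x : ℝ) / M) ^ 2 + ((z.2 : ℝ) + (y : ℝ) / M) ^ 2) * (M * t) := by
      push_cast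
      field_simp
    have e2 : (((z.1 * M + x : ℤ) : ℂ) + ((z.2 * M + y : ℤ) : ℂ) * I) =
        M * ((((z.1 : ℝ) + (x : ℝ) / M : ℝ) : ℂ) + (((z.2 : ℝ) + (y : ℝ) / M : ℝ) : ℂ) * I) := by
      push_cast
      field_simp
    rw [e1, e2, mul_assoc]
  have h1 : ∀ x y : Fin M, (∑' z : ℤ × ℤ, f ((clsEquiv M ((x, y), z)).1)
      ((clsEquiv M ((x, y), z)).2) *
      ((((clsEquiv M ((x, y), z)).1 : ℤ) : ℂ) + (((clsEquiv M ((x, y), z)).2 : ℤ) : ℂ) * I) *
      ((Real.exp (-Real.pi * ((((clsEquiv M ((x, y), z)).1 : ℤ) : ℝ) ^ 2 +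
        (((clsEquiv M ((x, y), z)).2 : ℤ) : ℝ) ^ 2) * t / M) : ℝ) : ℂ)) =
      f (x.val : ℤ) (y.val : ℤ) *
        (M * ∑' z : ℤ × ℤ, gT ((x.val : ℝ) / M) ((y.val : ℝ) / M) (M * t) z) :=
    fun x y => key x.val y.val
  refine (Finset.sum_congr rfl fun x _ => Finset.sum_congr rfl fun y _ => h1 x y).trans ?_
  rw [← Fin.sum_univ_eq_sum_range (fun x : ℕ => ∑ y ∈ Finset.range M,
      f x y * (M * ∑' z : ℤ × ℤ, gT ((x : ℝ) / M) ((y : ℝ) / M) (M * t) z))]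
  refine Finset.sum_congr rfl fun x _ => ?_
  rw [← Fin.sum_univ_eq_sum_range (fun y : ℕ =>
      f x.val y * (M * ∑' z : ℤ × ℤ, gT ((x.val : ℝ) / M) ((y : ℝ) / M) (M * t) z))]

/-- `poi_shift` in every class: `M (M/t)^{-2} = t²/M`, and
`∑_{x,y} f x y gM (x/M) (y/M) (t/M) z = FT M f z.1 z.2 (z.1 + z.2 i) e^{-π|z|²t/M}`; interchange the
finite sums with the series (`gM_summable`). -/
theorem Psi_inv (M : ℕ) (hM : 0 < M) (f : ℤ → ℤ → ℂ) (hf : Per M f) (t : ℝ) (ht : 0 < t) :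
    Psi M f (1 / t) = -I * ((t ^ 2 / M : ℝ) : ℂ) * Psi M (FT M f) t := by
  have hM' : (0 : ℝ) < M := by exact_mod_cast hM
  have hMc : (M : ℂ) ≠ 0 := by exact_mod_cast hM.ne'
  have htc : (t : ℂ) ≠ 0 := by exact_mod_cast ht.ne'
  have hu : 0 < t / M := by positivity
  have hR : Psi M (FT M f) t = ∑ x ∈ Finset.range M, ∑ y ∈ Finset.range M,
      f x y * ∑' z : ℤ × ℤ, gM ((x : ℝ) / M) ((y : ℝ) / M) (t / M) z := by
    have hs : ∀ x y : ℕ, Summable fun z : ℤ × ℤ =>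
        f x y * gM ((x : ℝ) / M) ((y : ℝ) / M) (t / M) z := fun x y =>
      (gM_summable _ _ _ hu).mul_left _
    have e1 : ∀ x y : ℕ, f x y * ∑' z : ℤ × ℤ, gM ((x : ℝ) / M) ((y : ℝ) / M) (t / M) z =
        ∑' z : ℤ × ℤ, f x y * gM ((x : ℝ) / M) ((y : ℝ) / M) (t / M) z := fun x y =>
      tsum_mul_left.symm
    rw [Finset.sum_congr rfl fun x _ => Finset.sum_congr rfl fun y _ => e1 x y]
    rw [Finset.sum_congr rfl fun x _ => (Summable.tsum_finsetSum fun y _ => hs x y).symm]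
    rw [← Summable.tsum_finsetSum fun x _ => summable_sum fun y _ => hs x y]
    unfold Psi
    refine tsum_congr fun z => ?_
    unfold FT
    rw [Finset.sum_mul, Finset.sum_mul]
    refine Finset.sum_congr rfl fun x _ => ?_
    rw [Finset.sum_mul, Finset.sum_mul]
    refine Finset.sum_congr rfl fun y _ => ?_
    unfold gM
    have e2 : (2 * Real.pi * I * ((z.1 * x + z.2 * y : ℤ) : ℂ) / M) =
        2 * Real.pi * I * ((((x : ℝ) / M : ℝ) : ℂ) * z.1 + (((y : ℝ) / M : ℝ) : ℂ) * z.2) := by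
      push_cast
      field_simp
    have e3 : -Real.pi * ((z.1 : ℝ) ^ 2 + (z.2 : ℝ) ^ 2) * t / M =
        -Real.pi * ((z.1 : ℝ) ^ 2 + (z.2 : ℝ) ^ 2) * (t / M) := by ring
    rw [e2, e3]
    ring
  rw [Psi_classes M hM f hf (1 / t) (by positivity), hR, Finset.mul_sum]
  refine Finset.sum_congr rfl fun x _ => ?_
  rw [Finset.mul_sum]
  refine Finset.sum_congr rfl fun y _ => ?_
  rw [poi_shift _ _ _ (by positivity : 0 < (M : ℝ) * (1 / t)),
    show 1 / ((M : ℝ) * (1 / t)) = t / M by field_simp]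
  have e4 : ((((M : ℝ) * (1 / t)) ^ 2 : ℝ) : ℂ)⁻¹ = ((t ^ 2 / M : ℝ) : ℂ) / M := by
    push_cast
    field_simp
  rw [e4]
  field_simp

end W3283f
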