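import Mathlib

set_option autoImplicit false

namespace W3283f

open Complex

/-- The exponential series `∑ a_m exp(-π κ m t)`. -/
noncomputable def Th (a : ℕ → ℝ) (κ t : ℝ) : ℝ :=
  ∑' m : ℕ, a m * Real.exp (-Real.pi * (κ * m) * t)

/-- Coefficients of a self-dual exponential series of weight two with sign `ε`. -/
structure ThData (a : ℕ → ℝ) (κ ε : ℝ) : Prop where
  a0 : a 0 = 0
  a1 : a 1 = 1
  sum : ∀ τ : ℝ, 3 / 2 < τ → Summable (fun m : ℕ => |a m| * (m : ℝ) ^ (-τ))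
  κpos : 0 < κ
  eps : ε = 1 ∨ ε = -1
  inv : ∀ t : ℝ, 0 < t → Th a κ (1 / t) = ε * t ^ 2 * Th a κ t

/-- `|a m| ≤ C m²` and `m² e^{-πκmδ}` is summable. -/
theorem Th_summable (a : ℕ → ℝ) (κ ε : ℝ) (h : ThData a κ ε) (t : ℝ) (ht : 0 < t) :
    Summable (fun m : ℕ => |a m| * Real.exp (-Real.pi * (κ * m) * t)) := by
  have hs := h.sum 2 (by norm_num)
  have hc : 0 < Real.pi * κ * t := mul_pos (mul_pos Real.pi_pos h.κpos) ht
  obtain ⟨c, hcd⟩ : ∃ c, c = Real.pi * κ * t := ⟨_, rfl⟩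
  rw [← hcd] at hc
  refine Summable.of_nonneg_of_le (fun m => mul_nonneg (abs_nonneg _) (Real.exp_pos _).le)
    (fun m => ?_) (hs.mul_left (2 / c ^ 2))
  rcases Nat.eq_zero_or_pos m with hm | hm
  · subst hm
    rw [h.a0]; simp
  · have hm' : (0 : ℝ) < m := by exact_mod_cast hm
    have h1 : -Real.pi * (κ * m) * t = -(c * m) := by rw [hcd]; ring
    have h2 : (m : ℝ) ^ (-(2 : ℝ)) = 1 / (m : ℝ) ^ 2 := by
      rw [Real.rpow_neg hm'.le, one_div]
      congr 1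
      exact_mod_cast Real.rpow_natCast (m : ℝ) 2
    have h3 : (c * m) ^ 2 / 2 ≤ Real.exp (c * m) := by
      have := Real.pow_div_factorial_le_exp (c * m) (mul_pos hc hm').le 2
      simpa using this
    have h4 : Real.exp (-(c * m)) ≤ 2 / c ^ 2 * (1 / (m : ℝ) ^ 2) := by
      rw [Real.exp_neg]
      have h5 : (0 : ℝ) < (c * m) ^ 2 / 2 := by positivity
      calc (Real.exp (c * m))⁻¹ ≤ ((c * m) ^ 2 / 2)⁻¹ := inv_anti₀ h5 h3
        _ = 2 / c ^ 2 * (1 / (m : ℝ) ^ 2) := by field_simp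
    rw [h1, h2]
    calc |a m| * Real.exp (-(c * m)) ≤ |a m| * (2 / c ^ 2 * (1 / (m : ℝ) ^ 2)) :=
          mul_le_mul_of_nonneg_left h4 (abs_nonneg _)
      _ = 2 / c ^ 2 * (|a m| * (1 / (m : ℝ) ^ 2)) := by ring

theorem Th_summable' (a : ℕ → ℝ) (κ ε : ℝ) (h : ThData a κ ε) (t : ℝ) (ht : 0 < t) :
    Summable (fun m : ℕ => a m * Real.exp (-Real.pi * (κ * m) * t)) := by
  apply Summable.of_norm
  refine (Th_summable a κ ε h t ht).congr fun m => ?_
  rw [Real.norm_eq_abs, abs_mul, Real.abs_exp]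

theorem Th_hasSum (a : ℕ → ℝ) (κ ε : ℝ) (h : ThData a κ ε) (t : ℝ) (ht : 0 < t) :
    HasSum (fun m : ℕ => (a m : ℂ) * ((Real.exp (-Real.pi * (κ * m) * t) : ℝ) : ℂ))
      (Th a κ t : ℂ) := by
  have h1 := (Th_summable' a κ ε h t ht).hasSum
  have h2 := Complex.hasSum_ofReal.mpr h1
  have h3 : (fun m : ℕ => (a m : ℂ) * ((Real.exp (-Real.pi * (κ * m) * t) : ℝ) : ℂ)) =
      fun m : ℕ => ((a m * Real.exp (-Real.pi * (κ * m) * t) : ℝ) : ℂ) := by
    funext m
    rw [Complex.ofReal_mul]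
  rw [h3]
  exact h2

/-- Locally uniform convergence (`continuousOn_tsum` on `[δ, ∞)`). -/
theorem Th_cont (a : ℕ → ℝ) (κ ε : ℝ) (h : ThData a κ ε) :
    ContinuousOn (Th a κ) (Set.Ioi 0) := by
  intro t ht
  have ht' : 0 < t := ht
  have h1 : ContinuousOn (Th a κ) (Set.Ici (t / 2)) := by
    unfold Th
    refine continuousOn_tsum (u := fun m : ℕ => |a m| * Real.exp (-Real.pi * (κ * m) * (t / 2)))
      (fun m => ?_) (Th_summable a κ ε h (t / 2) (by linarith)) (fun m x hx => ?_)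
    · fun_prop
    · rw [Real.norm_eq_abs, abs_mul, Real.abs_exp]
      refine mul_le_mul_of_nonneg_left (Real.exp_le_exp.mpr ?_) (abs_nonneg _)
      have hx' : t / 2 ≤ x := hx
      have h2 : 0 ≤ Real.pi * (κ * m) :=
        mul_nonneg Real.pi_pos.le (mul_nonneg h.κpos.le (Nat.cast_nonneg m))
      nlinarith [mul_le_mul_of_nonneg_left hx' h2]
  exact (h1.continuousAt (Ici_mem_nhds (by linarith))).continuousWithinAt

/-- For `t ≥ 1` and `m ≥ 1`: `e^{-πκmt} ≤ e^{-πκ(t-1)} e^{-πκm}` since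
`m t ≥ m + (t - 1)`; and `a 0 = 0`. -/
theorem Th_decay (a : ℕ → ℝ) (κ ε : ℝ) (h : ThData a κ ε) :
    ∃ C : ℝ, 0 ≤ C ∧ ∀ t : ℝ, 1 ≤ t → |Th a κ t| ≤ C * Real.exp (-(Real.pi * κ) * t) := by
  have hs1 := Th_summable a κ ε h 1 one_pos
  refine ⟨Real.exp (Real.pi * κ) * ∑' m : ℕ, |a m| * Real.exp (-Real.pi * (κ * m) * 1),
    mul_nonneg (Real.exp_pos _).le
      (tsum_nonneg fun m => mul_nonneg (abs_nonneg _) (Real.exp_pos _).le), fun t ht => ?_⟩
  have hst := Th_summable a κ ε h t (by linarith)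
  have h1 : |Th a κ t| ≤ ∑' m : ℕ, |a m| * Real.exp (-Real.pi * (κ * m) * t) := by
    unfold Th
    have h2 := norm_tsum_le_tsum_norm (f := fun m : ℕ => a m * Real.exp (-Real.pi * (κ * m) * t))
      (by
        refine hst.congr fun m => ?_
        rw [Real.norm_eq_abs, abs_mul, Real.abs_exp])
    rw [Real.norm_eq_abs] at h2
    refine h2.trans (le_of_eq ?_)
    refine tsum_congr fun m => ?_
    rw [Real.norm_eq_abs, abs_mul, Real.abs_exp]
  refine h1.trans ?_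
  have h3 : Real.exp (Real.pi * κ) * (∑' m : ℕ, |a m| * Real.exp (-Real.pi * (κ * m) * 1))
      * Real.exp (-(Real.pi * κ) * t) = ∑' m : ℕ, (Real.exp (Real.pi * κ)
        * Real.exp (-(Real.pi * κ) * t)) * (|a m| * Real.exp (-Real.pi * (κ * m) * 1)) := by
    rw [tsum_mul_left]; ring
  rw [h3]
  refine hst.tsum_le_tsum (fun m => ?_) (hs1.mul_left _)
  rcases Nat.eq_zero_or_pos m with hm | hm
  · subst hm
    rw [h.a0]; simp
  · have hm' : (1 : ℝ) ≤ m := by exact_mod_cast hm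
    have hk : 0 < Real.pi * κ := mul_pos Real.pi_pos h.κpos
    have h4 : Real.exp (-Real.pi * (κ * m) * t) ≤ Real.exp (Real.pi * κ)
        * Real.exp (-(Real.pi * κ) * t) * Real.exp (-Real.pi * (κ * m) * 1) := by
      rw [← Real.exp_add, ← Real.exp_add]
      refine Real.exp_le_exp.mpr ?_
      nlinarith [mul_nonneg hk.le (mul_nonneg (sub_nonneg.mpr hm') (sub_nonneg.mpr ht))]
    calc |a m| * Real.exp (-Real.pi * (κ * m) * t) ≤ |a m| * (Real.exp (Real.pi * κ)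
        * Real.exp (-(Real.pi * κ) * t) * Real.exp (-Real.pi * (κ * m) * 1)) :=
          mul_le_mul_of_nonneg_left h4 (abs_nonneg _)
      _ = _ := by ring

end W3283f
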