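import Mathlib

set_option autoImplicit false

namespace W3283f

open Complex Filter Topology

/-- If `|N'(σ + iγ)| ≤ C/σ` for `0 < σ ≤ δ` then `|N(σ+iγ)| ≤ |N(δ+iγ)| + C log(δ/σ)`
(integrate, or compare with `C log`), so `σ N(σ+iγ) → 0` as `σ → 0+`. -/
theorem ray_small (N : ℂ → ℂ) (hN : DifferentiableOn ℂ N {s : ℂ | 0 < s.re}) (γ C δ : ℝ)
    (hδ : 0 < δ)
    (hb : ∀ σ : ℝ, 0 < σ → σ ≤ δ → ‖deriv N (σ + γ * I)‖ ≤ C / σ) :
    Tendsto (fun σ : ℝ => (σ : ℂ) * N (σ + γ * I)) (𝓝[>] 0) (𝓝 0) := by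
  have hC : 0 ≤ C := by
    have h := (norm_nonneg _).trans (hb δ hδ le_rfl)
    by_contra hc
    push Not at hc
    have : C / δ < 0 := div_neg_of_neg_of_pos hc hδ
    linarith
  have hopen : IsOpen {s : ℂ | 0 < s.re} := isOpen_lt continuous_const Complex.continuous_re
  -- key estimate
  have key : ∀ σ τ : ℝ, 0 < σ → σ ≤ τ → τ ≤ δ →
      σ * ‖N (σ + γ * I)‖ ≤ σ * ‖N (τ + γ * I)‖ + C * τ := by
    intro σ τ hσ hστ hτ
    set s : Set ℂ := {z : ℂ | σ ≤ z.re ∧ z.re ≤ τ ∧ z.im = γ} with hs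
    have hconv : Convex ℝ s := by
      intro x hx y hy a b ha hb' hab
      obtain ⟨h1, h2, h3⟩ := hx
      obtain ⟨k1, k2, k3⟩ := hy
      refine ⟨?_, ?_, ?_⟩
      · simp only [add_re, real_smul, mul_re, ofReal_re, ofReal_im, zero_mul, sub_zero]
        nlinarith
      · simp only [add_re, real_smul, mul_re, ofReal_re, ofReal_im, zero_mul, sub_zero]
        nlinarith
      · simp only [add_im, real_smul, mul_im, ofReal_re, ofReal_im, zero_mul, add_zero]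
        rw [h3, k3, ← add_mul, hab, one_mul]
    have hzform : ∀ z ∈ s, z = ((z.re : ℝ) : ℂ) + γ * I := by
      intro z hz
      apply Complex.ext
      · simp
      · simp [hz.2.2]
    have hdiff : ∀ z ∈ s, DifferentiableAt ℂ N z := by
      intro z hz
      exact hN.differentiableAt (hopen.mem_nhds (lt_of_lt_of_le hσ hz.1))
    have hbound : ∀ z ∈ s, ‖deriv N z‖ ≤ C / σ := by
      intro z hz
      rw [hzform z hz]
      refine (hb z.re (lt_of_lt_of_le hσ hz.1) (hz.2.1.trans hτ)).trans ?_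
      exact div_le_div_of_nonneg_left hC hσ hz.1
    have hx : ((σ : ℂ) + γ * I) ∈ s := by
      refine ⟨?_, ?_, ?_⟩ <;> simp [hστ]
    have hy : ((τ : ℂ) + γ * I) ∈ s := by
      refine ⟨?_, ?_, ?_⟩ <;> simp [hστ]
    have hm := hconv.norm_image_sub_le_of_norm_deriv_le hdiff hbound hy hx
    have hdist : ‖((σ : ℂ) + γ * I) - ((τ : ℂ) + γ * I)‖ = τ - σ := by
      have : ((σ : ℂ) + γ * I) - ((τ : ℂ) + γ * I) = ((σ - τ : ℝ) : ℂ) := by
        push_cast; ring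
      rw [this, Complex.norm_real, Real.norm_eq_abs, abs_of_nonpos (by linarith)]
      ring
    rw [hdist] at hm
    have h1 : ‖N (σ + γ * I)‖ ≤ ‖N (τ + γ * I)‖ + C / σ * (τ - σ) := by
      have := norm_sub_norm_le (N (σ + γ * I)) (N (τ + γ * I))
      linarith
    have h2 : σ * ‖N (σ + γ * I)‖ ≤ σ * (‖N (τ + γ * I)‖ + C / σ * (τ - σ)) :=
      mul_le_mul_of_nonneg_left h1 hσ.le
    have h3 : σ * (‖N (τ + γ * I)‖ + C / σ * (τ - σ)) = σ * ‖N (τ + γ * I)‖ + C * (τ - σ) := by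
      field_simp
    have h4 : C * (τ - σ) ≤ C * τ := mul_le_mul_of_nonneg_left (by linarith) hC
    linarith
  rw [tendsto_zero_iff_norm_tendsto_zero]
  rw [Metric.tendsto_nhds]
  intro ε hε
  set τ : ℝ := min δ (ε / (2 * (C + 1))) with hτdef
  have hτ0 : 0 < τ := lt_min hδ (by positivity)
  have hτδ : τ ≤ δ := min_le_left _ _
  have hCτ : C * τ ≤ ε / 2 := by
    have h1 : τ ≤ ε / (2 * (C + 1)) := min_le_right _ _
    calc C * τ ≤ (C + 1) * (ε / (2 * (C + 1))) := by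
          apply mul_le_mul (by linarith) h1 hτ0.le (by linarith)
      _ = ε / 2 := by
          field_simp
  set B : ℝ := ‖N (τ + γ * I)‖ with hB
  have hB0 : 0 ≤ B := norm_nonneg _
  have hpos : 0 < min τ (ε / (2 * (B + 1))) := lt_min hτ0 (by positivity)
  filter_upwards [Ioo_mem_nhdsGT hpos] with σ hσ
  have hσ0 : 0 < σ := hσ.1
  have hστ : σ ≤ τ := hσ.2.le.trans (min_le_left _ _)
  have hσB : σ * B < ε / 2 := by
    have h1 : σ < ε / (2 * (B + 1)) := lt_of_lt_of_le hσ.2 (min_le_right _ _)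
    calc σ * B ≤ σ * (B + 1) := by nlinarith
      _ < (ε / (2 * (B + 1))) * (B + 1) := by
          apply mul_lt_mul_of_pos_right h1; linarith
      _ = ε / 2 := by field_simp
  have := key σ τ hσ0 hστ hτδ
  rw [Real.dist_eq, sub_zero, abs_of_nonneg (norm_nonneg _), norm_mul, Complex.norm_real,
    Real.norm_eq_abs, abs_of_pos hσ0]
  linarith

/-- At the origin.  Let `N'(σ) = a/σ + h(σ)` for small `σ > 0`, `h` analytic at `0`, and
`N(σ) → 0` as `σ → 0+`.  Integrating from `σ` to a fixed `δ`: `N(δ) - N(σ) = a log(δ/σ) + O(1)`, so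
`a = 0`.  Then `N(σ) = ∫_0^σ h`, and
`N'(σ)/σ - N(σ)/σ² = σ^{-2} ∫_0^σ (h(σ) - h(x)) dx` is bounded (`h` is Lipschitz near `0`), so
`σ` times it tends to `0`.  (Without integrals: `N` minus a local primitive `H` of `h` has
derivative `0`, so it is a constant, the constant is determined by the limit, and
`H(σ) = H(0) + h(0) σ + O(σ²)`.) -/
theorem ray_zero (N : ℂ → ℂ) (hN : DifferentiableOn ℂ N {s : ℂ | 0 < s.re}) (a : ℂ) (h : ℂ → ℂ)
    (hh : AnalyticAt ℂ h 0)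
    (hd : ∀ᶠ σ : ℝ in 𝓝[>] 0, deriv N (σ : ℂ) = a / σ + h σ)
    (h0 : Tendsto (fun σ : ℝ => N (σ : ℂ)) (𝓝[>] 0) (𝓝 0)) :
    a = 0 ∧ Tendsto (fun σ : ℝ => (σ : ℂ) * (deriv N (σ : ℂ) / σ - N (σ : ℂ) / (σ : ℂ) ^ 2))
      (𝓝[>] 0) (𝓝 0) := by
  have hopen : IsOpen {s : ℂ | 0 < s.re} := isOpen_lt continuous_const Complex.continuous_re
  -- a local primitive of `h`
  obtain ⟨r, hr, hball⟩ : ∃ r > 0, DifferentiableOn ℂ h (Metric.ball 0 r) := by
    have h1 : ∀ᶠ z in 𝓝 (0 : ℂ), AnalyticAt ℂ h z := hh.eventually_analyticAt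
    obtain ⟨r, hr, hb⟩ := Metric.eventually_nhds_iff_ball.mp h1
    exact ⟨r, hr, fun z hz => (hb z hz).differentiableAt.differentiableWithinAt⟩
  obtain ⟨H, hH⟩ := hball.isExactOn_ball
  have hderivN : ∀ σ : ℝ, 0 < σ → HasDerivAt N (deriv N (σ : ℂ)) (σ : ℂ) := by
    intro σ hσ
    exact (hN.differentiableAt (hopen.mem_nhds (by simpa using hσ))).hasDerivAt
  obtain ⟨ρ, hρ, hdρ⟩ : ∃ ρ : ℝ, 0 < ρ ∧ ∀ σ ∈ Set.Ioo (0 : ℝ) ρ,
      deriv N (σ : ℂ) = a / σ + h σ := by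
    obtain ⟨ρ, hρ, hs⟩ := (mem_nhdsGT_iff_exists_Ioo_subset (a := (0 : ℝ))).mp hd
    exact ⟨ρ, hρ, fun σ hσ => hs hσ⟩
  set m : ℝ := min ρ r with hm
  have hm0 : 0 < m := lt_min hρ hr
  -- G is constant on `(0, m)`
  set G : ℝ → ℂ := fun σ => N (σ : ℂ) - H (σ : ℂ) - a * (Real.log σ : ℂ) with hG
  have hGderiv : ∀ σ ∈ Set.Ioo (0 : ℝ) m, HasDerivAt G 0 σ := by
    intro σ hσ
    have hσ0 : 0 < σ := hσ.1
    have hσρ : σ < ρ := lt_of_lt_of_le hσ.2 (min_le_left _ _)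
    have hσr : σ < r := lt_of_lt_of_le hσ.2 (min_le_right _ _)
    have e1 : HasDerivAt (fun x : ℝ => N (x : ℂ)) (deriv N (σ : ℂ)) σ :=
      (hderivN σ hσ0).comp_ofReal
    have e2 : HasDerivAt (fun x : ℝ => H (x : ℂ)) (h (σ : ℂ)) σ := by
      refine HasDerivAt.comp_ofReal (hH (σ : ℂ) ?_)
      simp only [Metric.mem_ball, dist_zero_right, Complex.norm_real, Real.norm_eq_abs]
      rw [abs_of_pos hσ0]; exact hσr
    have e3 : HasDerivAt (fun x : ℝ => a * (Real.log x : ℂ)) (a * ((σ⁻¹ : ℝ) : ℂ)) σ :=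
      ((Real.hasDerivAt_log hσ0.ne').ofReal_comp).const_mul a
    have e4 := (e1.sub e2).sub e3
    have e5 : deriv N (σ : ℂ) - h (σ : ℂ) - a * ((σ⁻¹ : ℝ) : ℂ) = 0 := by
      rw [hdρ σ ⟨hσ0, hσρ⟩]
      push_cast
      rw [div_eq_mul_inv]
      ring
    rw [e5] at e4
    exact e4
  have hconst : ∀ x ∈ Set.Ioo (0 : ℝ) m, ∀ y ∈ Set.Ioo (0 : ℝ) m, G x = G y := by
    intro x hx y hy
    have hdiff : DifferentiableOn ℝ G (Set.Ioo (0 : ℝ) m) := fun z hz =>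
      (hGderiv z hz).differentiableAt.differentiableWithinAt
    have := isOpen_Ioo.is_const_of_deriv_eq_zero (f := G) isPreconnected_Ioo hdiff
      (fun z hz => (hGderiv z hz).deriv) hx hy
    exact this
  set c : ℂ := G (m / 2) with hc
  have hmid : m / 2 ∈ Set.Ioo (0 : ℝ) m := ⟨by positivity, by linarith⟩
  have hev : ∀ᶠ σ : ℝ in 𝓝[>] 0, N (σ : ℂ) - H (σ : ℂ) - a * (Real.log σ : ℂ) = c := by
    filter_upwards [Ioo_mem_nhdsGT hm0] with σ hσ
    exact hconst σ hσ _ hmid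
  have hH0 : HasDerivAt H (h 0) 0 := hH 0 (by simpa using hr)
  have hcast : Tendsto (fun σ : ℝ => (σ : ℂ)) (𝓝[>] 0) (𝓝 0) := by
    have : Tendsto (fun σ : ℝ => (σ : ℂ)) (𝓝 0) (𝓝 ((0 : ℝ) : ℂ)) :=
      Complex.continuous_ofReal.tendsto 0
    simpa using this.mono_left nhdsWithin_le_nhds
  have hHt : Tendsto (fun σ : ℝ => H (σ : ℂ)) (𝓝[>] 0) (𝓝 (H 0)) :=
    hH0.continuousAt.tendsto.comp hcast
  have hlog : Tendsto (fun σ : ℝ => a * (Real.log σ : ℂ)) (𝓝[>] 0) (𝓝 (0 - H 0 - c)) := by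
    have h1 : Tendsto (fun σ : ℝ => N (σ : ℂ) - H (σ : ℂ) - c) (𝓝[>] 0) (𝓝 (0 - H 0 - c)) :=
      (h0.sub hHt).sub_const c
    refine h1.congr' ?_
    filter_upwards [hev] with σ hσ
    rw [← hσ]; ring
  have ha : a = 0 := by
    by_contra hne
    have h1 : Tendsto (fun σ : ℝ => ‖a * (Real.log σ : ℂ)‖) (𝓝[>] 0) (𝓝 ‖0 - H 0 - c‖) :=
      hlog.norm
    have h2 : Tendsto (fun σ : ℝ => ‖a * (Real.log σ : ℂ)‖) (𝓝[>] 0) atTop := by
      have h3 : Tendsto (fun σ : ℝ => ‖a‖ * |Real.log σ|) (𝓝[>] 0) atTop := by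
        apply Tendsto.const_mul_atTop (norm_pos_iff.mpr hne)
        exact tendsto_abs_atBot_atTop.comp Real.tendsto_log_nhdsGT_zero
      refine h3.congr fun σ => ?_
      rw [norm_mul, Complex.norm_real, Real.norm_eq_abs]
    exact not_tendsto_nhds_of_tendsto_atTop h2 _ h1
  refine ⟨ha, ?_⟩
  subst ha
  have hcval : c = - H 0 := by
    have h1 : Tendsto (fun σ : ℝ => (0 : ℂ) * (Real.log σ : ℂ)) (𝓝[>] 0) (𝓝 0) := by
      simp
    have := tendsto_nhds_unique hlog h1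
    linear_combination -this
  -- the slope of `H` at `0`
  have hslope : Tendsto (fun σ : ℝ => (H (σ : ℂ) - H 0) / (σ : ℂ)) (𝓝[>] 0) (𝓝 (h 0)) := by
    have h1 := hH0.tendsto_slope_zero
    have h2 : Tendsto (fun σ : ℝ => (σ : ℂ)) (𝓝[>] 0) (𝓝[≠] 0) := by
      refine tendsto_nhdsWithin_iff.mpr ⟨hcast, ?_⟩
      filter_upwards [self_mem_nhdsWithin] with σ hσ
      simpa using (ne_of_gt hσ)
    refine (h1.comp h2).congr fun σ => ?_
    simp [div_eq_inv_mul]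
  have hht : Tendsto (fun σ : ℝ => h (σ : ℂ)) (𝓝[>] 0) (𝓝 (h 0)) :=
    hh.continuousAt.tendsto.comp hcast
  have hfin : Tendsto (fun σ : ℝ => h (σ : ℂ) - (H (σ : ℂ) - H 0) / (σ : ℂ)) (𝓝[>] 0) (𝓝 0) := by
    have := hht.sub hslope
    simpa using this
  refine hfin.congr' ?_
  filter_upwards [hev, hd, self_mem_nhdsWithin] with σ h1 h2 h3
  have hσ : (σ : ℂ) ≠ 0 := by simpa using (ne_of_gt h3)
  have hN' : N (σ : ℂ) = H (σ : ℂ) - H 0 := by
    rw [hcval] at h1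
    linear_combination h1
  rw [h2, hN']
  field_simp
  ring

end W3283f
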