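import Pool.Agent.W_MP_3283e1_h19.ExtF
import Pool.Agent.W_MP_3283e1_nt.Greal

set_option autoImplicit false

namespace W3283f

open Complex W3283e1

/-- Data with real structure: `L` is real on the real axis and not identically zero, `W` is positive
on `[0,∞)`. -/
structure DataR (α : ℕ → ℂ) (L W : ℂ → ℂ) : Prop extends DataF α L W where
  L_real : ∀ σ : ℝ, 3 / 4 < σ → (L σ).im = 0
  W_pos : ∀ σ : ℝ, 0 ≤ σ → 0 < (W σ).re ∧ (W σ).im = 0

/-- The real function `σ ↦ L(1+σ)`. -/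
noncomputable def LR (L : ℂ → ℂ) (σ : ℝ) : ℝ := (L (1 + σ)).re

/-- Real analytic on `[0,∞)` (restriction of a holomorphic function to the real axis, as in
`W3283e1.greal`). -/
theorem LR_an (α : ℕ → ℂ) (L W : ℂ → ℂ) (hD : DataR α L W) (σ : ℝ) (hσ : 0 ≤ σ) :
    AnalyticAt ℝ (LR L) σ := by
  have ho3 : IsOpen {s : ℂ | 3 / 4 < s.re} := isOpen_lt continuous_const Complex.continuous_re
  have a1 : AnalyticAt ℂ L (1 + (σ : ℂ)) := by
    apply hD.L_diff.analyticAt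
    apply ho3.mem_nhds
    change 3 / 4 < (1 + (σ : ℂ)).re
    rw [Complex.add_re, Complex.one_re, Complex.ofReal_re]
    linarith
  have a2 : AnalyticAt ℂ (fun s : ℂ => 1 + s) (σ : ℂ) := analyticAt_const.add analyticAt_id
  have a3 : AnalyticAt ℂ (fun s : ℂ => L (1 + s)) (σ : ℂ) := a1.fun_comp a2
  exact a3.re_ofReal

/-- `(L(1+σ) : ℂ) = LR L σ` for real `σ ≥ 0`. -/
theorem LR_eq (α : ℕ → ℂ) (L W : ℂ → ℂ) (hD : DataR α L W) (σ : ℝ) (hσ : 0 ≤ σ) :
    L (1 + σ) = (LR L σ : ℂ) := by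
  have h := hD.L_real (1 + σ) (by linarith)
  push_cast at h
  apply Complex.ext
  · simp [LR]
  · rw [h]; simp

/-- The function `q σ = Re Q(σ)`, `Q` as in `QF_exists`: real and positive on `[0,∞)`
(`W_pos`, `ZZ_pos`, `t2_pos`, `R` real on the reals), real analytic, `q 0 = 2`, and for
`σ > 1/2`: `GG` is real (`W3283e1.Greal_real`) and `LR(σ)² exp(2 GG σ) = q σ`; in particular
`LR σ ≠ 0` there. -/
theorem qR_exists (α : ℕ → ℂ) (L W : ℂ → ℂ) (hD : DataR α L W) :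
    ∃ q : ℝ → ℝ, (∀ σ : ℝ, 0 ≤ σ → AnalyticAt ℝ q σ ∧ 0 < q σ) ∧ q 0 = 2 ∧
      ∀ σ : ℝ, 1 / 2 < σ → LR L σ ≠ 0 ∧ (GG α σ).im = 0 ∧
        (LR L σ) ^ 2 * Real.exp (2 * (GG α σ).re) = q σ := by
  obtain ⟨R, hRd, hR0, hRr, hid⟩ := identF α L W hD.toDataF
  set q : ℂ → ℂ := fun s => 2 * W (2 * s) * ZZ s * t2 s * Complex.exp (R s) /
    (W s * ZZ (2 * s) * t2 (2 * s)) with hq
  -- values at real points
  have hval : ∀ σ : ℝ, 0 ≤ σ → ∃ w w2 z z2 t t' : ℝ, 0 < w ∧ 0 < w2 ∧ 0 < z ∧ 0 < z2 ∧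
      0 < t ∧ 0 < t' ∧ W σ = w ∧ W (2 * σ) = w2 ∧ ZZ σ = z ∧ ZZ (2 * σ) = z2 ∧
      t2 σ = t ∧ t2 (2 * σ) = t' := by
    intro σ hσ
    obtain ⟨w, hw, ew⟩ := Greal_pos (hD.W_pos σ hσ)
    obtain ⟨w2, hw2, ew2⟩ := Greal_pos (hD.W_pos (2 * σ) (by linarith))
    obtain ⟨z, hz, ez⟩ := Greal_pos (ZZ_pos σ hσ)
    obtain ⟨z2, hz2, ez2⟩ := Greal_pos (ZZ_pos (2 * σ) (by linarith))
    obtain ⟨t, ht, et⟩ := Greal_pos (t2_pos σ (by linarith))
    obtain ⟨t', ht', et'⟩ := Greal_pos (t2_pos (2 * σ) (by linarith))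
    push_cast at ew2 ez2 et'
    exact ⟨w, w2, z, z2, t, t', hw, hw2, hz, hz2, ht, ht', ew, ew2, ez, ez2, et, et'⟩
  have hRreal : ∀ σ : ℝ, 0 ≤ σ → R σ = ((R σ).re : ℂ) := fun σ hσ =>
    Complex.ext (by simp) (by simp [hRr σ (by linarith)])
  have hqreal : ∀ σ : ℝ, 0 ≤ σ → ∃ r : ℝ, 0 < r ∧ q σ = (r : ℂ) := by
    intro σ hσ
    obtain ⟨w, w2, z, z2, t, t', hw, hw2, hz, hz2, ht, ht', ew, ew2, ez, ez2, et, et'⟩ :=
      hval σ hσ
    refine ⟨2 * w2 * z * t * Real.exp (R σ).re / (w * z2 * t'), by positivity, ?_⟩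
    simp only [hq]
    rw [ew, ew2, ez, ez2, et, et', hRreal σ hσ]
    push_cast
    simp
  have hqan : ∀ σ : ℝ, 0 ≤ σ → AnalyticAt ℂ q σ := by
    intro σ hσ
    obtain ⟨w, w2, z, z2, t, t', hw, hw2, hz, hz2, ht, ht', ew, ew2, ez, ez2, et, et'⟩ :=
      hval σ hσ
    have hopen : IsOpen {s : ℂ | -(1 / 10) < s.re} :=
      isOpen_lt continuous_const Complex.continuous_re
    have hRan : AnalyticAt ℂ R σ := hRd.analyticAt (hopen.mem_nhds (by
      show -(1 / 10) < ((σ : ℂ)).re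
      rw [Complex.ofReal_re]; linarith))
    have h2 : Differentiable ℂ (fun s : ℂ => 2 * s) :=
      (differentiable_const 2).mul differentiable_id
    have a1 : AnalyticAt ℂ (fun s : ℂ => W (2 * s)) σ := (hD.W_diff.comp h2).analyticAt _
    have a2 : AnalyticAt ℂ ZZ σ := ZZ_diff.analyticAt _
    have a3 : AnalyticAt ℂ t2 σ := t2_diff.analyticAt _
    have a5 : AnalyticAt ℂ W σ := hD.W_diff.analyticAt _
    have a6 : AnalyticAt ℂ (fun s : ℂ => ZZ (2 * s)) σ := (ZZ_diff.comp h2).analyticAt _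
    have a7 : AnalyticAt ℂ (fun s : ℂ => t2 (2 * s)) σ := (t2_diff.comp h2).analyticAt _
    have a8 : AnalyticAt ℂ (fun s : ℂ => Complex.exp (R s)) σ := hRan.cexp
    refine ((((analyticAt_const.mul a1).mul a2).mul a3).mul a8).div
      ((a5.mul a6).mul a7) ?_
    rw [ew, ez2, et']
    have : ((w * z2 * t' : ℝ) : ℂ) ≠ 0 := by
      rw [Ne, Complex.ofReal_eq_zero]
      positivity
    push_cast at this
    exact this
  refine ⟨fun σ => (q σ).re, ?_, ?_, ?_⟩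
  · intro σ hσ
    obtain ⟨r, hr, er⟩ := hqreal σ hσ
    refine ⟨(hqan σ hσ).re_ofReal, ?_⟩
    show 0 < (q σ).re
    rw [er, Complex.ofReal_re]
    exact hr
  · obtain ⟨w, w2, z, z2, t, t', hw, hw2, hz, hz2, ht, ht', ew, ew2, ez, ez2, et, et'⟩ :=
      hval 0 le_rfl
    have hz' : ZZ (2 * (0 : ℂ)) = ZZ 0 := by rw [mul_zero]
    have hw' : W (2 * (0 : ℂ)) = W 0 := by rw [mul_zero]
    have ht'' : t2 (2 * (0 : ℂ)) = t2 0 := by rw [mul_zero]
    simp only [Complex.ofReal_zero] at ew ew2 ez ez2 et et'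
    have hq0 : q ((0 : ℝ) : ℂ) = ((2 : ℝ) : ℂ) := by
      simp only [hq, Complex.ofReal_zero]
      rw [hz', hw', ht'', hR0, ew, ez, et, Complex.exp_zero]
      have n2 : (w : ℂ) ≠ 0 := by exact_mod_cast hw.ne'
      have n3 : (z : ℂ) ≠ 0 := by exact_mod_cast hz.ne'
      have n4 : (t : ℂ) ≠ 0 := by exact_mod_cast ht.ne'
      push_cast
      field_simp
    show (q ((0 : ℝ) : ℂ)).re = 2
    rw [hq0, Complex.ofReal_re]
  · intro σ hσ
    have h0 : 0 ≤ σ := by linarith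
    obtain ⟨w, w2, z, z2, t, t', hw, hw2, hz, hz2, ht, ht', ew, ew2, ez, ez2, et, et'⟩ :=
      hval σ h0
    obtain ⟨r, hr, er⟩ := hqreal σ h0
    have him : (GG α σ).im = 0 := Greal_real α hD.norm_α σ hσ
    have hG : GG α σ = ((GG α σ).re : ℂ) :=
      Complex.ext (by simp) (by simp [him])
    have hLe := LR_eq α L W hD σ h0
    have hmain := hid σ (by simpa using hσ)
    have hexp : (L (1 + σ)) ^ 2 * Complex.exp (2 * GG α σ) = q σ := by
      simp only [hq]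
      rw [eq_div_iff]
      · rw [← hmain]
        ring
      · rw [ew, ez2, et']
        have : ((w * z2 * t' : ℝ) : ℂ) ≠ 0 := by
          rw [Ne, Complex.ofReal_eq_zero]
          positivity
        push_cast at this
        exact this
    have hfin : (LR L σ) ^ 2 * Real.exp (2 * (GG α σ).re) = (q σ).re := by
      rw [← hexp, hLe, hG]
      have : (LR L σ : ℂ) ^ 2 * Complex.exp (2 * (((GG α σ).re : ℝ) : ℂ)) =
          (((LR L σ) ^ 2 * Real.exp (2 * (GG α σ).re) : ℝ) : ℂ) := by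
        push_cast
        rfl
      rw [this, Complex.ofReal_re, Complex.ofReal_re]
    refine ⟨?_, him, hfin⟩
    intro hz0
    rw [hz0, er, Complex.ofReal_re] at hfin
    have : (0 : ℝ) = r := by rw [← hfin]; ring
    linarith

end W3283f
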