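import Pool.Agent.W_MP_3283e1_h19.NF
import Pool.Agent.W_MP_3283e1_h19.LogD
import Pool.Agent.W_MP_3283e1_h19.Ray

set_option autoImplicit false

namespace W3283f

open Complex W3283e1 Filter Topology

/-- The multiplicity of the zero of `L` at `1 + iγ`. -/
noncomputable def mL (L : ℂ → ℂ) (γ : ℝ) : ℕ :=
  analyticOrderNatAt (fun s : ℂ => L (1 + s)) (γ * I)

/-! ### Auxiliary limits -/

theorem Resid_sigma : Tendsto (fun σ : ℝ => (σ : ℂ)) (𝓝[>] 0) (𝓝 0) := by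
  have h := Complex.continuous_ofReal.tendsto (0 : ℝ)
  rw [ofReal_zero] at h
  exact h.mono_left nhdsWithin_le_nhds

theorem Resid_path (γ : ℝ) :
    Tendsto (fun σ : ℝ => (σ : ℂ) + γ * I) (𝓝[>] 0) (𝓝 (γ * I)) := by
  have h := Resid_sigma.add_const ((γ : ℂ) * I)
  rwa [zero_add] at h

theorem Resid_path' (γ : ℝ) :
    Tendsto (fun σ : ℝ => (σ : ℂ) + γ * I) (𝓝[>] 0) (𝓝[≠] (γ * I)) := by
  refine tendsto_nhdsWithin_iff.2 ⟨Resid_path γ, ?_⟩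
  filter_upwards [self_mem_nhdsWithin] with σ hσ
  have hσ' : 0 < σ := hσ
  intro h
  have h0 : (σ : ℂ) + γ * I = γ * I := h
  have h1 : (σ : ℂ) = 0 := by linear_combination h0
  exact hσ'.ne' (ofReal_eq_zero.1 h1)

/-- The function `(1 - X^{-z})/z` extends to an entire function. -/
theorem Resid_E0 (X : ℝ) (hX : 3 ≤ X) : ∃ g : ℂ → ℂ, Differentiable ℂ g ∧
    ∀ s : ℂ, s ≠ 0 → deriv (fun z : ℂ => (1 - (X : ℂ) ^ (-z)) / z) s = deriv g s := by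
  have hX0 : (X : ℂ) ≠ 0 := ofReal_ne_zero.2 (by linarith)
  have hf : Differentiable ℂ fun z : ℂ => 1 - (X : ℂ) ^ (-z) := fun z =>
    (differentiableAt_const _).sub ((differentiableAt_id.neg).const_cpow (Or.inl hX0))
  refine ⟨dslope (fun z : ℂ => 1 - (X : ℂ) ^ (-z)) 0, ?_, ?_⟩
  · rw [← differentiableOn_univ]
    exact (Complex.differentiableOn_dslope univ_mem).2 hf.differentiableOn
  · intro s hs
    apply Filter.EventuallyEq.deriv_eq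
    filter_upwards [isOpen_ne.mem_nhds hs] with z hz
    have hz' : z ≠ 0 := hz
    rw [dslope_of_ne _ hz', slope_def_field, neg_zero, cpow_zero, sub_self, sub_zero, sub_zero]

theorem Resid_E0_tendsto (X : ℝ) (hX : 3 ≤ X) (γ : ℝ) :
    Tendsto (fun σ : ℝ => (σ : ℂ) *
      deriv (fun z : ℂ => (1 - (X : ℂ) ^ (-z)) / z) (σ + γ * I)) (𝓝[>] 0) (𝓝 0) := by
  obtain ⟨g, hg, hg2⟩ := Resid_E0 X hX
  have h1 : Continuous (deriv g) := (hg.contDiff (n := 1)).continuous_deriv le_rfl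
  have h2 := Resid_sigma.mul ((h1.tendsto (γ * I)).comp (Resid_path γ))
  rw [zero_mul] at h2
  refine h2.congr' ?_
  filter_upwards [self_mem_nhdsWithin] with σ hσ
  have hσ' : 0 < σ := hσ
  have h3 : (σ : ℂ) + γ * I ≠ 0 := by
    intro h
    have h4 := congrArg re h
    simp at h4
    exact hσ'.ne' h4
  rw [hg2 _ h3]
  rfl

theorem Resid_cpow (X : ℝ) (hX : 3 ≤ X) (γ : ℝ) :
    Tendsto (fun σ : ℝ => (X : ℂ) ^ (-((σ : ℂ) + γ * I))) (𝓝[>] 0)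
      (𝓝 ((X : ℂ) ^ (-((γ : ℂ) * I)))) := by
  have hX0 : (X : ℂ) ≠ 0 := ofReal_ne_zero.2 (by linarith)
  have h1 : Continuous fun z : ℂ => (X : ℂ) ^ (-z) :=
    continuous_neg.const_cpow (Or.inl hX0)
  exact (h1.tendsto (γ * I)).comp (Resid_path γ)

/-- `L(1+s)` is holomorphic on `Re s > -1/4` and not identically zero (`Nf_deriv`), so it has
finite order everywhere (`logD_finite`). -/
theorem mL_finite (α : ℕ → ℂ) (L W : ℂ → ℂ) (hD : DataF α L W) (a ρ η K X : ℝ)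
    (h : OneSided α a ρ η K X) (γ : ℝ) :
    AnalyticAt ℂ (fun s : ℂ => L (1 + s)) (γ * I) ∧
      analyticOrderAt (fun s : ℂ => L (1 + s)) (γ * I) ≠ ⊤ := by
  obtain ⟨q, -, hq2⟩ := Nf_deriv α L W hD a ρ η K X h
  have hd : DifferentiableOn ℂ (fun s : ℂ => L (1 + s)) {s : ℂ | (-(1 / 4) : ℝ) < s.re} := by
    refine hD.L_diff.comp (differentiable_id.const_add (1 : ℂ)).differentiableOn ?_
    intro s hs
    have hs' : (-(1 / 4) : ℝ) < s.re := hs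
    change 3 / 4 < (1 + s).re
    rw [add_re, one_re]
    linarith
  refine logD_finite _ (-(1 / 4)) hd 1 (by norm_num) (hq2 1 (by norm_num)).1 _ ?_
  simp

/-- The derivative of `N` near `iγ`. -/
theorem Resid_N (α : ℕ → ℂ) (L W : ℂ → ℂ) (hD : DataF α L W) (a ρ η K X : ℝ)
    (h : OneSided α a ρ η K X) (γ : ℝ) :
    ∃ g : ℂ → ℂ, AnalyticAt ℂ g (γ * I) ∧ ∀ᶠ σ : ℝ in 𝓝[>] 0,
      deriv (Nf α a ρ η K X) (σ + γ * I) =
        (ρ : ℂ) / (σ + γ * I) - (mL L γ : ℂ) / σ + g (σ + γ * I) := by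
  obtain ⟨hf, hne⟩ := mL_finite α L W hD a ρ η K X h γ
  obtain ⟨k, hk, hk2⟩ := logD_local _ _ hf hne
  obtain ⟨q, hq, hq2⟩ := Nf_deriv α L W hD a ρ η K X h
  refine ⟨fun s => q s - k s, (hq _ (by simp)).sub hk, ?_⟩
  filter_upwards [self_mem_nhdsWithin, (Resid_path' γ).eventually hk2] with σ hσ h1
  have hσ' : 0 < σ := hσ
  have h2 : 0 < ((σ : ℂ) + γ * I).re := by simpa using hσ'
  have h3 : deriv (fun s : ℂ => L (1 + s)) ((σ : ℂ) + γ * I) = deriv L (1 + ((σ : ℂ) + γ * I)) :=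
    deriv_comp_const_add L 1 _
  have h4 : (σ : ℂ) + γ * I - γ * I = σ := by ring
  rw [h3, h4] at h1
  rw [(hq2 _ h2).2, h1]
  change _ = (ρ : ℂ) / (σ + γ * I) - (mL L γ : ℂ) / σ + (q (σ + γ * I) - k (σ + γ * I))
  unfold mL
  ring

/-- The residue at `iγ`, `γ ≠ 0`.  By `Nf_deriv` and `logD_local`, near `iγ` in `Re s > 0`:
`N'(s) = -m/(s - iγ) + analytic`; so `σ N'(σ+iγ) → -m`, and `σ N(σ+iγ) → 0` by `ray_small`.  Insert
this in `TT_log_formula` (`E0_bdd` for the first term, `X^{-s}/s` is bounded near `iγ`):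
`σ TT(...)(σ+iγ) → η (-m)/(iγ) = i η m/γ`. -/
theorem resid_ne (α : ℕ → ℂ) (L W : ℂ → ℂ) (hD : DataF α L W) (a ρ η K X : ℝ)
    (h : OneSided α a ρ η K X) (γ : ℝ) (hγ : γ ≠ 0) :
    Tendsto (fun σ : ℝ => (σ : ℂ) * TT (fun t => Bg α a ρ η K X t * Real.log t) (σ + γ * I))
      (𝓝[>] 0) (𝓝 (I * η * (mL L γ : ℂ) / γ)) := by
  obtain ⟨g, hg, hg2⟩ := Resid_N α L W hD a ρ η K X h γ
  have hγ' : (γ : ℂ) * I ≠ 0 := mul_ne_zero (ofReal_ne_zero.2 hγ) I_ne_zero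
  have hp := Resid_path γ
  -- `σ N'(σ + iγ) → -m`
  have hN' : Tendsto (fun σ : ℝ => (σ : ℂ) * deriv (Nf α a ρ η K X) (σ + γ * I)) (𝓝[>] 0)
      (𝓝 (-(mL L γ : ℂ))) := by
    have h1 : Tendsto (fun σ : ℝ => (σ : ℂ) * ((ρ : ℂ) / (σ + γ * I) + g (σ + γ * I))
        - (mL L γ : ℂ)) (𝓝[>] 0)
        (𝓝 (0 * ((ρ : ℂ) / (γ * I) + g (γ * I)) - (mL L γ : ℂ))) :=
      (Resid_sigma.mul ((tendsto_const_nhds.div hp hγ').add
        (hg.continuousAt.tendsto.comp hp))).sub tendsto_const_nhds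
    rw [zero_mul, zero_sub] at h1
    refine h1.congr' ?_
    filter_upwards [self_mem_nhdsWithin, hg2] with σ hσ h2
    have hσ' : 0 < σ := hσ
    have h3 : (σ : ℂ) ≠ 0 := ofReal_ne_zero.2 hσ'.ne'
    rw [h2]
    field_simp
    ring
  -- `σ N(σ + iγ) → 0`
  have hN : Tendsto (fun σ : ℝ => (σ : ℂ) * Nf α a ρ η K X (σ + γ * I)) (𝓝[>] 0) (𝓝 0) := by
    have h1 : ∀ᶠ σ : ℝ in 𝓝[>] 0, ‖(σ : ℂ) * deriv (Nf α a ρ η K X) (σ + γ * I)‖ <
        ‖-(mL L γ : ℂ)‖ + 1 := hN'.norm.eventually_lt_const (by linarith)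
    obtain ⟨δ, hδ, hδ2⟩ := mem_nhdsGT_iff_exists_Ioc_subset.1 h1
    refine ray_small _ (Nf_diff α hD.norm_α a ρ η K X h) γ (‖-(mL L γ : ℂ)‖ + 1) δ hδ ?_
    intro σ hσ hσ2
    have h2 := hδ2 ⟨hσ, hσ2⟩
    have h3 : ‖(σ : ℂ) * deriv (Nf α a ρ η K X) (σ + γ * I)‖ < ‖-(mL L γ : ℂ)‖ + 1 := h2
    rw [norm_mul, norm_real, Real.norm_of_nonneg hσ.le] at h3
    rw [le_div_iff₀ hσ]
    linarith
  have hE := Resid_E0_tendsto X h.hX γ
  have hC := Resid_cpow X h.hX γ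
  have h1 : Tendsto (fun σ : ℝ => -((14 * Real.sqrt X : ℝ) * ((σ : ℂ) *
        deriv (fun z : ℂ => (1 - (X : ℂ) ^ (-z)) / z) (σ + γ * I)))
      + K * ((σ : ℂ) * ((X : ℂ) ^ (-((σ : ℂ) + γ * I)) / (σ + γ * I)))
      + η * (((σ : ℂ) * deriv (Nf α a ρ η K X) (σ + γ * I)) / (σ + γ * I)
        - ((σ : ℂ) * Nf α a ρ η K X (σ + γ * I)) / (σ + γ * I) ^ 2)) (𝓝[>] 0)
      (𝓝 (-((14 * Real.sqrt X : ℝ) * (0 : ℂ)) + K * (0 * ((X : ℂ) ^ (-((γ : ℂ) * I)) / (γ * I)))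
        + η * ((-(mL L γ : ℂ)) / (γ * I) - 0 / (γ * I) ^ 2))) :=
    (((tendsto_const_nhds.mul hE).neg).add (tendsto_const_nhds.mul
      (Resid_sigma.mul (hC.div hp hγ')))).add (tendsto_const_nhds.mul
      ((hN'.div hp hγ').sub (hN.div (hp.pow 2) (pow_ne_zero 2 hγ'))))
  have e : (-((14 * Real.sqrt X : ℝ) * (0 : ℂ)) + K * (0 * ((X : ℂ) ^ (-((γ : ℂ) * I)) / (γ * I)))
        + η * ((-(mL L γ : ℂ)) / (γ * I) - 0 / (γ * I) ^ 2)) = I * η * (mL L γ : ℂ) / γ := by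
    have h2 : (γ : ℂ) ≠ 0 := ofReal_ne_zero.2 hγ
    have h3 : (-(mL L γ : ℂ)) / (γ * I) = I * (mL L γ : ℂ) / γ := by
      rw [div_eq_div_iff hγ' h2]
      have := I_sq
      linear_combination (-(mL L γ : ℂ) * γ) * this
    rw [h3]
    ring
  rw [e] at h1
  refine h1.congr' ?_
  filter_upwards [self_mem_nhdsWithin] with σ hσ
  have hσ' : 0 < σ := hσ
  have h2 : 0 < ((σ : ℂ) + γ * I).re := by simpa using hσ'
  rw [TT_log_formula α hD.norm_α a ρ η K X h _ h2]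
  ring

/-- The residue at `0`: near `0`, `N'(σ) = (ρ - m)/σ + analytic` (`m` the order of `L(1+s)` at `0`),
and `N(σ) → 0` (`Nf_zero`), so `ray_zero` applies: the last bracket of `TT_log_formula` times `σ`
tends to `0`, and `σ K X^{-σ}/σ → K`.  The same lemma gives `ρ = m`. -/
theorem resid_zero (α : ℕ → ℂ) (L W : ℂ → ℂ) (hD : DataF α L W) (a ρ η K X : ℝ)
    (h : OneSided α a ρ η K X) :
    ρ = mL L 0 ∧
    Tendsto (fun σ : ℝ => (σ : ℂ) * TT (fun t => Bg α a ρ η K X t * Real.log t) (σ : ℂ))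
      (𝓝[>] 0) (𝓝 (K : ℂ)) := by
  obtain ⟨g, hg, hg2⟩ := Resid_N α L W hD a ρ η K X h 0
  have h00 : ((0 : ℝ) : ℂ) * I = 0 := by rw [ofReal_zero, zero_mul]
  rw [h00] at hg
  have hd : ∀ᶠ σ : ℝ in 𝓝[>] 0, deriv (Nf α a ρ η K X) (σ : ℂ) =
      ((ρ : ℂ) - (mL L 0 : ℂ)) / σ + g σ := by
    filter_upwards [hg2] with σ h1
    rw [h00, add_zero] at h1
    rw [h1]
    ring
  obtain ⟨h1, h2⟩ := ray_zero _ (Nf_diff α hD.norm_α a ρ η K X h) _ g hg hd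
    (Nf_zero α a ρ η K X h)
  constructor
  · have h3 : (ρ : ℂ) = (mL L 0 : ℂ) := sub_eq_zero.1 h1
    have h4 : ((ρ : ℝ) : ℂ) = (((mL L 0 : ℕ) : ℝ) : ℂ) := by
      rw [h3]
      push_cast
      rfl
    exact ofReal_injective h4
  · have hE := Resid_E0_tendsto X h.hX 0
    have hC := Resid_cpow X h.hX 0
    simp only [h00, add_zero, neg_zero, cpow_zero] at hE hC
    have h3 : Tendsto (fun σ : ℝ => -((14 * Real.sqrt X : ℝ) * ((σ : ℂ) *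
          deriv (fun z : ℂ => (1 - (X : ℂ) ^ (-z)) / z) σ))
        + K * (X : ℂ) ^ (-(σ : ℂ))
        + η * ((σ : ℂ) * (deriv (Nf α a ρ η K X) (σ : ℂ) / σ
          - Nf α a ρ η K X (σ : ℂ) / (σ : ℂ) ^ 2))) (𝓝[>] 0)
        (𝓝 (-((14 * Real.sqrt X : ℝ) * (0 : ℂ)) + K * 1 + η * 0)) :=
      (((tendsto_const_nhds.mul hE).neg).add (tendsto_const_nhds.mul hC)).add
        (tendsto_const_nhds.mul h2)
    have e : (-((14 * Real.sqrt X : ℝ) * (0 : ℂ)) + K * 1 + η * 0) = (K : ℂ) := by ring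
    rw [e] at h3
    refine h3.congr' ?_
    filter_upwards [self_mem_nhdsWithin] with σ hσ
    have hσ' : 0 < σ := hσ
    have h4 : 0 < (σ : ℂ).re := by simpa using hσ'
    have h5 : (σ : ℂ) ≠ 0 := ofReal_ne_zero.2 hσ'.ne'
    rw [TT_log_formula α hD.norm_α a ρ η K X h _ h4]
    field_simp

end W3283f
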