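import Pool.Agent.W_MP_3283e1_h19.FTe
import Pool.Agent.W_MP_3283e1_h19.QSer
import Pool.Agent.W_MP_3283e1_nt.Latt
import Pool.Agent.W_MP_3283e1_nt.Mult
import Pool.Agent.W_MP_3283e1_nt.QGrp

set_option autoImplicit false

namespace W3283f

open Complex W3283e1

/-- The Dirichlet coefficients of the family. -/
noncomputable def aFam (n j : ℕ) (m : ℕ) : ℝ :=
  ((jacobiSym m n : ℤ) : ℝ) * ((ZMod.χ₈ (m : ZMod 8) : ℤ) : ℝ) ^ j * (cc 1 m).re

/-- The exponents. -/
noncomputable def kF (n j : ℕ) : ℝ := if j = 0 then Real.sqrt 2 / (4 * n) else 1 / (4 * n)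

/-- The signs of the functional equations. -/
noncomputable def eF (n j : ℕ) : ℝ :=
  ((ZMod.χ₄ (n : ZMod 4) : ℤ) : ℝ) * (if j = 0 then ((jacobiSym 2 n : ℤ) : ℝ) else 1)

theorem thf_chi8_le (x : ZMod 8) : |((ZMod.χ₈ x : ℤ) : ℝ)| ≤ 1 := by
  have h : ∀ y : ZMod 8, |ZMod.χ₈ y| ≤ 1 := by decide
  have h1 := h x
  have h2 : ((|ZMod.χ₈ x| : ℤ) : ℝ) ≤ ((1 : ℤ) : ℝ) := by exact_mod_cast h1
  rwa [Int.cast_abs, Int.cast_one] at h2

theorem thf_jac_le (a : ℤ) (n : ℕ) : |((jacobiSym a n : ℤ) : ℝ)| ≤ 1 := by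
  rcases jacobiSym.trichotomy a n with h | h | h <;> rw [h] <;> norm_num

/-- `|aFam| ≤ |cc 1 m| ≤ card (prF m) √m` (`norm_cc_le`) and `card_summable`. -/
theorem aFam_sum (n j : ℕ) (τ : ℝ) (hτ : 3 / 2 < τ) :
    Summable (fun m : ℕ => |aFam n j m| * (m : ℝ) ^ (-τ)) := by
  have h1 := card_summable (τ - 1 / 2) (by linarith)
  refine Summable.of_nonneg_of_le (fun m => by positivity) (fun m => ?_) h1
  by_cases hm : m = 0
  · subst hm
    have h0 : aFam n j 0 = 0 := by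
      unfold aFam
      rw [cc_zero]
      simp
    rw [h0, abs_zero, zero_mul]
    positivity
  · have hm' : 0 < (m : ℝ) := by exact_mod_cast Nat.pos_of_ne_zero hm
    have h2 : |aFam n j m| ≤ ‖cc 1 m‖ := by
      unfold aFam
      rw [abs_mul, abs_mul, abs_pow]
      have ha := thf_jac_le m n
      have hb : |((ZMod.χ₈ (m : ZMod 8) : ℤ) : ℝ)| ^ j ≤ 1 :=
        pow_le_one₀ (abs_nonneg _) (thf_chi8_le _)
      have hc : |(cc 1 m).re| ≤ ‖cc 1 m‖ := Complex.abs_re_le_norm _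
      calc |((jacobiSym m n : ℤ) : ℝ)| * |((ZMod.χ₈ (m : ZMod 8) : ℤ) : ℝ)| ^ j * |(cc 1 m).re|
          ≤ 1 * 1 * ‖cc 1 m‖ := by gcongr
        _ = ‖cc 1 m‖ := by ring
    have h3 := norm_cc_le 1 m
    have h4 : (m : ℝ) ^ (-(τ - 1 / 2)) = (m : ℝ) ^ (((1 : ℕ) : ℝ) / 2) * (m : ℝ) ^ (-τ) := by
      rw [← Real.rpow_add hm']
      congr 1
      push_cast
      ring
    rw [h4, ← mul_assoc]
    exact mul_le_mul_of_nonneg_right (h2.trans h3) (by positivity)

/-- The four associates. -/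
theorem thf_decomp (A B : ℤ) :
    eta A B * cz (A, B) = (if B % 2 = 0 ∧ (A - B) % 4 = 1 then cz (A, B) else 0) +
      (if (-B) % 2 = 0 ∧ ((-A) - (-B)) % 4 = 1 then cz (-A, -B) else 0) +
      (if A % 2 = 0 ∧ ((-B) - A) % 4 = 1 then cz (-B, A) else 0) +
      (if (-A) % 2 = 0 ∧ (B - (-A)) % 4 = 1 then cz (B, -A) else 0) := by
  have e1 : cz (-A, -B) = - cz (A, B) := by
    unfold cz
    push_cast
    ring
  have e2 : cz (-B, A) = I * cz (A, B) := by
    unfold cz
    push_cast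
    linear_combination (-(B : ℂ)) * Complex.I_mul_I
  have e3 : cz (B, -A) = -I * cz (A, B) := by
    unfold cz
    push_cast
    linear_combination ((B : ℂ)) * Complex.I_mul_I
  rw [e1, e2, e3]
  unfold eta
  by_cases hB : B % 2 = 0
  · by_cases hA : A % 2 = 0
    · rw [if_pos hB, if_neg (by omega), if_neg (by omega), if_neg (by omega), if_neg (by omega),
        if_neg (by omega), if_neg (by omega)]
      ring
    · by_cases h1 : (A - B) % 4 = 1
      · rw [if_pos hB, if_pos h1, if_pos ⟨hB, h1⟩, if_neg (by omega), if_neg (by omega),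
          if_neg (by omega)]
        ring
      · rw [if_pos hB, if_neg h1, if_pos (by omega), if_neg (by omega), if_pos (by omega),
          if_neg (by omega), if_neg (by omega)]
        ring
  · by_cases hA : A % 2 = 0
    · by_cases h1 : (A + B) % 4 = 1
      · rw [if_neg hB, if_pos hA, if_pos h1, if_neg (by omega), if_neg (by omega),
          if_neg (by omega), if_pos (by omega)]
        ring
      · rw [if_neg hB, if_pos hA, if_neg h1, if_pos (by omega), if_neg (by omega),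
          if_neg (by omega), if_pos (by omega), if_neg (by omega)]
        ring
    · rw [if_neg hB, if_neg hA, if_neg (by omega), if_neg (by omega), if_neg (by omega),
        if_neg (by omega)]
      ring

/-- The weight as a function of the norm. -/
noncomputable def thfW (n j : ℕ) (t : ℝ) (m : ℤ) : ℂ :=
  chi8Z m ^ j * ((jacobiSym m n : ℤ) : ℂ) *
    ((Real.exp (-Real.pi * (m : ℝ) * t / ((4 * n : ℕ) : ℝ)) : ℝ) : ℂ)

/-- The primary part of the theta series. -/
noncomputable def thfH (n j : ℕ) (t : ℝ) (z : ℤ × ℤ) : ℂ :=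
  if z.2 % 2 = 0 ∧ (z.1 - z.2) % 4 = 1 then cz z * thfW n j t (z.1 ^ 2 + z.2 ^ 2) else 0

theorem thf_term (n j : ℕ) (t : ℝ) (z : ℤ × ℤ) :
    fF n j z.1 z.2 * ((z.1 : ℂ) + (z.2 : ℂ) * I) *
      ((Real.exp (-Real.pi * ((z.1 : ℝ) ^ 2 + (z.2 : ℝ) ^ 2) * t / ((4 * n : ℕ) : ℝ)) : ℝ) : ℂ) =
    eta z.1 z.2 * cz (z.1, z.2) * thfW n j t (z.1 ^ 2 + z.2 ^ 2) := by
  unfold fF f4 thfW cz
  push_cast
  ring

theorem thf_split (n j : ℕ) (t : ℝ) (z : ℤ × ℤ) :
    eta z.1 z.2 * cz (z.1, z.2) * thfW n j t (z.1 ^ 2 + z.2 ^ 2) =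
      thfH n j t z + thfH n j t (-z.1, -z.2) + thfH n j t (-z.2, z.1) +
        thfH n j t (z.2, -z.1) := by
  obtain ⟨A, B⟩ := z
  rw [thf_decomp]
  unfold thfH
  have e1 : (-A) ^ 2 + (-B) ^ 2 = A ^ 2 + B ^ 2 := by ring
  have e2 : (-B) ^ 2 + A ^ 2 = A ^ 2 + B ^ 2 := by ring
  have e3 : B ^ 2 + (-A) ^ 2 = A ^ 2 + B ^ 2 := by ring
  simp only [e1, e2, e3]
  rw [add_mul, add_mul, add_mul, ite_mul, ite_mul, ite_mul, ite_mul, zero_mul]

/-- The primary part is the restriction of the whole series. -/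
theorem thf_H_ind (n j : ℕ) (t : ℝ) :
    thfH n j t = Set.indicator {z : ℤ × ℤ | z.2 % 2 = 0 ∧ (z.1 - z.2) % 4 = 1}
      (fun z : ℤ × ℤ => eta z.1 z.2 * cz (z.1, z.2) * thfW n j t (z.1 ^ 2 + z.2 ^ 2)) := by
  funext z
  unfold thfH
  by_cases h : z.2 % 2 = 0 ∧ (z.1 - z.2) % 4 = 1
  · rw [if_pos h, Set.indicator_of_mem (by exact h)]
    have he : eta z.1 z.2 = 1 := by
      unfold eta
      rw [if_pos h.1, if_pos h.2]
    rw [he, one_mul]
  · rw [if_neg h, Set.indicator_of_notMem (by exact h)]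

/-- Multiplication by `-1`. -/
def thfE1 : ℤ × ℤ ≃ ℤ × ℤ where
  toFun z := (-z.1, -z.2)
  invFun z := (-z.1, -z.2)
  left_inv z := by simp
  right_inv z := by simp

/-- Multiplication by `i`. -/
def thfE2 : ℤ × ℤ ≃ ℤ × ℤ where
  toFun z := (-z.2, z.1)
  invFun z := (z.2, -z.1)
  left_inv z := by simp
  right_inv z := by simp

/-- `f(z) z` is invariant under `z ↦ iz`, and `f(z) z = ∑_{u} 1_{prim}(uz) χ(N z) u z` over the four
units `u` (`mult_exists`, `mult_unique` or the definition of `eta`), so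
`Psi = 4 ∑_{z primary} χ(N z) z e^{-πNz t/(4n)}`, `χ(m) = jacobiSym m n χ₈(m)^j`; group by the norm `m`
(`mem_prF`, sums over the fibres are finite: `HasSum.sigma` / `summable` and
`tsum_fiberwise`), and `cc 1 m = ∑_{z ∈ prF m} z` is real (`cc_real`). -/
theorem Psi_eq (n j : ℕ) (hn : 0 < n) (t : ℝ) (ht : 0 < t) :
    Psi (4 * n) (fF n j) t = ((4 * Th (aFam n j) (1 / (4 * n)) t : ℝ) : ℂ) := by
  have hS := Psi_summable (4 * n) (by omega) (fF n j) (fF_per n j hn) t ht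
  simp only [thf_term] at hS
  have hH : Summable (thfH n j t) := by
    rw [thf_H_ind]
    exact hS.indicator _
  have h1 : HasSum (fun z : ℤ × ℤ => thfH n j t (-z.1, -z.2)) (∑' z, thfH n j t z) :=
    (thfE1.hasSum_iff (f := thfH n j t)).2 hH.hasSum
  have h2 : HasSum (fun z : ℤ × ℤ => thfH n j t (-z.2, z.1)) (∑' z, thfH n j t z) :=
    (thfE2.hasSum_iff (f := thfH n j t)).2 hH.hasSum
  have h3 : HasSum (fun z : ℤ × ℤ => thfH n j t (z.2, -z.1)) (∑' z, thfH n j t z) :=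
    (thfE2.symm.hasSum_iff (f := thfH n j t)).2 hH.hasSum
  have h4 : Psi (4 * n) (fF n j) t = 4 * ∑' z, thfH n j t z := by
    unfold Psi
    simp only [thf_term, thf_split]
    rw [(((hH.hasSum.add h1).add h2).add h3).tsum_eq]
    ring
  rw [h4]
  -- the sum over primary points
  have h5 : HasSum (fun z : PL => thfH n j t z) (∑' z, thfH n j t z) := by
    have h6 := hH.hasSum
    have h7 : Set.indicator {z : ℤ × ℤ | z.2 % 2 = 0 ∧ (z.1 - z.2) % 4 = 1} (thfH n j t) =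
        thfH n j t := by
      rw [thf_H_ind, Set.indicator_indicator, Set.inter_self]
    rw [← h7] at h6
    have h8 := (hasSum_subtype_iff_indicator
      (s := {z : ℤ × ℤ | z.2 % 2 = 0 ∧ (z.1 - z.2) % 4 = 1}) (f := thfH n j t)).2 h6
    rw [h7] at h8
    exact h8
  have h6 := group_sum (thfH n j t) _ h5
  have h7 : (fun m : ℕ => ∑ z ∈ prF m, thfH n j t z) = fun m : ℕ =>
      ((aFam n j m * Real.exp (-Real.pi * (1 / (4 * n) * m) * t) : ℝ) : ℂ) := by
    funext m
    have h8 : ∑ z ∈ prF m, thfH n j t z = ∑ z ∈ prF m, cz z ^ 1 * thfW n j t m := by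
      refine Finset.sum_congr rfl fun z hz => ?_
      have h9 := (mem_prF m z).1 hz
      unfold thfH
      rw [if_pos ⟨h9.1, h9.2.1⟩, h9.2.2, pow_one]
    rw [h8, ← Finset.sum_mul]
    have h10 : ∑ z ∈ prF m, cz z ^ 1 = ((cc 1 m).re : ℂ) := by
      apply Complex.ext
      · rw [Complex.ofReal_re]
        rfl
      · rw [Complex.ofReal_im]
        exact (cc_real 1 m).1
    rw [h10]
    unfold thfW aFam chi8Z
    have h11 : -Real.pi * (((m : ℕ) : ℤ) : ℝ) * t / ((4 * n : ℕ) : ℝ) =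
        -Real.pi * (1 / (4 * n) * m) * t := by
      push_cast
      ring
    rw [h11]
    push_cast
    ring
  rw [h7] at h6
  have h12 : HasSum (fun m : ℕ => aFam n j m * Real.exp (-Real.pi * (1 / (4 * n) * m) * t))
      (∑' z, thfH n j t z).re := by
    have h13 := Complex.hasSum_re h6
    simp only [Complex.ofReal_re] at h13
    exact h13
  have h14 : (∑' z, thfH n j t z) = ((Th (aFam n j) (1 / (4 * n)) t : ℝ) : ℂ) := by
    have h15 : Th (aFam n j) (1 / (4 * n)) t = (∑' z, thfH n j t z).re := by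
      unfold Th
      exact h12.tsum_eq
    rw [h15]
    exact h6.unique (Complex.hasSum_ofReal.2 h12)
  rw [h14]
  push_cast
  ring

end W3283f
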