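import Pool.Agent.W_MP_3283e1_h19.RealF
import Pool.Agent.W_MP_3283e1_nt.Landau

set_option autoImplicit false

namespace W3283f

open Complex W3283e1 MeasureTheory Filter Topology

/-- The continuation of `GG` along the real axis (away from real zeros of `L(1+σ)`). -/
noncomputable def gR (L : ℂ → ℂ) (q : ℝ → ℝ) (σ : ℝ) : ℝ :=
  (1 / 2) * (Real.log (q σ) - Real.log ((LR L σ) ^ 2))

/-- Landau's argument along the real axis when `L(1+σ) ≠ 0` for `σ > σ0` (`σ0 ≥ δ ≥ 0`):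
`F(σ) = (E σ - η gR σ)/σ` is real analytic on `(σ0,∞)` and equals the transform for large `σ`
(there `gR σ = (GG σ).re` by `qR_exists`); `W3283e1.landau`. -/
theorem land_real (α : ℕ → ℂ) (L W : ℂ → ℂ) (hD : DataR α L W) (q : ℝ → ℝ)
    (hq : ∀ σ : ℝ, 0 ≤ σ → AnalyticAt ℝ q σ ∧ 0 < q σ)
    (hq2 : ∀ σ : ℝ, 1 / 2 < σ → LR L σ ≠ 0 ∧ (GG α σ).im = 0 ∧
        (LR L σ) ^ 2 * Real.exp (2 * (GG α σ).re) = q σ)
    (B : ℝ → ℝ) (hB : Measurable B) (hB0 : ∀ t, 1 < t → 0 ≤ B t) (η δ σ1 : ℝ) (hδ : 0 ≤ δ)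
    (E : ℝ → ℝ) (hE : ∀ σ : ℝ, δ < σ → AnalyticAt ℝ E σ) (hσ1 : 1 / 2 ≤ σ1)
    (hint : ∀ σ : ℝ, σ1 < σ → IntegrableOn (fun t : ℝ => B t * t ^ (-(σ + 1))) (Set.Ioi 1))
    (htr : ∀ σ : ℝ, σ1 < σ → σ * ∫ t in Set.Ioi (1 : ℝ), B t * t ^ (-(σ + 1)) =
      E σ - η * (GG α σ).re)
    (σ0 : ℝ) (hσ0 : δ ≤ σ0) (hne : ∀ σ : ℝ, σ0 < σ → LR L σ ≠ 0) :
    ∀ σ : ℝ, σ0 < σ → IntegrableOn (fun t : ℝ => B t * t ^ (-(σ + 1))) (Set.Ioi 1) ∧
      σ * ∫ t in Set.Ioi (1 : ℝ), B t * t ^ (-(σ + 1)) = E σ - η * gR L q σ := by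
  have hpos : ∀ σ : ℝ, σ0 < σ → 0 < σ := fun σ hσ => lt_of_le_of_lt (hδ.trans hσ0) hσ
  have han : ∀ σ : ℝ, σ0 < σ → AnalyticAt ℝ (fun σ : ℝ => (E σ - η * gR L q σ) / σ) σ := by
    intro σ hσ
    have h0 := hpos σ hσ
    have hE' := hE σ (lt_of_le_of_lt hσ0 hσ)
    have hqa := hq σ h0.le
    have hL := LR_an α L W hD σ h0.le
    have hL2 : AnalyticAt ℝ (fun σ : ℝ => (LR L σ) ^ 2) σ := hL.pow 2
    have hlq : AnalyticAt ℝ (fun σ : ℝ => Real.log (q σ)) σ := hqa.1.log hqa.2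
    have hlL : AnalyticAt ℝ (fun σ : ℝ => Real.log ((LR L σ) ^ 2)) σ :=
      hL2.log (by have := hne σ hσ; positivity)
    have hg : AnalyticAt ℝ (gR L q) σ := by
      have := analyticAt_const (v := (1 / 2 : ℝ)) (x := σ) (𝕜 := ℝ) |>.mul (hlq.sub hlL)
      exact this
    exact (hE'.sub (analyticAt_const.mul hg)).div analyticAt_id h0.ne'
  have heq : ∀ σ : ℝ, max σ0 σ1 < σ → (fun σ : ℝ => (E σ - η * gR L q σ) / σ) σ =
      ∫ t in Set.Ioi (1 : ℝ), B t * t ^ (-(σ + 1)) := by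
    intro σ hσ
    have h1 : σ1 < σ := lt_of_le_of_lt (le_max_right _ _) hσ
    have h0 : 0 < σ := hpos σ (lt_of_le_of_lt (le_max_left _ _) hσ)
    obtain ⟨hL0, -, hqe⟩ := hq2 σ (lt_of_le_of_lt hσ1 h1)
    have hg : gR L q σ = (GG α σ).re := by
      unfold gR
      rw [← hqe, Real.log_mul (by positivity) (Real.exp_pos _).ne', Real.log_exp]
      ring
    have := htr σ h1
    simp only [hg]
    rw [← this, mul_div_cancel_left₀ _ h0.ne']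
  have key := landau B hB hB0 (fun σ : ℝ => (E σ - η * gR L q σ) / σ) σ0 (max σ0 σ1) han
    (fun σ hσ => hint σ (lt_of_le_of_lt (le_max_right _ _) hσ)) heq
  intro σ hσ
  obtain ⟨h1, h2⟩ := key σ hσ
  refine ⟨h1, ?_⟩
  rw [← h2]
  exact mul_div_cancel₀ _ (hpos σ hσ).ne'

/-- In the case `η = 1` there are no real zeros beyond `δ`.  Otherwise let `σ0 > δ` be the largest
real zero of `LR L` (`LR` is continuous, nonzero for `σ > 1/2`; supremum of a closed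
bounded set).  By `land_real` the transform is nonnegative and equals `(E σ - gR σ)/σ` for
`σ > σ0`; as `σ → σ0+` we have `gR σ → +∞` since `LR σ → 0`, while `E` and `q` stay bounded:
contradiction. -/
theorem up_no_zero (α : ℕ → ℂ) (L W : ℂ → ℂ) (hD : DataR α L W) (q : ℝ → ℝ)
    (hq : ∀ σ : ℝ, 0 ≤ σ → AnalyticAt ℝ q σ ∧ 0 < q σ)
    (hq2 : ∀ σ : ℝ, 1 / 2 < σ → LR L σ ≠ 0 ∧ (GG α σ).im = 0 ∧
        (LR L σ) ^ 2 * Real.exp (2 * (GG α σ).re) = q σ)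
    (B : ℝ → ℝ) (hB : Measurable B) (hB0 : ∀ t, 1 < t → 0 ≤ B t) (δ σ1 : ℝ) (hδ : 0 ≤ δ)
    (E : ℝ → ℝ) (hE : ∀ σ : ℝ, δ < σ → AnalyticAt ℝ E σ) (hσ1 : 1 / 2 ≤ σ1)
    (hint : ∀ σ : ℝ, σ1 < σ → IntegrableOn (fun t : ℝ => B t * t ^ (-(σ + 1))) (Set.Ioi 1))
    (htr : ∀ σ : ℝ, σ1 < σ → σ * ∫ t in Set.Ioi (1 : ℝ), B t * t ^ (-(σ + 1)) =
      E σ - (GG α σ).re) :
    ∀ σ : ℝ, δ < σ → LR L σ ≠ 0 := by
  by_contra hcon
  push Not at hcon
  obtain ⟨τ, hτδ, hτ0⟩ := hcon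
  set Z : Set ℝ := {σ : ℝ | δ < σ ∧ LR L σ = 0} with hZ
  have hZne : Z.Nonempty := ⟨τ, hτδ, hτ0⟩
  have hZbd : BddAbove Z := by
    refine ⟨1 / 2, fun σ hσ => ?_⟩
    by_contra h
    push Not at h
    exact (hq2 σ h).1 hσ.2
  set c := sSup Z with hc
  have hτc : τ ≤ c := le_csSup hZbd ⟨hτδ, hτ0⟩
  have hcδ : δ < c := lt_of_lt_of_le hτδ hτc
  have hc0 : 0 < c := lt_of_le_of_lt hδ hcδ
  have hcont : ContinuousAt (LR L) c := (LR_an α L W hD c hc0.le).continuousAt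
  have hLc : LR L c = 0 := by
    by_contra hne
    have hev : ∀ᶠ σ in 𝓝 c, LR L σ ≠ 0 := hcont.eventually_ne hne
    obtain ⟨ε, hε, hball⟩ := Metric.eventually_nhds_iff.1 hev
    obtain ⟨z, hz, hzc⟩ := exists_lt_of_lt_csSup hZne (show c - ε < sSup Z by rw [← hc]; linarith)
    have hz2 : z ≤ c := le_csSup hZbd hz
    refine hball (y := z) ?_ hz.2
    rw [Real.dist_eq, abs_lt]
    constructor <;> linarith
  have hne : ∀ σ : ℝ, c < σ → LR L σ ≠ 0 := by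
    intro σ hσ h
    exact absurd (le_csSup hZbd (show σ ∈ Z from ⟨hcδ.trans hσ, h⟩)) (not_le.2 hσ)
  have key := land_real α L W hD q hq hq2 B hB hB0 1 δ σ1 hδ E hE hσ1 hint
    (fun σ hσ => by rw [htr σ hσ, one_mul]) c hcδ.le hne
  -- upper bound for `gR` to the right of `c`
  have hle : ∀ σ : ℝ, c < σ → gR L q σ ≤ E σ := by
    intro σ hσ
    have h1 := (key σ hσ).2
    have h2 : 0 ≤ ∫ t in Set.Ioi (1 : ℝ), B t * t ^ (-(σ + 1)) := by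
      refine setIntegral_nonneg measurableSet_Ioi (fun t ht => ?_)
      have ht1 : (1 : ℝ) < t := ht
      exact mul_nonneg (hB0 t ht1) (Real.rpow_nonneg (by linarith) _)
    have h3 : 0 < σ := hc0.trans hσ
    have h4 : 0 ≤ σ * ∫ t in Set.Ioi (1 : ℝ), B t * t ^ (-(σ + 1)) := mul_nonneg h3.le h2
    rw [h1] at h4
    linarith
  -- the limits
  have hlim : Tendsto (fun σ : ℝ => Real.log ((LR L σ) ^ 2)) (𝓝[>] c) atBot := by
    refine Real.tendsto_log_nhdsGT_zero.comp ?_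
    rw [tendsto_nhdsWithin_iff]
    constructor
    · have h1 : Tendsto (fun σ : ℝ => (LR L σ) ^ 2) (𝓝 c) (𝓝 ((LR L c) ^ 2)) := hcont.pow 2
      rw [hLc] at h1
      have h2 : Tendsto (fun σ : ℝ => (LR L σ) ^ 2) (𝓝[>] c) (𝓝 ((0 : ℝ) ^ 2)) :=
        h1.mono_left nhdsWithin_le_nhds
      simpa using h2
    · filter_upwards [self_mem_nhdsWithin] with σ hσ
      have := hne σ hσ
      show 0 < (LR L σ) ^ 2
      positivity
  have hrest : Tendsto (fun σ : ℝ => Real.log (q σ) - 2 * E σ) (𝓝[>] c)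
      (𝓝 (Real.log (q c) - 2 * E c)) := by
    have hqc := hq c hc0.le
    have h1 : ContinuousAt (fun σ : ℝ => Real.log (q σ)) c :=
      hqc.1.continuousAt.log hqc.2.ne'
    have h2 : ContinuousAt E c := (hE c hcδ).continuousAt
    exact (h1.sub (continuousAt_const.mul h2)).tendsto.mono_left nhdsWithin_le_nhds
  have hev1 : ∀ᶠ σ in 𝓝[>] c, Real.log ((LR L σ) ^ 2) < Real.log (q c) - 2 * E c - 1 :=
    hlim.eventually_lt_atBot _
  have hev2 : ∀ᶠ σ in 𝓝[>] c, Real.log (q c) - 2 * E c - 1 < Real.log (q σ) - 2 * E σ :=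
    hrest.eventually_const_lt (by linarith)
  obtain ⟨σ, ⟨h1, h2⟩, hσ⟩ := ((hev1.and hev2).and self_mem_nhdsWithin).exists
  have h3 := hle σ hσ
  unfold gR at h3
  linarith

end W3283f
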